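import Mathlib
import Pool.Graph.R_pool_sql_team_seeded_35f281b4.K7.H26.BL.Fin
import Pool.Graph.R_pool_sql_team_seeded_35f281b4.K7.H42.PT.MQ

/-!
# The sieve bound with different conditions modulo different primes, Mertens' theorem
-/

set_option autoImplicit false

namespace Pool.Agent.H64.FT

open Finset Pool.Agent.K7.H26.BL Pool.Agent.K7.H23.PT

lemma exists_crt (P : Finset ℕ) (hP : ∀ p ∈ P, p.Prime) (τ : ℕ → ℤ) :
    ∃ t : ℤ, ∀ p ∈ P, ((t : ℤ) : ZMod p) = ((τ p : ℤ) : ZMod p) := by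
  classical
  have hs : ∀ p ∈ P, (id p : ℕ) ≠ 0 := fun p hp => (hP p hp).ne_zero
  have pp : Set.Pairwise (P : Set ℕ) (Function.onFun Nat.Coprime id) := by
    intro p hp q hq hpq
    exact (Nat.coprime_primes (hP p hp) (hP q hq)).2 hpq
  obtain ⟨t, ht⟩ := Nat.chineseRemainderOfFinset (fun p => ((τ p) % (p : ℤ)).toNat) id P hs pp
  refine ⟨t, fun p hp => ?_⟩
  have h : t ≡ ((τ p) % (p : ℤ)).toNat [MOD p] := ht p hp
  have hp0 : (p : ℤ) ≠ 0 := by exact_mod_cast (hP p hp).ne_zero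
  have h1 : (((τ p) % (p : ℤ)).toNat : ℤ) = (τ p) % p := Int.toNat_of_nonneg (Int.emod_nonneg _ hp0)
  have h2 := (ZMod.natCast_eq_natCast_iff _ _ _).2 h
  have h3 : ((((τ p) % (p : ℤ)).toNat : ℕ) : ZMod p) = (((τ p) % (p : ℤ) : ℤ) : ZMod p) := by
    rw [← h1]
    push_cast
    rfl
  rw [Int.cast_natCast, h2, h3, ZMod.intCast_mod]

/-- the sieve bound, the conditions may depend on the prime -/
lemma sv_set' {C : ℝ} (hC : SvBound C) {z B : ℕ} {τ : ℕ → ℤ} {P : Finset ℕ} (hz : 2 ≤ z)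
    (hP : ∀ p ∈ P, p.Prime ∧ p ≠ 2 ∧ p ≤ z ∧ ¬ (p : ℤ) ∣ τ p) (hB : (∏ p ∈ P, p) * z ^ 4 ≤ B)
    (S : Finset ℕ) (hS : ∀ n ∈ S, 1 ≤ n ∧ n ≤ B ∧ Rough z n ∧
      ∀ p ∈ P, IsSquare ((τ p * n : ℤ) : ZMod p)) :
    (S.card : ℝ) ≤ C * B / (2 ^ P.card * Real.log z) := by
  obtain ⟨t, ht⟩ := exists_crt P (fun p hp => (hP p hp).1) τ
  refine sv_set hC (t := t) hz (fun p hp => ?_) hB S fun n hn => ?_
  · obtain ⟨h1, h2, h3, h4⟩ := hP p hp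
    refine ⟨h1, h2, h3, fun h => h4 ?_⟩
    rw [← ZMod.intCast_zmod_eq_zero_iff_dvd] at h ⊢
    rw [← ht p hp]
    exact h
  · obtain ⟨h1, h2, h3, h4⟩ := hS n hn
    refine ⟨h1, h2, h3, fun p hp => ?_⟩
    have h5 := h4 p hp
    rw [Int.cast_mul] at h5 ⊢
    rw [ht p hp]
    exact h5

/-- the sum of the reciprocals, the conditions may depend on the prime -/
lemma sv_sum_inv' {C : ℝ} (hC0 : 0 < C) (hC : SvBound C) {z K : ℕ} {τ : ℕ → ℤ} {P : Finset ℕ}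
    (hz : 2 ≤ z) (hP : ∀ p ∈ P, p.Prime ∧ p ≠ 2 ∧ p ≤ z ∧ ¬ (p : ℤ) ∣ τ p)
    (S : Finset ℕ) (hS : ∀ n ∈ S, 1 ≤ n ∧ (∏ p ∈ P, p) * z ^ 4 ≤ n ∧ n < 2 ^ K ∧ Rough z n ∧
      ∀ p ∈ P, IsSquare ((τ p * n : ℤ) : ZMod p)) :
    (∑ n ∈ S, (1 : ℝ) / n) ≤ 2 * C * K / (2 ^ P.card * Real.log z) := by
  obtain ⟨t, ht⟩ := exists_crt P (fun p hp => (hP p hp).1) τ
  refine sv_sum_inv hC0 hC (t := t) hz (fun p hp => ?_) S fun n hn => ?_
  · obtain ⟨h1, h2, h3, h4⟩ := hP p hp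
    refine ⟨h1, h2, h3, fun h => h4 ?_⟩
    rw [← ZMod.intCast_zmod_eq_zero_iff_dvd] at h ⊢
    rw [← ht p hp]
    exact h
  · obtain ⟨h1, h2, h3, h4, h5⟩ := hS n hn
    refine ⟨h1, h2, h3, h4, fun p hp => ?_⟩
    have h6 := h5 p hp
    rw [Int.cast_mul] at h6 ⊢
    rw [ht p hp]
    exact h6

/-- the sum of the reciprocals of the primes `≤ z` -/
noncomputable def MM (z : ℕ) : ℝ := ∑ p ∈ PP z, (1 : ℝ) / p

/-- Mertens' theorem -/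
theorem mertens : ∃ C : ℝ, 0 ≤ C ∧ ∀ z : ℕ, 2 ≤ z → |MM z - Real.log (Real.log z)| ≤ C := by
  classical
  have h2 : ¬ IsSquare (2 : ℤ) := by
    intro h
    exact Int.prime_two.irreducible.not_isSquare h
  obtain ⟨C, hC⟩ := Pool.Agent.K7.H42.PT.mq 2 h2
  refine ⟨2 * C, ?_, fun z hz => ?_⟩
  · have := (abs_nonneg _).trans (hC 2 le_rfl).1
    linarith
  · obtain ⟨h3, h4⟩ := hC z hz
    have h5 : MM z = (∑ p ∈ (Finset.range (z + 1)).filter (fun p => p.Prime ∧ IsSquare ((2 : ℤ) : ZMod p)),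
      (1 : ℝ) / p) + (∑ p ∈ (Finset.range (z + 1)).filter (fun p => p.Prime ∧ ¬ IsSquare ((2 : ℤ) : ZMod p)),
      (1 : ℝ) / p) := by
      unfold MM PP
      rw [← Finset.sum_filter_add_sum_filter_not _ (fun p : ℕ => IsSquare ((2 : ℤ) : ZMod p))]
      rw [Finset.filter_filter, Finset.filter_filter]
    rw [h5]
    rw [abs_le] at h3 h4 ⊢
    constructor <;> linarith [h3.1, h3.2, h4.1, h4.2]

/-- Euler products -/
lemma sum_powerset_le {A : Finset ℕ} (g : ℕ → ℝ) (hg : ∀ p, 0 ≤ g p) :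
    ∑ S ∈ A.powerset, ∏ p ∈ S, g p ≤ Real.exp (∑ p ∈ A, g p) := by
  rw [← Finset.prod_one_add]
  exact Real.prod_one_add_le_exp_sum _ hg

end Pool.Agent.H64.FT
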