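import Mathlib
import Pool.Agent.H64.FT.A1
import Pool.Agent.H64.PM.LSX
import Pool.Graph.R_seed8.H364R2.EC_SwTail

/-!
# The primes modulo which a number is not a square
-/

set_option autoImplicit false

namespace Pool.Agent.H64.FT

open Finset Pool.Agent.K7.H26.BL Pool.Agent.K7.H23.PT
open Pool.Agent.H300R2.EC (Sd)

open Classical in
/-- the sum of `1 / p` over the primes `p ≤ z` modulo which `u` is not a square -/
noncomputable def dl (z : ℕ) (u : ℤ) : ℝ :=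
  ∑ p ∈ (PP z).filter (fun p => ¬ IsSquare ((u : ℤ) : ZMod p)), (1 : ℝ) / p

lemma dl_nonneg (z : ℕ) (u : ℤ) : 0 ≤ dl z u := by
  unfold dl
  exact sum_nonneg fun p _ => by positivity

/-- the sum of `1 / p` over the primes `p ≤ z` modulo which `u` is a square -/
lemma dl_compl (z : ℕ) (u : ℤ) : ∑ p ∈ PS u z, (1 : ℝ) / p = MM z - dl z u := by
  classical
  unfold MM dl PS fs
  rw [← Finset.sum_filter_add_sum_filter_not (PP z) (fun p : ℕ => IsSquare ((u : ℤ) : ZMod p))]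
  rw [add_sub_assoc, left_eq_add, sub_eq_zero]

lemma dl_ge {w z : ℕ} (hw : 2 ≤ w) (hwz : w ≤ z) {u : ℤ} (hu : u ≠ 0) (huw : u.natAbs ≤ w) :
    (MM z - MM w - Sd u w z) / 2 ≤ dl z u := by
  classical
  set F := (Ioc w z).filter (fun p : ℕ => p.Prime ∧ p ≠ 2) with hF
  have h1 : MM z - MM w = ∑ p ∈ F, (1 : ℝ) / p := by
    have h2 : PP z = PP w ∪ F := by
      ext p
      rw [mem_union, mem_PP, mem_PP, hF, mem_filter, mem_Ioc]
      constructor
      · rintro ⟨hp, hpz⟩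
        by_cases h : p ≤ w
        · exact Or.inl ⟨hp, h⟩
        · exact Or.inr ⟨⟨by omega, hpz⟩, hp, by omega⟩
      · rintro (⟨hp, h⟩ | ⟨⟨h, h'⟩, hp, -⟩)
        · exact ⟨hp, by omega⟩
        · exact ⟨hp, h'⟩
    unfold MM
    rw [h2, sum_union, add_sub_cancel_left]
    rw [disjoint_left]
    intro p hp hp'
    have h3 := (mem_PP.1 hp).2
    rw [hF, mem_filter, mem_Ioc] at hp'
    omega
  have h2 : ∑ p ∈ F, ((1 : ℝ) / p - (jacobiSym u p : ℝ) / p) / 2 ≤ dl z u := by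
    calc ∑ p ∈ F, ((1 : ℝ) / p - (jacobiSym u p : ℝ) / p) / 2
        ≤ ∑ p ∈ F, if ¬ IsSquare ((u : ℤ) : ZMod p) then (1 : ℝ) / p else 0 := by
          refine sum_le_sum fun p hp => ?_
          rw [hF, mem_filter, mem_Ioc] at hp
          obtain ⟨⟨h3, h4⟩, hpp, h5⟩ := hp
          have : Fact p.Prime := ⟨hpp⟩
          have hp0 : (0 : ℝ) < p := by exact_mod_cast hpp.pos
          have hne : ((u : ℤ) : ZMod p) ≠ 0 := by
            rw [Ne, ZMod.intCast_zmod_eq_zero_iff_dvd]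
            intro h
            have h6 := Nat.le_of_dvd (Int.natAbs_pos.2 hu) (Int.natCast_dvd.1 h)
            omega
          rw [← jacobiSym.legendreSym.to_jacobiSym]
          by_cases hsq : IsSquare ((u : ℤ) : ZMod p)
          · rw [if_neg (not_not.2 hsq), (legendreSym.eq_one_iff p hne).2 hsq]
            simp
          · rw [if_pos hsq, (legendreSym.eq_neg_one_iff p).2 hsq]
            push_cast
            apply le_of_eq
            ring
      _ = ∑ p ∈ F.filter (fun p => ¬ IsSquare ((u : ℤ) : ZMod p)), (1 : ℝ) / p :=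
          (sum_filter _ _).symm
      _ ≤ dl z u := by
          unfold dl
          refine sum_le_sum_of_subset_of_nonneg ?_ fun p _ _ => by positivity
          intro p hp
          rw [mem_filter, hF, mem_filter, mem_Ioc] at hp
          rw [mem_filter, mem_PP]
          exact ⟨⟨hp.1.2.1, hp.1.1.2⟩, hp.2⟩
  refine le_trans (le_of_eq ?_) h2
  rw [h1]
  unfold Sd
  rw [← hF, ← sum_sub_distrib, sum_div]

lemma Sd_add (u : ℤ) {P Q T : ℕ} (h1 : P ≤ Q) (h2 : Q ≤ T) : Sd u P T = Sd u P Q + Sd u Q T := by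
  classical
  unfold Sd
  rw [← sum_union]
  · congr 1
    ext p
    simp only [mem_union, mem_filter, mem_Ioc]
    constructor
    · rintro ⟨⟨h3, h4⟩, h5⟩
      by_cases h : p ≤ Q
      · exact Or.inl ⟨⟨h3, h⟩, h5⟩
      · exact Or.inr ⟨⟨by omega, h4⟩, h5⟩
    · rintro (⟨⟨h3, h4⟩, h5⟩ | ⟨⟨h3, h4⟩, h5⟩)
      · exact ⟨⟨h3, by omega⟩, h5⟩
      · exact ⟨⟨by omega, h4⟩, h5⟩
  · rw [disjoint_left]
    intro p hp hp'
    rw [mem_filter, mem_Ioc] at hp hp'
    omega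

lemma Sd_blocks (u : ℤ) {a b : ℕ} (h : a ≤ b) :
    Sd u (2 ^ a) (2 ^ b) = ∑ j ∈ Ico a b, Sd u (2 ^ j) (2 ^ (j + 1)) := by
  induction b, h using Nat.le_induction with
  | base => simp [Sd]
  | succ b hb ih =>
    rw [sum_Ico_succ_top hb, ← ih]
    exact Sd_add u (Nat.pow_le_pow_right (by norm_num) hb)
      (Nat.pow_le_pow_right (by norm_num) (by omega))

/-- the sums over the blocks, by the theorem of Siegel and Walfisz -/
lemma small_u (W : ℕ) : ∃ j0 : ℕ, ∀ a b : ℕ, j0 ≤ a → a ≤ b → ∀ u : ℤ, ¬ IsSquare u →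
    4 * |(u : ℝ)| ≤ (a * Real.log 2) ^ W → |Sd u (2 ^ a) (2 ^ b)| ≤ 5 := by
  obtain ⟨P0, hP0⟩ := Pool.Agent.H364R2.EC.sw_tail 2 W
  refine ⟨max P0 2, fun a b ha hab u hu hW => ?_⟩
  have ha2 : 2 ≤ a := (le_max_right _ _).trans ha
  have haP : P0 ≤ a := (le_max_left _ _).trans ha
  have hl2 := Real.log_two_gt_d9
  have hl0 : (0 : ℝ) < Real.log 2 := by linarith
  rw [Sd_blocks u hab]
  have hterm : ∀ j ∈ Ico a b, |Sd u (2 ^ j) (2 ^ (j + 1))| ≤ (5 / 2) * ((j : ℝ) ^ 2)⁻¹ := by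
    intro j hj
    rw [mem_Ico] at hj
    have hj0 : (0 : ℝ) < j := by exact_mod_cast (by omega : 0 < j)
    have h1 : P0 ≤ 2 ^ j := by
      have := (Nat.lt_two_pow_self (n := j)).le
      omega
    have hlog : Real.log ((2 ^ j : ℕ) : ℝ) = j * Real.log 2 := by
      push_cast
      rw [Real.log_pow]
    have h2 := hP0 (2 ^ j) h1 (2 ^ (j + 1)) (Nat.pow_le_pow_right (by norm_num) (by omega))
      (by rw [pow_succ]; omega) u hu (by
        rw [hlog]
        refine hW.trans (pow_le_pow_left₀ (by positivity) ?_ _)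
        have : (a : ℝ) ≤ j := by exact_mod_cast hj.1
        gcongr)
    refine h2.trans ?_
    rw [hlog, mul_pow, one_div, mul_inv, mul_comm]
    apply mul_le_mul_of_nonneg_right _ (by positivity)
    rw [inv_le_comm₀ (by positivity) (by norm_num)]
    nlinarith
  calc |∑ j ∈ Ico a b, Sd u (2 ^ j) (2 ^ (j + 1))| ≤ ∑ j ∈ Ico a b, |Sd u (2 ^ j) (2 ^ (j + 1))| :=
        abs_sum_le_sum_abs _ _
    _ ≤ ∑ j ∈ Ico a b, (5 / 2) * ((j : ℝ) ^ 2)⁻¹ := sum_le_sum hterm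
    _ = (5 / 2) * ∑ j ∈ Ioo (a - 1) b, ((j : ℝ) ^ 2)⁻¹ := by
        rw [mul_sum]
        refine sum_congr ?_ fun _ _ => rfl
        ext j
        rw [mem_Ico, mem_Ioo]
        omega
    _ ≤ (5 / 2) * (2 / (((a - 1 : ℕ) : ℝ) + 1)) :=
        mul_le_mul_of_nonneg_left (sum_Ioo_inv_sq_le (α := ℝ) (a - 1) b) (by norm_num)
    _ ≤ 5 := by
        have h1 : (2 : ℝ) / (((a - 1 : ℕ) : ℝ) + 1) ≤ 2 := by
          rw [div_le_iff₀ (by positivity)]
          have : (0 : ℝ) ≤ ((a - 1 : ℕ) : ℝ) := Nat.cast_nonneg _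
          linarith
        linarith

open Pool.Agent.H64.PM (Sj) in
/-- the sum over a block and the sum in the large sieve -/
lemma Sd_eq_Sj {f : ℤ} {r j K : ℕ} (hr : Odd r) (hj : 1 ≤ j) (hjK : j + 1 ≤ K) :
    Sd (f * r) (2 ^ j) (2 ^ (j + 1)) = 2 * Sj (fun p => (jacobiSym f p : ℝ) / (2 * p)) 2 (2 ^ K)
      (decide (r % 4 = 3)) j r := by
  classical
  unfold Sd Sj
  have e : ((Pool.Agent.W262.RK.PS 2 (2 ^ K)).filter (fun p => 2 ^ j < p ∧ p ≤ 2 ^ (j + 1))) =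
      (Ioc (2 ^ j) (2 ^ (j + 1))).filter (fun p : ℕ => p.Prime ∧ p ≠ 2) := by
    ext p
    rw [mem_filter, Pool.Agent.W262.RK.mem_PS, mem_filter, mem_Ioc]
    have h1 : 2 ^ (j + 1) ≤ 2 ^ K := Nat.pow_le_pow_right (by norm_num) hjK
    have h2 : 2 ^ 1 ≤ 2 ^ j := Nat.pow_le_pow_right (by norm_num) hj
    constructor
    · rintro ⟨⟨⟨h3, h4⟩, h5⟩, h6, h7⟩
      exact ⟨⟨h6, h7⟩, h5, by omega⟩
    · rintro ⟨⟨h3, h4⟩, h5, h6⟩
      exact ⟨⟨⟨by omega, by omega⟩, h5⟩, h3, h4⟩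
  rw [e, mul_sum]
  refine sum_congr rfl fun p hp => ?_
  rw [mem_filter, mem_Ioc] at hp
  have hpo : Odd p := hp.2.1.odd_of_ne_two hp.2.2
  have hp0 : (0 : ℝ) < p := by exact_mod_cast hp.2.1.pos
  have h1 : Pool.Agent.W262.RK.Jr p r * Pool.Agent.W262.RK.x4 (decide (r % 4 = 3)) p =
      Pool.Agent.W262.RK.Jr r p := (Pool.Agent.W262.RK.recip hr hpo).symm
  rw [h1, jacobiSym.mul_left]
  unfold Pool.Agent.W262.RK.Jr
  push_cast
  field_simp

end Pool.Agent.H64.FT
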