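import Mathlib
import Pool.Agent.H64.FT.D1
import Pool.Graph.R_pool_sql_team_seeded_35f281b4.K7.H5.TY.B

/-!
# The primes modulo which a number is not a square: almost all numbers are good
-/

set_option autoImplicit false

namespace Pool.Agent.H64.FT

open Finset Pool.Agent.K7.H26.BL Pool.Agent.K7.H23.PT
open Pool.Agent.H300R2.EC (Sd)
open Pool.Agent.H64.PM (Sj)

/-- good numbers -/
lemma good_of : ∃ k0 : ℕ, ∀ k : ℕ, k0 ≤ k → ∀ u : ℤ, u ≠ 0 → u.natAbs ≤ 2 ^ 2 ^ (k / 5) →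
    |Sd u (2 ^ 2 ^ (k / 5)) (zk k)| ≤ 5 → (k : ℝ) / 5 ≤ dl (zk k) u := by
  obtain ⟨C, hC0, hC⟩ := mertens
  obtain ⟨k0, hk0⟩ := exists_nat_ge ((C + 3) * 20)
  refine ⟨k0 + 10, fun k hk u hu huw hS => ?_⟩
  have hkr : (C + 3) * 20 ≤ k := hk0.trans (by exact_mod_cast (by omega : k0 ≤ k))
  have hw : 2 ≤ 2 ^ 2 ^ (k / 5) := by
    calc 2 = 2 ^ 1 := by norm_num
      _ ≤ 2 ^ 2 ^ (k / 5) := Nat.pow_le_pow_right (by norm_num) Nat.one_le_two_pow
  have hwz : 2 ^ 2 ^ (k / 5) ≤ zk k := by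
    unfold zk
    exact Nat.pow_le_pow_right (by norm_num) (Nat.pow_le_pow_right (by norm_num) (by omega))
  have h1 := dl_ge hw hwz hu huw
  have h2 := (abs_le.1 (hC (zk k) (hw.trans hwz))).1
  have h3 := (abs_le.1 (hC (2 ^ 2 ^ (k / 5)) hw)).2
  have hl2 := Real.log_two_gt_d9
  have hl0 : (0 : ℝ) < Real.log 2 := by linarith
  have e1 : Real.log (Real.log (zk k)) = ((k - k / 200 : ℕ) : ℝ) * Real.log 2 +
      Real.log (Real.log 2) := by
    rw [log_zk, Real.log_mul (by positivity) hl0.ne', Real.log_pow]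
  have e2 : Real.log (Real.log ((2 ^ 2 ^ (k / 5) : ℕ) : ℝ)) = ((k / 5 : ℕ) : ℝ) * Real.log 2 +
      Real.log (Real.log 2) := by
    push_cast
    rw [Real.log_pow]
    push_cast
    rw [Real.log_mul (by positivity) hl0.ne', Real.log_pow]
  have e3 : (199 / 200 : ℝ) * k ≤ ((k - k / 200 : ℕ) : ℝ) := by
    have h1 : 199 * k ≤ 200 * (k - k / 200) := by omega
    have h2 : ((199 * k : ℕ) : ℝ) ≤ ((200 * (k - k / 200) : ℕ) : ℝ) := by exact_mod_cast h1
    rw [Nat.cast_mul, Nat.cast_mul] at h2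
    norm_num at h2 ⊢
    linarith
  have e4 : ((k / 5 : ℕ) : ℝ) ≤ (k : ℝ) / 5 := Nat.cast_div_le
  have h5 := (abs_le.1 hS).2
  rw [e1] at h2
  rw [e2] at h3
  have e5 : (199 / 200 : ℝ) * k * Real.log 2 ≤ ((k - k / 200 : ℕ) : ℝ) * Real.log 2 :=
    mul_le_mul_of_nonneg_right e3 hl0.le
  have e6 : ((k / 5 : ℕ) : ℝ) * Real.log 2 ≤ (k : ℝ) / 5 * Real.log 2 :=
    mul_le_mul_of_nonneg_right e4 hl0.le
  have hk0' : (0 : ℝ) ≤ k := Nat.cast_nonneg k
  have e7 : (0.69 : ℝ) * (0.795 * k) ≤ Real.log 2 * (0.795 * k) :=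
    mul_le_mul_of_nonneg_right (by linarith) (by positivity)
  nlinarith

/-- the bad numbers -/
def Bad (f : ℤ) (K r : ℕ) : Prop := ∃ t : Bool, 1 < ∑ j ∈ Ico (3 * Nat.log 2 r + 2) K,
  |Sj (fun p => (jacobiSym f p : ℝ) / (2 * p)) 2 (2 ^ K) t j r|

lemma bad_sum (f : ℤ) (K a1 : ℕ) (S : Finset ℕ)
    (hS : ∀ r ∈ S, Odd r ∧ Squarefree r ∧ 2 ^ a1 ≤ r ∧ Bad f K r) :
    ∑ r ∈ S, (1 : ℝ) / r ≤ 4 * (K : ℝ) ^ 2 / 2 ^ a1 := by
  classical
  obtain ⟨B, hB⟩ : ∃ B, ∀ r ∈ S, Nat.log 2 r < B := by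
    refine ⟨(S.sup fun r => Nat.log 2 r) + 1, fun r hr => ?_⟩
    have := Finset.le_sup (f := fun r => Nat.log 2 r) hr
    omega
  have hmaps : ∀ r ∈ S, Nat.log 2 r ∈ Ico a1 B := by
    intro r hr
    obtain ⟨h1, h2, h3, -⟩ := hS r hr
    rw [mem_Ico]
    exact ⟨Nat.le_log_of_pow_le (by norm_num) h3, hB r hr⟩
  rw [← sum_fiberwise_of_maps_to hmaps]
  have hγ : ∀ p : ℕ, p.Prime → 2 < p → |(jacobiSym f p : ℝ) / (2 * p)| ≤ 1 / (2 * (p : ℝ)) := by
    intro p hp _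
    have hp0 : (0 : ℝ) < p := by exact_mod_cast hp.pos
    rw [abs_div, abs_of_pos (by positivity : (0 : ℝ) < 2 * (p : ℝ))]
    apply div_le_div_of_nonneg_right _ (by positivity)
    have : NeZero p := ⟨hp.ne_zero⟩
    rcases jacobiSym.trichotomy f p with h | h | h <;> rw [h] <;> norm_num
  have hone : ∀ a ∈ Ico a1 B, ∑ r ∈ S.filter (fun r => Nat.log 2 r = a), (1 : ℝ) / r ≤
      2 * (K : ℝ) ^ 2 * (1 / 2) ^ a := by
    intro a _
    set T := S.filter (fun r => Nat.log 2 r = a) with hT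
    have hTr : ∀ r ∈ T, Odd r ∧ Squarefree r ∧ 2 ^ a ≤ r ∧ r < 2 ^ (a + 1) ∧ Bad f K r ∧
        Nat.log 2 r = a := by
      intro r hr
      rw [hT, mem_filter] at hr
      obtain ⟨h1, h2, h3, h4⟩ := hS r hr.1
      refine ⟨h1, h2, ?_, ?_, h4, hr.2⟩
      · rw [← hr.2]
        exact Nat.pow_log_le_self 2 (Nat.pos_of_ne_zero h2.ne_zero).ne'
      · rw [← hr.2]
        exact Nat.lt_pow_succ_log_self (by norm_num) r
    clear_value T
    have hTc : T.card ≤ 2 ^ a := by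
      have h1 : T ⊆ Ico (2 ^ a) (2 ^ (a + 1)) := fun r hr => by
        have := hTr r hr
        exact mem_Ico.2 ⟨this.2.2.1, this.2.2.2.1⟩
      have h2 := card_le_card h1
      rw [Nat.card_Ico] at h2
      have h3 : 2 ^ (a + 1) - 2 ^ a = 2 ^ a := by rw [pow_succ]; omega
      omega
    have hb := fun t : Bool => Pool.Agent.H64.PM.bad_card (y := 2 ^ K) hγ t (a := a) (b := K) T
      (fun r hr => ⟨(hTr r hr).1, (hTr r hr).2.1, (hTr r hr).2.2.2.1⟩) hTc
    have hcov : T ⊆ (T.filter (fun r => 1 < ∑ j ∈ Ico (3 * a + 2) K,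
        |Sj (fun p => (jacobiSym f p : ℝ) / (2 * p)) 2 (2 ^ K) true j r|)) ∪
        (T.filter (fun r => 1 < ∑ j ∈ Ico (3 * a + 2) K,
        |Sj (fun p => (jacobiSym f p : ℝ) / (2 * p)) 2 (2 ^ K) false j r|)) := by
      intro r hr
      obtain ⟨t, ht⟩ := (hTr r hr).2.2.2.2.1
      have hla : Nat.log 2 r = a := (hTr r hr).2.2.2.2.2
      rw [hla] at ht
      rw [mem_union, mem_filter, mem_filter]
      cases t with
      | true => exact Or.inl ⟨hr, ht⟩
      | false => exact Or.inr ⟨hr, ht⟩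
    have hTc2 : (T.card : ℝ) ≤ 2 * (K : ℝ) ^ 2 := by
      have h1 := (card_le_card hcov).trans (card_union_le _ _)
      have h2 := hb true
      have h3 := hb false
      have h1' := (Nat.cast_le (α := ℝ)).2 h1
      rw [Nat.cast_add] at h1'
      linarith
    calc ∑ r ∈ T, (1 : ℝ) / r ≤ ∑ _r ∈ T, (1 / 2 : ℝ) ^ a := by
          refine sum_le_sum fun r hr => ?_
          have h2 : ((2 : ℝ) ^ a) ≤ r := by exact_mod_cast (hTr r hr).2.2.1
          rw [one_div_pow]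
          exact one_div_le_one_div_of_le (by positivity) h2
      _ = T.card * (1 / 2) ^ a := by rw [sum_const, nsmul_eq_mul]
      _ ≤ _ := mul_le_mul_of_nonneg_right hTc2 (by positivity)
  refine (sum_le_sum hone).trans ?_
  rw [← mul_sum]
  have hgeo : ∑ a ∈ Ico a1 B, (1 / 2 : ℝ) ^ a ≤ 2 * (1 / 2) ^ a1 := by
    rcases Nat.lt_or_ge B a1 with h | h
    · rw [Ico_eq_empty (by omega), sum_empty]
      positivity
    · rw [geom_sum_Ico (by norm_num) h]
      have h1 : (0 : ℝ) < (1 / 2) ^ B := by positivity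
      have h2 : ((1 / 2 : ℝ) ^ B - (1 / 2) ^ a1) / (1 / 2 - 1) =
          2 * (1 / 2) ^ a1 - 2 * (1 / 2) ^ B := by ring
      rw [h2]
      linarith
  calc 2 * (K : ℝ) ^ 2 * ∑ a ∈ Ico a1 B, (1 / 2 : ℝ) ^ a ≤
        2 * (K : ℝ) ^ 2 * (2 * (1 / 2) ^ a1) := mul_le_mul_of_nonneg_left hgeo (by positivity)
    _ = _ := by
        rw [one_div_pow]
        ring

lemma good_large {f : ℤ} {K a0 r : ℕ} (hr : Odd r) (ha : 3 * Nat.log 2 r + 2 ≤ a0) (haK : a0 ≤ K)
    (hb : ¬ Bad f K r) : |Sd (f * r) (2 ^ a0) (2 ^ K)| ≤ 5 := by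
  unfold Bad at hb
  push Not at hb
  have h1 := hb (decide (r % 4 = 3))
  rw [Sd_blocks _ haK]
  calc |∑ j ∈ Ico a0 K, Sd (f * r) (2 ^ j) (2 ^ (j + 1))| ≤
        ∑ j ∈ Ico a0 K, |Sd (f * r) (2 ^ j) (2 ^ (j + 1))| := abs_sum_le_sum_abs _ _
    _ = ∑ j ∈ Ico a0 K, 2 * |Sj (fun p => (jacobiSym f p : ℝ) / (2 * p)) 2 (2 ^ K)
        (decide (r % 4 = 3)) j r| := by
        refine sum_congr rfl fun j hj => ?_
        rw [mem_Ico] at hj
        rw [Sd_eq_Sj (K := K) hr (by omega) (by omega), abs_mul, abs_of_pos (by norm_num : (0 : ℝ) < 2)]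
    _ = 2 * ∑ j ∈ Ico a0 K, |Sj (fun p => (jacobiSym f p : ℝ) / (2 * p)) 2 (2 ^ K)
        (decide (r % 4 = 3)) j r| := (mul_sum _ _ _).symm
    _ ≤ 2 * 1 := by
        refine mul_le_mul_of_nonneg_left (le_trans ?_ h1) (by norm_num)
        refine sum_le_sum_of_subset_of_nonneg ?_ fun _ _ _ => abs_nonneg _
        exact Ico_subset_Ico_left ha
    _ ≤ 5 := by norm_num

open Classical in
/-- few bad numbers -/
theorem dl_sum (e : ℤ) (he : e ≠ 0) : ∃ k0 : ℕ, ∀ k : ℕ, k0 ≤ k → ∀ m : ℕ, 1 ≤ m →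
    m ≤ 8 ^ (k + 1) → ∑ v ∈ (range (Xk (k / 10))).filter (fun v : ℕ => Squarefree v ∧
      ¬ IsSquare (e * m * v : ℤ) ∧ dl (zk k) (e * m * v) < (k : ℝ) / 5), (1 : ℝ) / v ≤
      32 / 2 ^ k := by
  obtain ⟨k1, hk1⟩ := good_of
  obtain ⟨j0, hj0⟩ := small_u 60
  refine ⟨k1 + 5 * j0 + 10 * e.natAbs + 200, fun k hk m hm hmk => ?_⟩
  set S := (range (Xk (k / 10))).filter (fun v : ℕ => Squarefree v ∧
      ¬ IsSquare (e * m * v : ℤ) ∧ dl (zk k) (e * m * v) < (k : ℝ) / 5) with hSdef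
  set K := 2 ^ (k - k / 200) with hK
  have hz : zk k = 2 ^ K := rfl
  have ha0 : 2 ^ (k / 5) ≤ K := Nat.pow_le_pow_right (by norm_num) (by omega)
  have he1 : 1 ≤ e.natAbs := Int.natAbs_pos.2 he
  have hee : e.natAbs ≤ 2 ^ e.natAbs := Nat.lt_two_pow_self.le
  -- exponents
  have hx : 10 * (k / 10) + 9 ≥ k := by omega
  have hsq : 2 ^ (k / 10) * 2 ^ (k / 10) ≤ 2 ^ (k / 5) := by
    rw [← pow_add]
    exact Nat.pow_le_pow_right (by norm_num) (by omega)
  have h2x : k / 10 + 1 ≤ 2 ^ (k / 10) := Nat.lt_two_pow_self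
  have hbig : 40 ≤ 2 ^ (k / 10) := by
    calc 40 ≤ 2 ^ 6 := by norm_num
      _ ≤ 2 ^ (k / 10) := Nat.pow_le_pow_right (by norm_num) (by omega)
  have hexp : 2 ^ (k / 10) + 3 * k + 3 + e.natAbs ≤ 2 ^ (k / 5) := by
    refine le_trans ?_ hsq
    have h3 : e.natAbs ≤ k / 10 := by omega
    nlinarith
  have hexp2 : 3 * 2 ^ (k / 10) + 2 ≤ 2 ^ (k / 5) := by
    refine le_trans ?_ hsq
    nlinarith
  -- the elements are large and bad
  have key : ∀ v ∈ S, 2 ^ (4 * k) ≤ v ∧ ∀ i r : ℕ, v = 2 ^ i * r → Odd r →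
      Bad (e * m * 2 ^ i) K r := by
    intro v hv
    rw [hSdef, mem_filter, mem_range] at hv
    obtain ⟨hv1, hv2, hv3, hv4⟩ := hv
    have hv0 : v ≠ 0 := hv2.ne_zero
    have hu0 : (e * m * v : ℤ) ≠ 0 := by
      refine mul_ne_zero (mul_ne_zero he ?_) ?_
      · exact_mod_cast (by omega : m ≠ 0)
      · exact_mod_cast hv0
    have hun : (e * m * v : ℤ).natAbs = e.natAbs * m * v := by
      rw [Int.natAbs_mul, Int.natAbs_mul, Int.natAbs_natCast, Int.natAbs_natCast]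
    have huw : (e * m * v : ℤ).natAbs ≤ 2 ^ 2 ^ (k / 5) := by
      rw [hun]
      calc e.natAbs * m * v ≤ 2 ^ e.natAbs * 8 ^ (k + 1) * 2 ^ 2 ^ (k / 10) :=
            Nat.mul_le_mul (Nat.mul_le_mul hee hmk) hv1.le
        _ = 2 ^ (e.natAbs + 3 * (k + 1) + 2 ^ (k / 10)) := by
            rw [show (8 : ℕ) = 2 ^ 3 by norm_num, ← pow_mul, ← pow_add, ← pow_add]
        _ ≤ _ := Nat.pow_le_pow_right (by norm_num) (by omega)
    refine ⟨?_, fun i r hir hro => ?_⟩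
    · by_contra hcon
      push Not at hcon
      have h1 := hj0 (2 ^ (k / 5)) K (by
        have h4 : j0 ≤ k / 5 := by omega
        exact h4.trans Nat.lt_two_pow_self.le) ha0 (e * m * v) hv3 (by
        have h2 : |((e * m * v : ℤ) : ℝ)| = ((e.natAbs * m * v : ℕ) : ℝ) := by
          rw [← hun, Nat.cast_natAbs]
          push_cast
          rfl
        rw [h2]
        have h3 : 4 * (e.natAbs * m * v) ≤ 2 ^ (7 * k + 5 + e.natAbs) := by
          calc 4 * (e.natAbs * m * v) ≤ 2 ^ 2 * (2 ^ e.natAbs * 8 ^ (k + 1) * 2 ^ (4 * k)) :=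
                Nat.mul_le_mul (by norm_num) (Nat.mul_le_mul (Nat.mul_le_mul hee hmk) hcon.le)
            _ = 2 ^ (7 * k + 5 + e.natAbs) := by
                rw [show (8 : ℕ) = 2 ^ 3 by norm_num, ← pow_mul, ← pow_add, ← pow_add, ← pow_add]
                congr 1
                ring
        have h4 : (2 : ℝ) ^ (k / 5 - 1) ≤ (2 ^ (k / 5) : ℕ) * Real.log 2 := by
          have h5 : (2 : ℝ) ^ (k / 5) = 2 * 2 ^ (k / 5 - 1) := by
            rw [← pow_succ']
            congr 1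
            omega
          push_cast
          rw [h5]
          have h6 := Real.log_two_gt_d9
          have h7 : (0 : ℝ) < 2 ^ (k / 5 - 1) := by positivity
          nlinarith
        calc (4 : ℝ) * ((e.natAbs * m * v : ℕ) : ℝ) = ((4 * (e.natAbs * m * v) : ℕ) : ℝ) := by
              push_cast; ring
          _ ≤ ((2 ^ (7 * k + 5 + e.natAbs) : ℕ) : ℝ) := by exact_mod_cast h3
          _ = (2 : ℝ) ^ (7 * k + 5 + e.natAbs) := by push_cast; rfl
          _ ≤ (2 : ℝ) ^ ((k / 5 - 1) * 60) := pow_le_pow_right₀ (by norm_num) (by omega)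
          _ = ((2 : ℝ) ^ (k / 5 - 1)) ^ 60 := by rw [pow_mul]
          _ ≤ _ := pow_le_pow_left₀ (by positivity) h4 60)
      have h5 := hk1 k (by omega) (e * m * v) hu0 huw (by rw [hz]; exact h1)
      linarith
    · by_contra hb
      have hr0 : r ≠ 0 := by
        rintro rfl
        exact hv0 (by rw [hir]; ring)
      have hrv : r ≤ v := by
        rw [hir]
        exact Nat.le_mul_of_pos_left _ (by positivity)
      have hlog : Nat.log 2 r < 2 ^ (k / 10) := by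
        refine Nat.log_lt_of_lt_pow hr0 (lt_of_le_of_lt hrv ?_)
        exact hv1
      have h1 := good_large hro (show 3 * Nat.log 2 r + 2 ≤ 2 ^ (k / 5) by omega) ha0 hb
      have h2 : (e * m * 2 ^ i * r : ℤ) = e * m * v := by
        rw [hir]
        push_cast
        ring
      rw [h2] at h1
      have h5 := hk1 k (by omega) (e * m * v) hu0 huw (by rw [hz]; exact h1)
      linarith
  have hsqf : ∀ v ∈ S, Squarefree v := fun v hv => by
    rw [hSdef, mem_filter] at hv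
    exact hv.2.1
  -- odd and even elements
  rw [← sum_filter_add_sum_filter_not S (fun v => Odd v)]
  have hodd := bad_sum (e * m * 2 ^ 0) K (4 * k - 1) (S.filter (fun v => Odd v)) (fun r hr => by
    rw [mem_filter] at hr
    obtain ⟨h1, h2⟩ := key r hr.1
    refine ⟨hr.2, hsqf r hr.1, le_trans (Nat.pow_le_pow_right (by norm_num) (by omega)) h1,
      h2 0 r (by ring) hr.2⟩)
  have heven : ∑ v ∈ S.filter (fun v => ¬ Odd v), (1 : ℝ) / v ≤
      4 * (K : ℝ) ^ 2 / 2 ^ (4 * k - 1) := by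
    have hev : ∀ v ∈ S.filter (fun v => ¬ Odd v), v = 2 * (v / 2) ∧ Odd (v / 2) := by
      intro v hv
      rw [mem_filter, Nat.not_odd_iff_even] at hv
      have h1 : v = 2 * (v / 2) := (Nat.two_mul_div_two_of_even hv.2).symm
      refine ⟨h1, ?_⟩
      by_contra h2
      rw [Nat.not_odd_iff_even] at h2
      obtain ⟨c, hc⟩ := h2
      have h3 : 2 * 2 ∣ v := ⟨c, by omega⟩
      have h4 := (hsqf v hv.1) 2 h3
      rw [Nat.isUnit_iff] at h4
      omega
    have hinj : Set.InjOn (fun v => v / 2) (S.filter (fun v => ¬ Odd v) : Set ℕ) := by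
      intro v hv v' hv' h
      have h1 := (hev v hv).1
      have h2 := (hev v' hv').1
      simp only at h
      omega
    have hbd := bad_sum (e * m * 2 ^ 1) K (4 * k - 1) ((S.filter (fun v => ¬ Odd v)).image
      (fun v => v / 2)) (fun r hr => by
        rw [mem_image] at hr
        obtain ⟨v, hv, rfl⟩ := hr
        obtain ⟨h1, h2⟩ := hev v hv
        rw [mem_filter] at hv
        obtain ⟨h3, h4⟩ := key v hv.1
        refine ⟨h2, ?_, ?_, h4 1 (v / 2) (by rw [pow_one]; exact h1) h2⟩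
        · exact (hsqf v hv.1).squarefree_of_dvd ⟨2, by omega⟩
        · have h5 : 2 ^ (4 * k) = 2 * 2 ^ (4 * k - 1) := by
            rw [← pow_succ']
            congr 1
            omega
          omega)
    refine le_trans ?_ hbd
    rw [sum_image hinj]
    refine sum_le_sum fun v hv => ?_
    obtain ⟨h1, h2⟩ := hev v hv
    have h3 : 0 < v / 2 := h2.pos
    apply one_div_le_one_div_of_le (by exact_mod_cast h3)
    exact_mod_cast (Nat.div_le_self v 2)
  have hKk : (K : ℝ) ≤ 2 ^ k := by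
    rw [hK]
    push_cast
    exact pow_le_pow_right₀ (by norm_num) (by omega)
  have hfin : 4 * (K : ℝ) ^ 2 / 2 ^ (4 * k - 1) ≤ 16 / 2 ^ k := by
    rw [div_le_div_iff₀ (by positivity) (by positivity)]
    have h1 : (K : ℝ) ^ 2 ≤ (2 ^ k) ^ 2 := pow_le_pow_left₀ (Nat.cast_nonneg _) hKk 2
    calc 4 * (K : ℝ) ^ 2 * 2 ^ k ≤ 4 * (2 ^ k) ^ 2 * 2 ^ k := by gcongr
      _ = 2 ^ (3 * k + 2) := by
          rw [← pow_mul]
          ring
      _ ≤ 2 ^ (4 * k - 1 + 4) := pow_le_pow_right₀ (by norm_num) (by omega)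
      _ = 16 * 2 ^ (4 * k - 1) := by
          rw [pow_add]
          ring
  have h32 : (32 : ℝ) / 2 ^ k = 16 / 2 ^ k + 16 / 2 ^ k := by ring
  rw [h32]
  exact add_le_add (hodd.trans hfin) (heven.trans hfin)

end Pool.Agent.H64.FT
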