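import Mathlib
import Pool.Agent.H64.FT.D2

/-!
# The sieve for the two largest numbers
-/

set_option autoImplicit false

namespace Pool.Agent.H64.FT

open Finset Pool.Agent.K7.H26.BL Pool.Agent.K7.H23.PT

/-- the conditions modulo the prime factors of `a` -/
def Lc (α β γ : ℤ) (R : ℕ) (a b c m : ℤ) : Prop :=
  ∀ p : ℕ, p.Prime → (p : ℤ) ∣ a → ¬ p ∣ R → ¬ (p : ℤ) ∣ b ∧ ¬ (p : ℤ) ∣ c ∧ ¬ (p : ℤ) ∣ m ∧
    IsSquare (((α - β) * m * b : ℤ) : ZMod p) ∧ IsSquare (((α - γ) * m * c : ℤ) : ZMod p)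

/-- the local conditions -/
def L3 (α β γ : ℤ) (R : ℕ) (a b c m : ℤ) : Prop :=
  Lc α β γ R a b c m ∧ Lc β α γ R b a c m ∧ Lc γ α β R c a b m

lemma Lc.swap {α β γ : ℤ} {R : ℕ} {a b c m : ℤ} (h : Lc α β γ R a b c m) :
    Lc α γ β R a c b m := fun p hp hpa hpR => by
  obtain ⟨h1, h2, h3, h4, h5⟩ := h p hp hpa hpR
  exact ⟨h2, h1, h3, h5, h4⟩

open Classical in
/-- the possible rough parts -/
noncomputable def Q (z X B u : ℕ) (P : Finset ℕ) (τ : ℕ → ℤ) : Finset ℕ :=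
  (Icc 1 B).filter fun x => Rough z x ∧ X ≤ u * x ∧ ∀ p ∈ P, IsSquare ((τ p * x : ℤ) : ZMod p)

lemma mem_Q {z X B u : ℕ} {P : Finset ℕ} {τ : ℕ → ℤ} {x : ℕ} : x ∈ Q z X B u P τ ↔
    (1 ≤ x ∧ x ≤ B) ∧ Rough z x ∧ X ≤ u * x ∧ ∀ p ∈ P, IsSquare ((τ p * x : ℤ) : ZMod p) := by
  classical
  rw [Q, mem_filter, mem_Icc]

/-- the factors in the conditions -/
def τA (α β γ m σ : ℤ) (u : ℕ) (T : Finset ℕ) (p : ℕ) : ℤ :=
  if p ∈ T then (β - α) * m * (σ * u) else (γ - α) * m * (σ * u)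

lemma card_Q {Cs : ℝ} (hC0 : 0 < Cs) (hC : SvBound Cs) {z X B u : ℕ} {P : Finset ℕ} {τ : ℕ → ℤ}
    (hz : 2 ≤ z) (hP : ∀ p ∈ P, p.Prime ∧ p ≠ 2 ∧ p ≤ z ∧ ¬ (p : ℤ) ∣ τ p)
    (hu : 0 < u) (hX : u * ((∏ p ∈ P, p) * z ^ 4) ≤ X) :
    ((Q z X B u P τ).card : ℝ) ≤ Cs * B / (2 ^ P.card * Real.log z) := by
  have hlog : 0 < Real.log z := Real.log_pos (by exact_mod_cast hz)
  rcases (Q z X B u P τ).eq_empty_or_nonempty with he | ⟨x₀, hx₀⟩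
  · rw [he, Finset.card_empty, Nat.cast_zero]
    positivity
  · obtain ⟨⟨hx1, hx2⟩, hx3, hx4, hx5⟩ := mem_Q.1 hx₀
    refine sv_set' hC hz hP ?_ _ fun n hn => ?_
    · exact (Nat.le_of_mul_le_mul_left (hX.trans hx4) hu).trans hx2
    · have hn' := mem_Q.1 hn
      exact ⟨hn'.1.1, hn'.1.2, hn'.2.1, hn'.2.2.2⟩

lemma sum_Q {Cs : ℝ} (hC0 : 0 < Cs) (hC : SvBound Cs) {z X K u : ℕ} {P : Finset ℕ} {τ : ℕ → ℤ}
    (hz : 2 ≤ z) (hP : ∀ p ∈ P, p.Prime ∧ p ≠ 2 ∧ p ≤ z ∧ ¬ (p : ℤ) ∣ τ p)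
    (hu : 0 < u) (hX : u * ((∏ p ∈ P, p) * z ^ 4) ≤ X) :
    (∑ x ∈ Q z X (2 ^ K - 1) u P τ, (1 : ℝ) / x) ≤ 2 * Cs * K / (2 ^ P.card * Real.log z) := by
  refine sv_sum_inv' hC0 hC hz hP _ fun n hn => ?_
  obtain ⟨⟨h1, h2⟩, h3, h4, h5⟩ := mem_Q.1 hn
  have h6 : 1 ≤ 2 ^ K := Nat.one_le_two_pow
  exact ⟨h1, Nat.le_of_mul_le_mul_left (hX.trans h4) hu, by omega, h3, h5⟩

lemma inner {Cs : ℝ} (hC0 : 0 < Cs) (hC : SvBound Cs) {z X K N w ps pt : ℕ} {P1 P2 : Finset ℕ}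
    {τ1 τ2 : ℕ → ℤ} (hz : 2 ≤ z) (hP1 : ∀ p ∈ P1, p.Prime ∧ p ≠ 2 ∧ p ≤ z ∧ ¬ (p : ℤ) ∣ τ1 p)
    (hP2 : ∀ p ∈ P2, p.Prime ∧ p ≠ 2 ∧ p ≤ z ∧ ¬ (p : ℤ) ∣ τ2 p)
    (hps : 0 < ps) (hpt : 0 < pt) (h1 : ps * ((∏ p ∈ P1, p) * z ^ 4) ≤ X)
    (h2 : pt * ((∏ p ∈ P2, p) * z ^ 4) ≤ X) :
    ∑ x ∈ Q z X (2 ^ K - 1) pt P2 τ2, ((Q z X (N / (w * (ps * (pt * x)))) ps P1 τ1).card : ℝ) ≤
      (2 * Cs ^ 2 * N * K / (Real.log z) ^ 2) * (1 / (w * ps * pt * 2 ^ (P1.card + P2.card))) := by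
  have hlog : 0 < Real.log z := Real.log_pos (by exact_mod_cast hz)
  calc ∑ x ∈ Q z X (2 ^ K - 1) pt P2 τ2, ((Q z X (N / (w * (ps * (pt * x)))) ps P1 τ1).card : ℝ)
      ≤ ∑ x ∈ Q z X (2 ^ K - 1) pt P2 τ2, (Cs * N / (w * ps * pt * 2 ^ P1.card * Real.log z)) *
          (1 / x) := by
        refine sum_le_sum fun x _ => ?_
        refine (card_Q hC0 hC hz hP1 hps h1).trans ?_
        have h3 : ((N / (w * (ps * (pt * x))) : ℕ) : ℝ) ≤ N / (w * (ps * (pt * x))) := by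
          refine le_trans Nat.cast_div_le (le_of_eq ?_)
          push_cast
          rfl
        calc Cs * ((N / (w * (ps * (pt * x))) : ℕ) : ℝ) / (2 ^ P1.card * Real.log z) ≤
              Cs * (N / (w * (ps * (pt * x)))) / (2 ^ P1.card * Real.log z) := by gcongr
          _ = _ := by
              simp only [div_eq_mul_inv, mul_inv, one_mul]
              ring
    _ = (Cs * N / (w * ps * pt * 2 ^ P1.card * Real.log z)) *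
          ∑ x ∈ Q z X (2 ^ K - 1) pt P2 τ2, (1 : ℝ) / x := (mul_sum _ _ _).symm
    _ ≤ (Cs * N / (w * ps * pt * 2 ^ P1.card * Real.log z)) *
          (2 * Cs * K / (2 ^ P2.card * Real.log z)) := by
        have := sum_Q hC0 hC (K := K) (τ := τ2) hz hP2 hpt h2
        gcongr
    _ = _ := by
        rw [pow_add]
        simp only [div_eq_mul_inv, mul_inv, one_mul]
        ring

lemma cond {α β γ : ℤ} {R : ℕ} {a b c m σ : ℤ} {u x : ℕ} {T V : Finset ℕ}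
    (hβ : β - α ∣ (R : ℤ)) (hγ : γ - α ∣ (R : ℤ)) (hLb : Lc β α γ R b a c m)
    (hLc : Lc γ α β R c a b m) (hT : ∀ p ∈ T, p.Prime ∧ (p : ℤ) ∣ b)
    (hV : ∀ p ∈ V, p.Prime ∧ (p : ℤ) ∣ c) (ha : a = σ * (u * x)) :
    ∀ p ∈ pr R (T ∪ V), ¬ (p : ℤ) ∣ τA α β γ m σ u T p ∧
      IsSquare ((τA α β γ m σ u T p * x : ℤ) : ZMod p) := by
  intro p hp
  obtain ⟨hp1, hpR⟩ := mem_pr.1 hp
  have hnR : ∀ d : ℤ, d ∣ (R : ℤ) → ¬ (p : ℤ) ∣ d := fun d hd h =>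
    hpR (Int.natCast_dvd_natCast.1 (h.trans hd))
  unfold τA
  by_cases hpT : p ∈ T
  · obtain ⟨hpp, hpb⟩ := hT p hpT
    have hpZ : Prime (p : ℤ) := Nat.prime_iff_prime_int.1 hpp
    obtain ⟨h1, h2, h3, h4, h5⟩ := hLb p hpp hpb hpR
    rw [if_pos hpT]
    constructor
    · intro h
      rcases hpZ.dvd_or_dvd h with h6 | h6
      · rcases hpZ.dvd_or_dvd h6 with h7 | h7
        · exact hnR _ hβ h7
        · exact h3 h7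
      · exact h1 (h6.trans ⟨x, by rw [ha]; ring⟩)
    · have h6 : (β - α) * m * (σ * u) * x = (β - α) * m * a := by rw [ha]; ring
      rw [h6]
      exact h4
  · have hpV : p ∈ V := by
      rcases mem_union.1 hp1 with h | h
      · exact absurd h hpT
      · exact h
    obtain ⟨hpp, hpb⟩ := hV p hpV
    have hpZ : Prime (p : ℤ) := Nat.prime_iff_prime_int.1 hpp
    obtain ⟨h1, h2, h3, h4, h5⟩ := hLc p hpp hpb hpR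
    rw [if_neg hpT]
    constructor
    · intro h
      rcases hpZ.dvd_or_dvd h with h6 | h6
      · rcases hpZ.dvd_or_dvd h6 with h7 | h7
        · exact hnR _ hγ h7
        · exact h3 h7
      · exact h1 (h6.trans ⟨x, by rw [ha]; ring⟩)
    · have h6 : (γ - α) * m * (σ * u) * x = (γ - α) * m * a := by rw [ha]; ring
      rw [h6]
      exact h4

/-- the sign, the smooth part and the rough part of a squarefree number -/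
lemma split_int {c : ℤ} (hc : Squarefree c) (z : ℕ) : ∃ σ ∈ ({1, -1} : Finset ℤ),
    ∃ S : Finset ℕ, ∃ x : ℕ, S ⊆ PP z ∧ c = σ * ((∏ p ∈ S, p : ℕ) * x) ∧ Rough z x ∧ 1 ≤ x ∧
      c.natAbs = (∏ p ∈ S, p) * x ∧ ∀ p ∈ S, (p : ℤ) ∣ c := by
  have hc' : Squarefree c.natAbs := Int.squarefree_natAbs.2 hc
  obtain ⟨S, x, h1, h2, h3, h4, h5, -⟩ := split_sq (z := z) hc'
  have hx : 1 ≤ x := Nat.pos_of_ne_zero h4.ne_zero
  have h6 : ∀ p ∈ S, (p : ℤ) ∣ c := fun p hp => by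
    rw [h5, mem_filter] at hp
    exact Int.natCast_dvd.2 (Nat.dvd_of_mem_primeFactors hp.1)
  rcases Int.natAbs_eq c with h | h
  · refine ⟨1, by simp, S, x, h1, ?_, h3, hx, h2.symm, h6⟩
    rw [h, ← h2]
    push_cast
    ring
  · refine ⟨-1, by simp, S, x, h1, ?_, h3, hx, h2.symm, h6⟩
    rw [h, ← h2]
    push_cast
    ring

lemma prod_union_le {S T : Finset ℕ} (hS : ∀ p ∈ S, p.Prime) :
    ∏ p ∈ S ∪ T, p ≤ (∏ p ∈ S, p) * ∏ p ∈ T, p := by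
  rw [← Finset.prod_union_inter]
  refine Nat.le_mul_of_pos_right _ (Finset.prod_pos fun p hp => ?_)
  exact (hS p (mem_inter.1 hp).1).pos

lemma smooth_bound {z X : ℕ} {S T V : Finset ℕ} (hT : ∀ p ∈ T, p.Prime) (hV : ∀ p ∈ V, p.Prime)
    (R : ℕ) (hS8 : (∏ p ∈ S, p) ^ 8 ≤ X) (hT8 : (∏ p ∈ T, p) ^ 8 ≤ X) (hV8 : (∏ p ∈ V, p) ^ 8 ≤ X)
    (hz : z ^ 32 ≤ X ^ 5) : (∏ p ∈ S, p) * ((∏ p ∈ pr R (T ∪ V), p) * z ^ 4) ≤ X := by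
  have hTV : ∀ p ∈ T ∪ V, p.Prime := fun p hp => by
    rcases mem_union.1 hp with h | h
    · exact hT p h
    · exact hV p h
  have h1 : (∏ p ∈ pr R (T ∪ V), p) ≤ (∏ p ∈ T, p) * ∏ p ∈ V, p :=
    (prod_pr_le hTV).trans (prod_union_le hT)
  refine (Nat.mul_le_mul_left _ (Nat.mul_le_mul_right _ h1)).trans ?_
  refine (Nat.pow_le_pow_iff_left (n := 8) (by norm_num)).1 ?_
  calc ((∏ p ∈ S, p) * ((∏ p ∈ T, p) * (∏ p ∈ V, p) * z ^ 4)) ^ 8 =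
        (∏ p ∈ S, p) ^ 8 * ((∏ p ∈ T, p) ^ 8 * (∏ p ∈ V, p) ^ 8 * z ^ 32) := by ring
    _ ≤ X * (X * X * X ^ 5) := by gcongr
    _ = X ^ 8 := by ring

lemma zk_pow {k : ℕ} (hk : 600 ≤ k) : zk k ^ 32 ≤ Xk k ^ 5 := by
  rw [zk, Xk, ← pow_mul, ← pow_mul]
  refine Nat.pow_le_pow_right (by norm_num) ?_
  have h1 : 2 ^ (k - k / 200) * 2 ^ (k / 200) = 2 ^ k := by
    rw [← pow_add]
    congr 1
    omega
  have h2 : 2 ^ 3 ≤ 2 ^ (k / 200) := Nat.pow_le_pow_right (by norm_num) (by omega)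
  have h3 := Nat.mul_le_mul_left (2 ^ (k - k / 200)) h2
  omega

lemma zk_mono {j k : ℕ} (h : j ≤ k) : zk j ≤ zk k := by
  unfold zk
  exact Nat.pow_le_pow_right (by norm_num) (Nat.pow_le_pow_right (by norm_num) (by omega))

lemma Xk_mono {j k : ℕ} (h : j ≤ k) : Xk j ≤ Xk k := by
  unfold Xk
  exact Nat.pow_le_pow_right (by norm_num) (Nat.pow_le_pow_right (by norm_num) h)

lemma prod_le_sm {z : ℕ} {D : ℤ} (hD : D ≠ 0) {U : Finset ℕ} (hU : U ⊆ PP z)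
    (hUD : ∀ p ∈ U, (p : ℤ) ∣ D) : ∏ p ∈ U, p ≤ sm z D := by
  refine Finset.prod_le_prod_of_subset_of_one_le' (fun p hp => ?_) ?_
  · have h1 := mem_PP.1 (hU hp)
    exact mem_filter.2 ⟨Nat.mem_primeFactors.2 ⟨h1.1, Int.natCast_dvd.1 (hUD p hp),
      Int.natAbs_ne_zero.2 hD⟩, h1.2⟩
  · intro p hp _
    exact (Nat.prime_of_mem_primeFactors (mem_filter.1 hp).1).one_lt.le

/-- the conditions for the pair of the smooth parts of the two largest numbers -/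
def GoodAB (α β γ : ℤ) (R z X : ℕ) (m σ₁ σ₂ : ℤ) (S T V : Finset ℕ) : Prop :=
  (∏ p ∈ S, p) ^ 8 ≤ X ∧ (∏ p ∈ T, p) ^ 8 ≤ X ∧
    (∀ p ∈ pr R (T ∪ V), ¬ (p : ℤ) ∣ τA α β γ m σ₁ (∏ p ∈ S, p) T p) ∧
    (∀ p ∈ pr R (S ∪ V), ¬ (p : ℤ) ∣ τA β α γ m σ₂ (∏ p ∈ T, p) S p) ∧
    (∀ p ∈ T, p ∉ pr R S) ∧ (∀ p ∈ V, p ∉ pr R S) ∧ (∀ p ∈ V, p ∉ pr R T) ∧ z = z

lemma tuple_ab {α β γ : ℤ} {R z X K N : ℕ} (h1R : β - α ∣ (R : ℤ)) (h2R : γ - α ∣ (R : ℤ))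
    (h3R : γ - β ∣ (R : ℤ)) {D a b c m : ℤ} (hD0 : D ≠ 0) (hDN : |D| ≤ N)
    (hsm : sm z D ^ 8 ≤ X) (hD : D = a * b * c * m) (ha : Squarefree a) (hb : Squarefree b)
    (hL : L3 α β γ R a b c m) (hbX : (X : ℤ) ≤ |b|) (hbK : |b| < ((2 ^ K : ℕ) : ℤ))
    (hba : |b| ≤ |a|) {V : Finset ℕ} (hV : ∀ p ∈ V, p.Prime ∧ (p : ℤ) ∣ c) :
    ∃ σ₁ ∈ ({1, -1} : Finset ℤ), ∃ σ₂ ∈ ({1, -1} : Finset ℤ), ∃ S T : Finset ℕ, ∃ a' b' : ℕ,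
      S ⊆ PP z ∧ T ⊆ PP z ∧ (∀ p ∈ S, (p : ℤ) ∣ a) ∧ (∀ p ∈ T, (p : ℤ) ∣ b) ∧
      GoodAB α β γ R z X m σ₁ σ₂ S T V ∧
      a = σ₁ * ((∏ p ∈ S, p : ℕ) * a') ∧ b = σ₂ * ((∏ p ∈ T, p : ℕ) * b') ∧
      b' ∈ Q z X (2 ^ K - 1) (∏ p ∈ T, p) (pr R (S ∪ V)) (τA β α γ m σ₂ (∏ p ∈ T, p) S) ∧
      a' ∈ Q z X (N / (m.natAbs * c.natAbs * ((∏ p ∈ S, p) * ((∏ p ∈ T, p) * b'))))
        (∏ p ∈ S, p) (pr R (T ∪ V)) (τA α β γ m σ₁ (∏ p ∈ S, p) T) := by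
  obtain ⟨hLa, hLb, hLc⟩ := hL
  obtain ⟨σ₁, hσ₁, S, a', hS, ha1, ha2, ha3, ha4, ha5⟩ := split_int ha z
  obtain ⟨σ₂, hσ₂, T, b', hT, hb1, hb2, hb3, hb4, hb5⟩ := split_int hb z
  have hSp : ∀ p ∈ S, p.Prime := fun p hp => (mem_PP.1 (hS hp)).1
  have hTp : ∀ p ∈ T, p.Prime := fun p hp => (mem_PP.1 (hT hp)).1
  have h4R : α - β ∣ (R : ℤ) := by
    rw [← neg_sub]
    exact (neg_dvd).2 h1R
  have cA := cond (m := m) h1R h2R hLb hLc (fun p hp => ⟨hTp p hp, hb5 p hp⟩) hV ha1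
  have cB := cond (m := m) h4R h3R hLa hLc.swap (fun p hp => ⟨hSp p hp, ha5 p hp⟩) hV hb1
  have hsS := prod_le_sm hD0 hS fun p hp => (ha5 p hp).trans ⟨b * c * m, by rw [hD]; ring⟩
  have hsT := prod_le_sm hD0 hT fun p hp => (hb5 p hp).trans ⟨a * c * m, by rw [hD]; ring⟩
  have haX : (X : ℤ) ≤ |a| := hbX.trans hba
  rw [Int.abs_eq_natAbs, ha4] at haX
  rw [Int.abs_eq_natAbs, hb4] at hbX hbK
  have haX' : X ≤ (∏ p ∈ S, p) * a' := by exact_mod_cast haX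
  have hbX' : X ≤ (∏ p ∈ T, p) * b' := by exact_mod_cast hbX
  have hbK' : (∏ p ∈ T, p) * b' < 2 ^ K := by exact_mod_cast hbK
  have hTpos : 0 < ∏ p ∈ T, p := prod_pos hTp
  have hSpos : 0 < ∏ p ∈ S, p := prod_pos hSp
  refine ⟨σ₁, hσ₁, σ₂, hσ₂, S, T, a', b', hS, hT, ha5, hb5,
    ⟨(Nat.pow_le_pow_left hsS 8).trans hsm, (Nat.pow_le_pow_left hsT 8).trans hsm,
      fun p hp => (cA p hp).1, fun p hp => (cB p hp).1, fun p hp h => ?_, fun p hp h => ?_,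
      fun p hp h => ?_, rfl⟩, ha1, hb1, ?_, ?_⟩
  · obtain ⟨h1, h2⟩ := mem_pr.1 h
    exact (hLa p (hSp p h1) (ha5 p h1) h2).1 (hb5 p hp)
  · obtain ⟨h1, h2⟩ := mem_pr.1 h
    exact (hLa p (hSp p h1) (ha5 p h1) h2).2.1 (hV p hp).2
  · obtain ⟨h1, h2⟩ := mem_pr.1 h
    exact (hLb p (hTp p h1) (hb5 p h1) h2).2.1 (hV p hp).2
  · rw [mem_Q]
    refine ⟨⟨hb3, ?_⟩, hb2, hbX', fun p hp => (cB p hp).2⟩
    have := Nat.le_mul_of_pos_left b' hTpos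
    omega
  · rw [mem_Q]
    refine ⟨⟨ha3, ?_⟩, ha2, haX', fun p hp => (cA p hp).2⟩
    have hDn : D.natAbs ≤ N := by
      rw [Int.abs_eq_natAbs] at hDN
      exact_mod_cast hDN
    rw [hD, Int.natAbs_mul, Int.natAbs_mul, Int.natAbs_mul, ha4, hb4] at hDn
    have hD0' : a.natAbs * b.natAbs * c.natAbs * m.natAbs ≠ 0 := by
      rw [← Int.natAbs_mul, ← Int.natAbs_mul, ← Int.natAbs_mul, ← hD]
      exact Int.natAbs_ne_zero.2 hD0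
    have hm0 : 0 < m.natAbs := Nat.pos_of_ne_zero fun h => hD0' (by rw [h, mul_zero])
    have hc0 : 0 < c.natAbs := Nat.pos_of_ne_zero fun h => hD0' (by rw [h, mul_zero, zero_mul])
    rw [Nat.le_div_iff_mul_le (by positivity)]
    refine le_trans (le_of_eq ?_) hDn
    ring

end Pool.Agent.H64.FT
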