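import Mathlib
import Pool.Agent.H64.FT.A4
import Pool.Graph.R_pool_sql_team_seeded_35f281b4.K7.H12.SV.Main

/-!
# The count with fixed smallest number
-/

set_option autoImplicit false

namespace Pool.Agent.H64.FT

open Finset Pool.Agent.K7.H26.BL Pool.Agent.K7.H23.PT

open Classical in
/-- the primes allowed in the smooth parts -/
noncomputable def AL (R z : ℕ) (u : ℤ) : Finset ℕ :=
  (PP z).filter fun p => p ∣ R ∨ IsSquare ((u : ℤ) : ZMod p)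

lemma mem_AL {R z : ℕ} {u : ℤ} {p : ℕ} : p ∈ AL R z u ↔ p ∈ PP z ∧
    (p ∣ R ∨ IsSquare ((u : ℤ) : ZMod p)) := by
  classical
  rw [AL, mem_filter]

lemma sum_AL {R : ℕ} (hR : 1 ≤ R) (z : ℕ) (u : ℤ) :
    ∑ p ∈ AL R z u, (1 : ℝ) / p ≤ MM z - dl z u + R.primeFactors.card := by
  classical
  have hsub : AL R z u ⊆ PS u z ∪ R.primeFactors := by
    intro p hp
    obtain ⟨h1, h2⟩ := mem_AL.1 hp
    have h3 := mem_PP.1 h1
    rw [mem_union]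
    rcases h2 with h2 | h2
    · exact Or.inr (Nat.mem_primeFactors.2 ⟨h3.1, h2, by omega⟩)
    · exact Or.inl (mem_PS.2 ⟨h3.1, h3.2, h2⟩)
  calc ∑ p ∈ AL R z u, (1 : ℝ) / p ≤ ∑ p ∈ PS u z ∪ R.primeFactors, (1 : ℝ) / p :=
        sum_le_sum_of_subset_of_nonneg hsub fun _ _ _ => by positivity
    _ ≤ ∑ p ∈ PS u z, (1 : ℝ) / p + ∑ p ∈ R.primeFactors, (1 : ℝ) / p := by
        rw [← Finset.sum_union_inter]
        have : (0 : ℝ) ≤ ∑ p ∈ PS u z ∩ R.primeFactors, (1 : ℝ) / p :=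
          sum_nonneg fun _ _ => by positivity
        linarith
    _ ≤ _ := by
        rw [dl_compl]
        have h1 : ∑ p ∈ R.primeFactors, (1 : ℝ) / p ≤ ∑ _p ∈ R.primeFactors, (1 : ℝ) := by
          refine sum_le_sum fun p hp => ?_
          have h2 := (Nat.prime_of_mem_primeFactors hp).one_lt.le
          rw [div_le_one (by positivity)]
          exact_mod_cast h2
        rw [sum_const, nsmul_eq_mul, mul_one] at h1
        linarith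

lemma inv_pr {R : ℕ} (hR : 1 ≤ R) {S : Finset ℕ} (hS : ∀ p ∈ S, p.Prime) :
    (1 : ℝ) / 2 ^ (pr R S).card ≤ 2 ^ R.primeFactors.card * (1 / 2 ^ S.card) := by
  have h4 := pow_pr hR hS
  rw [mul_one_div, div_le_div_iff₀ (by positivity) (by positivity), one_mul]
  exact h4

lemma prod_half (S : Finset ℕ) : ∏ p ∈ S, ((1 : ℝ) / 2 * (1 / p)) =
    1 / (2 ^ S.card * ∏ p ∈ S, (p : ℝ)) := by
  rw [prod_mul_distrib, prod_const, prod_div_distrib, prod_const_one, one_div_pow]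
  rw [div_mul_div_comm, one_mul]

lemma pair_le' {Cs : ℝ} (hC0 : 0 < Cs) (hC : SvBound Cs) {R z X K N w : ℕ} (h2 : 2 ∣ R)
    (hz : 2 ≤ z) (hzX : z ^ 32 ≤ X ^ 5) {α β γ m σ₁ σ₂ : ℤ} {S T V : Finset ℕ}
    (hS : ∀ p ∈ S, p.Prime ∧ p ≤ z) (hT : ∀ p ∈ T, p.Prime ∧ p ≤ z) (hV : ∀ p ∈ V, p.Prime ∧ p ≤ z)
    (hV8 : (∏ p ∈ V, p) ^ 8 ≤ X) (hg : GoodAB α β γ R z X m σ₁ σ₂ S T V) :
    ∑ x ∈ Q z X (2 ^ K - 1) (∏ p ∈ T, p) (pr R (S ∪ V)) (τA β α γ m σ₂ (∏ p ∈ T, p) S),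
      ((Q z X (N / (w * ((∏ p ∈ S, p) * ((∏ p ∈ T, p) * x)))) (∏ p ∈ S, p) (pr R (T ∪ V))
        (τA α β γ m σ₁ (∏ p ∈ S, p) T)).card : ℝ) ≤
      (2 * Cs ^ 2 * N * K / (Real.log z) ^ 2) * ((1 / w) * ((1 / ∏ p ∈ S, (p : ℝ)) *
        (1 / ∏ p ∈ T, (p : ℝ)) * ((1 / 2 ^ (pr R (T ∪ V)).card) *
          (1 / 2 ^ (pr R (S ∪ V)).card)))) := by
  obtain ⟨g1, g2, g3, g4, -⟩ := hg
  have hSpos : 0 < ∏ p ∈ S, p := prod_pos fun p hp => (hS p hp).1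
  have hTpos : 0 < ∏ p ∈ T, p := prod_pos fun p hp => (hT p hp).1
  have hne2 : ∀ S : Finset ℕ, ∀ p ∈ pr R S, p ≠ 2 := fun S p hp h => by
    rw [h] at hp
    exact (mem_pr.1 hp).2 h2
  have hin := inner hC0 hC (K := K) (N := N) (w := w) hz (P1 := pr R (T ∪ V))
    (P2 := pr R (S ∪ V)) (τ1 := τA α β γ m σ₁ (∏ p ∈ S, p) T)
    (τ2 := τA β α γ m σ₂ (∏ p ∈ T, p) S) (fun p hp => by
      rcases mem_union.1 (mem_pr.1 hp).1 with h | h
      · exact ⟨(hT p h).1, hne2 _ p hp, (hT p h).2, g3 p hp⟩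
      · exact ⟨(hV p h).1, hne2 _ p hp, (hV p h).2, g3 p hp⟩) (fun p hp => by
      rcases mem_union.1 (mem_pr.1 hp).1 with h | h
      · exact ⟨(hS p h).1, hne2 _ p hp, (hS p h).2, g4 p hp⟩
      · exact ⟨(hV p h).1, hne2 _ p hp, (hV p h).2, g4 p hp⟩) hSpos hTpos
    (smooth_bound (fun p hp => (hT p hp).1) (fun p hp => (hV p hp).1) R g1 g2 hV8 hzX)
    (smooth_bound (fun p hp => (hS p hp).1) (fun p hp => (hV p hp).1) R g2 g1 hV8 hzX)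
  refine hin.trans (le_of_eq ?_)
  push_cast
  rw [pow_add]
  simp only [div_eq_mul_inv, mul_inv, one_mul]
  ring

/-- the products with given smooth parts -/
noncomputable def UT (α β γ : ℤ) (R z X K N : ℕ) (m c σ₁ σ₂ : ℤ) (S T V : Finset ℕ) : Finset ℤ :=
  (Q z X (2 ^ K - 1) (∏ p ∈ T, p) (pr R (S ∪ V)) (τA β α γ m σ₂ (∏ p ∈ T, p) S)).biUnion fun b' =>
    (Q z X (N / (m.natAbs * c.natAbs * ((∏ p ∈ S, p) * ((∏ p ∈ T, p) * b'))))
        (∏ p ∈ S, p) (pr R (T ∪ V)) (τA α β γ m σ₁ (∏ p ∈ S, p) T)).image fun a' : ℕ =>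
      σ₁ * ((∏ p ∈ S, p : ℕ) * a') * (σ₂ * ((∏ p ∈ T, p : ℕ) * b')) * c * m

lemma card_UT {Cs : ℝ} (hC0 : 0 < Cs) (hC : SvBound Cs) {R z X K N : ℕ} (h2 : 2 ∣ R)
    (hz : 2 ≤ z) (hzX : z ^ 32 ≤ X ^ 5) {α β γ m c σ₁ σ₂ : ℤ} {S T V : Finset ℕ}
    (hS : ∀ p ∈ S, p.Prime ∧ p ≤ z) (hT : ∀ p ∈ T, p.Prime ∧ p ≤ z) (hV : ∀ p ∈ V, p.Prime ∧ p ≤ z)
    (hV8 : (∏ p ∈ V, p) ^ 8 ≤ X) (hg : GoodAB α β γ R z X m σ₁ σ₂ S T V) :
    ((UT α β γ R z X K N m c σ₁ σ₂ S T V).card : ℝ) ≤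
      (2 * Cs ^ 2 * N * K / (Real.log z) ^ 2) * ((1 / (m.natAbs * c.natAbs : ℕ)) *
        ((1 / ∏ p ∈ S, (p : ℝ)) * (1 / ∏ p ∈ T, (p : ℝ)) * ((1 / 2 ^ (pr R (T ∪ V)).card) *
          (1 / 2 ^ (pr R (S ∪ V)).card)))) := by
  refine le_trans (card_biUnion_le_real _ _ _ fun b' _ => ?_)
    (pair_le' hC0 hC (w := m.natAbs * c.natAbs) h2 hz hzX hS hT hV hV8 hg)
  exact_mod_cast Finset.card_image_le

/-- the twists with given smallest number and given `m` -/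
def SetII (α β γ : ℤ) (R k N m : ℕ) (c : ℤ) : Set ℤ :=
  {D : ℤ | D ≠ 0 ∧ |D| ≤ N ∧ sm (zk k) D ^ 8 ≤ Xk k ∧ ∃ a b : ℤ, D = a * b * c * m ∧
    Squarefree a ∧ Squarefree b ∧ L3 α β γ R a b c m ∧ (Xk k : ℤ) ≤ |b| ∧ |b| < Xk (k + 1) ∧
    |b| ≤ |a|}

theorem countII {α β γ : ℤ} {R : ℕ} (hR : 1 ≤ R) (h2 : 2 ∣ R) (h1R : β - α ∣ (R : ℤ))
    (h2R : γ - α ∣ (R : ℤ)) (h3R : γ - β ∣ (R : ℤ)) : ∃ C : ℝ, 0 < C ∧ ∀ k N m : ℕ, 600 ≤ k →
    ∀ c : ℤ, ((SetII α β γ R k N m c).ncard : ℝ) ≤ C * N * (2 ^ k / Real.log (zk k)) *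
      (1 / (m * c.natAbs)) *
      Real.exp (-(dl (zk k) ((α - γ) * m * c) + dl (zk k) ((β - γ) * m * c)) / 2) := by
  classical
  obtain ⟨Cs, hC0, hC⟩ := Pool.Agent.K7.H12.SV.main
  replace hC : SvBound Cs := hC
  obtain ⟨C2, hC20, hC2⟩ := mertens
  set ω := R.primeFactors.card with hω
  refine ⟨16 * Cs ^ 2 * 4 ^ ω * Real.exp (ω + C2), by positivity, fun k N m hk c => ?_⟩
  set z := zk k with hz
  set u0 : ℤ := (α - γ) * m * c with hu0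
  set u1 : ℤ := (β - γ) * m * c with hu1
  have hz2 : 2 ≤ z := two_le_zk k
  have hlog : 0 < Real.log z := log_zk_pos k
  let U : Finset ℤ := ({1, -1} : Finset ℤ).biUnion fun σ₁ => ({1, -1} : Finset ℤ).biUnion fun σ₂ =>
    (AL R z u0).powerset.biUnion fun S =>
    ((AL R z u1).powerset.filter fun T => GoodAB α β γ R z (Xk k) m σ₁ σ₂ S T ∅).biUnion fun T =>
      UT α β γ R z (Xk k) (2 ^ (k + 1)) N m c σ₁ σ₂ S T ∅
  set K₀ : ℝ := 2 * Cs ^ 2 * N * 2 ^ (k + 1) / (Real.log z) ^ 2 with hK₀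
  have hK₀0 : 0 ≤ K₀ := by positivity
  have hALp : ∀ (u : ℤ) (S : Finset ℕ), S ⊆ AL R z u → ∀ p ∈ S, p.Prime ∧ p ≤ z := by
    intro u S hS p hp
    exact mem_PP.1 (mem_AL.1 (hS hp)).1
  have hU : (U.card : ℝ) ≤ ∑ _σ₁ ∈ ({1, -1} : Finset ℤ), ∑ _σ₂ ∈ ({1, -1} : Finset ℤ),
      ∑ S ∈ (AL R z u0).powerset, ∑ T ∈ (AL R z u1).powerset,
        K₀ * (4 ^ ω / (m * c.natAbs)) * ((∏ p ∈ S, ((1 : ℝ) / 2 * (1 / p))) *
          ∏ p ∈ T, ((1 : ℝ) / 2 * (1 / p))) := by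
    refine card_biUnion_le_real _ _ _ fun σ₁ hσ₁ => card_biUnion_le_real _ _ _ fun σ₂ hσ₂ =>
      card_biUnion_le_real _ _ _ fun S hS => ?_
    have hSp := hALp u0 S (mem_powerset.1 hS)
    have hwt0 : ∀ S : Finset ℕ, (0 : ℝ) ≤ ∏ p ∈ S, ((1 : ℝ) / 2 * (1 / p)) := fun S =>
      Finset.prod_nonneg fun _ _ => by positivity
    refine le_trans (card_biUnion_le_real _ _ (fun T : Finset ℕ => K₀ * (4 ^ ω / (m * c.natAbs)) *
      ((∏ p ∈ S, ((1 : ℝ) / 2 * (1 / p))) * ∏ p ∈ T, ((1 : ℝ) / 2 * (1 / p)))) fun T hT => ?_) ?_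
    · obtain ⟨hT1, hg⟩ := mem_filter.1 hT
      have hTp := hALp u1 T (mem_powerset.1 hT1)
      have hX1 : (∏ p ∈ (∅ : Finset ℕ), p) ^ 8 ≤ Xk k := by
        rw [prod_empty, one_pow]
        exact Nat.one_le_two_pow
      refine (card_UT hC0 hC h2 hz2
        (zk_pow hk) hSp hTp (fun p hp => absurd hp (by simp)) hX1 hg).trans ?_
      · rw [prod_half, prod_half, Int.natAbs_natCast]
        have i1 := inv_pr hR fun p hp => (hSp p hp).1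
        have i2 := inv_pr hR fun p hp => (hTp p hp).1
        push_cast
        rw [union_empty, union_empty, ← hK₀]
        have hPS : 0 ≤ ∏ p ∈ S, (p : ℝ) := Finset.prod_nonneg fun p _ => Nat.cast_nonneg p
        have hPT : 0 ≤ ∏ p ∈ T, (p : ℝ) := Finset.prod_nonneg fun p _ => Nat.cast_nonneg p
        calc K₀ * ((1 / (m * c.natAbs)) * ((1 / ∏ p ∈ S, (p : ℝ)) * (1 / ∏ p ∈ T, (p : ℝ)) *
              ((1 / 2 ^ (pr R T).card) * (1 / 2 ^ (pr R S).card)))) ≤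
            K₀ * ((1 / (m * c.natAbs)) * ((1 / ∏ p ∈ S, (p : ℝ)) * (1 / ∏ p ∈ T, (p : ℝ)) *
              ((2 ^ ω * (1 / 2 ^ T.card)) * (2 ^ ω * (1 / 2 ^ S.card))))) := by gcongr
          _ = _ := by
              have h4 : (4 : ℝ) ^ ω = 2 ^ ω * 2 ^ ω := by rw [← mul_pow]; norm_num
              rw [h4]
              simp only [div_eq_mul_inv, mul_inv, one_mul]
              ring
    · refine Finset.sum_le_sum_of_subset_of_nonneg (Finset.filter_subset _ _) fun T _ _ => ?_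
      have := hwt0 S
      have := hwt0 T
      positivity
  have hsub : SetII α β γ R k N m c ⊆ (U : Set ℤ) := by
    rintro D ⟨hD0, hDN, hsm, a, b, hD, ha, hb, hL, hb1, hb2, hba⟩
    obtain ⟨σ₁, hσ₁, σ₂, hσ₂, S, T, a', b', hS, hT, hSa, hTb, hg, e1, e2, m1, m2⟩ :=
      tuple_ab (V := ∅) h1R h2R h3R hD0 hDN hsm hD ha hb hL hb1 (K := 2 ^ (k + 1)) hb2 hba
        (fun p hp => absurd hp (by simp))
    rw [mem_coe]
    refine mem_biUnion.2 ⟨σ₁, hσ₁, mem_biUnion.2 ⟨σ₂, hσ₂, mem_biUnion.2 ⟨S, mem_powerset.2 ?_,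
      mem_biUnion.2 ⟨T, mem_filter.2 ⟨mem_powerset.2 ?_, hg⟩, ?_⟩⟩⟩⟩
    · intro p hp
      refine mem_AL.2 ⟨hS hp, ?_⟩
      by_cases hpR : p ∣ R
      · exact Or.inl hpR
      · exact Or.inr (hL.1 p (mem_PP.1 (hS hp)).1 (hSa p hp) hpR).2.2.2.2
    · intro p hp
      refine mem_AL.2 ⟨hT hp, ?_⟩
      by_cases hpR : p ∣ R
      · exact Or.inl hpR
      · exact Or.inr (hL.2.1 p (mem_PP.1 (hT hp)).1 (hTb p hp) hpR).2.2.2.2
    · exact mem_biUnion.2 ⟨b', m1, mem_image.2 ⟨a', m2, by rw [hD, e1, e2]⟩⟩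
  have hcard : ((SetII α β γ R k N m c).ncard : ℝ) ≤ U.card := by
    rw [← Set.ncard_coe_finset U, Nat.cast_le]
    exact Set.ncard_le_ncard hsub (Finset.finite_toSet U)
  have hc2 : ({1, -1} : Finset ℤ).card = 2 := by decide
  have hexp : ∀ u : ℤ, ∑ S ∈ (AL R z u).powerset, ∏ p ∈ S, ((1 : ℝ) / 2 * (1 / p)) ≤
      Real.exp ((MM z - dl z u + ω) / 2) := by
    intro u
    refine (sum_powerset_le (A := AL R z u) (fun p : ℕ => (1 : ℝ) / 2 * (1 / p))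
      (fun p => by positivity)).trans (Real.exp_le_exp.2 ?_)
    rw [← mul_sum]
    have := sum_AL hR z u
    linarith
  have hMM := (abs_le.1 (hC2 z hz2)).2
  calc _ ≤ (U.card : ℝ) := hcard
    _ ≤ _ := hU
    _ = 4 * (K₀ * (4 ^ ω / (m * c.natAbs))) *
        ((∑ S ∈ (AL R z u0).powerset, ∏ p ∈ S, ((1 : ℝ) / 2 * (1 / p))) *
          ∑ T ∈ (AL R z u1).powerset, ∏ p ∈ T, ((1 : ℝ) / 2 * (1 / p))) := by
        rw [sum_const, sum_const, hc2, nsmul_eq_mul, nsmul_eq_mul, Finset.sum_mul_sum]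
        simp only [← mul_sum]
        push_cast
        ring
    _ ≤ 4 * (K₀ * (4 ^ ω / (m * c.natAbs))) *
        (Real.exp ((MM z - dl z u0 + ω) / 2) * Real.exp ((MM z - dl z u1 + ω) / 2)) := by
        have i1 := hexp u0
        have i2 := hexp u1
        have i3 : (0 : ℝ) ≤ ∑ S ∈ (AL R z u1).powerset, ∏ p ∈ S, ((1 : ℝ) / 2 * (1 / p)) :=
          sum_nonneg fun _ _ => Finset.prod_nonneg fun _ _ => by positivity
        gcongr
    _ ≤ 4 * (K₀ * (4 ^ ω / (m * c.natAbs))) *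
        (Real.exp (ω + C2) * Real.log z * Real.exp (-(dl z u0 + dl z u1) / 2)) := by
        have h5 : Real.exp ((MM z - dl z u0 + ω) / 2) * Real.exp ((MM z - dl z u1 + ω) / 2) ≤
            Real.exp (ω + C2) * Real.log z * Real.exp (-(dl z u0 + dl z u1) / 2) := by
          rw [← Real.exp_log hlog, ← Real.exp_add, ← Real.exp_add, ← Real.exp_add]
          refine Real.exp_le_exp.2 ?_
          linarith
        gcongr
    _ = _ := by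
        rw [hK₀]
        push_cast
        rw [pow_succ]
        have : Real.log z * (Real.log z)⁻¹ = 1 := mul_inv_cancel₀ hlog.ne'
        simp only [div_eq_mul_inv, mul_inv, one_mul]
        linear_combination (16 * Cs ^ 2 * N * 2 ^ k * (Real.log z)⁻¹ * 4 ^ ω * (m : ℝ)⁻¹ *
          (c.natAbs : ℝ)⁻¹ * Real.exp (ω + C2) *
          Real.exp (-(dl z u0 + dl z u1) * 2⁻¹)) * this

end Pool.Agent.H64.FT
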