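import Mathlib
import Pool.Agent.H64.FT.A5

/-!
# The count with large smallest number
-/

set_option autoImplicit false

namespace Pool.Agent.H64.FT

open Finset Pool.Agent.K7.H26.BL Pool.Agent.K7.H23.PT

lemma inv_pr2 {R : ℕ} (hR : 1 ≤ R) {S T : Finset ℕ} (hS : ∀ p ∈ S, p.Prime)
    (hT : ∀ p ∈ T, p.Prime) (hST : ∀ p ∈ T, p ∉ pr R S) :
    (1 : ℝ) / 2 ^ (pr R (S ∪ T)).card ≤ (2 ^ R.primeFactors.card * (1 / 2 ^ S.card)) *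
      (2 ^ R.primeFactors.card * (1 / 2 ^ T.card)) := by
  have h1 : pr R (S ∪ T) = pr R S ∪ pr R T := by
    unfold pr
    exact filter_union _ _ _
  have h2 : Disjoint (pr R S) (pr R T) := by
    rw [disjoint_left]
    intro p hp hp'
    exact hST p (mem_pr.1 hp').1 hp
  rw [h1, card_union_of_disjoint h2, pow_add, ← one_div_mul_one_div]
  have i1 := inv_pr hR hS
  have i2 := inv_pr hR hT
  gcongr

/-- the part of a set below `w` -/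
def lo (w : ℕ) (S : Finset ℕ) : Finset ℕ := S.filter fun p => p ≤ w

lemma mem_lo {w : ℕ} {S : Finset ℕ} {p : ℕ} : p ∈ lo w S ↔ p ∈ S ∧ p ≤ w := by
  rw [lo, mem_filter]

/-- the weight of a prime -/
noncomputable def gw (w p : ℕ) : ℝ := if p ≤ w then 1 / 4 * (1 / (p : ℝ)) else 1 / 2 * (1 / (p : ℝ))

lemma gw_nonneg (w p : ℕ) : 0 ≤ gw w p := by
  unfold gw
  split_ifs <;> positivity

lemma prod_gw (w : ℕ) (S : Finset ℕ) : ∏ p ∈ S, gw w p =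
    (1 / ∏ p ∈ S, (p : ℝ)) * ((1 / 2 ^ S.card) * (1 / 2 ^ (lo w S).card)) := by
  have h1 : ∀ p ∈ S, gw w p = (1 / (p : ℝ)) * ((1 / 2) * (if p ≤ w then (1 / 2 : ℝ) else 1)) := by
    intro p _
    unfold gw
    split_ifs <;> ring
  rw [prod_congr rfl h1, prod_mul_distrib, prod_mul_distrib, prod_const, prod_ite, prod_const,
    prod_const_one, mul_one, one_div_pow, one_div_pow, prod_div_distrib, prod_const_one]
  rfl

lemma prod_quarter (S : Finset ℕ) : ∏ p ∈ S, ((1 : ℝ) / 4 * (1 / (p : ℝ))) =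
    (1 / ∏ p ∈ S, (p : ℝ)) * ((1 / 2 ^ S.card) * (1 / 2 ^ S.card)) := by
  rw [prod_mul_distrib, prod_const, prod_div_distrib, prod_const_one, one_div_pow, mul_comm]
  congr 1
  rw [div_mul_div_comm, one_mul, ← mul_pow]
  norm_num

lemma sum_gw {w z : ℕ} (h : w ≤ z) : ∑ p ∈ PP z, gw w p = MM z / 2 - MM w / 4 := by
  classical
  have h1 : ∀ p ∈ PP z, gw w p = 1 / 2 * (1 / (p : ℝ)) - if p ≤ w then 1 / 4 * (1 / (p : ℝ)) else 0 := by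
    intro p _
    unfold gw
    split_ifs <;> ring
  rw [sum_congr rfl h1, sum_sub_distrib, ← mul_sum, ← sum_filter]
  have h2 : (PP z).filter (fun p => p ≤ w) = PP w := by
    ext p
    rw [mem_filter, mem_PP, mem_PP]
    constructor
    · rintro ⟨⟨h3, h4⟩, h5⟩
      exact ⟨h3, h5⟩
    · rintro ⟨h3, h4⟩
      exact ⟨⟨h3, h4.trans h⟩, h4⟩
  rw [h2, ← mul_sum]
  unfold MM
  ring

/-- the twists with large smallest number, `m` is given -/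
def SetI (α β γ : ℤ) (R k j N m : ℕ) : Set ℤ :=
  {D : ℤ | D ≠ 0 ∧ |D| ≤ N ∧ sm (zk k) D ^ 8 ≤ Xk k ∧ sm (zk j) D ^ 8 ≤ Xk j ∧
    ∃ a b c : ℤ, D = a * b * c * m ∧ Squarefree a ∧ Squarefree b ∧ Squarefree c ∧
      L3 α β γ R a b c m ∧ (Xk k : ℤ) ≤ |b| ∧ |b| < Xk (k + 1) ∧ |b| ≤ |a| ∧
      (Xk j : ℤ) ≤ |c| ∧ |c| < Xk (j + 1)}

/-- the conditions for the smooth part of the smallest number -/
def GoodC (α β γ : ℤ) (R w X : ℕ) (m σ : ℤ) (S T V : Finset ℕ) : Prop :=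
  (∏ p ∈ V, p) ^ 8 ≤ X ∧ (∏ p ∈ lo w S, p) ^ 8 ≤ X ∧ (∏ p ∈ lo w T, p) ^ 8 ≤ X ∧
    ∀ p ∈ pr R (lo w S ∪ lo w T), ¬ (p : ℤ) ∣ τA γ α β m σ (∏ p ∈ V, p) (lo w S) p

/-- the products with given smooth parts -/
noncomputable def UV (α β γ : ℤ) (R z w X Y K J N : ℕ) (m σ₁ σ₂ σ₃ : ℤ) (S T V : Finset ℕ) :
    Finset ℤ :=
  (Q w Y (2 ^ J - 1) (∏ p ∈ V, p) (pr R (lo w S ∪ lo w T))
    (τA γ α β m σ₃ (∏ p ∈ V, p) (lo w S))).biUnion fun c' =>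
      UT α β γ R z X K N m (σ₃ * ((∏ p ∈ V, p : ℕ) * c')) σ₁ σ₂ S T V

lemma card_UV {Cs : ℝ} (hC0 : 0 < Cs) (hC : SvBound Cs) {R z w X Y K J N : ℕ} (hR : 1 ≤ R)
    (h2 : 2 ∣ R) (hz : 2 ≤ z) (hw : 2 ≤ w) (hwz : w ≤ z) (hYX : Y ≤ X) (hzX : z ^ 32 ≤ X ^ 5)
    (hwY : w ^ 32 ≤ Y ^ 5) {α β γ m σ₁ σ₂ σ₃ : ℤ} (hσ₃ : σ₃ ∈ ({1, -1} : Finset ℤ))
    {S T V : Finset ℕ}
    (hS : ∀ p ∈ S, p.Prime ∧ p ≤ z) (hT : ∀ p ∈ T, p.Prime ∧ p ≤ z) (hV : ∀ p ∈ V, p.Prime ∧ p ≤ w)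
    (hg : GoodAB α β γ R z X m σ₁ σ₂ S T V) (hg' : GoodC α β γ R w Y m σ₃ S T V) :
    ((UV α β γ R z w X Y K J N m σ₁ σ₂ σ₃ S T V).card : ℝ) ≤
      (2 * Cs ^ 2 * N * K / (Real.log z) ^ 2) * (2 * Cs * J / Real.log w) *
        (64 ^ R.primeFactors.card * (1 / m.natAbs)) *
        ((∏ p ∈ V, ((1 : ℝ) / 4 * (1 / (p : ℝ)))) * ((∏ p ∈ S, gw w p) * ∏ p ∈ T, gw w p)) := by
  have hlog : 0 < Real.log z := Real.log_pos (by exact_mod_cast hz)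
  have hlogw : 0 < Real.log w := Real.log_pos (by exact_mod_cast hw)
  obtain ⟨v8, s8, t8, hτ⟩ := hg'
  have hVpos : 0 < ∏ p ∈ V, p := prod_pos fun p hp => (hV p hp).1
  have hPS : 0 ≤ ∏ p ∈ S, (p : ℝ) := Finset.prod_nonneg fun p _ => Nat.cast_nonneg p
  have hPT : 0 ≤ ∏ p ∈ T, (p : ℝ) := Finset.prod_nonneg fun p _ => Nat.cast_nonneg p
  have hPV : 0 ≤ ∏ p ∈ V, (p : ℝ) := Finset.prod_nonneg fun p _ => Nat.cast_nonneg p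
  set K₀ : ℝ := 2 * Cs ^ 2 * N * K / (Real.log z) ^ 2 with hK₀
  have hK₀0 : 0 ≤ K₀ := by positivity
  have hSp : ∀ p ∈ S, p.Prime := fun p hp => (hS p hp).1
  have hTp : ∀ p ∈ T, p.Prime := fun p hp => (hT p hp).1
  have hVp : ∀ p ∈ V, p.Prime := fun p hp => (hV p hp).1
  obtain ⟨-, -, -, -, d1, d2, d3, -⟩ := id hg
  have iTV := inv_pr2 hR hTp hVp d3
  have iSV := inv_pr2 hR hSp hVp d2
  have iST := inv_pr2 hR (S := lo w S) (T := lo w T) (fun p hp => hSp p (mem_lo.1 hp).1)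
    (fun p hp => hTp p (mem_lo.1 hp).1) (fun p hp h => d1 p (mem_lo.1 hp).1
      (mem_pr.2 ⟨(mem_lo.1 (mem_pr.1 h).1).1, (mem_pr.1 h).2⟩))
  set ω := R.primeFactors.card with hω
  set L : Finset ℕ := Q w Y (2 ^ J - 1) (∏ p ∈ V, p) (pr R (lo w S ∪ lo w T))
    (τA γ α β m σ₃ (∏ p ∈ V, p) (lo w S)) with hL
  have hterm : ∀ c' ∈ L, ((UT α β γ R z X K N m (σ₃ * ((∏ p ∈ V, p : ℕ) * c')) σ₁ σ₂ S T V).card : ℝ) ≤
      K₀ * ((1 / m.natAbs) * (1 / ∏ p ∈ V, (p : ℝ)) * ((1 / ∏ p ∈ S, (p : ℝ)) *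
        (1 / ∏ p ∈ T, (p : ℝ)) * ((1 / 2 ^ (pr R (T ∪ V)).card) *
          (1 / 2 ^ (pr R (S ∪ V)).card)))) * (1 / (c' : ℝ)) := by
    intro c' _
    refine (card_UT hC0 hC h2 hz hzX hS hT (fun p hp => ⟨(hV p hp).1, (hV p hp).2.trans hwz⟩)
      (v8.trans hYX) hg).trans (le_of_eq ?_)
    have h3 : (σ₃ * (((∏ p ∈ V, p : ℕ) : ℤ) * (c' : ℤ))).natAbs = (∏ p ∈ V, p) * c' := by
      rw [Int.natAbs_mul, Int.natAbs_mul, Int.natAbs_natCast, Int.natAbs_natCast]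
      have h4 : σ₃.natAbs = 1 := by
        rcases (by simpa using hσ₃ : σ₃ = 1 ∨ σ₃ = -1) with rfl | rfl <;> rfl
      rw [h4, one_mul]
    rw [h3, ← hK₀]
    push_cast
    simp only [div_eq_mul_inv, mul_inv, one_mul]
    ring
  have hsumL : ∑ c' ∈ L, (1 : ℝ) / c' ≤ (2 * Cs * J / Real.log w) *
      (1 / 2 ^ (pr R (lo w S ∪ lo w T)).card) := by
    have h5 := sum_Q hC0 hC (K := J) (X := Y) (u := ∏ p ∈ V, p)
      (τ := τA γ α β m σ₃ (∏ p ∈ V, p) (lo w S)) hw (P := pr R (lo w S ∪ lo w T)) (fun p hp => by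
        have hp' := mem_union.1 (mem_pr.1 hp).1
        have hne : p ≠ 2 := fun h => (mem_pr.1 hp).2 (h ▸ h2)
        rcases hp' with h | h
        · exact ⟨hSp p (mem_lo.1 h).1, hne, (mem_lo.1 h).2, hτ p hp⟩
        · exact ⟨hTp p (mem_lo.1 h).1, hne, (mem_lo.1 h).2, hτ p hp⟩) hVpos
      (smooth_bound (fun p hp => hSp p (mem_lo.1 hp).1) (fun p hp => hTp p (mem_lo.1 hp).1) R v8
        s8 t8 hwY)
    refine h5.trans (le_of_eq ?_)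
    simp only [div_eq_mul_inv, mul_inv, one_mul]
    ring
  calc ((UV α β γ R z w X Y K J N m σ₁ σ₂ σ₃ S T V).card : ℝ) ≤
      ∑ c' ∈ L, K₀ * ((1 / m.natAbs) * (1 / ∏ p ∈ V, (p : ℝ)) * ((1 / ∏ p ∈ S, (p : ℝ)) *
        (1 / ∏ p ∈ T, (p : ℝ)) * ((1 / 2 ^ (pr R (T ∪ V)).card) *
          (1 / 2 ^ (pr R (S ∪ V)).card)))) * (1 / (c' : ℝ)) :=
        card_biUnion_le_real _ _ _ hterm
    _ = K₀ * ((1 / m.natAbs) * (1 / ∏ p ∈ V, (p : ℝ)) * ((1 / ∏ p ∈ S, (p : ℝ)) *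
        (1 / ∏ p ∈ T, (p : ℝ)) * ((1 / 2 ^ (pr R (T ∪ V)).card) *
          (1 / 2 ^ (pr R (S ∪ V)).card)))) * ∑ c' ∈ L, (1 : ℝ) / c' := (mul_sum _ _ _).symm
    _ ≤ K₀ * ((1 / m.natAbs) * (1 / ∏ p ∈ V, (p : ℝ)) * ((1 / ∏ p ∈ S, (p : ℝ)) *
        (1 / ∏ p ∈ T, (p : ℝ)) * (((2 ^ ω * (1 / 2 ^ T.card)) * (2 ^ ω * (1 / 2 ^ V.card))) *
          ((2 ^ ω * (1 / 2 ^ S.card)) * (2 ^ ω * (1 / 2 ^ V.card)))))) *
        ((2 * Cs * J / Real.log w) * ((2 ^ ω * (1 / 2 ^ (lo w S).card)) *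
          (2 ^ ω * (1 / 2 ^ (lo w T).card)))) := by
        have h6 : ∑ c' ∈ L, (1 : ℝ) / c' ≤ (2 * Cs * J / Real.log w) *
            ((2 ^ ω * (1 / 2 ^ (lo w S).card)) * (2 ^ ω * (1 / 2 ^ (lo w T).card))) := by
          refine hsumL.trans ?_
          gcongr
        gcongr
    _ = _ := by
        rw [prod_gw, prod_gw, prod_quarter]
        have h4 : (64 : ℝ) ^ ω = 2 ^ ω * 2 ^ ω * 2 ^ ω * 2 ^ ω * 2 ^ ω * 2 ^ ω := by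
          rw [← mul_pow, ← mul_pow, ← mul_pow, ← mul_pow, ← mul_pow]
          norm_num
        rw [h4]
        ring

end Pool.Agent.H64.FT
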