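import Mathlib
import Pool.Agent.H64.FT.A6

/-!
# The count with large smallest number: the sum
-/

set_option autoImplicit false

namespace Pool.Agent.H64.FT

open Finset Pool.Agent.K7.H26.BL Pool.Agent.K7.H23.PT

open Classical in
/-- the covering set -/
noncomputable def UI (α β γ : ℤ) (R k j N m : ℕ) : Finset ℤ :=
  ({1, -1} : Finset ℤ).biUnion fun σ₁ => ({1, -1} : Finset ℤ).biUnion fun σ₂ =>
  ({1, -1} : Finset ℤ).biUnion fun σ₃ => (PP (zk j)).powerset.biUnion fun V =>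
  (PP (zk k)).powerset.biUnion fun S =>
  ((PP (zk k)).powerset.filter fun T => GoodAB α β γ R (zk k) (Xk k) m σ₁ σ₂ S T V ∧
    GoodC α β γ R (zk j) (Xk j) m σ₃ S T V).biUnion fun T =>
      UV α β γ R (zk k) (zk j) (Xk k) (Xk j) (2 ^ (k + 1)) (2 ^ (j + 1)) N m σ₁ σ₂ σ₃ S T V

lemma setI_sub {α β γ : ℤ} {R : ℕ} (h1R : β - α ∣ (R : ℤ))
    (h2R : γ - α ∣ (R : ℤ)) (h3R : γ - β ∣ (R : ℤ)) {k j N m : ℕ} (hjk : j ≤ k) :
    SetI α β γ R k j N m ⊆ (UI α β γ R k j N m : Set ℤ) := by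
  classical
  rintro D ⟨hD0, hDN, hsm, hsmj, a, b, c, hD, ha, hb, hc, hL, hb1, hb2, hba, hc1, hc2⟩
  obtain ⟨σ₃, hσ₃, V, c', hV, hc3, hc4, hc5, hc6, hc7⟩ := split_int hc (zk j)
  have hzz := zk_mono hjk
  have hVp : ∀ p ∈ V, p.Prime := fun p hp => (mem_PP.1 (hV hp)).1
  obtain ⟨σ₁, hσ₁, σ₂, hσ₂, S, T, a', b', hS, hT, hSa, hTb, hg, e1, e2, m1, m2⟩ :=
    tuple_ab (V := V) h1R h2R h3R hD0 hDN hsm hD ha hb hL hb1 (K := 2 ^ (k + 1)) hb2 hba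
      (fun p hp => ⟨hVp p hp, hc7 p hp⟩)
  have hSp : ∀ p ∈ S, p.Prime := fun p hp => (mem_PP.1 (hS hp)).1
  have hTp : ∀ p ∈ T, p.Prime := fun p hp => (mem_PP.1 (hT hp)).1
  have hloS : lo (zk j) S ⊆ PP (zk j) := fun p hp =>
    mem_PP.2 ⟨hSp p (mem_lo.1 hp).1, (mem_lo.1 hp).2⟩
  have hloT : lo (zk j) T ⊆ PP (zk j) := fun p hp =>
    mem_PP.2 ⟨hTp p (mem_lo.1 hp).1, (mem_lo.1 hp).2⟩
  have hsV := prod_le_sm hD0 hV fun p hp => (hc7 p hp).trans ⟨a * b * m, by rw [hD]; ring⟩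
  have hsS := prod_le_sm hD0 hloS fun p hp =>
    (hSa p (mem_lo.1 hp).1).trans ⟨b * c * m, by rw [hD]; ring⟩
  have hsT := prod_le_sm hD0 hloT fun p hp =>
    (hTb p (mem_lo.1 hp).1).trans ⟨a * c * m, by rw [hD]; ring⟩
  have h4R : α - γ ∣ (R : ℤ) := by
    rw [← neg_sub]
    exact (neg_dvd).2 h2R
  have h5R : β - γ ∣ (R : ℤ) := by
    rw [← neg_sub]
    exact (neg_dvd).2 h3R
  have cC := cond (m := m) h4R h5R hL.1.swap hL.2.1.swap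
    (fun p hp => ⟨hSp p (mem_lo.1 hp).1, hSa p (mem_lo.1 hp).1⟩)
    (fun p hp => ⟨hTp p (mem_lo.1 hp).1, hTb p (mem_lo.1 hp).1⟩) hc3
    (T := lo (zk j) S) (V := lo (zk j) T)
  rw [Int.abs_eq_natAbs, hc6] at hc1 hc2
  have hc1' : Xk j ≤ (∏ p ∈ V, p) * c' := by exact_mod_cast hc1
  have hc2' : (∏ p ∈ V, p) * c' < Xk (j + 1) := by exact_mod_cast hc2
  have hVpos : 0 < ∏ p ∈ V, p := prod_pos hVp
  rw [mem_coe]
  refine mem_biUnion.2 ⟨σ₁, hσ₁, mem_biUnion.2 ⟨σ₂, hσ₂, mem_biUnion.2 ⟨σ₃, hσ₃,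
    mem_biUnion.2 ⟨V, mem_powerset.2 hV, mem_biUnion.2 ⟨S, mem_powerset.2 hS,
    mem_biUnion.2 ⟨T, mem_filter.2 ⟨mem_powerset.2 hT, hg, ?_⟩, mem_biUnion.2 ⟨c', ?_, ?_⟩⟩⟩⟩⟩⟩⟩
  · exact ⟨(Nat.pow_le_pow_left hsV 8).trans hsmj, (Nat.pow_le_pow_left hsS 8).trans hsmj,
      (Nat.pow_le_pow_left hsT 8).trans hsmj, fun p hp => (cC p hp).1⟩
  · rw [mem_Q]
    refine ⟨⟨hc5, ?_⟩, hc4, hc1', fun p hp => (cC p hp).2⟩
    have h1 := Nat.le_mul_of_pos_left c' hVpos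
    unfold Xk at hc2'
    omega
  · rw [← hc3]
    exact mem_biUnion.2 ⟨b', m1, mem_image.2 ⟨a', m2, by rw [hD, e1, e2]⟩⟩

lemma sum3 (A B : Finset (Finset ℕ)) (K : ℝ) (f g : Finset ℕ → ℝ) :
    ∑ V ∈ A, ∑ S ∈ B, ∑ T ∈ B, K * (f V * (g S * g T)) =
      K * ((∑ V ∈ A, f V) * ((∑ S ∈ B, g S) * ∑ T ∈ B, g T)) := by
  simp only [← mul_sum, ← sum_mul]

theorem countI {α β γ : ℤ} {R : ℕ} (hR : 1 ≤ R) (h2 : 2 ∣ R) (h1R : β - α ∣ (R : ℤ))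
    (h2R : γ - α ∣ (R : ℤ)) (h3R : γ - β ∣ (R : ℤ)) : ∃ C : ℝ, 0 < C ∧ ∀ k j N m : ℕ, 600 ≤ j →
    j ≤ k → ((SetI α β γ R k j N m).ncard : ℝ) ≤ C * N * (2 ^ k * 2 ^ j) * (1 / m) *
      Real.exp (-Real.log (Real.log (zk k)) - 5 / 4 * Real.log (Real.log (zk j))) := by
  classical
  obtain ⟨Cs, hC0, hC⟩ := Pool.Agent.K7.H12.SV.main
  replace hC : SvBound Cs := hC
  obtain ⟨C2, hC20, hC2⟩ := mertens
  set ω := R.primeFactors.card with hω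
  refine ⟨128 * Cs ^ 3 * 64 ^ ω * Real.exp (2 * C2), by positivity, fun k j N m hj hjk => ?_⟩
  set z := zk k with hz
  set w := zk j with hw
  have hz2 : 2 ≤ z := two_le_zk k
  have hw2 : 2 ≤ w := two_le_zk j
  have hlog : 0 < Real.log z := log_zk_pos k
  have hlogw : 0 < Real.log w := log_zk_pos j
  have hwz : w ≤ z := zk_mono hjk
  set K₀ : ℝ := (2 * Cs ^ 2 * N * (2 ^ (k + 1) : ℕ) / (Real.log z) ^ 2) *
    (2 * Cs * (2 ^ (j + 1) : ℕ) / Real.log w) * (64 ^ ω * (1 / (m : ℤ).natAbs)) with hK₀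
  have hK₀0 : 0 ≤ K₀ := by positivity
  set U := UI α β γ R k j N m with hU'
  have hwt0 : ∀ V S T : Finset ℕ, (0 : ℝ) ≤ K₀ * ((∏ p ∈ V, ((1 : ℝ) / 4 * (1 / (p : ℝ)))) *
      ((∏ p ∈ S, gw w p) * ∏ p ∈ T, gw w p)) := by
    intro V S T
    have i1 : (0 : ℝ) ≤ ∏ p ∈ V, ((1 : ℝ) / 4 * (1 / (p : ℝ))) :=
      Finset.prod_nonneg fun _ _ => by positivity
    have i2 : (0 : ℝ) ≤ ∏ p ∈ S, gw w p := Finset.prod_nonneg fun _ _ => gw_nonneg _ _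
    have i3 : (0 : ℝ) ≤ ∏ p ∈ T, gw w p := Finset.prod_nonneg fun _ _ => gw_nonneg _ _
    positivity
  have hU : (U.card : ℝ) ≤ ∑ _σ₁ ∈ ({1, -1} : Finset ℤ), ∑ _σ₂ ∈ ({1, -1} : Finset ℤ),
      ∑ _σ₃ ∈ ({1, -1} : Finset ℤ), ∑ V ∈ (PP w).powerset, ∑ S ∈ (PP z).powerset,
      ∑ T ∈ (PP z).powerset, K₀ * ((∏ p ∈ V, ((1 : ℝ) / 4 * (1 / (p : ℝ)))) *
        ((∏ p ∈ S, gw w p) * ∏ p ∈ T, gw w p)) := by
    refine card_biUnion_le_real _ _ _ fun σ₁ hσ₁ => card_biUnion_le_real _ _ _ fun σ₂ hσ₂ =>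
      card_biUnion_le_real _ _ _ fun σ₃ hσ₃ => card_biUnion_le_real _ _ _ fun V hV =>
      card_biUnion_le_real _ _ _ fun S hS => ?_
    have hVp : ∀ p ∈ V, p.Prime ∧ p ≤ w := fun p hp => mem_PP.1 (mem_powerset.1 hV hp)
    have hSp : ∀ p ∈ S, p.Prime ∧ p ≤ z := fun p hp => mem_PP.1 (mem_powerset.1 hS hp)
    refine le_trans (card_biUnion_le_real _ _ (fun T : Finset ℕ => K₀ *
      ((∏ p ∈ V, ((1 : ℝ) / 4 * (1 / (p : ℝ)))) *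
        ((∏ p ∈ S, gw w p) * ∏ p ∈ T, gw w p))) fun T hT => ?_) ?_
    · obtain ⟨hT1, hg, hg'⟩ := mem_filter.1 hT
      have hTp : ∀ p ∈ T, p.Prime ∧ p ≤ z := fun p hp => mem_PP.1 (mem_powerset.1 hT1 hp)
      exact card_UV hC0 hC hR h2 hz2 hw2 hwz (Xk_mono hjk) (zk_pow (hj.trans hjk)) (zk_pow hj)
        hσ₃ hSp hTp hVp hg hg'
    · exact Finset.sum_le_sum_of_subset_of_nonneg (Finset.filter_subset _ _) fun T _ _ =>
        hwt0 V S T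
  have hcard : ((SetI α β γ R k j N m).ncard : ℝ) ≤ U.card := by
    rw [← Set.ncard_coe_finset U, Nat.cast_le]
    exact Set.ncard_le_ncard (setI_sub h1R h2R h3R hjk) (Finset.finite_toSet U)
  have hc2 : ({1, -1} : Finset ℤ).card = 2 := by decide
  have e1 : ∑ S ∈ (PP z).powerset, ∏ p ∈ S, gw w p ≤ Real.exp (MM z / 2 - MM w / 4) := by
    rw [← sum_gw hwz]
    exact sum_powerset_le _ (gw_nonneg w)
  have e2 : ∑ V ∈ (PP w).powerset, ∏ p ∈ V, ((1 : ℝ) / 4 * (1 / (p : ℝ))) ≤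
      Real.exp (MM w / 4) := by
    refine (sum_powerset_le (A := PP w) (fun p : ℕ => (1 : ℝ) / 4 * (1 / (p : ℝ)))
      (fun p => by positivity)).trans (le_of_eq ?_)
    rw [← mul_sum]
    unfold MM
    congr 1
    ring
  have hMz := (abs_le.1 (hC2 z hz2)).2
  have hMw := (abs_le.1 (hC2 w hw2)).1
  calc _ ≤ (U.card : ℝ) := hcard
    _ ≤ _ := hU
    _ = 8 * K₀ * ((∑ V ∈ (PP w).powerset, ∏ p ∈ V, ((1 : ℝ) / 4 * (1 / (p : ℝ)))) *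
        ((∑ S ∈ (PP z).powerset, ∏ p ∈ S, gw w p) * ∑ T ∈ (PP z).powerset, ∏ p ∈ T, gw w p)) := by
        rw [sum_const, sum_const, sum_const, hc2, nsmul_eq_mul, nsmul_eq_mul, nsmul_eq_mul]
        rw [sum3 _ _ K₀ (fun V => ∏ p ∈ V, ((1 : ℝ) / 4 * (1 / (p : ℝ))))
          (fun S => ∏ p ∈ S, gw w p)]
        push_cast
        ring
    _ ≤ 8 * K₀ * (Real.exp (MM w / 4) * (Real.exp (MM z / 2 - MM w / 4) *
        Real.exp (MM z / 2 - MM w / 4))) := by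
        have i2 : (0 : ℝ) ≤ ∑ S ∈ (PP z).powerset, ∏ p ∈ S, gw w p :=
          sum_nonneg fun _ _ => Finset.prod_nonneg fun _ _ => gw_nonneg _ _
        gcongr
    _ ≤ 8 * K₀ * (Real.exp (2 * C2) * Real.exp (Real.log (Real.log z) -
        1 / 4 * Real.log (Real.log w))) := by
        rw [← Real.exp_add, ← Real.exp_add, ← Real.exp_add]
        refine mul_le_mul_of_nonneg_left (Real.exp_le_exp.2 ?_) (by positivity)
        linarith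
    _ = 128 * Cs ^ 3 * 64 ^ ω * Real.exp (2 * C2) * N * (2 ^ k * 2 ^ j) * (1 / m) *
        (Real.exp (Real.log (Real.log z) - 1 / 4 * Real.log (Real.log w)) *
          ((Real.log z)⁻¹ * (Real.log z)⁻¹ * (Real.log w)⁻¹)) := by
        rw [hK₀, Int.natAbs_natCast]
        push_cast
        rw [pow_succ, pow_succ]
        simp only [div_eq_mul_inv, one_mul]
        ring
    _ = _ := by
        congr 1
        rw [← Real.exp_log (inv_pos.2 hlog), ← Real.exp_log (inv_pos.2 hlogw), Real.log_inv,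
          Real.log_inv, ← Real.exp_add, ← Real.exp_add, ← Real.exp_add]
        congr 1
        ring

end Pool.Agent.H64.FT
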