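import Mathlib
import Pool.Agent.H64.FT.A7

/-!
# Numerical facts
-/

set_option autoImplicit false

namespace Pool.Agent.H64.FT

open Finset Pool.Agent.K7.H26.BL Pool.Agent.K7.H23.PT

lemma loglog_zk (k : ℕ) : Real.log (Real.log (zk k)) = ((k - k / 200 : ℕ) : ℝ) * Real.log 2 +
    Real.log (Real.log 2) := by
  have hl0 : (0 : ℝ) < Real.log 2 := Real.log_pos (by norm_num)
  rw [log_zk, Real.log_mul (by positivity) hl0.ne', Real.log_pow]

lemma cast_sub_div (k : ℕ) : (199 / 200 : ℝ) * k ≤ ((k - k / 200 : ℕ) : ℝ) := by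
  have h1 : 199 * k ≤ 200 * (k - k / 200) := by omega
  have h2 : ((199 * k : ℕ) : ℝ) ≤ ((200 * (k - k / 200) : ℕ) : ℝ) := by exact_mod_cast h1
  rw [Nat.cast_mul, Nat.cast_mul] at h2
  norm_num at h2 ⊢
  linarith

lemma two_pow_exp (k : ℕ) : (2 : ℝ) ^ k = Real.exp (k * Real.log 2) := by
  rw [mul_comm, ← Real.rpow_def_of_pos (by norm_num), Real.rpow_natCast]

lemma numI : ∃ C : ℝ, 0 < C ∧ ∀ k j : ℕ, k / 10 ≤ j → (2 : ℝ) ^ k * 2 ^ j *
    Real.exp (-Real.log (Real.log (zk k)) - 5 / 4 * Real.log (Real.log (zk j))) ≤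
    C * Real.exp (-(67 / 5000) * k) := by
  have hl2 := Real.log_two_gt_d9
  have hl0 : (0 : ℝ) < Real.log 2 := by linarith
  refine ⟨Real.exp (0.22 * Real.log 2 - 9 / 4 * Real.log (Real.log 2)), Real.exp_pos _,
    fun k j hj => ?_⟩
  rw [two_pow_exp, two_pow_exp, ← Real.exp_add, ← Real.exp_add, ← Real.exp_add, loglog_zk,
    loglog_zk]
  refine Real.exp_le_exp.2 ?_
  have h1 := cast_sub_div k
  have h2 := cast_sub_div j
  have h3 : (k : ℝ) ≤ 10 * j + 9 := by
    have : k ≤ 10 * j + 9 := by omega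
    exact_mod_cast this
  have h4 := mul_le_mul_of_nonneg_left h1 hl0.le
  have h5 := mul_le_mul_of_nonneg_left h2 hl0.le
  have h6 := mul_le_mul_of_nonneg_left h3 hl0.le
  have h7 : (0 : ℝ) ≤ k := Nat.cast_nonneg k
  have h8 : 0.6931 * (k : ℝ) ≤ Real.log 2 * k := mul_le_mul_of_nonneg_right (by linarith) h7
  nlinarith

lemma numII : ∃ C : ℝ, 0 < C ∧ ∀ k : ℕ, (2 : ℝ) ^ k / Real.log (zk k) *
    (Real.exp (-(k : ℝ) / 10) * (2 + 2 ^ (k / 10)) + 64 / 2 ^ k) ≤
    C * Real.exp (-(67 / 5000) * k) := by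
  have hl2 := Real.log_two_gt_d9
  have hl3 := Real.log_two_lt_d9
  have hl0 : (0 : ℝ) < Real.log 2 := by linarith
  refine ⟨67 * Real.exp (-Real.log (Real.log 2)), by positivity, fun k => ?_⟩
  have h7 : (0 : ℝ) ≤ k := Nat.cast_nonneg k
  have e1 : (2 : ℝ) ^ k / Real.log (zk k) ≤ Real.exp (Real.log 2 * (k / 200) -
      Real.log (Real.log 2)) := by
    rw [two_pow_exp, ← Real.exp_log (log_zk_pos k), ← Real.exp_sub, loglog_zk]
    refine Real.exp_le_exp.2 ?_
    have h1 := cast_sub_div k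
    have h4 := mul_le_mul_of_nonneg_left h1 hl0.le
    linarith
  have e2 : (2 : ℝ) + 2 ^ (k / 10) ≤ 3 * Real.exp (Real.log 2 * (k / 10)) := by
    have h1 : (2 : ℝ) ^ (k / 10) ≤ Real.exp (Real.log 2 * (k / 10)) := by
      rw [two_pow_exp]
      refine Real.exp_le_exp.2 ?_
      have : ((k / 10 : ℕ) : ℝ) ≤ (k : ℝ) / 10 := Nat.cast_div_le
      have h4 := mul_le_mul_of_nonneg_left this hl0.le
      linarith
    have h2 : (1 : ℝ) ≤ Real.exp (Real.log 2 * (k / 10)) := Real.one_le_exp (by positivity)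
    linarith
  have e3 : (64 : ℝ) / 2 ^ k = 64 * Real.exp (-(k * Real.log 2)) := by
    rw [two_pow_exp, Real.exp_neg]
    rfl
  have hlogpos := log_zk_pos k
  calc (2 : ℝ) ^ k / Real.log (zk k) * (Real.exp (-(k : ℝ) / 10) * (2 + 2 ^ (k / 10)) + 64 / 2 ^ k)
      ≤ Real.exp (Real.log 2 * (k / 200) - Real.log (Real.log 2)) *
        (Real.exp (-(k : ℝ) / 10) * (3 * Real.exp (Real.log 2 * (k / 10))) +
          64 * Real.exp (-(k * Real.log 2))) := by
        rw [e3]
        gcongr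
    _ = 3 * Real.exp (Real.log 2 * (k / 200) - Real.log (Real.log 2) + (-(k : ℝ) / 10) +
          Real.log 2 * (k / 10)) + 64 * Real.exp (Real.log 2 * (k / 200) -
          Real.log (Real.log 2) + -(k * Real.log 2)) := by
        rw [Real.exp_add, Real.exp_add, Real.exp_add]
        ring
    _ ≤ 3 * Real.exp (-Real.log (Real.log 2) + -(67 / 5000) * k) +
          64 * Real.exp (-Real.log (Real.log 2) + -(67 / 5000) * k) := by
        have h8 : Real.log 2 * k ≤ 0.6932 * (k : ℝ) :=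
          mul_le_mul_of_nonneg_right (by linarith) h7
        have h9 : 0.6931 * (k : ℝ) ≤ Real.log 2 * k := mul_le_mul_of_nonneg_right (by linarith) h7
        refine add_le_add (mul_le_mul_of_nonneg_left (Real.exp_le_exp.2 ?_) (by norm_num))
          (mul_le_mul_of_nonneg_left (Real.exp_le_exp.2 ?_) (by norm_num))
        · nlinarith
        · nlinarith
    _ = _ := by
        rw [Real.exp_add]
        ring

lemma numK : ∃ C : ℝ, 0 < C ∧ ∀ k : ℕ, ((k : ℝ) + 1) ^ 2 * Real.exp (-(67 / 5000) * k) ≤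
    C * (199 / 200 : ℝ) ^ k := by
  obtain ⟨C, hC0, hC⟩ := bound_mul_pow (Real.exp_pos (-(4 / 1000 : ℝ))).le
    (by
      have := Real.exp_lt_exp.2 (show (-(4 / 1000 : ℝ)) < 0 by norm_num)
      rwa [Real.exp_zero] at this)
  refine ⟨C ^ 2, by positivity, fun k => ?_⟩
  have h1 : Real.exp (-(4 / 1000 : ℝ)) ^ k = Real.exp (-(4 / 1000) * k) := by
    rw [← Real.exp_nat_mul]
    congr 1
    ring
  have h2 := hC k
  rw [h1] at h2
  have h3 : (199 / 200 : ℝ) ^ k = Real.exp (k * Real.log (199 / 200)) := by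
    rw [mul_comm, ← Real.rpow_def_of_pos (by norm_num), Real.rpow_natCast]
  have h4 : Real.exp (-(54 / 10000) * (k : ℝ)) ≤ (199 / 200 : ℝ) ^ k := by
    rw [h3]
    refine Real.exp_le_exp.2 ?_
    have h5 := Real.log_le_sub_one_of_pos (show (0 : ℝ) < 200 / 199 by norm_num)
    have h6 : Real.log (199 / 200) = -Real.log (200 / 199) := by
      rw [← Real.log_inv]
      norm_num
    have h7 : (0 : ℝ) ≤ k := Nat.cast_nonneg k
    rw [h6]
    nlinarith
  calc ((k : ℝ) + 1) ^ 2 * Real.exp (-(67 / 5000) * k) =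
      (((k : ℝ) + 1) * Real.exp (-(4 / 1000) * k)) ^ 2 * Real.exp (-(54 / 10000) * k) := by
        rw [mul_pow, ← Real.exp_nat_mul, mul_assoc, ← Real.exp_add]
        congr 2
        push_cast
        ring
    _ ≤ C ^ 2 * (199 / 200 : ℝ) ^ k := by
        gcongr

lemma sum_inv_Icc (n : ℕ) : ∑ v ∈ Icc 1 n, (1 : ℝ) / v ≤ 1 + Real.log n := by
  have h := harmonic_le_one_add_log n
  rw [harmonic_eq_sum_Icc] at h
  push_cast at h
  simp only [one_div]
  exact h

lemma sum_inv_m (k : ℕ) : ∑ m ∈ (Icc 1 (8 ^ (k + 1)) : Finset ℕ), (1 : ℝ) / m ≤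
    4 * ((k : ℝ) + 1) := by
  refine (sum_inv_Icc _).trans ?_
  push_cast
  rw [Real.log_pow]
  have h2 : Real.log 8 ≤ 3 := by
    have h3 : Real.log 8 = 3 * Real.log 2 := by
      rw [show (8 : ℝ) = 2 ^ 3 by norm_num, Real.log_pow]
      norm_num
    have := Real.log_two_lt_d9
    rw [h3]
    linarith
  push_cast
  have : (0 : ℝ) ≤ k := Nat.cast_nonneg k
  nlinarith

end Pool.Agent.H64.FT
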