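import Mathlib
import Pool.Agent.H64.FT.A8
import Pool.Graph.R_pool_sql_team_seeded_35f281b4.K7.H99.AN.Main
import Pool.Graph.R_pool_sql_team_seeded_35f281b4.K7.H5.TY.Main

/-!
# The twists with large second number and small `m`
-/

set_option autoImplicit false

namespace Pool.Agent.H64.FT

open Finset Pool.Agent.K7.H26.BL Pool.Agent.K7.H23.PT

open Classical in
/-- the numbers in the sum over the smallest number -/
noncomputable def VV (e0 e1 : ℤ) (k m : ℕ) : Finset ℕ :=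
  (range (Xk (k / 10))).filter (fun v : ℕ => Squarefree v ∧
    ¬ (IsSquare (e0 * m * v : ℤ) ∧ IsSquare (e1 * m * v : ℤ)))

lemma mem_VV {e0 e1 : ℤ} {k m v : ℕ} : v ∈ VV e0 e1 k m ↔ v < Xk (k / 10) ∧ Squarefree v ∧
    ¬ (IsSquare (e0 * m * v : ℤ) ∧ IsSquare (e1 * m * v : ℤ)) := by
  classical
  rw [VV, mem_filter, mem_range]

lemma sumII (e0 e1 : ℤ) (h0 : e0 ≠ 0) (h1 : e1 ≠ 0) : ∃ k0 : ℕ, ∀ k : ℕ, k0 ≤ k → ∀ m : ℕ,
    1 ≤ m → m ≤ 8 ^ (k + 1) → ∑ v ∈ VV e0 e1 k m, (1 : ℝ) / v *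
      Real.exp (-(dl (zk k) (e0 * m * v) + dl (zk k) (e1 * m * v)) / 2) ≤
      Real.exp (-(k : ℝ) / 10) * (2 + 2 ^ (k / 10)) + 64 / 2 ^ k := by
  classical
  obtain ⟨k0, hk0⟩ := dl_sum e0 h0
  obtain ⟨k1, hk1⟩ := dl_sum e1 h1
  refine ⟨k0 + k1, fun k hk m hm hmk => ?_⟩
  have b0 := hk0 k (by omega) m hm hmk
  have b1 := hk1 k (by omega) m hm hmk
  have hv0 : ∀ v ∈ VV e0 e1 k m, 1 ≤ v := fun v hv =>
    Nat.pos_of_ne_zero (mem_VV.1 hv).2.1.ne_zero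
  have hexp1 : ∀ v : ℕ,
      Real.exp (-(dl (zk k) (e0 * m * v) + dl (zk k) (e1 * m * v)) / 2) ≤ 1 := by
    intro v
    rw [← Real.exp_zero]
    refine Real.exp_le_exp.2 ?_
    have := dl_nonneg (zk k) (e0 * m * v)
    have := dl_nonneg (zk k) (e1 * m * v)
    linarith
  set B0 := (range (Xk (k / 10))).filter (fun v : ℕ => Squarefree v ∧
      ¬ IsSquare (e0 * m * v : ℤ) ∧ dl (zk k) (e0 * m * v) < (k : ℝ) / 5) with hB0
  set B1 := (range (Xk (k / 10))).filter (fun v : ℕ => Squarefree v ∧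
      ¬ IsSquare (e1 * m * v : ℤ) ∧ dl (zk k) (e1 * m * v) < (k : ℝ) / 5) with hB1
  have hterm : ∀ v ∈ VV e0 e1 k m, (1 : ℝ) / v *
      Real.exp (-(dl (zk k) (e0 * m * v) + dl (zk k) (e1 * m * v)) / 2) ≤
      Real.exp (-(k : ℝ) / 10) * (1 / v) + ((if v ∈ B0 then (1 : ℝ) / v else 0) +
        (if v ∈ B1 then (1 : ℝ) / v else 0)) := by
    intro v hv
    obtain ⟨h2, h3, h4⟩ := mem_VV.1 hv
    have hvpos : (0 : ℝ) < v := by exact_mod_cast hv0 v hv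
    have d0 := dl_nonneg (zk k) (e0 * m * v)
    have d1 := dl_nonneg (zk k) (e1 * m * v)
    have hi0 : (0 : ℝ) ≤ if v ∈ B0 then (1 : ℝ) / v else 0 := by split_ifs <;> positivity
    have hi1 : (0 : ℝ) ≤ if v ∈ B1 then (1 : ℝ) / v else 0 := by split_ifs <;> positivity
    have hE := Real.exp_pos (-(k : ℝ) / 10)
    by_cases c0 : v ∈ B0
    · rw [if_pos c0]
      have h5 : (1 : ℝ) / v * Real.exp (-(dl (zk k) (e0 * m * v) + dl (zk k) (e1 * m * v)) / 2) ≤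
          1 / v * 1 := mul_le_mul_of_nonneg_left (hexp1 v) (by positivity)
      have h6 : 0 ≤ Real.exp (-(k : ℝ) / 10) * (1 / v) := by positivity
      linarith
    · by_cases c1 : v ∈ B1
      · rw [if_pos c1]
        have h5 : (1 : ℝ) / v * Real.exp (-(dl (zk k) (e0 * m * v) +
            dl (zk k) (e1 * m * v)) / 2) ≤ 1 / v * 1 :=
          mul_le_mul_of_nonneg_left (hexp1 v) (by positivity)
        have h6 : 0 ≤ Real.exp (-(k : ℝ) / 10) * (1 / v) := by positivity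
        linarith
      · have h7 : (k : ℝ) / 5 ≤ dl (zk k) (e0 * m * v) + dl (zk k) (e1 * m * v) := by
          by_cases s0 : IsSquare (e0 * m * v : ℤ)
          · have s1 : ¬ IsSquare (e1 * m * v : ℤ) := fun h => h4 ⟨s0, h⟩
            have : ¬ dl (zk k) (e1 * m * v) < (k : ℝ) / 5 := fun h =>
              c1 (mem_filter.2 ⟨mem_range.2 h2, h3, s1, h⟩)
            linarith [not_lt.1 this]
          · have : ¬ dl (zk k) (e0 * m * v) < (k : ℝ) / 5 := fun h =>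
              c0 (mem_filter.2 ⟨mem_range.2 h2, h3, s0, h⟩)
            linarith [not_lt.1 this]
        have h8 : Real.exp (-(dl (zk k) (e0 * m * v) + dl (zk k) (e1 * m * v)) / 2) ≤
            Real.exp (-(k : ℝ) / 10) := Real.exp_le_exp.2 (by linarith)
        have h9 : (1 : ℝ) / v * Real.exp (-(dl (zk k) (e0 * m * v) +
            dl (zk k) (e1 * m * v)) / 2) ≤ 1 / v * Real.exp (-(k : ℝ) / 10) :=
          mul_le_mul_of_nonneg_left h8 (by positivity)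
        linarith
  have hind : ∀ B : Finset ℕ, ∑ v ∈ VV e0 e1 k m, (if v ∈ B then (1 : ℝ) / v else 0) ≤
      ∑ v ∈ B, (1 : ℝ) / v := by
    intro B
    rw [← sum_filter]
    refine sum_le_sum_of_subset_of_nonneg ?_ fun _ _ _ => by positivity
    intro v hv
    exact (mem_filter.1 hv).2
  have hall : ∑ v ∈ VV e0 e1 k m, (1 : ℝ) / v ≤ 2 + 2 ^ (k / 10) := by
    have h2 : ∑ v ∈ VV e0 e1 k m, (1 : ℝ) / v ≤ ∑ v ∈ Icc 1 (Xk (k / 10)), (1 : ℝ) / v := by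
      refine sum_le_sum_of_subset_of_nonneg ?_ fun _ _ _ => by positivity
      intro v hv
      exact mem_Icc.2 ⟨hv0 v hv, (mem_VV.1 hv).1.le⟩
    refine h2.trans ((sum_inv_Icc _).trans ?_)
    have h3 : Real.log ((Xk (k / 10) : ℕ) : ℝ) = 2 ^ (k / 10) * Real.log 2 := by
      unfold Xk
      push_cast
      rw [Real.log_pow]
      push_cast
      ring
    rw [h3]
    have h4 := Real.log_two_lt_d9
    have h5 : (0 : ℝ) < 2 ^ (k / 10) := by positivity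
    nlinarith
  calc _ ≤ _ := sum_le_sum hterm
    _ = Real.exp (-(k : ℝ) / 10) * ∑ v ∈ VV e0 e1 k m, (1 : ℝ) / v +
        (∑ v ∈ VV e0 e1 k m, (if v ∈ B0 then (1 : ℝ) / v else 0) +
        ∑ v ∈ VV e0 e1 k m, (if v ∈ B1 then (1 : ℝ) / v else 0)) := by
        rw [sum_add_distrib, sum_add_distrib, ← mul_sum]
    _ ≤ Real.exp (-(k : ℝ) / 10) * (2 + 2 ^ (k / 10)) + (32 / 2 ^ k + 32 / 2 ^ k) :=
        add_le_add (mul_le_mul_of_nonneg_left hall (Real.exp_pos _).le)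
          (add_le_add ((hind B0).trans b0) ((hind B1).trans b1))
    _ = _ := by ring

lemma ncard_bU (S : Finset ℕ) (sc : ℕ → Set ℤ) (g : ℕ → ℝ) (h : ∀ k, (sc k).Finite)
    (hg : ∀ k ∈ S, ((sc k).ncard : ℝ) ≤ g k) : ((⋃ k ∈ S, sc k).ncard : ℝ) ≤ ∑ k ∈ S, g k := by
  have h1 := Pool.Agent.K7.H99.AN.ncard_biUnion_le S sc h
  calc ((⋃ k ∈ S, sc k).ncard : ℝ) ≤ ((∑ k ∈ S, (sc k).ncard : ℕ) : ℝ) := by exact_mod_cast h1
    _ = ∑ k ∈ S, ((sc k).ncard : ℝ) := by push_cast; rfl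
    _ ≤ _ := sum_le_sum hg

/-- the twists with a representation at the scale `k` -/
def SC (α β γ : ℤ) (R k₀ k N : ℕ) : Set ℤ :=
  {D : ℤ | D ≠ 0 ∧ |D| ≤ N ∧ (∀ i, k₀ ≤ i → i ≤ k → sm (zk i) D ^ 8 ≤ Xk i) ∧
    ∃ a b c m : ℤ, D = a * b * c * m ∧ 0 < m ∧ Squarefree a ∧ Squarefree b ∧ Squarefree c ∧
      L3 α β γ R a b c m ∧ (Xk k : ℤ) ≤ |b| ∧ |b| < Xk (k + 1) ∧ |b| ≤ |a| ∧ |c| ≤ |b| ∧
      m ≤ 8 ^ (k + 1) ∧ ¬ (IsSquare ((α - γ) * m * c) ∧ IsSquare ((β - γ) * m * c))}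

lemma sc_sub (α β γ : ℤ) (R k₀ k N : ℕ) (hk : 10 * k₀ ≤ k) : SC α β γ R k₀ k N ⊆
    ⋃ m ∈ Icc 1 (8 ^ (k + 1)), ((⋃ j ∈ Icc (k / 10) k, SetI α β γ R k j N m) ∪
      ((⋃ v ∈ VV (α - γ) (β - γ) k m, SetII α β γ R k N m v) ∪
        ⋃ v ∈ VV (-(α - γ)) (-(β - γ)) k m, SetII α β γ R k N m (-v))) := by
  rintro D ⟨hD0, hDN, hsm, a, b, c, m, hD, hm, ha, hb, hc, hL, hb1, hb2, hba, hcb, hmk, hsq⟩
  obtain ⟨m, rfl⟩ : ∃ m' : ℕ, m = m' := ⟨m.toNat, by omega⟩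
  rw [Set.mem_iUnion₂]
  refine ⟨m, mem_Icc.2 ⟨by omega, by exact_mod_cast hmk⟩, ?_⟩
  have hk1 : k₀ ≤ k / 10 := by omega
  have hsmk := hsm k (by omega) le_rfl
  by_cases hcX : (Xk (k / 10) : ℤ) ≤ |c|
  · obtain ⟨j, hj1, hj2, hj3⟩ := Pool.Agent.K7.H99.AN.exists_scale hcX
    have hjk : j ≤ k := by
      by_contra h
      have h1 : Xk (k + 1) ≤ Xk j := Xk_mono (by omega)
      have h2 : (Xk (k + 1) : ℤ) ≤ Xk j := by exact_mod_cast h1
      omega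
    left
    rw [Set.mem_iUnion₂]
    exact ⟨j, mem_Icc.2 ⟨hj1, hjk⟩, hD0, hDN, hsmk, hsm j (hk1.trans hj1) hjk, a, b, c, hD, ha,
      hb, hc, hL, hb1, hb2, hba, hj2, hj3⟩
  · right
    rw [not_le] at hcX
    have hcn : c.natAbs < Xk (k / 10) := by
      rw [Int.abs_eq_natAbs] at hcX
      exact_mod_cast hcX
    have hcs : Squarefree c.natAbs := Int.squarefree_natAbs.2 hc
    rcases Int.natAbs_eq c with h | h
    · left
      rw [Set.mem_iUnion₂]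
      refine ⟨c.natAbs, mem_VV.2 ⟨hcn, hcs, ?_⟩, hD0, hDN, hsmk, a, b, ?_, ha, hb, ?_, hb1, hb2,
        hba⟩
      · rw [← h]
        exact hsq
      · rw [← h]
        exact hD
      · rw [← h]
        exact hL
    · right
      rw [Set.mem_iUnion₂]
      refine ⟨c.natAbs, mem_VV.2 ⟨hcn, hcs, ?_⟩, hD0, hDN, hsmk, a, b, ?_, ha, hb, ?_, hb1, hb2,
        hba⟩
      · have e1 : -(α - γ) * m * (c.natAbs : ℤ) = (α - γ) * m * c := by
          linear_combination (-((α - γ) * m)) * h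
        have e2 : -(β - γ) * m * (c.natAbs : ℤ) = (β - γ) * m * c := by
          linear_combination (-((β - γ) * m)) * h
        rw [e1, e2]
        exact hsq
      · rw [← h]
        exact hD
      · rw [← h]
        exact hL

end Pool.Agent.H64.FT
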