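import Mathlib
import Pool.Agent.H64.FT.A9

/-!
# The twists with large second number and small `m`: the theorem
-/

set_option autoImplicit false

namespace Pool.Agent.H64.FT

open Finset Pool.Agent.K7.H26.BL Pool.Agent.K7.H23.PT

lemma fin_of_le {N : ℕ} {T : Set ℤ} (hT : ∀ D ∈ T, |D| ≤ (N : ℤ)) : T.Finite :=
  (Set.finite_Icc (-(N : ℤ)) N).subset fun D hD => abs_le.1 (hT D hD)

theorem scale {α β γ : ℤ} (hαγ : α ≠ γ) (hβγ : β ≠ γ) {R : ℕ} (hR : 1 ≤ R) (h2 : 2 ∣ R)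
    (h1R : β - α ∣ (R : ℤ)) (h2R : γ - α ∣ (R : ℤ)) (h3R : γ - β ∣ (R : ℤ)) :
    ∃ (C : ℝ) (k1 : ℕ), 0 < C ∧ ∀ k₀ k N : ℕ, k1 ≤ k → 10 * k₀ ≤ k →
      ((SC α β γ R k₀ k N).ncard : ℝ) ≤ C * (199 / 200 : ℝ) ^ k * N := by
  obtain ⟨C1, hC10, hC1⟩ := countI hR h2 h1R h2R h3R
  obtain ⟨C2, hC20, hC2⟩ := countII hR h2 h1R h2R h3R
  obtain ⟨C3, hC30, hC3⟩ := numI
  obtain ⟨C4, hC40, hC4⟩ := numII
  obtain ⟨C5, hC50, hC5⟩ := numK
  obtain ⟨k2, hk2⟩ := sumII (α - γ) (β - γ) (sub_ne_zero.2 hαγ) (sub_ne_zero.2 hβγ)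
  obtain ⟨k3, hk3⟩ := sumII (-(α - γ)) (-(β - γ)) (neg_ne_zero.2 (sub_ne_zero.2 hαγ))
    (neg_ne_zero.2 (sub_ne_zero.2 hβγ))
  refine ⟨4 * (C1 * C3 + 2 * (C2 * C4)) * C5, k2 + k3 + 6000, by positivity,
    fun k₀ k N hk hk₀ => ?_⟩
  set E : ℝ := Real.exp (-(67 / 5000) * k) with hE
  have hE0 : 0 < E := Real.exp_pos _
  have hkr : (0 : ℝ) ≤ k := Nat.cast_nonneg k
  have hfI : ∀ j m, (SetI α β γ R k j N m).Finite := fun j m => fin_of_le fun D hD => hD.2.1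
  have hfII : ∀ m c, (SetII α β γ R k N m c).Finite := fun m c => fin_of_le fun D hD => hD.2.1
  -- part I
  have hI : ∀ m : ℕ, ((⋃ j ∈ Icc (k / 10) k, SetI α β γ R k j N m).ncard : ℝ) ≤
      (1 / m) * (N * (C1 * C3 * (((k : ℝ) + 1) * E))) := by
    intro m
    refine (ncard_bU _ _ (fun _ => (1 / m) * (N * (C1 * C3 * E))) (fun j => hfI j m)
      fun j hj => ?_).trans ?_
    · rw [mem_Icc] at hj
      refine (hC1 k j N m (by omega) hj.2).trans ?_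
      have h3 := hC3 k j hj.1
      calc C1 * N * (2 ^ k * 2 ^ j) * (1 / m) * Real.exp (-Real.log (Real.log (zk k)) -
            5 / 4 * Real.log (Real.log (zk j))) = (1 / m) * (N * (C1 * (2 ^ k * 2 ^ j *
            Real.exp (-Real.log (Real.log (zk k)) - 5 / 4 * Real.log (Real.log (zk j)))))) := by
            ring
        _ ≤ (1 / m) * (N * (C1 * (C3 * E))) := by gcongr
        _ = _ := by ring
    · rw [sum_const, nsmul_eq_mul, Nat.card_Icc]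
      have h4 : ((k + 1 - k / 10 : ℕ) : ℝ) ≤ (k : ℝ) + 1 := by
        have : k + 1 - k / 10 ≤ k + 1 := Nat.sub_le _ _
        exact_mod_cast this
      calc ((k + 1 - k / 10 : ℕ) : ℝ) * (1 / m * (N * (C1 * C3 * E))) ≤
            ((k : ℝ) + 1) * (1 / m * (N * (C1 * C3 * E))) := by gcongr
        _ = _ := by ring
  -- part II
  have hII : ∀ (e0 e1 : ℤ) (s : ℕ → ℤ), (∀ v, (s v).natAbs = v) →
      (∀ m v : ℕ, (α - γ) * m * s v = e0 * m * v) → (∀ m v : ℕ, (β - γ) * m * s v = e1 * m * v) →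
      (∀ m : ℕ, 1 ≤ m → m ≤ 8 ^ (k + 1) → ∑ v ∈ VV e0 e1 k m, (1 : ℝ) / v *
        Real.exp (-(dl (zk k) (e0 * m * v) + dl (zk k) (e1 * m * v)) / 2) ≤
        Real.exp (-(k : ℝ) / 10) * (2 + 2 ^ (k / 10)) + 64 / 2 ^ k) →
      ∀ m ∈ Icc 1 (8 ^ (k + 1)), ((⋃ v ∈ VV e0 e1 k m, SetII α β γ R k N m (s v)).ncard : ℝ) ≤
      (1 / m) * (N * (C2 * C4 * (((k : ℝ) + 1) * E))) := by
    intro e0 e1 s hs hs0 hs1 hsum m hm
    rw [mem_Icc] at hm
    have hlog := log_zk_pos k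
    refine (ncard_bU _ _ (fun v => (1 / m) * (N * (C2 * (2 ^ k / Real.log (zk k)))) *
      ((1 : ℝ) / v * Real.exp (-(dl (zk k) (e0 * m * v) + dl (zk k) (e1 * m * v)) / 2)))
      (fun v => hfII m _) fun v hv => ?_).trans ?_
    · refine (hC2 k N m (by omega) (s v)).trans (le_of_eq ?_)
      rw [hs, hs0, hs1]
      simp only [div_eq_mul_inv, mul_inv, one_mul]
      ring
    · rw [← mul_sum]
      calc (1 / m) * (N * (C2 * (2 ^ k / Real.log (zk k)))) * ∑ v ∈ VV e0 e1 k m, ((1 : ℝ) / v *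
            Real.exp (-(dl (zk k) (e0 * m * v) + dl (zk k) (e1 * m * v)) / 2)) ≤
          (1 / m) * (N * (C2 * (2 ^ k / Real.log (zk k)))) *
            (Real.exp (-(k : ℝ) / 10) * (2 + 2 ^ (k / 10)) + 64 / 2 ^ k) := by
            have := hsum m hm.1 hm.2
            gcongr
        _ = (1 / m) * (N * (C2 * (2 ^ k / Real.log (zk k) *
            (Real.exp (-(k : ℝ) / 10) * (2 + 2 ^ (k / 10)) + 64 / 2 ^ k)))) := by ring
        _ ≤ (1 / m) * (N * (C2 * (C4 * E))) := by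
            have := hC4 k
            gcongr
        _ ≤ (1 / m) * (N * (C2 * C4 * (((k : ℝ) + 1) * E))) := by
            have h5 : C2 * (C4 * E) ≤ C2 * C4 * (((k : ℝ) + 1) * E) := by
              have h6 : 0 ≤ C2 * C4 * (k * E) := by positivity
              nlinarith
            gcongr
  have hII1 := hII (α - γ) (β - γ) (fun v => (v : ℤ)) (fun v => Int.natAbs_natCast v)
    (fun m v => rfl) (fun m v => rfl) (hk2 k (by omega))
  have hII2 := hII (-(α - γ)) (-(β - γ)) (fun v => -(v : ℤ)) (fun v => by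
    rw [Int.natAbs_neg, Int.natAbs_natCast])
    (fun m v => by ring) (fun m v => by ring) (hk3 k (by omega))
  have hfin : ∀ m : ℕ, ((⋃ j ∈ Icc (k / 10) k, SetI α β γ R k j N m) ∪
      ((⋃ v ∈ VV (α - γ) (β - γ) k m, SetII α β γ R k N m v) ∪
        ⋃ v ∈ VV (-(α - γ)) (-(β - γ)) k m, SetII α β γ R k N m (-v)) : Set ℤ).Finite := by
    intro m
    refine Set.Finite.union ((Finset.finite_toSet _).biUnion fun j _ => hfI j m)
      (Set.Finite.union ((Finset.finite_toSet _).biUnion fun j _ => hfII m _)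
      ((Finset.finite_toSet _).biUnion fun j _ => hfII m _))
  have htot := ncard_bU (Icc 1 (8 ^ (k + 1))) (fun m =>
      (⋃ j ∈ Icc (k / 10) k, SetI α β γ R k j N m) ∪
      ((⋃ v ∈ VV (α - γ) (β - γ) k m, SetII α β γ R k N m v) ∪
        ⋃ v ∈ VV (-(α - γ)) (-(β - γ)) k m, SetII α β γ R k N m (-v)))
    (fun m => (1 / m) * (N * ((C1 * C3 + 2 * (C2 * C4)) * (((k : ℝ) + 1) * E)))) hfin
    (fun m hm => by
      have i1 := hI m
      have i2 := hII1 m hm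
      have i3 := hII2 m hm
      have i4 := Set.ncard_union_le (⋃ j ∈ Icc (k / 10) k, SetI α β γ R k j N m)
        ((⋃ v ∈ VV (α - γ) (β - γ) k m, SetII α β γ R k N m v) ∪
        ⋃ v ∈ VV (-(α - γ)) (-(β - γ)) k m, SetII α β γ R k N m (-v))
      have i5 := Set.ncard_union_le (⋃ v ∈ VV (α - γ) (β - γ) k m, SetII α β γ R k N m v)
        (⋃ v ∈ VV (-(α - γ)) (-(β - γ)) k m, SetII α β γ R k N m (-v))
      have i6 := i4.trans (Nat.add_le_add_left i5 _)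
      have i7 := (Nat.cast_le (α := ℝ)).2 i6
      rw [Nat.cast_add, Nat.cast_add] at i7
      refine i7.trans ((add_le_add i1 (add_le_add i2 i3)).trans (le_of_eq ?_))
      ring)
  have hsub := sc_sub α β γ R k₀ k N hk₀
  have hUf : (⋃ m ∈ Icc 1 (8 ^ (k + 1)), ((⋃ j ∈ Icc (k / 10) k, SetI α β γ R k j N m) ∪
      ((⋃ v ∈ VV (α - γ) (β - γ) k m, SetII α β γ R k N m v) ∪
        ⋃ v ∈ VV (-(α - γ)) (-(β - γ)) k m, SetII α β γ R k N m (-v))) : Set ℤ).Finite :=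
    (Finset.finite_toSet _).biUnion fun m _ => hfin m
  calc ((SC α β γ R k₀ k N).ncard : ℝ) ≤ _ := by exact_mod_cast Set.ncard_le_ncard hsub hUf
    _ ≤ _ := htot
    _ = (∑ m ∈ (Icc 1 (8 ^ (k + 1)) : Finset ℕ), (1 : ℝ) / m) *
        (N * ((C1 * C3 + 2 * (C2 * C4)) * (((k : ℝ) + 1) * E))) := (sum_mul _ _ _).symm
    _ ≤ (4 * ((k : ℝ) + 1)) * (N * ((C1 * C3 + 2 * (C2 * C4)) * (((k : ℝ) + 1) * E))) := by
        have := sum_inv_m k
        gcongr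
    _ = 4 * (C1 * C3 + 2 * (C2 * C4)) * N * (((k : ℝ) + 1) ^ 2 * E) := by ring
    _ ≤ 4 * (C1 * C3 + 2 * (C2 * C4)) * N * (C5 * (199 / 200 : ℝ) ^ k) := by
        have := hC5 k
        gcongr
    _ = _ := by ring

end Pool.Agent.H64.FT
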