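import Mathlib
import Pool.Agent.H64.FT.A10

/-!
# Almost no twists have a representation with large second number and small `m`
-/

set_option autoImplicit false

namespace Pool.Agent.H64.FT

open Finset Pool.Agent.K7.H26.BL Pool.Agent.K7.H23.PT

/-- the twists with a nondegenerate representation with large second number and small `m` -/
def AN (α β γ : ℤ) (R X₀ N : ℕ) : Set ℤ :=
  {D : ℤ | D ≠ 0 ∧ |D| ≤ N ∧ ∃ a b c m : ℤ, D = a * b * c * m ∧ 0 < m ∧ Squarefree a ∧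
    Squarefree b ∧ Squarefree c ∧ L3 α β γ R a b c m ∧ (X₀ : ℤ) ≤ |b| ∧ |b| ≤ |a| ∧ |c| ≤ |b| ∧
      m ≤ (Nat.log 2 b.natAbs : ℤ) ^ 3 ∧ ¬ (IsSquare ((α - γ) * m * c) ∧ IsSquare ((β - γ) * m * c))}

theorem an {α β γ : ℤ} (hαγ : α ≠ γ) (hβγ : β ≠ γ) {R : ℕ} (hR : 1 ≤ R) (h2 : 2 ∣ R)
    (h1R : β - α ∣ (R : ℤ)) (h2R : γ - α ∣ (R : ℤ)) (h3R : γ - β ∣ (R : ℤ)) (ε : ℝ) (hε : 0 < ε) :
    ∃ X₀ N₀ : ℕ, 1 ≤ X₀ ∧ ∀ N : ℕ, N₀ ≤ N → ((AN α β γ R X₀ N).ncard : ℝ) ≤ ε * N := by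
  have hΔ : ¬ IsSquare (2 : ℤ) := fun h => Int.prime_two.irreducible.not_isSquare h
  obtain ⟨n, k₀, N₀, hn, hty⟩ := Pool.Agent.K7.H5.TY.main Pool.Agent.K7.H42.PT.mq 2 hΔ (ε / 2)
    (by positivity)
  obtain ⟨C, k₁, hC, hsc⟩ := scale hαγ hβγ hR h2 h1R h2R h3R
  obtain ⟨k₃, hk₃⟩ := exists_pow_lt_of_lt_one (x := ε / (400 * C)) (by positivity)
    (show (199 / 200 : ℝ) < 1 by norm_num)
  set k₂ := k₃ + 10 * k₀ + k₁ with hk₂
  have hk2 : 200 * C * (199 / 200 : ℝ) ^ k₂ ≤ ε / 2 := by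
    have h1 : (199 / 200 : ℝ) ^ k₂ ≤ (199 / 200 : ℝ) ^ k₃ :=
      pow_le_pow_of_le_one (by norm_num) (by norm_num) (by omega)
    have h2 : (199 / 200 : ℝ) ^ k₂ ≤ ε / (400 * C) := h1.trans hk₃.le
    calc 200 * C * (199 / 200 : ℝ) ^ k₂ ≤ 200 * C * (ε / (400 * C)) := by gcongr
      _ = ε / 2 := by field_simp; norm_num
  refine ⟨Xk k₂, N₀, Nat.one_le_two_pow, fun N hN => ?_⟩
  set bad : Set ℤ := {D : ℤ | D ≠ 0 ∧ |D| ≤ N ∧
    ¬ ((∀ k, k₀ ≤ k → Xk k ≤ N → TypK 2 k n N D) ∧ Big 2 n N D)} with hbad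
  set S : Finset ℕ := (Finset.range (N + 1)).filter (fun k => k₂ ≤ k ∧ Xk k ≤ N) with hS
  have hbadf : bad.Finite := fin_of_le fun D hD => hD.2.1
  have hscf : ∀ k, (SC α β γ R k₀ k N).Finite := fun k => fin_of_le fun D hD => hD.2.1
  have hsub : AN α β γ R (Xk k₂) N ⊆ bad ∪ ⋃ k ∈ S, SC α β γ R k₀ k N := by
    rintro D ⟨hD0, hDN, a, b, c, m, hD, hm0, ha, hb, hc, hL, hbX, hba, hcb, hm, hsq⟩
    by_cases htyp : (∀ k, k₀ ≤ k → Xk k ≤ N → TypK 2 k n N D) ∧ Big 2 n N D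
    · right
      obtain ⟨k, hk1, hk2', hk3⟩ := Pool.Agent.K7.H99.AN.exists_scale hbX
      have hbD : |b| ∣ |D| := (abs_dvd_abs _ _).2 ⟨a * c * m, by rw [hD]; ring⟩
      have hbN : |b| ≤ N := (Int.le_of_dvd (abs_pos.2 hD0) hbD).trans hDN
      have hXN : Xk k ≤ N := by exact_mod_cast hk2'.trans hbN
      have hkN : k ≤ N := by
        have h1 : k < 2 ^ k := Nat.lt_two_pow_self
        have h2 : 2 ^ k < 2 ^ 2 ^ k := Nat.lt_two_pow_self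
        unfold Xk at hXN
        omega
      have hkS : k ∈ S := by
        rw [hS, Finset.mem_filter, Finset.mem_range]
        exact ⟨by omega, hk1, hXN⟩
      rw [Set.mem_iUnion₂]
      refine ⟨k, hkS, hD0, hDN, fun i hi hik => (htyp.1 i hi ((Xk_mono hik).trans hXN)).2.2.1,
        a, b, c, m, hD, hm0, ha, hb, hc, hL, hk2', hk3, hba, hcb, hm.trans ?_, hsq⟩
      have h1 : Nat.log 2 b.natAbs < 2 ^ (k + 1) := by
        refine Nat.log_lt_of_lt_pow (Int.natAbs_ne_zero.2 hb.ne_zero) ?_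
        rw [Int.abs_eq_natAbs] at hk3
        exact_mod_cast hk3
      have h4 : (Nat.log 2 b.natAbs : ℤ) ≤ 2 ^ (k + 1) := by exact_mod_cast h1.le
      calc (Nat.log 2 b.natAbs : ℤ) ^ 3 ≤ (2 ^ (k + 1)) ^ 3 := by gcongr
        _ = 8 ^ (k + 1) := by rw [← pow_mul, mul_comm, pow_mul]; norm_num
    · left
      exact ⟨hD0, hDN, htyp⟩
  have hUf : (⋃ k ∈ S, SC α β γ R k₀ k N).Finite := S.finite_toSet.biUnion fun k _ => hscf k
  have h1 := Set.ncard_le_ncard hsub (hbadf.union hUf)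
  have h2 := Set.ncard_union_le bad (⋃ k ∈ S, SC α β γ R k₀ k N)
  have h3 := ncard_bU S (SC α β γ R k₀ · N) (fun k => C * (199 / 200 : ℝ) ^ k * N) hscf
    (fun k hk => by
      rw [hS, Finset.mem_filter] at hk
      exact hsc k₀ k N (by omega) (by omega))
  have h4 : ∑ k ∈ S, C * (199 / 200 : ℝ) ^ k * N ≤ ε / 2 * N := by
    have h6 : ∑ k ∈ S, C * (199 / 200 : ℝ) ^ k * N = C * N * ∑ k ∈ S, (199 / 200 : ℝ) ^ k := by
      rw [Finset.mul_sum]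
      exact Finset.sum_congr rfl fun k _ => by ring
    rw [h6]
    have h7 := Pool.Agent.K7.H99.AN.geom k₂ S fun k hk => by
      rw [hS, Finset.mem_filter] at hk
      exact hk.2.1
    calc C * N * ∑ k ∈ S, (199 / 200 : ℝ) ^ k ≤ C * N * (200 * (199 / 200 : ℝ) ^ k₂) := by gcongr
      _ = 200 * C * (199 / 200 : ℝ) ^ k₂ * N := by ring
      _ ≤ ε / 2 * N := by gcongr
  have h5 := (Nat.cast_le (α := ℝ)).2 (h1.trans h2)
  rw [Nat.cast_add] at h5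
  have h7 : (bad.ncard : ℝ) ≤ ε / 2 * N := hty N hN
  linarith

end Pool.Agent.H64.FT
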