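import Mathlib
import Pool.Graph.R_pool_sql_team_seeded_35f281b4.K7.H23.AT.SF

/-!
# Points with given bounds for the squarefree parts
-/

set_option autoImplicit false

open Polynomial

namespace Pool.Agent.H64.FT

open Pool.Agent.K7.H23.AT

/-- the polynomial with given values -/
noncomputable def ip (e c : Fin 3 → ℤ) : ℚ[X] :=
  Lagrange.interpolate Finset.univ (fun i => (e i : ℚ)) (fun i => (c i : ℚ))

lemma ip_eval {e : Fin 3 → ℤ} (he : Function.Injective e) (c : Fin 3 → ℤ) (i : Fin 3) :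
    (ip e c).eval (e i : ℚ) = c i := by
  unfold ip
  rw [Lagrange.eval_interpolate_at_node (v := fun i => (e i : ℚ)) (r := fun i => (c i : ℚ))
    (i := i) ?_ (Finset.mem_univ i)]
  intro i _ j _ hij
  have hij' : (e i : ℚ) = e j := hij
  exact he (by exact_mod_cast hij')

/-- the polynomial with given roots -/
noncomputable def gp (e : Fin 3 → ℤ) : ℤ[X] := ∏ i, (X - C (e i))

lemma gp_monic (e : Fin 3 → ℤ) : (gp e).Monic := monic_prod_of_monic _ _ fun _ _ => monic_X_sub_C _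

lemma gp_deg (e : Fin 3 → ℤ) : (gp e).natDegree = 3 := by
  unfold gp
  rw [natDegree_prod_of_monic _ _ fun i _ => monic_X_sub_C _]
  simp only [natDegree_X_sub_C]
  simp

lemma gp_map (e : Fin 3 → ℤ) : (gp e).map (Int.castRingHom ℚ) = ∏ i, (X - C (e i : ℚ)) := by
  unfold gp
  rw [Polynomial.map_prod]
  refine Finset.prod_congr rfl fun i _ => ?_
  rw [Polynomial.map_sub, map_X, map_C]
  rfl

lemma gp_sep {e : Fin 3 → ℤ} (he : Function.Injective e) :
    ((gp e).map (Int.castRingHom ℚ)).Separable := by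
  rw [gp_map, separable_prod_X_sub_C_iff]
  intro i j hij
  have hij' : (e i : ℚ) = e j := hij
  exact he (by exact_mod_cast hij')

lemma gp_dvd {e : Fin 3 → ℤ} (he : Function.Injective e) {P : ℚ[X]}
    (hP : ∀ i, P.eval (e i : ℚ) = 0) : (gp e).map (Int.castRingHom ℚ) ∣ P := by
  rw [gp_map]
  refine Finset.prod_dvd_of_coprime ?_ fun i _ => dvd_iff_isRoot.2 (hP i)
  intro i _ j _ hij
  refine isCoprime_X_sub_C_of_isUnit_sub ?_
  rw [isUnit_iff_ne_zero, sub_ne_zero]
  intro h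
  exact hij (he (by exact_mod_cast h))

lemma gp_root {e : Fin 3 → ℤ} {θ : ℂ} (h : aeval θ (gp e) = 0) : ∃ i, θ = (e i : ℂ) := by
  unfold gp at h
  rw [map_prod, Finset.prod_eq_zero_iff] at h
  obtain ⟨i, -, hi⟩ := h
  refine ⟨i, ?_⟩
  rw [map_sub, aeval_X, aeval_C, sub_eq_zero] at hi
  rw [hi]
  rfl

lemma ip_aeval {e : Fin 3 → ℤ} (he : Function.Injective e) (c : Fin 3 → ℤ) (i : Fin 3) :
    aeval (e i : ℂ) (ip e c) = (c i : ℂ) := by
  have h1 : (e i : ℂ) = algebraMap ℚ ℂ (e i : ℚ) := by simp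
  rw [h1, aeval_algebraMap_apply, aeval_def, Algebra.algebraMap_self, eval₂_id, ip_eval he]
  simp

/-- pairs with given bounds for the squarefree parts -/
theorem box3 : ∃ M : ℕ, ∀ e : Fin 3 → ℤ, Function.Injective e → ∀ K : ℕ, ∃ C N₀ : ℕ,
    ∀ N : ℕ, N₀ ≤ N → ∀ Y : Fin 3 → ℕ, (∀ i, Y i ≤ K * N) → ∀ s : Finset (ℤ × ℤ),
    (∀ p ∈ s, 0 < p.2 ∧ p.2 ≤ N ∧ IsCoprime p.1 p.2 ∧ (N : ℤ) ^ M < |p.1| ∧
      ∀ i, ∃ c y : ℤ, Squarefree c ∧ |c| ≤ Y i ∧ p.1 - e i * p.2 = c * y ^ 2) →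
    s.card ≤ C * ∏ i, Y i := by
  classical
  obtain ⟨M, N', hSF⟩ := Pool.Agent.K7.H23.AT.sf 3 le_rfl
  refine ⟨2 * M, fun e he K => ?_⟩
  set G : ℕ := ∑ i ∈ (gp e).support, ((gp e).coeff i).natAbs with hG
  have hGc : ∀ i, |(gp e).coeff i| ≤ (G : ℤ) := by
    intro i
    rw [Int.abs_eq_natAbs]
    by_cases hi : i ∈ (gp e).support
    · exact_mod_cast Finset.single_le_sum (f := fun i => ((gp e).coeff i).natAbs)
        (fun _ _ => Nat.zero_le _) hi
    · rw [notMem_support_iff.1 hi]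
      simp
  refine ⟨N' * 8, 2 * (K + G + 1), fun N hN Y hY s hs => ?_⟩
  have hN1 : 1 ≤ N := by omega
  set H : ℕ := (K + G + 1) * N with hH
  have hH1 : 1 ≤ H := Nat.one_le_iff_ne_zero.2 (Nat.mul_ne_zero (by omega) (by omega))
  have hGH : G ≤ H := by
    rw [hH]
    nlinarith
  have hKH : K * N ≤ H := Nat.mul_le_mul_right _ (by omega)
  have hNH : N ≤ H := Nat.le_mul_of_pos_left _ (by omega)
  have hpow : (2 * H : ℤ) ^ M ≤ (N : ℤ) ^ (2 * M) := by
    rw [pow_mul]
    refine pow_le_pow_left₀ (by positivity) ?_ _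
    have : 2 * H ≤ N ^ 2 := by
      rw [hH]
      nlinarith
    exact_mod_cast this
  choose! c y hc hcY hcy using fun p (hp : p ∈ s) => (hs p hp).2.2.2.2
  set I : Fin 3 → Finset ℤ := fun i => (Finset.Icc (-(Y i : ℤ)) (Y i)).filter (fun t => t ≠ 0)
    with hI
  have hIc : ∀ i, (I i).card ≤ 2 * Y i := by
    intro i
    have h1 : I i = (Finset.Icc (-(Y i : ℤ)) (Y i)).erase 0 := by
      ext t
      rw [hI, Finset.mem_filter, Finset.mem_erase, and_comm]
    rw [h1, Finset.card_erase_of_mem (Finset.mem_Icc.2 ⟨by omega, by omega⟩), Int.card_Icc]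
    omega
  have hmaps : ∀ p ∈ s, (fun i => c p i) ∈ Fintype.piFinset I := by
    intro p hp
    rw [Fintype.mem_piFinset]
    intro i
    rw [hI, Finset.mem_filter, Finset.mem_Icc]
    exact ⟨abs_le.1 (hcY p hp i), (hc p hp i).ne_zero⟩
  have hfib : ∀ t ∈ Fintype.piFinset I, (s.filter fun p => (fun i => c p i) = t).card ≤ N' := by
    intro t ht
    rw [Fintype.mem_piFinset] at ht
    have ht' : ∀ i, t i ≠ 0 ∧ |t i| ≤ Y i := by
      intro i
      have := ht i
      rw [hI, Finset.mem_filter, Finset.mem_Icc] at this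
      exact ⟨this.2, abs_le.2 this.1⟩
    refine hSF H (gp e) (ip e t) _ hH1 (gp_monic e) (gp_deg e) (gp_sep he)
      (fun i => (hGc i).trans (by exact_mod_cast hGH)) ?_ ?_
    · intro θ hθ
      obtain ⟨i, rfl⟩ := gp_root hθ
      rw [ip_aeval he]
      refine ⟨isIntegral_algebraMap (R := ℤ) (x := t i), by exact_mod_cast (ht' i).1, ?_⟩
      rw [Complex.norm_intCast]
      have h1 : |t i| ≤ (H : ℤ) := (ht' i).2.trans (by exact_mod_cast (hY i).trans hKH)
      exact_mod_cast h1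
    · intro p hp
      rw [Finset.mem_filter] at hp
      obtain ⟨hps, hpt⟩ := hp
      obtain ⟨h1, h2, h3, h4, -⟩ := hs p hps
      refine ⟨h1, h2.trans (by exact_mod_cast hNH), h3, lt_of_le_of_lt hpow h4, 1, one_ne_zero,
        ip e (fun i => t i * y p i), gp_dvd he fun i => ?_⟩
      have h5 := hcy p hps i
      have h6 : c p i = t i := congrFun hpt i
      rw [h6] at h5
      simp only [eval_sub, eval_pow, eval_mul, eval_C, eval_X, ip_eval he]
      have h7 : ((p.1 : ℚ) - (p.2 : ℚ) * (e i : ℚ)) = t i * (y p i) ^ 2 := by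
        have := congrArg (Int.cast : ℤ → ℚ) h5
        push_cast at this
        linarith
      rw [h7]
      push_cast
      ring
  refine (Finset.card_le_mul_card_image_of_maps_to hmaps N' hfib).trans ?_
  rw [Fintype.card_piFinset, mul_assoc]
  refine Nat.mul_le_mul_left _ ?_
  calc ∏ i, (I i).card ≤ ∏ i, 2 * Y i := Finset.prod_le_prod' fun i _ => hIc i
    _ = 8 * ∏ i, Y i := by
        rw [Finset.prod_mul_distrib]
        simp

end Pool.Agent.H64.FT
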