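import Mathlib
import Pool.Agent.H64.FT.B1
import Pool.Agent.H64.FT.A11
import Pool.Graph.R_pool_sql_team_seeded_35f281b4.K7.H90.AS.A

/-!
# From pairs to twists
-/

set_option autoImplicit false

open Polynomial

namespace Pool.Agent.H64.FT

open Pool.Agent.K7.H23.AT Pool.Agent.K7.H23.PT

/-- the data without `D` -/
def Par3 (α β γ : ℤ) (R N Mx : ℕ) (x m a b c : ℤ) : Prop :=
  (L3 α β γ R a b c m ∧ Squarefree a ∧ Squarefree b ∧ Squarefree c ∧ 0 < m) ∧ IsCoprime x m ∧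
    m ≤ N ∧ (N : ℤ) ^ Mx < |x| ∧ (∃ y, x - α * m = a * y ^ 2) ∧ (∃ y, x - β * m = b * y ^ 2) ∧
    (∃ y, x - γ * m = c * y ^ 2) ∧ |a| * |b| * |c| * m ≤ (R : ℤ) ^ 2 * N ∧ |b| ≤ |a| ∧ |c| ≤ |b|

lemma par3_pos {α β γ : ℤ} {R N Mx : ℕ} {x m a b c : ℤ} (h : Par3 α β γ R N Mx x m a b c) :
    1 ≤ |a| ∧ 1 ≤ |b| ∧ 1 ≤ |c| ∧ 1 ≤ m :=
  ⟨Int.one_le_abs h.1.2.1.ne_zero, Int.one_le_abs h.1.2.2.1.ne_zero,
    Int.one_le_abs h.1.2.2.2.1.ne_zero, h.1.2.2.2.2⟩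

/-- `x ≠ α m` -/
lemma sub_ne {α : ℤ} {N Mx : ℕ} {x m : ℤ} (hm : 0 < m) (hmN : m ≤ N) (hx : (N : ℤ) ^ Mx < |x|)
    (hα : |α| ≤ N) (hM : 2 ≤ Mx) : x - α * m ≠ 0 := by
  intro h
  have h1 : |x| = |α| * m := by
    have : x = α * m := by linarith
    rw [this, abs_mul, abs_of_pos hm]
  have hN : (1 : ℤ) ≤ N := by omega
  have h2 : |α| * m ≤ (N : ℤ) ^ Mx := by
    calc |α| * m ≤ N * N := mul_le_mul hα hmN hm.le (by omega)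
      _ = (N : ℤ) ^ 2 := by ring
      _ ≤ (N : ℤ) ^ Mx := pow_le_pow_right₀ hN hM
  omega

/-- the twists with data satisfying `T` -/
def WW (α β γ : ℤ) (R S0 N Mx : ℕ) (T : ℤ → ℤ → ℤ → ℤ → ℤ → Prop) : Set ℤ :=
  {D : ℤ | D ≠ 0 ∧ |D| ≤ N ∧ ∃ x m a b c κ v : ℤ, Par3 α β γ R N Mx x m a b c ∧ T x m a b c ∧
    1 ≤ κ ∧ κ ≤ R ∧ 1 ≤ v ∧ v ≤ S0 ∧ D * κ ^ 2 = a * b * c * m * v ^ 2}

lemma ww_fin (α β γ : ℤ) (R S0 N Mx : ℕ) (T : ℤ → ℤ → ℤ → ℤ → ℤ → Prop) :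
    (WW α β γ R S0 N Mx T).Finite := fin_of_le fun D hD => hD.2.1

/-- from pairs to twists -/
theorem via_pairs3 {α β γ : ℤ} {R S0 N Mx B : ℕ} (hα : |α| ≤ N) (hβ : |β| ≤ N) (hγ : |γ| ≤ N)
    (hM : 2 ≤ Mx) (T : ℤ → ℤ → ℤ → ℤ → ℤ → Prop)
    (hB : ∀ s : Finset (ℤ × ℤ), (∀ p ∈ s, ∃ a b c : ℤ, Par3 α β γ R N Mx p.1 p.2 a b c ∧
      T p.1 p.2 a b c) → s.card ≤ B) :
    (WW α β γ R S0 N Mx T).ncard ≤ R * S0 * B := by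
  classical
  set A : Set ℤ := WW α β γ R S0 N Mx T with hA
  have hAf : A.Finite := ww_fin _ _ _ _ _ _ _ _
  have hdata : ∀ D : ℤ, ∃ x m a b c κ v : ℤ, D ∈ A → Par3 α β γ R N Mx x m a b c ∧
      T x m a b c ∧ 1 ≤ κ ∧ κ ≤ R ∧ 1 ≤ v ∧ v ≤ S0 ∧ D * κ ^ 2 = a * b * c * m * v ^ 2 := by
    intro D
    by_cases hD : D ∈ A
    · obtain ⟨-, -, x, m, a, b, c, κ, v, h⟩ := hD
      exact ⟨x, m, a, b, c, κ, v, fun _ => h⟩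
    · exact ⟨0, 0, 0, 0, 0, 0, 0, fun h => absurd h hD⟩
  choose x m a b c κ v hd using hdata
  have hmem : ∀ D, D ∈ hAf.toFinset ↔ D ∈ A := fun D => Set.Finite.mem_toFinset _
  set P : Finset (ℤ × ℤ) := hAf.toFinset.image fun D => (x D, m D) with hP
  have hPc : P.card ≤ B := by
    apply hB
    intro p hp
    rw [hP, Finset.mem_image] at hp
    obtain ⟨D, hD, rfl⟩ := hp
    obtain ⟨h1, h2, -⟩ := hd D ((hmem D).1 hD)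
    exact ⟨a D, b D, c D, h1, h2⟩
  rw [Set.ncard_eq_toFinset_card _ hAf]
  have h1 : hAf.toFinset.card ≤
      ((Finset.Icc (1 : ℤ) R) ×ˢ ((Finset.Icc (1 : ℤ) S0) ×ˢ P)).card := by
    apply Finset.card_le_card_of_injOn (fun D => (κ D, (v D, (x D, m D))))
    · intro D hD
      obtain ⟨-, -, h3, h4, h5, h6, -⟩ := hd D ((hmem D).1 hD)
      rw [Finset.mem_coe, Finset.mem_product, Finset.mem_product]
      exact ⟨Finset.mem_Icc.2 ⟨h3, h4⟩, Finset.mem_Icc.2 ⟨h5, h6⟩,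
        Finset.mem_image_of_mem _ hD⟩
    · intro D hD D' hD' heq
      obtain ⟨h1, -, h3, -, -, -, h7⟩ := hd D ((hmem D).1 hD)
      obtain ⟨h1', -, -, -, -, -, h7'⟩ := hd D' ((hmem D').1 hD')
      simp only [Prod.mk.injEq] at heq
      obtain ⟨e1, e2, e3, e4⟩ := heq
      obtain ⟨⟨-, ha, hb, hc, hm⟩, -, hmN, hxN, ⟨y0, hy0⟩, ⟨y1, hy1⟩, ⟨y2, hy2⟩, -⟩ := h1
      obtain ⟨⟨-, ha', hb', hc', -⟩, -, -, -, ⟨y0', hy0'⟩, ⟨y1', hy1'⟩, ⟨y2', hy2'⟩, -⟩ := h1'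
      have k0 : a D = a D' := Pool.Agent.K7.H90.AS.sqf_unique ha ha'
        (sub_ne hm hmN hxN hα hM) (u := a D * y0) (v := a D' * y0') (by
          rw [hy0]; ring) (by rw [e3, e4, hy0']; ring)
      have k1 : b D = b D' := Pool.Agent.K7.H90.AS.sqf_unique hb hb'
        (sub_ne hm hmN hxN hβ hM) (u := b D * y1) (v := b D' * y1') (by
          rw [hy1]; ring) (by rw [e3, e4, hy1']; ring)
      have k2 : c D = c D' := Pool.Agent.K7.H90.AS.sqf_unique hc hc'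
        (sub_ne hm hmN hxN hγ hM) (u := c D * y2) (v := c D' * y2') (by
          rw [hy2]; ring) (by rw [e3, e4, hy2']; ring)
      apply mul_right_cancel₀ (pow_ne_zero 2 (show κ D ≠ 0 by omega))
      rw [h7]
      conv_rhs => rw [e1, h7']
      rw [k0, k1, k2, e4, e2]
  refine h1.trans ?_
  rw [Finset.card_product, Finset.card_product, Int.card_Icc, Int.card_Icc]
  have h2 : ((R : ℤ) + 1 - 1).toNat = R := by omega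
  have h3 : ((S0 : ℤ) + 1 - 1).toNat = S0 := by omega
  rw [h2, h3, mul_assoc]
  exact Nat.mul_le_mul_left _ (Nat.mul_le_mul_left _ hPc)

/-- pairs in a box -/
def BoxB (α β γ : ℤ) (R C N Mx : ℕ) : Prop := ∀ Y0 Y1 Y2 : ℕ, Y0 ≤ 2 * R ^ 2 * N →
  Y1 ≤ 2 * R ^ 2 * N → Y2 ≤ 2 * R ^ 2 * N → ∀ s : Finset (ℤ × ℤ), (∀ p ∈ s, ∃ a b c : ℤ,
    Par3 α β γ R N Mx p.1 p.2 a b c ∧ |a| ≤ Y0 ∧ |b| ≤ Y1 ∧ |c| ≤ Y2) →
      s.card ≤ C * (Y0 * Y1 * Y2)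

theorem boxB : ∃ M : ℕ, ∀ α β γ : ℤ, α ≠ β → α ≠ γ → β ≠ γ → ∀ R : ℕ, ∃ C N₀ : ℕ,
    ∀ N Mx : ℕ, N₀ ≤ N → M ≤ Mx → BoxB α β γ R C N Mx := by
  obtain ⟨M, hM⟩ := box3
  refine ⟨M, fun α β γ h1 h2 h3 R => ?_⟩
  obtain ⟨C, N₀, hC⟩ := hM ![α, β, γ] (by
    intro i j hij
    fin_cases i <;> fin_cases j <;> simp_all) (2 * R ^ 2)
  refine ⟨C, N₀ + 1, fun N Mx hN hMx Y0 Y1 Y2 hY0 hY1 hY2 s hs => ?_⟩
  have h := hC N (by omega) ![Y0, Y1, Y2] (by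
    intro i
    fin_cases i
    · exact hY0
    · exact hY1
    · exact hY2) s (by
    intro p hp
    obtain ⟨a, b, c, ⟨⟨-, ha, hb, hc, hm⟩, hco, hmN, hx, ⟨y0, hy0⟩, ⟨y1, hy1⟩, ⟨y2, hy2⟩, -⟩,
      k0, k1, k2⟩ := hs p hp
    refine ⟨hm, hmN, hco, lt_of_le_of_lt ?_ hx, ?_⟩
    · exact pow_le_pow_right₀ (by exact_mod_cast (by omega : 1 ≤ N)) hMx
    · intro i
      fin_cases i
      · exact ⟨a, y0, ha, k0, hy0⟩
      · exact ⟨b, y1, hb, k1, hy1⟩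
      · exact ⟨c, y2, hc, k2, hy2⟩)
  rw [Fin.prod_univ_three] at h
  exact h

end Pool.Agent.H64.FT
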