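import Mathlib
import Pool.Agent.H64.FT.B2

/-!
# Large `m`
-/

set_option autoImplicit false

open Polynomial

namespace Pool.Agent.H64.FT

open Pool.Agent.K7.H23.AT Pool.Agent.K7.H23.PT

lemma log_bounds {b : ℤ} (hb : 1 ≤ |b|) : (2 : ℤ) ^ Nat.log 2 b.natAbs ≤ |b| ∧
    |b| < 2 ^ (Nat.log 2 b.natAbs + 1) := by
  have hb0 : b.natAbs ≠ 0 := by
    intro h
    rw [Int.natAbs_eq_zero] at h
    rw [h, abs_zero] at hb
    omega
  constructor
  · have := Nat.pow_log_le_self 2 hb0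
    rw [Int.abs_eq_natAbs]
    exact_mod_cast this
  · have := Nat.lt_pow_succ_log_self (b := 2) (by norm_num) b.natAbs
    rw [Int.abs_eq_natAbs]
    exact_mod_cast this

/-- large `b`, and `m` large in terms of `b` -/
theorem pairsT2 {α β γ : ℤ} {R C N Mx i0 : ℕ} (hi0 : 1 ≤ i0) (hbox : BoxB α β γ R C N Mx)
    (s : Finset (ℤ × ℤ)) (hs : ∀ p ∈ s, ∃ a b c : ℤ, Par3 α β γ R N Mx p.1 p.2 a b c ∧
      (2 : ℤ) ^ i0 ≤ |b| ∧ (Nat.log 2 b.natAbs : ℤ) ^ 3 < p.2) :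
    (s.card : ℝ) ≤ C * (8 * R ^ 2 * N) * (2 / i0) := by
  classical
  choose! a b c hd hb1 hm1 using hs
  set L := Nat.log 2 (R ^ 2 * N) with hL
  set i : ℤ × ℤ → ℕ := fun p => Nat.log 2 (b p).natAbs with hi
  set l : ℤ × ℤ → ℕ := fun p => Nat.log 2 (c p).natAbs with hl
  have hi1 : ∀ p ∈ s, i0 ≤ i p ∧ i p ≤ L ∧ l p ≤ i p := by
    intro p hp
    obtain ⟨k0, k1, k2, k3⟩ := par3_pos (hd p hp)
    obtain ⟨-, -, -, -, -, -, -, hsz, hba, hcb⟩ := hd p hp
    refine ⟨?_, ?_, ?_⟩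
    · have h1 := hb1 p hp
      apply Nat.le_log_of_pow_le (by norm_num)
      rw [Int.abs_eq_natAbs] at h1
      exact_mod_cast h1
    · apply Nat.log_mono_right
      have h5 : |b p| ≤ (R : ℤ) ^ 2 * N := by
        refine le_trans ?_ hsz
        calc |b p| = 1 * |b p| * 1 * 1 := by ring
          _ ≤ |a p| * |b p| * |c p| * p.2 := by gcongr
      rw [Int.abs_eq_natAbs] at h5
      exact_mod_cast h5
    · apply Nat.log_mono_right
      rw [Int.abs_eq_natAbs, Int.abs_eq_natAbs] at hcb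
      exact_mod_cast hcb
  have hcov : s ⊆ (Finset.Ioo (i0 - 1) (L + 1)).biUnion fun j =>
      (Finset.range (j + 1)).biUnion fun t => s.filter fun p => i p = j ∧ l p = t := by
    intro p hp
    obtain ⟨h1, h2, h3⟩ := hi1 p hp
    rw [Finset.mem_biUnion]
    refine ⟨i p, Finset.mem_Ioo.2 (by omega), ?_⟩
    rw [Finset.mem_biUnion]
    exact ⟨l p, Finset.mem_range.2 (by omega), Finset.mem_filter.2 ⟨hp, rfl, rfl⟩⟩
  have hterm : ∀ j ∈ Finset.Ioo (i0 - 1) (L + 1), ∀ t ∈ Finset.range (j + 1),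
      ((s.filter fun p => i p = j ∧ l p = t).card : ℝ) ≤ C * (4 * R ^ 2 * N) * ((j : ℝ) ^ 3)⁻¹ := by
    intro j hj t ht
    rw [Finset.mem_Ioo] at hj
    rw [Finset.mem_range] at ht
    have hj1 : 1 ≤ j := by omega
    rcases (s.filter fun p => i p = j ∧ l p = t).eq_empty_or_nonempty with he | ⟨p0, hp0⟩
    · rw [he, Finset.card_empty, Nat.cast_zero]
      positivity
    set den : ℕ := 2 ^ j * 2 ^ t * j ^ 3 with hden
    have hden0 : 0 < den := by positivity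
    obtain ⟨hp0s, hp0i, hp0l⟩ := Finset.mem_filter.1 hp0
    have key : ∀ p ∈ s.filter fun p => i p = j ∧ l p = t, |a p| ≤ ((R ^ 2 * N / den : ℕ) : ℤ) ∧
        |b p| ≤ ((2 ^ (j + 1) : ℕ) : ℤ) ∧ |c p| ≤ ((2 ^ (t + 1) : ℕ) : ℤ) ∧
        2 ^ j ≤ R ^ 2 * N ∧ 2 ^ t ≤ R ^ 2 * N := by
      intro p hp
      obtain ⟨hps, hpi, hpl⟩ := Finset.mem_filter.1 hp
      obtain ⟨k0, k1, k2, k3⟩ := par3_pos (hd p hps)
      obtain ⟨-, -, -, -, -, -, -, hsz, hba, hcb⟩ := hd p hps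
      obtain ⟨lb1, lb2⟩ := log_bounds k1
      obtain ⟨lc1, lc2⟩ := log_bounds k2
      have hpi' : Nat.log 2 (b p).natAbs = j := hpi
      have hpl' : Nat.log 2 (c p).natAbs = t := hpl
      rw [hpi'] at lb1 lb2
      rw [hpl'] at lc1 lc2
      have hm2 := hm1 p hps
      rw [hpi'] at hm2
      have h5 : |a p| * ((2 : ℤ) ^ j * 2 ^ t * (j : ℤ) ^ 3) ≤ (R : ℤ) ^ 2 * N := by
        calc |a p| * ((2 : ℤ) ^ j * 2 ^ t * (j : ℤ) ^ 3) ≤ |a p| * (|b p| * |c p| * p.2) := by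
              gcongr
          _ = |a p| * |b p| * |c p| * p.2 := by ring
          _ ≤ _ := hsz
      have hbR : |b p| ≤ (R : ℤ) ^ 2 * N := by
        refine le_trans ?_ hsz
        calc |b p| = 1 * |b p| * 1 * 1 := by ring
          _ ≤ |a p| * |b p| * |c p| * p.2 := by gcongr
      refine ⟨?_, ?_, ?_, ?_, ?_⟩
      · have h6 : (a p).natAbs ≤ R ^ 2 * N / den := by
          rw [Nat.le_div_iff_mul_le hden0, hden]
          rw [Int.abs_eq_natAbs] at h5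
          exact_mod_cast h5
        rw [Int.abs_eq_natAbs]
        exact_mod_cast h6
      · push_cast
        exact lb2.le
      · push_cast
        exact lc2.le
      · exact_mod_cast lb1.trans hbR
      · exact_mod_cast lc1.trans (hcb.trans hbR)
    obtain ⟨-, -, -, q1, q2⟩ := key p0 hp0
    have h1 := hbox (R ^ 2 * N / den) (2 ^ (j + 1)) (2 ^ (t + 1))
      (by
        refine (Nat.div_le_self _ _).trans ?_
        rw [mul_assoc]
        exact Nat.le_mul_of_pos_left _ (by norm_num)) (by rw [pow_succ]; linarith)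
      (by rw [pow_succ]; linarith) (s.filter fun p => i p = j ∧ l p = t) (fun p hp => by
        obtain ⟨k1, k2, k3, -⟩ := key p hp
        exact ⟨a p, b p, c p, hd p (Finset.mem_filter.1 hp).1, k1, k2, k3⟩)
    have hj0 : (0 : ℝ) < j := by exact_mod_cast hj1
    have h2 : ((R ^ 2 * N / den : ℕ) : ℝ) ≤ (R ^ 2 * N : ℝ) / (2 ^ j * 2 ^ t * j ^ 3) := by
      have := @Nat.cast_div_le ℝ _ _ _ (R ^ 2 * N) den
      rw [hden] at this
      push_cast at this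
      exact this
    calc ((s.filter fun p => i p = j ∧ l p = t).card : ℝ)
        ≤ ((C * (R ^ 2 * N / den * 2 ^ (j + 1) * 2 ^ (t + 1)) : ℕ) : ℝ) := by exact_mod_cast h1
      _ = C * (((R ^ 2 * N / den : ℕ) : ℝ) * 2 ^ (j + 1) * 2 ^ (t + 1)) := by push_cast; ring
      _ ≤ C * ((R ^ 2 * N : ℝ) / (2 ^ j * 2 ^ t * j ^ 3) * 2 ^ (j + 1) * 2 ^ (t + 1)) := by gcongr
      _ = C * (4 * R ^ 2 * N) * ((j : ℝ) ^ 3)⁻¹ := by
          rw [pow_succ, pow_succ]
          field_simp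
          ring
  have hterm2 : ∀ j ∈ Finset.Ioo (i0 - 1) (L + 1), (((Finset.range (j + 1)).biUnion fun t =>
      s.filter fun p => i p = j ∧ l p = t).card : ℝ) ≤ C * (8 * R ^ 2 * N) * ((j : ℝ) ^ 2)⁻¹ := by
    intro j hj
    have hj1 : 1 ≤ j := by
      rw [Finset.mem_Ioo] at hj
      omega
    have hj0 : (0 : ℝ) < j := by exact_mod_cast hj1
    calc (((Finset.range (j + 1)).biUnion fun t => s.filter fun p => i p = j ∧ l p = t).card : ℝ) ≤
          ((∑ t ∈ Finset.range (j + 1), (s.filter fun p => i p = j ∧ l p = t).card : ℕ) : ℝ) := by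
          exact_mod_cast Finset.card_biUnion_le
      _ = ∑ t ∈ Finset.range (j + 1), ((s.filter fun p => i p = j ∧ l p = t).card : ℝ) := by
          push_cast; rfl
      _ ≤ ∑ _t ∈ Finset.range (j + 1), C * (4 * R ^ 2 * N) * ((j : ℝ) ^ 3)⁻¹ :=
          Finset.sum_le_sum (hterm j hj)
      _ = ((j : ℝ) + 1) * (C * (4 * R ^ 2 * N) * ((j : ℝ) ^ 3)⁻¹) := by
          rw [Finset.sum_const, Finset.card_range, nsmul_eq_mul]
          push_cast
          ring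
      _ ≤ (2 * j) * (C * (4 * R ^ 2 * N) * ((j : ℝ) ^ 3)⁻¹) := by
          have : (1 : ℝ) ≤ j := by exact_mod_cast hj1
          gcongr
          linarith
      _ = _ := by
          field_simp
          ring
  have hsum : ∑ j ∈ Finset.Ioo (i0 - 1) (L + 1), ((j : ℝ) ^ 2)⁻¹ ≤ 2 / i0 := by
    have := sum_Ioo_inv_sq_le (α := ℝ) (i0 - 1) (L + 1)
    have h1 : (((i0 - 1 : ℕ) : ℝ) + 1) = i0 := by
      rw [Nat.cast_sub hi0]
      push_cast
      ring
    rw [h1] at this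
    exact this
  calc (s.card : ℝ) ≤ ((∑ j ∈ Finset.Ioo (i0 - 1) (L + 1), ((Finset.range (j + 1)).biUnion fun t =>
        s.filter fun p => i p = j ∧ l p = t).card : ℕ) : ℝ) := by
        exact_mod_cast (Finset.card_le_card hcov).trans Finset.card_biUnion_le
    _ = ∑ j ∈ Finset.Ioo (i0 - 1) (L + 1), (((Finset.range (j + 1)).biUnion fun t =>
        s.filter fun p => i p = j ∧ l p = t).card : ℝ) := by
        push_cast; rfl
    _ ≤ ∑ j ∈ Finset.Ioo (i0 - 1) (L + 1), C * (8 * R ^ 2 * N) * ((j : ℝ) ^ 2)⁻¹ :=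
        Finset.sum_le_sum hterm2
    _ = C * (8 * R ^ 2 * N) * ∑ j ∈ Finset.Ioo (i0 - 1) (L + 1), ((j : ℝ) ^ 2)⁻¹ :=
        (Finset.mul_sum _ _ _).symm
    _ ≤ C * (8 * R ^ 2 * N) * (2 / i0) := mul_le_mul_of_nonneg_left hsum (by positivity)

/-- small `b` and large `m` -/
theorem pairsT3 {α β γ : ℤ} {R C N Mx X1 Mm : ℕ} (hMm : 1 ≤ Mm) (hR : 1 ≤ R) (hX1 : X1 ≤ N)
    (hbox : BoxB α β γ R C N Mx)
    (s : Finset (ℤ × ℤ)) (hs : ∀ p ∈ s, ∃ a b c : ℤ, Par3 α β γ R N Mx p.1 p.2 a b c ∧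
      |b| ≤ X1 ∧ (Mm : ℤ) ≤ p.2) :
    (s.card : ℝ) ≤ C * (R ^ 2 * N) * X1 ^ 2 / Mm := by
  have hRN : N ≤ 2 * R ^ 2 * N := Nat.le_mul_of_pos_left _ (by positivity)
  have h1 := hbox (R ^ 2 * N / Mm) X1 X1 (by
      refine (Nat.div_le_self _ _).trans ?_
      rw [mul_assoc]
      exact Nat.le_mul_of_pos_left _ (by norm_num)) (hX1.trans hRN) (hX1.trans hRN) s (by
    intro p hp
    obtain ⟨a, b, c, k, k2, k3⟩ := hs p hp
    obtain ⟨l0, l1, l2, l3⟩ := par3_pos k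
    refine ⟨a, b, c, k, ?_, k2, ?_⟩
    · obtain ⟨-, -, -, -, -, -, -, hsz, hba, hcb⟩ := k
      have h5 : |a| * Mm ≤ (R : ℤ) ^ 2 * N := by
        calc |a| * Mm = |a| * 1 * 1 * Mm := by ring
          _ ≤ |a| * |b| * |c| * p.2 := by gcongr
          _ ≤ _ := hsz
      have h6 : a.natAbs ≤ R ^ 2 * N / Mm := by
        rw [Nat.le_div_iff_mul_le hMm]
        rw [Int.abs_eq_natAbs] at h5
        exact_mod_cast h5
      rw [Int.abs_eq_natAbs]
      exact_mod_cast h6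
    · exact k.2.2.2.2.2.2.2.2.2.trans k2)
  have h2 : ((R ^ 2 * N / Mm : ℕ) : ℝ) ≤ (R ^ 2 * N : ℝ) / Mm := by
    have := @Nat.cast_div_le ℝ _ _ _ (R ^ 2 * N) Mm
    push_cast at this
    exact this
  calc (s.card : ℝ) ≤ ((C * (R ^ 2 * N / Mm * X1 * X1) : ℕ) : ℝ) := by exact_mod_cast h1
    _ = C * (((R ^ 2 * N / Mm : ℕ) : ℝ) * X1 ^ 2) := by push_cast; ring
    _ ≤ C * ((R ^ 2 * N : ℝ) / Mm * X1 ^ 2) := by gcongr
    _ = _ := by ring

end Pool.Agent.H64.FT
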