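import Mathlib
import Pool.Agent.H64.FT.B3
import Pool.Graph.R_pool_sql_team_seeded_35f281b4.K7.H23.PT.FI2
import Pool.Graph.R_pool_sql_team_seeded_35f281b4.K7.H90.DE.Main

/-!
# Small `m`: the second number is large; or small and the class is not the torsion class
-/

set_option autoImplicit false

open Polynomial

namespace Pool.Agent.H64.FT

open Pool.Agent.K7.H23.AT Pool.Agent.K7.H23.PT

lemma transfer {ι : Type} {A E : Set ℤ} (J : Finset ι) (f g : ι → ℤ) (hf : ∀ i ∈ J, f i ≠ 0)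
    (hE : E.Finite) (hA : ∀ D ∈ A, ∃ i ∈ J, ∃ D' ∈ E, D * f i = D' * g i) :
    A.ncard ≤ J.card * E.ncard := by
  classical
  have hsub : A ⊆ (((J ×ˢ hE.toFinset).image fun q => q.2 * g q.1 / f q.1 : Finset ℤ) : Set ℤ) := by
    intro D hD
    obtain ⟨i, hi, D', hD', h⟩ := hA D hD
    rw [Finset.mem_coe, Finset.mem_image]
    refine ⟨(i, D'), Finset.mem_product.2 ⟨hi, (Set.Finite.mem_toFinset _).2 hD'⟩, ?_⟩
    simp only
    rw [← h, Int.mul_ediv_cancel _ (hf i hi)]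
  calc A.ncard ≤ _ := Set.ncard_le_ncard hsub (Finset.finite_toSet _)
    _ = _ := Set.ncard_coe_finset _
    _ ≤ (J ×ˢ hE.toFinset).card := Finset.card_image_le
    _ = J.card * E.ncard := by
        rw [Finset.card_product, Set.ncard_eq_toFinset_card _ hE]

lemma card_J (R S0 : ℕ) : ((Finset.Icc (1 : ℤ) R) ×ˢ (Finset.Icc (1 : ℤ) S0)).card = R * S0 := by
  rw [Finset.card_product, Int.card_Icc, Int.card_Icc]
  have h2 : ((R : ℤ) + 1 - 1).toNat = R := by omega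
  have h3 : ((S0 : ℤ) + 1 - 1).toNat = S0 := by omega
  rw [h2, h3]

/-- large `b`, small `m` -/
theorem partT1 {α β γ : ℤ} (hαγ : α ≠ γ) (hβγ : β ≠ γ) {R : ℕ} (hR : 1 ≤ R) (h2 : 2 ∣ R)
    (h1R : β - α ∣ (R : ℤ)) (h2R : γ - α ∣ (R : ℤ)) (h3R : γ - β ∣ (R : ℤ)) (S0 : ℕ) (hS0 : 1 ≤ S0)
    (ε : ℝ) (hε : 0 < ε) : ∃ X₀ N₀ : ℕ, 1 ≤ X₀ ∧ ∀ N Mx : ℕ, N₀ ≤ N →
      ((WW α β γ R S0 N Mx fun _ m _ b c => (X₀ : ℤ) ≤ |b| ∧
        m ≤ (Nat.log 2 b.natAbs : ℤ) ^ 3 ∧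
        ¬ (IsSquare ((α - γ) * m * c) ∧ IsSquare ((β - γ) * m * c))).ncard : ℝ) ≤ ε * N := by
  classical
  have hRpos : (0 : ℝ) < R := by exact_mod_cast hR
  have hSpos : (0 : ℝ) < S0 := by exact_mod_cast hS0
  obtain ⟨X₀, N₀, hX₀, hN₀⟩ := an hαγ hβγ hR h2 h1R h2R h3R (ε / (R * S0 * R ^ 2)) (by positivity)
  refine ⟨X₀, N₀, hX₀, fun N Mx hN => ?_⟩
  set E : Set ℤ := AN α β γ R X₀ (R ^ 2 * N) with hE
  have hEf : E.Finite := fin_of_le fun D hD => hD.2.1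
  have hEc : (E.ncard : ℝ) ≤ ε / (R * S0 * R ^ 2) * (R ^ 2 * N : ℕ) :=
    hN₀ (R ^ 2 * N) (hN.trans (Nat.le_mul_of_pos_left _ (by positivity)))
  have h1 := transfer (A := WW α β γ R S0 N Mx fun _ m _ b c => (X₀ : ℤ) ≤ |b| ∧
        m ≤ (Nat.log 2 b.natAbs : ℤ) ^ 3 ∧
        ¬ (IsSquare ((α - γ) * m * c) ∧ IsSquare ((β - γ) * m * c)))
    ((Finset.Icc (1 : ℤ) R) ×ˢ (Finset.Icc (1 : ℤ) S0)) (fun q => q.1 ^ 2) (fun q => q.2 ^ 2)
    (fun q hq => by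
      rw [Finset.mem_product, Finset.mem_Icc] at hq
      exact pow_ne_zero 2 (by omega)) hEf (by
    rintro D ⟨hD0, hDN, x, m, a, b, c, κ, v, hP, ⟨hb, hm, hsq⟩, hκ1, hκR, hv1, hvS, heq⟩
    refine ⟨(κ, v), ?_, a * b * c * m, ?_, heq⟩
    · rw [Finset.mem_product, Finset.mem_Icc, Finset.mem_Icc]
      exact ⟨⟨hκ1, hκR⟩, hv1, hvS⟩
    · obtain ⟨⟨hL, ha, hb', hc, hm0⟩, -, -, -, -, -, -, hsz, hba, hcb⟩ := hP
      refine ⟨?_, ?_, a, b, c, m, rfl, hm0, ha, hb', hc, hL, hb, hba, hcb, hm, hsq⟩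
      · exact mul_ne_zero (mul_ne_zero (mul_ne_zero ha.ne_zero hb'.ne_zero) hc.ne_zero) hm0.ne'
      · rw [abs_mul, abs_mul, abs_mul, abs_of_pos hm0]
        push_cast
        exact hsz)
  rw [card_J] at h1
  calc _ ≤ ((R * S0 * E.ncard : ℕ) : ℝ) := by exact_mod_cast h1
    _ = R * S0 * (E.ncard : ℝ) := by push_cast; ring
    _ ≤ R * S0 * (ε / (R * S0 * R ^ 2) * (R ^ 2 * N : ℕ)) :=
        mul_le_mul_of_nonneg_left hEc (by positivity)
    _ = ε * N := by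
        push_cast
        field_simp

lemma abs_le_of_dvd {d : ℤ} {R : ℕ} (hR : 1 ≤ R) (h : d ∣ (R : ℤ)) : |d| ≤ R := by
  have h1 : |d| ∣ (R : ℤ) := (abs_dvd _ _).2 h
  exact Int.le_of_dvd (by exact_mod_cast hR) h1

/-- small `b` and `m`, not the torsion class -/
theorem partT4 {α β γ : ℤ} {R : ℕ} (hR : 1 ≤ R) (h1R : α - β ∣ (R : ℤ)) (h2R : α - γ ∣ (R : ℤ))
    (X1 Mm S0 : ℕ) (ε : ℝ) (hε : 0 < ε) : ∃ N₀ : ℕ, ∀ N Mx : ℕ, N₀ ≤ N →
      ((WW α β γ R S0 N Mx fun _ m _ b c => |b| ≤ X1 ∧ m ≤ Mm ∧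
        ¬ (IsSquare ((α - β) * m * b) ∧ IsSquare ((α - γ) * m * c))).ncard : ℝ) ≤ ε * N := by
  classical
  set K := R + X1 + Mm + S0 with hK
  set E0 := R * Mm * X1 with hE0
  set J := (Finset.Icc (-(E0 : ℤ)) E0).filter fun e => ¬ IsSquare e with hJ
  have h0 : ∀ e : ℤ, ∃ N₀ : ℕ, ¬ IsSquare e → ∀ N : ℕ, N₀ ≤ N →
      (Set.ncard {D : ℤ | D ≠ 0 ∧ |D| ≤ N ∧
      ∀ p : ℕ, p.Prime → (p : ℤ) ∣ D → K < p → IsSquare ((e : ℤ) : ZMod p)} : ℝ) ≤
        ε / (J.card + 1) * N := by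
    intro e
    by_cases he : IsSquare e
    · exact ⟨0, fun h => absurd he h⟩
    · obtain ⟨N₀, h⟩ := small_sq Pool.Agent.K7.H90.DE.stDE e he K (ε / (J.card + 1))
        (by positivity)
      exact ⟨N₀, fun _ => h⟩
  choose N₀ hN₀ using h0
  refine ⟨∑ e ∈ J, N₀ e, fun N Mx hN => ?_⟩
  set T : ℤ → Set ℤ := fun e => {D : ℤ | D ≠ 0 ∧ |D| ≤ N ∧
      ∀ p : ℕ, p.Prime → (p : ℤ) ∣ D → K < p → IsSquare ((e : ℤ) : ZMod p)} with hT
  have hTf : ∀ e, (T e).Finite := fun e => fin_of_le fun D hD => hD.2.1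
  have hTc : ∀ e ∈ J, ((T e).ncard : ℝ) ≤ ε / (J.card + 1) * N := by
    intro e he
    apply hN₀ e (Finset.mem_filter.1 he).2 N
    exact (Finset.single_le_sum (f := N₀) (fun _ _ => Nat.zero_le _) he).trans hN
  have hcov : (WW α β γ R S0 N Mx fun _ m _ b c => |b| ≤ X1 ∧ m ≤ Mm ∧
        ¬ (IsSquare ((α - β) * m * b) ∧ IsSquare ((α - γ) * m * c))) ⊆ ⋃ e ∈ J, T e := by
    rintro D ⟨hD0, hDN, x, m, a, b, c, κ, v, hP, ⟨hb, hm, hsq⟩, hκ1, hκR, hv1, hvS, heq⟩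
    obtain ⟨l0, l1, l2, l3⟩ := par3_pos hP
    obtain ⟨⟨hL, ha, hb', hc, hm0⟩, -, -, -, -, -, -, hsz, hba, hcb⟩ := hP
    have hcX : |c| ≤ X1 := hcb.trans hb
    -- the large primes divide `a`
    have hpa : ∀ p : ℕ, p.Prime → (p : ℤ) ∣ D → K < p → (p : ℤ) ∣ a ∧ ¬ p ∣ R := by
      intro p hp hpD hKp
      have hpp : Prime (p : ℤ) := Nat.prime_iff_prime_int.1 hp
      have hbig : ∀ t : ℤ, 1 ≤ |t| → |t| ≤ K → ¬ (p : ℤ) ∣ t := by
        intro t ht1 ht2 hpt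
        have := Int.le_of_dvd (by omega) ((dvd_abs _ _).2 hpt)
        omega
      have h3 : (p : ℤ) ∣ a * b * c * m * v ^ 2 := by
        rw [← heq]
        exact hpD.mul_right _
      constructor
      · rcases hpp.dvd_or_dvd h3 with h | h
        · rcases hpp.dvd_or_dvd h with h | h
          · rcases hpp.dvd_or_dvd h with h | h
            · rcases hpp.dvd_or_dvd h with h | h
              · exact h
              · exact absurd h (hbig b l1 (by push_cast [hK]; omega))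
            · exact absurd h (hbig c l2 (by push_cast [hK]; omega))
          · exact absurd h (hbig m (by rw [abs_of_pos hm0]; exact l3)
              (by rw [abs_of_pos hm0]; push_cast [hK]; omega))
        · exact absurd (hpp.dvd_of_dvd_pow h) (hbig v (by rw [abs_of_pos (by omega)]; exact hv1)
            (by rw [abs_of_pos (by omega)]; push_cast [hK]; omega))
      · intro hpR
        have := Nat.le_of_dvd (by omega) hpR
        omega
    have hmem : ∀ e d t : ℤ, e = d * m * t → |d| ≤ R → |t| ≤ X1 → ¬ IsSquare e → e ∈ J := by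
      intro e d t he hd ht hne
      rw [hJ, Finset.mem_filter]
      refine ⟨?_, hne⟩
      rw [Finset.mem_Icc, ← abs_le, he, abs_mul, abs_mul, abs_of_pos hm0, hE0]
      push_cast
      gcongr
    simp only [Set.mem_iUnion]
    by_cases hs1 : IsSquare ((α - β) * m * b)
    · have hs2 : ¬ IsSquare ((α - γ) * m * c) := fun h => hsq ⟨hs1, h⟩
      refine ⟨(α - γ) * m * c, hmem _ _ _ rfl (abs_le_of_dvd hR h2R) hcX hs2, hD0, hDN, ?_⟩
      intro p hp hpD hKp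
      obtain ⟨h4, h5⟩ := hpa p hp hpD hKp
      exact (hL.1 p hp h4 h5).2.2.2.2
    · refine ⟨(α - β) * m * b, hmem _ _ _ rfl (abs_le_of_dvd hR h1R) hb hs1, hD0, hDN, ?_⟩
      intro p hp hpD hKp
      obtain ⟨h4, h5⟩ := hpa p hp hpD hKp
      exact (hL.1 p hp h4 h5).2.2.2.1
  have hUf : (⋃ c ∈ J, T c).Finite := J.finite_toSet.biUnion fun c _ => hTf c
  have h1 : (⋃ c ∈ J, T c).ncard ≤ ∑ c ∈ J, (T c).ncard := by
    have : ∀ K : Finset ℤ, (⋃ q ∈ K, T q).ncard ≤ ∑ q ∈ K, (T q).ncard := by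
      intro K
      induction K using Finset.induction_on with
      | empty => simp
      | insert q K hq ih =>
        rw [Finset.sum_insert hq, Finset.set_biUnion_insert]
        exact (Set.ncard_union_le _ _).trans (Nat.add_le_add_left ih _)
    exact this J
  have h2 : ((WW α β γ R S0 N Mx fun _ m _ b c => |b| ≤ X1 ∧ m ≤ Mm ∧
        ¬ (IsSquare ((α - β) * m * b) ∧ IsSquare ((α - γ) * m * c))).ncard : ℝ) ≤
      ∑ c ∈ J, ((T c).ncard : ℝ) := by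
    exact_mod_cast (Set.ncard_le_ncard hcov hUf).trans h1
  refine h2.trans ((Finset.sum_le_sum hTc).trans ?_)
  rw [Finset.sum_const, nsmul_eq_mul]
  calc (J.card : ℝ) * (ε / (J.card + 1) * N) = (J.card / (J.card + 1)) * (ε * N) := by ring
    _ ≤ 1 * (ε * N) := by
        apply mul_le_mul_of_nonneg_right _ (by positivity)
        rw [div_le_one (by positivity)]
        linarith
    _ = _ := one_mul _

end Pool.Agent.H64.FT
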