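import Mathlib
import Pool.Graph.R_pool_sql_team_seeded_35f281b4.K7.H63.TO.Main

/-!
# The torsion class (after the library module `K7/H63/TO/Main`)
-/

set_option autoImplicit false

open Polynomial Filter

namespace Pool.Agent.H64.FT

open Pool.Agent.K7.H23.AT Pool.Agent.K7.H23.PT Pool.Agent.K7.H63.TO

/-- the torsion class, only `a² - 4b ≠ 0` is needed -/
theorem to' (hPC : StPC) (hSF : StSF) : ∃ M : ℕ, ∀ a b m : ℤ, a ^ 2 - 4 * b ≠ 0 → b ≠ 0 → 0 < m →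
    ∃ C N₀ : ℕ, ∀ N : ℕ, N₀ ≤ N → ∀ s : Finset ℤ, (∀ x ∈ s, IsCoprime x m ∧ (N : ℤ) ^ M < |x| ∧
      (∃ c y : ℤ, Squarefree c ∧ |c| ≤ N ∧ x = c * y ^ 2) ∧
      IsSquare (b * (x ^ 2 + a * x * m + b * m ^ 2))) → s.card ^ 4 ≤ C * N ^ 3 := by
  classical
  obtain ⟨M₀, hcl⟩ := classes hPC hSF
  refine ⟨2 * M₀ + 4, fun a b m hΔ0 hb hm => ?_⟩
  set K : ℤ := b ^ 2 * m ^ 2 * (a ^ 2 - 4 * b) with hKdef
  have hK : K ≠ 0 := mul_ne_zero (mul_ne_zero (pow_ne_zero _ hb) (pow_ne_zero _ hm.ne')) hΔ0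
  have hcl' : ∀ n : ℤ, ∃ k : ℕ, 1 ≤ k ∧ (n ≠ 0 → ∀ Y : ℕ, 1 ≤ Y → ∀ s : Finset ℤ,
      (∀ T ∈ s, ((k * Y : ℕ) : ℤ) ^ M₀ < |T| ∧
        (∃ c r : ℤ, Squarefree c ∧ |c| ≤ Y ∧ T = c * r ^ 2) ∧ ∃ w : ℤ, w ≠ 0 ∧ T ^ 2 + b * n = b * w ^ 2) →
      s.card ≤ k * Y * (Nat.log 2 (k * Y) + 1) ^ 3) := by
    intro n
    by_cases hn : n = 0
    · exact ⟨1, le_rfl, fun h => absurd hn h⟩
    · obtain ⟨k, hk, h⟩ := hcl b (b * n) hb (mul_ne_zero hb hn)
      exact ⟨k, hk, fun _ => h⟩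
  choose κ hκ1 hκ using hcl'
  set Dv : Finset ℤ := (Finset.Icc (-|K|) |K|).filter fun n => n ≠ 0 ∧ n ∣ K with hDv
  have hmemDv : ∀ n : ℤ, n ≠ 0 → n ∣ K → n ∈ Dv := by
    intro n hn hnK
    have hnK' : |n| ≤ |K| := by
      rw [← Int.natCast_natAbs, ← Int.natCast_natAbs K]
      exact_mod_cast Nat.le_of_dvd (Int.natAbs_pos.2 hK) (Int.natAbs_dvd_natAbs.2 hnK)
    rw [hDv, Finset.mem_filter, Finset.mem_Icc]
    exact ⟨abs_le.1 hnK', hn, hnK⟩
  set Km : ℕ := ∑ n ∈ Dv, κ n with hKm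
  have hκm : ∀ n ∈ Dv, κ n ≤ Km := fun n hn => Finset.single_le_sum (f := κ) (fun _ _ => Nat.zero_le _) hn
  set q : ℕ := b.natAbs * (2 * b.natAbs * m.natAbs) with hq
  have hb1 : 1 ≤ b.natAbs := Int.natAbs_pos.2 hb
  have hm1 : 1 ≤ m.natAbs := Int.natAbs_pos.2 hm.ne'
  have hq1 : 1 ≤ q := by
    rw [hq]
    have : 1 ≤ 2 * b.natAbs * m.natAbs := by nlinarith
    nlinarith
  set C₃ : ℤ := |b| * m * (|a| + 2 * (|b| + |K|)) with hC₃
  have hC₃0 : 0 ≤ C₃ := by positivity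
  obtain ⟨K₂, hK₂⟩ := log_bd
  set Q : ℕ := Km * q with hQ
  refine ⟨(2 * Dv.card) ^ 4 * K₂ * (64 * Q ^ 6), C₃.natAbs + K.natAbs + 4 * Q ^ 2 + 1, fun N hN s hs => ?_⟩
  have hN1 : 1 ≤ N := by omega
  have hNC : C₃ ≤ (N : ℤ) := by
    rw [← abs_of_nonneg hC₃0, ← Int.natCast_natAbs]
    exact_mod_cast (show C₃.natAbs ≤ N by omega)
  have hNK : |K| ≤ (N : ℤ) := by
    rw [← Int.natCast_natAbs]
    exact_mod_cast (show K.natAbs ≤ N by omega)
  have hNQ : 4 * Q ^ 2 ≤ N := by omega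
  set R : ℕ := Nat.sqrt N with hR
  have hR1 : 1 ≤ R := by
    rw [hR, Nat.one_le_iff_ne_zero]
    intro h
    rw [Nat.sqrt_eq_zero] at h
    omega
  have hRN : R ^ 2 ≤ N := Nat.sqrt_le' N
  set Y : ℕ := q * (R + 1) with hY
  have hY1 : 1 ≤ Y := by
    rw [hY]
    nlinarith
  -- the parameters
  have hpar : ∀ x ∈ s, ∃ v w n c r : ℤ, n ≠ 0 ∧ n ∣ K ∧ w ^ 2 = b * v ^ 2 + n ∧
      x * n = b * m * v * (a * v - 2 * w) ∧ v = c * r ^ 2 ∧ Squarefree c ∧ c ^ 2 ≤ (2 * b * m) ^ 2 * N := by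
    intro x hx
    obtain ⟨-, h2, ⟨c₁, y, -, hc₁N, hxc⟩, ⟨w₀, hw₀⟩⟩ := hs x hx
    have hx0 : x ≠ 0 := by
      rintro rfl
      rw [abs_zero] at h2
      have : (0 : ℤ) ≤ (N : ℤ) ^ (2 * M₀ + 4) := by positivity
      linarith
    exact param hb hm hΔ0 hx0 hc₁N hxc (by rw [hw₀]; ring)
  choose! v w n c r hn0 hnK hw hxn hv hc hcN using hpar
  have hv0 : ∀ x ∈ s, v x ≠ 0 := by
    intro x hx h
    have h1 := hxn x hx
    rw [h, mul_zero, zero_mul] at h1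
    have hx0 : x ≠ 0 := by
      rintro rfl
      have h2 := (hs 0 hx).2.1
      rw [abs_zero] at h2
      have : (0 : ℤ) ≤ (N : ℤ) ^ (2 * M₀ + 4) := by positivity
      linarith
    exact mul_ne_zero hx0 (hn0 x hx) h1
  -- sizes
  have hbig : ∀ x ∈ s, (N : ℤ) ^ (2 * M₀) < v x ^ 2 ∧ (N : ℤ) < v x ^ 2 := by
    intro x hx
    have h1 := (hs x hx).2.1
    have h2 := size (a := a) (b := b) hm hK (hn0 x hx) (hnK x hx) (hv0 x hx) (hw x hx) (hxn x hx)
    rw [← hC₃] at h2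
    have h3 : (N : ℤ) ^ (2 * M₀ + 4) < C₃ * v x ^ 2 := h1.trans_le h2
    have hNz : (1 : ℤ) ≤ N := by exact_mod_cast hN1
    have hC₃p : 0 < C₃ := by
      by_contra hcon
      have hC0 : C₃ = 0 := le_antisymm (not_lt.1 hcon) hC₃0
      rw [hC0, zero_mul] at h3
      have : (0 : ℤ) ≤ (N : ℤ) ^ (2 * M₀ + 4) := by positivity
      linarith
    have h4 : C₃ ≤ (N : ℤ) ^ 3 := hNC.trans (by
      calc (N : ℤ) = N ^ 1 := (pow_one _).symm
        _ ≤ N ^ 3 := pow_le_pow_right₀ hNz (by norm_num))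
    have h5 : C₃ * (N : ℤ) ^ (2 * M₀) * N ≤ (N : ℤ) ^ (2 * M₀ + 4) := by
      calc C₃ * (N : ℤ) ^ (2 * M₀) * N ≤ (N : ℤ) ^ 3 * (N : ℤ) ^ (2 * M₀) * N := by gcongr
        _ = (N : ℤ) ^ (2 * M₀ + 4) := by ring
    have h6 : C₃ * ((N : ℤ) ^ (2 * M₀) * N) < C₃ * v x ^ 2 := by linarith [h5, h3]
    have h7 : (N : ℤ) ^ (2 * M₀) * N < v x ^ 2 := lt_of_mul_lt_mul_left h6 hC₃0
    have h8 : (1 : ℤ) ≤ (N : ℤ) ^ (2 * M₀) := one_le_pow₀ hNz
    constructor
    · nlinarith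
    · nlinarith
  have hw0 : ∀ x ∈ s, w x ≠ 0 := by
    intro x hx h
    have h1 := hw x hx
    rw [h] at h1
    have h2 := (hbig x hx).2
    have h3 : |n x| ≤ |K| := by
      rw [← Int.natCast_natAbs, ← Int.natCast_natAbs K]
      exact_mod_cast Nat.le_of_dvd (Int.natAbs_pos.2 hK) (Int.natAbs_dvd_natAbs.2 (hnK x hx))
    have h4 : |b| * v x ^ 2 = |n x| := by
      have : n x = -(b * v x ^ 2) := by linear_combination -h1
      rw [this, abs_neg, abs_mul, abs_of_nonneg (sq_nonneg (v x))]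
    have h5 : 1 ≤ |b| := Int.one_le_abs hb
    have h6 : (0 : ℤ) ≤ v x ^ 2 := sq_nonneg _
    nlinarith
  have hmaps : ∀ x ∈ s, n x ∈ Dv := fun x hx => hmemDv _ (hn0 x hx) (hnK x hx)
  rw [show (N ^ 3 : ℕ) = N ^ 3 from rfl]
  -- one divisor
  have hone : ∀ e ∈ Dv, (s.filter fun x => n x = e).card ≤ 2 * (Km * Y * (Nat.log 2 (Km * Y) + 1) ^ 3) := by
    intro e he
    have he0 : e ≠ 0 := by
      rw [hDv, Finset.mem_filter] at he
      exact he.2.1
    set se := s.filter fun x => n x = e with hse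
    have hmem : ∀ x ∈ se, x ∈ s ∧ n x = e := fun x hx => Finset.mem_filter.1 hx
    have hfib : ∀ t ∈ se.image (fun x => b * v x), (se.filter fun x => b * v x = t).card ≤ 2 := by
      intro t ht
      obtain ⟨x₁, hx₁, hx₁t⟩ := Finset.mem_image.1 ht
      obtain ⟨hx₁s, hx₁e⟩ := hmem x₁ hx₁
      have hsub : (se.filter fun x => b * v x = t) ⊆ {x₁, b * m * v x₁ * (a * v x₁ + 2 * w x₁) / e} := by
        intro x hx
        rw [Finset.mem_filter] at hx
        obtain ⟨hxs, hxe⟩ := hmem x hx.1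
        have hvv : v x = v x₁ := mul_left_cancel₀ hb (hx.2.trans hx₁t.symm)
        have hww : w x ^ 2 = w x₁ ^ 2 := by
          rw [hw x hxs, hw x₁ hx₁s, hvv, hxe, hx₁e]
        rw [Finset.mem_insert, Finset.mem_singleton]
        have h1 := hxn x hxs
        have h2 := hxn x₁ hx₁s
        rw [hxe, hvv] at h1
        rw [hx₁e] at h2
        rcases sq_eq_sq_iff_eq_or_eq_neg.1 hww with h3 | h3
        · left
          rw [h3, ← h2] at h1
          exact mul_right_cancel₀ he0 h1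
        · right
          rw [h3] at h1
          have h4 : b * m * v x₁ * (a * v x₁ + 2 * w x₁) = x * e := by linear_combination -h1
          rw [h4, Int.mul_ediv_cancel _ he0]
      exact (Finset.card_le_card hsub).trans Finset.card_le_two
    have h1 := Finset.card_le_mul_card_image (f := fun x => b * v x) se 2 hfib
    refine h1.trans (Nat.mul_le_mul_left 2 ?_)
    have h2 := hκ e he0 Y hY1 (se.image fun x => b * v x) (by
      intro t ht
      obtain ⟨x, hx, rfl⟩ := Finset.mem_image.1 ht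
      obtain ⟨hxs, hxe⟩ := hmem x hx
      refine ⟨?_, ?_, ?_⟩
      · have h3 := (hbig x hxs).1
        have h4 : (κ e * Y) ^ 2 ≤ N ^ 2 := by
          have h5 : κ e * Y ≤ Q * (R + 1) := by
            rw [hY, hQ, ← mul_assoc]
            exact Nat.mul_le_mul_right _ (Nat.mul_le_mul_right _ (hκm e he))
          have h6 : (Q * (R + 1)) ^ 2 ≤ N ^ 2 := by
            have h7 : (R + 1) ^ 2 ≤ 4 * N := by nlinarith
            calc (Q * (R + 1)) ^ 2 = Q ^ 2 * (R + 1) ^ 2 := by ring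
              _ ≤ Q ^ 2 * (4 * N) := Nat.mul_le_mul_left _ h7
              _ = (4 * Q ^ 2) * N := by ring
              _ ≤ N * N := Nat.mul_le_mul_right _ hNQ
              _ = N ^ 2 := by ring
          exact (Nat.pow_le_pow_left h5 2).trans h6
        have h5 : ((κ e * Y : ℕ) : ℤ) ^ M₀ < |v x| := by
          refine lt_of_pow_lt_pow_left₀ 2 (abs_nonneg _) ?_
          rw [sq_abs]
          refine lt_of_le_of_lt ?_ h3
          have h6 : ((κ e * Y) ^ 2) ^ M₀ ≤ (N ^ 2) ^ M₀ := Nat.pow_le_pow_left h4 _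
          have h7 : ((κ e * Y) ^ M₀) ^ 2 ≤ N ^ (2 * M₀) := by
            rw [pow_mul]
            calc ((κ e * Y) ^ M₀) ^ 2 = ((κ e * Y) ^ 2) ^ M₀ := by
                    rw [← pow_mul, ← pow_mul, mul_comm M₀ 2]
              _ ≤ _ := h6
          exact_mod_cast h7
        refine h5.trans_le ?_
        rw [abs_mul]
        have := Int.one_le_abs hb
        nlinarith [abs_nonneg (v x)]
      · have hc0 : c x ≠ 0 := (hc x hxs).ne_zero
        obtain ⟨g, y, hg, -, hgy, hgb⟩ := sqf (b * c x) (mul_ne_zero hb hc0)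
        refine ⟨g, y * r x, hg, ?_, ?_⟩
        · refine hgb.trans ?_
          have h3 : |c x| ≤ 2 * |b| * m * (R + 1) := by
            refine le_of_sq_le_sq ?_ (by positivity)
            rw [sq_abs]
            refine (hcN x hxs).trans ?_
            have h4 : (N : ℤ) ≤ (R + 1 : ℤ) ^ 2 := by
              have := Nat.lt_succ_sqrt' N
              have h5 : N ≤ (R + 1) ^ 2 := by
                rw [hR]
                exact this.le
              exact_mod_cast h5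
            calc (2 * b * m) ^ 2 * (N : ℤ) ≤ (2 * b * m) ^ 2 * (R + 1 : ℤ) ^ 2 := mul_le_mul_of_nonneg_left h4 (sq_nonneg _)
              _ = (2 * |b| * m * (R + 1)) ^ 2 := by
                  rw [mul_pow (2 * |b| * m), mul_pow (2 * |b|), mul_pow 2 |b|, sq_abs]
                  ring
          rw [abs_mul, hY, hq]
          push_cast
          rw [abs_of_pos hm]
          calc |b| * |c x| ≤ |b| * (2 * |b| * m * (R + 1)) := mul_le_mul_of_nonneg_left h3 (abs_nonneg _)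
            _ = |b| * (2 * |b| * m) * (R + 1) := by ring
        · rw [hv x hxs]
          linear_combination (r x ^ 2) * hgy
      · refine ⟨w x, hw0 x hxs, ?_⟩
        have h3 := hw x hxs
        rw [hxe] at h3
        linear_combination (-b) * h3)
    refine h2.trans ?_
    have h3 : κ e * Y ≤ Km * Y := Nat.mul_le_mul_right _ (hκm e he)
    refine Nat.mul_le_mul h3 (Nat.pow_le_pow_left ?_ 3)
    have := Nat.log_mono_right (b := 2) h3
    omega
  have hcard : s.card ≤ Dv.card * (2 * (Km * Y * (Nat.log 2 (Km * Y) + 1) ^ 3)) := by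
    rw [Finset.card_eq_sum_card_fiberwise (f := n) (t := Dv) hmaps]
    exact Finset.sum_le_card_nsmul _ _ _ hone
  -- the final estimate
  rcases Finset.eq_empty_or_nonempty s with hse | ⟨x₀, hx₀⟩
  · rw [hse, Finset.card_empty]
    simp
  have hKm1 : 1 ≤ Km := (hκ1 _).trans (hκm _ (hmaps x₀ hx₀))
  set L : ℕ := Km * Y with hL
  have hL1 : 1 ≤ L := Nat.one_le_iff_ne_zero.2 (Nat.mul_ne_zero (by omega) (by omega))
  have hLQ : L = Q * (R + 1) := by
    rw [hL, hY, hQ]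
    ring
  have hL6 : L ^ 6 ≤ 64 * Q ^ 6 * N ^ 3 := by
    have h1 : (R + 1) ^ 2 ≤ 4 * N := by nlinarith
    calc L ^ 6 = Q ^ 6 * ((R + 1) ^ 2) ^ 3 := by rw [hLQ]; ring
      _ ≤ Q ^ 6 * (4 * N) ^ 3 := Nat.mul_le_mul_left _ (Nat.pow_le_pow_left h1 3)
      _ = 64 * Q ^ 6 * N ^ 3 := by ring
  calc s.card ^ 4 ≤ (Dv.card * (2 * (L * (Nat.log 2 L + 1) ^ 3))) ^ 4 := Nat.pow_le_pow_left hcard 4
    _ = (2 * Dv.card) ^ 4 * L ^ 4 * (Nat.log 2 L + 1) ^ 12 := by ring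
    _ ≤ (2 * Dv.card) ^ 4 * L ^ 4 * (K₂ * L ^ 2) := Nat.mul_le_mul_left _ (hK₂ L hL1)
    _ = (2 * Dv.card) ^ 4 * K₂ * L ^ 6 := by ring
    _ ≤ (2 * Dv.card) ^ 4 * K₂ * (64 * Q ^ 6 * N ^ 3) := Nat.mul_le_mul_left _ hL6
    _ = (2 * Dv.card) ^ 4 * K₂ * (64 * Q ^ 6) * N ^ 3 := by ring

end Pool.Agent.H64.FT
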