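import Mathlib
import Pool.Agent.H64.FT.B4
import Pool.Agent.H64.FT.B5
import Pool.Graph.R_pool_sql_team_seeded_35f281b4.K7.H89.CL.D
import Pool.Graph.R_pool_sql_team_seeded_35f281b4.K7.H23.AT.PC

/-!
# The torsion class
-/

set_option autoImplicit false

open Polynomial

namespace Pool.Agent.H64.FT

open Pool.Agent.K7.H23.AT Pool.Agent.K7.H23.PT

/-- the torsion class -/
theorem pairsT5 : ∃ M : ℕ, ∀ α β γ : ℤ, α ≠ β → α ≠ γ → β ≠ γ →
    ∀ R Mm : ℕ, 1 ≤ R → ∀ δ : ℝ, 0 < δ → ∃ N₀ : ℕ, ∀ N Mx : ℕ, N₀ ≤ N → M ≤ Mx →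
      ∀ s : Finset (ℤ × ℤ), (∀ p ∈ s, ∃ a b c : ℤ,
        Par3 α β γ R N Mx p.1 p.2 a b c ∧ p.2 ≤ Mm ∧ IsSquare ((α - β) * p.2 * b) ∧
          IsSquare ((α - γ) * p.2 * c)) → (s.card : ℝ) ≤ δ * N := by
  classical
  obtain ⟨M, hM⟩ := to' (Pool.Agent.K7.H23.AT.pc Pool.Agent.K7.H89.CL.stCL) Pool.Agent.K7.H23.AT.sf
  refine ⟨M + 3, fun α β γ hαβ hαγ hβγ R Mm hR δ hδ => ?_⟩
  set A : ℤ := (α - β) + (α - γ) with hA
  set B : ℤ := (α - β) * (α - γ) with hB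
  have hB0 : B ≠ 0 := mul_ne_zero (sub_ne_zero.2 hαβ) (sub_ne_zero.2 hαγ)
  have hΔ0 : A ^ 2 - 4 * B ≠ 0 := by
    have h1 : A ^ 2 - 4 * B = (β - γ) ^ 2 := by rw [hA, hB]; ring
    rw [h1]
    exact pow_ne_zero 2 (sub_ne_zero.2 hβγ)
  have h0 : ∀ m : ℤ, ∃ C N₀ : ℕ, 0 < m → ∀ N : ℕ, N₀ ≤ N → ∀ s : Finset ℤ,
      (∀ x ∈ s, IsCoprime x m ∧ (N : ℤ) ^ M < |x| ∧
        (∃ c y : ℤ, Squarefree c ∧ |c| ≤ N ∧ x = c * y ^ 2) ∧
        IsSquare (B * (x ^ 2 + A * x * m + B * m ^ 2))) → s.card ^ 4 ≤ C * N ^ 3 := by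
    intro m
    by_cases hm : 0 < m
    · obtain ⟨C, N₀, h⟩ := hM A B m hΔ0 hB0 hm
      exact ⟨C, N₀, fun _ => h⟩
    · exact ⟨0, 0, fun h => absurd h hm⟩
  choose C N₀ hC using h0
  set I := Finset.Icc (1 : ℤ) Mm with hI
  set δ' : ℝ := δ / (Mm + 1) with hδ'
  have hδ'0 : 0 < δ' := by positivity
  refine ⟨∑ m ∈ I, N₀ m + R ^ (2 * M) + ∑ m ∈ I, ⌈C m * (R : ℝ) ^ 6 / δ' ^ 4⌉₊ + α.natAbs + 2,
    fun N Mx hN hMx s hs => ?_⟩
  have hN1 : 1 ≤ N := by omega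
  have hcov : s ⊆ I.biUnion fun m => s.filter fun p => p.2 = m := by
    intro p hp
    obtain ⟨a, b, c, k1, k2, -⟩ := hs p hp
    obtain ⟨l0, l1, l2, l3⟩ := par3_pos k1
    rw [Finset.mem_biUnion]
    exact ⟨p.2, Finset.mem_Icc.2 ⟨l3, k2⟩, Finset.mem_filter.2 ⟨hp, rfl⟩⟩
  have hterm : ∀ m ∈ I, ((s.filter fun p => p.2 = m).card : ℝ) ≤ δ' * N := by
    intro m hm
    have hm1 : 0 < m := by
      rw [hI, Finset.mem_Icc] at hm
      omega
    have hN0m : N₀ m ≤ R ^ 2 * N := by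
      have h1 : N₀ m ≤ ∑ m ∈ I, N₀ m := Finset.single_le_sum (f := N₀) (fun _ _ => Nat.zero_le _) hm
      have h2 : N ≤ R ^ 2 * N := Nat.le_mul_of_pos_left _ (by positivity)
      omega
    have hcard : (s.filter fun p => p.2 = m).card =
        ((s.filter fun p => p.2 = m).image fun p => p.1 - α * m).card := by
      rw [Finset.card_image_of_injOn]
      intro p hp q hq hpq
      rw [Finset.mem_coe, Finset.mem_filter] at hp hq
      simp only at hpq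
      exact Prod.ext (by linarith) (hp.2.trans hq.2.symm)
    have h1 := hC m hm1 (R ^ 2 * N) hN0m ((s.filter fun p => p.2 = m).image fun p => p.1 - α * m) (by
      intro x hx
      rw [Finset.mem_image] at hx
      obtain ⟨p, hp, rfl⟩ := hx
      rw [Finset.mem_filter] at hp
      obtain ⟨hps, rfl⟩ := hp
      obtain ⟨a, b, c, k1, k2, ⟨r, hr⟩, ⟨q, hq⟩⟩ := hs p hps
      obtain ⟨l0, l1, l2, l3⟩ := par3_pos k1
      obtain ⟨⟨hL, ha, hb', hc, hm0⟩, hco, hmN, hx, ⟨y0, hy0⟩, ⟨y1, hy1⟩, ⟨y2, hy2⟩, hsz, -⟩ := k1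
      refine ⟨?_, ?_, ⟨a, y0, ha, ?_, hy0⟩, ?_⟩
      · have h5 : p.1 - α * p.2 = p.1 + p.2 * (-α) := by ring
        rw [h5]
        exact hco.add_mul_left_left _
      · have h4 : (R ^ 2 * N) ^ M ≤ N ^ (M + 1) := by
          calc (R ^ 2 * N) ^ M = R ^ (2 * M) * N ^ M := by rw [mul_pow, ← pow_mul]
            _ ≤ N * N ^ M := Nat.mul_le_mul_right _ (by omega)
            _ = N ^ (M + 1) := by ring
        have h4' : (((R ^ 2 * N : ℕ) : ℤ)) ^ M ≤ (N : ℤ) ^ (M + 1) := by exact_mod_cast h4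
        have hαN : |α| * p.2 ≤ (N : ℤ) * N := by
          have h6 : |α| ≤ (N : ℤ) := by
            rw [Int.abs_eq_natAbs]
            exact_mod_cast (by omega : α.natAbs ≤ N)
          exact mul_le_mul h6 hmN hm0.le (by omega)
        have h5 : |p.1| ≤ |p.1 - α * p.2| + |α| * p.2 := by
          have h7 : p.1 = (p.1 - α * p.2) + α * p.2 := by ring
          calc |p.1| = |(p.1 - α * p.2) + α * p.2| := by rw [← h7]
            _ ≤ |p.1 - α * p.2| + |α * p.2| := abs_add_le _ _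
            _ = _ := by rw [abs_mul α, abs_of_pos hm0]
        have h6 : (N : ℤ) ^ (M + 1) + N * N ≤ (N : ℤ) ^ Mx := by
          have hN2 : (2 : ℤ) ≤ N := by exact_mod_cast (by omega : 2 ≤ N)
          have e2 : (1 : ℤ) ≤ (N : ℤ) := by omega
          have e3 : (N : ℤ) ^ (M + 1) ≤ (N : ℤ) ^ (M + 2) := pow_le_pow_right₀ e2 (by omega)
          have e4 : (N : ℤ) ^ 2 ≤ (N : ℤ) ^ (M + 2) := pow_le_pow_right₀ e2 (by omega)
          have e5 : (0 : ℤ) ≤ (N : ℤ) ^ (M + 2) := by positivity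
          calc (N : ℤ) ^ (M + 1) + N * N ≤ 2 * (N : ℤ) ^ (M + 2) := by nlinarith
            _ ≤ N * (N : ℤ) ^ (M + 2) := mul_le_mul_of_nonneg_right hN2 e5
            _ = (N : ℤ) ^ (M + 3) := by ring
            _ ≤ (N : ℤ) ^ Mx := pow_le_pow_right₀ e2 hMx
        linarith
      · push_cast
        refine le_trans ?_ hsz
        calc |a| = |a| * 1 * 1 * 1 := by ring
          _ ≤ |a| * |b| * |c| * p.2 := by gcongr
      · have e1 : (p.1 - α * p.2) ^ 2 + A * (p.1 - α * p.2) * p.2 + B * p.2 ^ 2 =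
            (b * y1 ^ 2) * (c * y2 ^ 2) := by
          rw [← hy1, ← hy2, hA, hB]
          ring
        have e2 : p.2 ^ 2 * (B * ((b * y1 ^ 2) * (c * y2 ^ 2))) = (r * q * y1 * y2) ^ 2 := by
          rw [hB]
          linear_combination (y1 ^ 2 * y2 ^ 2 * ((α - γ) * p.2 * c)) * hr +
            (y1 ^ 2 * y2 ^ 2 * r * r) * hq
        rw [e1]
        have e3 : p.2 ^ 2 ∣ (r * q * y1 * y2) ^ 2 := ⟨_, e2.symm⟩
        rw [Int.pow_dvd_pow_iff two_ne_zero] at e3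
        obtain ⟨w, hw⟩ := e3
        refine ⟨w, ?_⟩
        apply mul_left_cancel₀ (pow_ne_zero 2 hm0.ne')
        rw [e2, hw]
        ring)
    rw [← hcard] at h1
    have h2 : C m * (R : ℝ) ^ 6 / δ' ^ 4 ≤ N := by
      have h3 : ⌈C m * (R : ℝ) ^ 6 / δ' ^ 4⌉₊ ≤ ∑ m ∈ I, ⌈C m * (R : ℝ) ^ 6 / δ' ^ 4⌉₊ :=
        Finset.single_le_sum (f := fun m => ⌈C m * (R : ℝ) ^ 6 / δ' ^ 4⌉₊)
          (fun _ _ => Nat.zero_le _) hm
      have h5 : ⌈C m * (R : ℝ) ^ 6 / δ' ^ 4⌉₊ ≤ N := by omega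
      exact (Nat.le_ceil _).trans (Nat.cast_le.2 h5)
    rw [div_le_iff₀ (by positivity)] at h2
    have h3 : ((s.filter fun p => p.2 = m).card : ℝ) ^ 4 ≤ (δ' * N) ^ 4 := by
      calc ((s.filter fun p => p.2 = m).card : ℝ) ^ 4 ≤ ((C m * (R ^ 2 * N) ^ 3 : ℕ) : ℝ) := by
            exact_mod_cast h1
        _ = (C m * (R : ℝ) ^ 6) * N ^ 3 := by push_cast; ring
        _ ≤ (N * δ' ^ 4) * N ^ 3 := mul_le_mul_of_nonneg_right h2 (by positivity)
        _ = (δ' * N) ^ 4 := by ring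
    exact le_of_pow_le_pow_left₀ (by norm_num) (by positivity) h3
  have hIc : (I.card : ℝ) = Mm := by
    rw [hI, Int.card_Icc]
    have : ((Mm : ℤ) + 1 - 1).toNat = Mm := by omega
    rw [this]
  calc (s.card : ℝ) ≤ ((∑ m ∈ I, (s.filter fun p => p.2 = m).card : ℕ) : ℝ) := by
        exact_mod_cast (Finset.card_le_card hcov).trans Finset.card_biUnion_le
    _ = ∑ m ∈ I, ((s.filter fun p => p.2 = m).card : ℝ) := by push_cast; rfl
    _ ≤ ∑ m ∈ I, δ' * N := Finset.sum_le_sum hterm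
    _ = Mm * (δ' * N) := by rw [Finset.sum_const, nsmul_eq_mul, hIc]
    _ ≤ δ * N := by
        rw [hδ']
        have : (Mm : ℝ) / (Mm + 1) ≤ 1 := by
          rw [div_le_one (by positivity)]
          linarith
        calc (Mm : ℝ) * (δ / (Mm + 1) * N) = (Mm / (Mm + 1)) * (δ * N) := by ring
          _ ≤ 1 * (δ * N) := mul_le_mul_of_nonneg_right this (by positivity)
          _ = _ := one_mul _

end Pool.Agent.H64.FT
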