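import Mathlib
import Pool.Agent.H64.FT.B4
import Pool.Graph.R_pool_sql_team_seeded_35f281b4.K7.H89.BS.E
import Pool.Graph.R_pool_sql_team_seeded_35f281b4.K7.H89.CL.D
import Pool.Graph.R_pool_sql_team_seeded_35f281b4.K7.H23.AT.PC
import Pool.Graph.R_pool_sql_team_seeded_35f281b4.K7.H23.AT.SF

/-!
# The degenerate class
-/

set_option autoImplicit false

open Polynomial

namespace Pool.Agent.H64.FT

open Pool.Agent.K7.H23.AT Pool.Agent.K7.H23.PT

/-- the polynomial with given roots -/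
noncomputable def pR {ι : Type} [Fintype ι] (r : ι → ℤ) : ℤ[X] := ∏ i, (X - C (r i))

lemma pR_monic {ι : Type} [Fintype ι] (r : ι → ℤ) : (pR r).Monic :=
  monic_prod_of_monic _ _ fun _ _ => monic_X_sub_C _

lemma pR_deg {ι : Type} [Fintype ι] (r : ι → ℤ) : (pR r).natDegree = Fintype.card ι := by
  unfold pR
  rw [natDegree_prod_of_monic _ _ fun i _ => monic_X_sub_C _]
  simp only [natDegree_X_sub_C]
  simp

lemma pR_map {ι : Type} [Fintype ι] (r : ι → ℤ) :
    (pR r).map (Int.castRingHom ℚ) = ∏ i, (X - C (r i : ℚ)) := by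
  unfold pR
  rw [Polynomial.map_prod]
  refine Finset.prod_congr rfl fun i _ => ?_
  rw [Polynomial.map_sub, map_X, map_C]
  rfl

lemma pR_sep {ι : Type} [Fintype ι] {r : ι → ℤ} (hr : Function.Injective r) :
    ((pR r).map (Int.castRingHom ℚ)).Separable := by
  rw [pR_map, separable_prod_X_sub_C_iff]
  intro i j hij
  have hij' : (r i : ℚ) = r j := hij
  exact hr (by exact_mod_cast hij')

lemma lin_eval (r x m : ℤ) : ((X - C r : ℤ[X]).scaleRoots m).eval x = x - r * m := by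
  have h0 : (X - C r : ℤ[X]).coeff 0 = -r := by
    rw [coeff_sub, coeff_X_zero, coeff_C_zero, zero_sub]
  have h1 : (X - C r : ℤ[X]).coeff 1 = 1 := by
    rw [coeff_sub, coeff_X_one, coeff_C_of_ne_zero one_ne_zero, sub_zero]
  rw [Pool.Agent.K7.H23.AT.eval_scale, natDegree_X_sub_C]
  simp only [Finset.sum_range_succ, Finset.sum_range_zero, h0, h1]
  norm_num
  ring

lemma pR_eval {ι : Type} [Fintype ι] (r : ι → ℤ) (x m : ℤ) :
    ((pR r).scaleRoots m).eval x = ∏ i, (x - r i * m) := by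
  unfold pR
  rw [Pool.Agent.K7.H89.BS.scaleRoots_prod, eval_prod]
  exact Finset.prod_congr rfl fun i _ => lin_eval _ _ _

lemma pR_factor {ι : Type} [Fintype ι] (r : ι → ℤ) (f₁ : ℤ[X]) (hi : Irreducible f₁)
    (hd : f₁ ∣ pR r) : f₁.natDegree ≤ 1 := by
  unfold pR at hd
  obtain ⟨i, -, h⟩ := (hi.prime.dvd_finsetProd_iff _).1 hd
  have := natDegree_le_of_dvd h (X_sub_C_ne_zero _)
  rwa [natDegree_X_sub_C] at this

end Pool.Agent.H64.FT
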