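import Mathlib
import Pool.Agent.H64.FT.B7

/-!
# The degenerate class: the count
-/

set_option autoImplicit false

open Polynomial

namespace Pool.Agent.H64.FT

open Pool.Agent.K7.H23.AT Pool.Agent.K7.H23.PT

/-- a square times a number is a square -/
lemma sq_of_mul {s t : ℤ} (hs : s ≠ 0) (h : IsSquare (s ^ 2 * t)) : ∃ w : ℤ, 0 ≤ w ∧ t = w ^ 2 := by
  obtain ⟨w, hw⟩ := h
  have h1 : s ^ 2 ∣ w ^ 2 := ⟨t, by rw [hw]; ring⟩
  rw [Int.pow_dvd_pow_iff two_ne_zero] at h1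
  obtain ⟨u, rfl⟩ := h1
  refine ⟨|u|, abs_nonneg _, ?_⟩
  rw [sq_abs]
  apply mul_left_cancel₀ (pow_ne_zero 2 hs)
  linear_combination hw

/-- the arithmetic of a degenerate point -/
lemma degen {δ s₀ t₀ α β γ a b c m x y₀ y₁ y₂ : ℤ} (hs : α - γ = δ * s₀ ^ 2)
    (ht : β - γ = δ * t₀ ^ 2) (hs0 : s₀ ≠ 0) (h0 : x - α * m = a * y₀ ^ 2)
    (h1 : x - β * m = b * y₁ ^ 2) (h2 : x - γ * m = c * y₂ ^ 2) (ha : Squarefree a)
    (hb : Squarefree b) (hc : c ≠ 0) (hm : 0 < m) (hxm : IsCoprime x m) (hδ : δ ≠ 0)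
    (hsq : IsSquare ((α - γ) * m * c)) :
    ∃ h d Y' h' w d₁ d₂ z : ℤ, 1 ≤ h ∧ δ * m * c = h ^ 2 ∧ 1 ≤ d ∧ c * y₂ = d * Y' ∧ h = d * h' ∧
      1 ≤ h' ∧ IsCoprime Y' h' ∧ 1 ≤ w ∧ w ∣ α - β ∧ a = w * d₁ ∧ b = w * d₂ ∧ d₁ * d₂ ≠ 0 ∧
      z ^ 2 = (d₁ * d₂) * ∏ i, (Y' - (![s₀, -s₀, t₀, -t₀] : Fin 4 → ℤ) i * h') := by
  -- the number `h`
  have hsq' : IsSquare (s₀ ^ 2 * (δ * m * c)) := by
    have : s₀ ^ 2 * (δ * m * c) = (α - γ) * m * c := by rw [hs]; ring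
    rw [this]
    exact hsq
  obtain ⟨h, hh0, hh⟩ := sq_of_mul hs0 hsq'
  have hne : δ * m * c ≠ 0 := mul_ne_zero (mul_ne_zero hδ hm.ne') hc
  have hh1 : 1 ≤ h := by
    rcases eq_or_lt_of_le hh0 with h3 | h3
    · rw [← h3] at hh
      exact absurd (by rw [hh]; ring) hne
    · exact h3
  -- the gcd with `Y`
  have hdpos : 0 < Int.gcd (c * y₂) h := Int.gcd_pos_of_ne_zero_right _ (by omega)
  obtain ⟨Y', h', hcop, hd1, hd2⟩ := Int.exists_gcd_one hdpos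
  set d : ℤ := (Int.gcd (c * y₂) h : ℤ) with hd
  have hd0 : 1 ≤ d := by
    have := Int.natCast_pos.2 hdpos
    omega
  have hh'1 : 1 ≤ h' := by
    by_contra hcon
    push Not at hcon
    nlinarith
  -- the gcd of `a` and `b`
  have hwpos : 0 < Int.gcd a b := Int.gcd_pos_of_ne_zero_left _ ha.ne_zero
  obtain ⟨d₁, d₂, hcop2, he1, he2⟩ := Int.exists_gcd_one hwpos
  set w : ℤ := (Int.gcd a b : ℤ) with hw
  have hw0 : 1 ≤ w := by
    have := Int.natCast_pos.2 hwpos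
    omega
  have hwa : w ∣ a := Int.gcd_dvd_left _ _
  have hwb : w ∣ b := Int.gcd_dvd_right _ _
  have hxam : IsCoprime (x - α * m) m := by
    have h5 : x - α * m = x + m * (-α) := by ring
    rw [h5]
    exact hxm.add_mul_left_left _
  have hwm : IsCoprime w m := by
    refine IsCoprime.of_isCoprime_of_dvd_left hxam (hwa.trans ⟨y₀ ^ 2, h0⟩)
  have hwαβ : w ∣ α - β := by
    have h6 : w ∣ (α - β) * m := by
      have h7 : (α - β) * m = (x - β * m) - (x - α * m) := by ring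
      rw [h7]
      exact dvd_sub (hwb.trans ⟨y₁ ^ 2, h1⟩) (hwa.trans ⟨y₀ ^ 2, h0⟩)
    exact hwm.dvd_of_dvd_mul_right h6
  have hd12 : d₁ * d₂ ≠ 0 := by
    refine mul_ne_zero ?_ ?_
    · rintro rfl
      exact ha.ne_zero (by rw [he1]; ring)
    · rintro rfl
      exact hb.ne_zero (by rw [he2]; ring)
  -- the square
  have hF : d ^ 4 * ((d₁ * d₂) * ∏ i, (Y' - (![s₀, -s₀, t₀, -t₀] : Fin 4 → ℤ) i * h')) =
      (c * w * d₁ * d₂ * y₀ * y₁) ^ 2 := by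
    rw [Fin.prod_univ_four]
    simp only [Matrix.cons_val_zero, Matrix.cons_val_one, Matrix.cons_val]
    have e1 : (d * Y') ^ 2 - s₀ ^ 2 * (d * h') ^ 2 = c * (a * y₀ ^ 2) := by
      have e2 : d * Y' = c * y₂ := by rw [hd1]; ring
      have e3 : d * h' = h := by rw [hd2]; ring
      rw [e2, e3, ← hh, ← h0]
      linear_combination (-c) * h2 + m * c * hs
    have e4 : (d * Y') ^ 2 - t₀ ^ 2 * (d * h') ^ 2 = c * (b * y₁ ^ 2) := by
      have e2 : d * Y' = c * y₂ := by rw [hd1]; ring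
      have e3 : d * h' = h := by rw [hd2]; ring
      rw [e2, e3, ← hh, ← h1]
      linear_combination (-c) * h2 + m * c * ht
    have e5 : a = d₁ * w := he1
    have e6 : b = d₂ * w := he2
    calc d ^ 4 * ((d₁ * d₂) * ((Y' - s₀ * h') * (Y' - -s₀ * h') * (Y' - t₀ * h') *
          (Y' - -t₀ * h'))) = (d₁ * d₂) * (((d * Y') ^ 2 - s₀ ^ 2 * (d * h') ^ 2) *
          ((d * Y') ^ 2 - t₀ ^ 2 * (d * h') ^ 2)) := by ring
      _ = (d₁ * d₂) * ((c * (a * y₀ ^ 2)) * (c * (b * y₁ ^ 2))) := by rw [e1, e4]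
      _ = _ := by
          rw [e5, e6]
          ring
  obtain ⟨z, -, hz⟩ : ∃ z : ℤ, 0 ≤ z ∧
      (d₁ * d₂) * ∏ i, (Y' - (![s₀, -s₀, t₀, -t₀] : Fin 4 → ℤ) i * h') = z ^ 2 := by
    refine sq_of_mul (s := d ^ 2) (pow_ne_zero 2 (by omega)) ⟨c * w * d₁ * d₂ * y₀ * y₁, ?_⟩
    linear_combination hF
  refine ⟨h, d, Y', h', w, d₁, d₂, z, hh1, hh, hd0, ?_, ?_, hh'1,
    Int.isCoprime_iff_gcd_eq_one.2 hcop, hw0, hwαβ, ?_, ?_, hd12, hz.symm⟩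
  · rw [hd1]; ring
  · rw [hd2]; ring
  · rw [mul_comm]; exact he1
  · rw [mul_comm]; exact he2

/-- a number whose square divides the product of a square and a number without large square
divisors is small -/
lemma small_root {h k D : ℤ} {S0 B : ℕ} (hh : 1 ≤ h) (hk : k ≠ 0) (hkB : |k| ≤ B)
    (hdvd : h ^ 2 ∣ D * k ^ 2) (hD : ∀ s : ℕ, S0 < s → ¬ (s : ℤ) ^ 2 ∣ D) : h ≤ S0 * B := by
  have hqpos : 0 < Int.gcd h k := Int.gcd_pos_of_ne_zero_right _ hk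
  obtain ⟨h₁, k₁, hcop, e1, e2⟩ := Int.exists_gcd_one hqpos
  set q : ℤ := (Int.gcd h k : ℤ) with hq
  have hq0 : 0 < q := Int.natCast_pos.2 hqpos
  have hqk : q ≤ B := by
    have h1 : q ∣ |k| := (dvd_abs _ _).2 (Int.gcd_dvd_right _ _)
    exact (Int.le_of_dvd (abs_pos.2 hk) h1).trans hkB
  have hh1 : 0 < h₁ := by
    by_contra hcon
    push Not at hcon
    nlinarith
  have h3 : h₁ ^ 2 ∣ D * k₁ ^ 2 := by
    have h4 : q ^ 2 * h₁ ^ 2 ∣ q ^ 2 * (D * k₁ ^ 2) := by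
      have h5 : q ^ 2 * h₁ ^ 2 = h ^ 2 := by rw [e1]; ring
      have h6 : q ^ 2 * (D * k₁ ^ 2) = D * k ^ 2 := by rw [e2]; ring
      rw [h5, h6]
      exact hdvd
    exact (mul_dvd_mul_iff_left (pow_ne_zero 2 hq0.ne')).1 h4
  have hcop' : IsCoprime (h₁ ^ 2) (k₁ ^ 2) := (Int.isCoprime_iff_gcd_eq_one.2 hcop).pow
  have h4 : h₁ ^ 2 ∣ D := hcop'.dvd_of_dvd_mul_right h3
  have h5 : h₁ ≤ S0 := by
    by_contra hcon
    push Not at hcon
    apply hD h₁.toNat (by omega)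
    rwa [Int.toNat_of_nonneg hh1.le]
  calc h = h₁ * q := e1
    _ ≤ S0 * B := mul_le_mul h5 hqk hq0.le (by omega)

end Pool.Agent.H64.FT
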