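import Mathlib
import Pool.Agent.H64.FT.B8

/-!
# The degenerate class: few twists
-/

set_option autoImplicit false

open Polynomial

namespace Pool.Agent.H64.FT

open Pool.Agent.K7.H23.AT Pool.Agent.K7.H23.PT

/-- the twists of the degenerate class without large square divisors -/
def DG (α β γ : ℤ) (R S0 N Mx : ℕ) : Set ℤ :=
  {D : ℤ | D ∈ (WW α β γ R S0 N Mx fun _ m _ _ c => IsSquare ((α - γ) * m * c) ∧
    IsSquare ((β - γ) * m * c)) ∧ ∀ s : ℕ, S0 < s → ¬ (s : ℤ) ^ 2 ∣ D}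

lemma inj4 {s t : ℤ} (hs : s ≠ 0) (ht : t ≠ 0) (hst : s ^ 2 ≠ t ^ 2) :
    Function.Injective (![s, -s, t, -t] : Fin 4 → ℤ) := by
  have h1 : s ≠ t := fun h => hst (by rw [h])
  have h2 : s ≠ -t := fun h => hst (by rw [h]; ring)
  intro i j hij
  fin_cases i <;> fin_cases j <;> simp at hij ⊢ <;> omega

theorem partT6 : ∃ M : ℕ, ∀ α β γ : ℤ, α ≠ β → α ≠ γ → β ≠ γ → ∀ R : ℕ, 1 ≤ R →
    α - β ∣ (R : ℤ) → α - γ ∣ (R : ℤ) → ∀ S0 : ℕ, ∀ ε : ℝ, 0 < ε → ∃ N₀ : ℕ, ∀ N Mx : ℕ,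
      N₀ ≤ N → M ≤ Mx → ((DG α β γ R S0 N Mx).ncard : ℝ) ≤ ε * N := by
  classical
  obtain ⟨M4, hM4⟩ := Pool.Agent.K7.H89.BS.bg2
    (Pool.Agent.K7.H23.AT.pc Pool.Agent.K7.H89.CL.stCL) Pool.Agent.K7.H23.AT.sf 4 (by norm_num)
  refine ⟨4 * M4 + 4, fun α β γ hαβ hαγ hβγ R hR h1R h2R S0 ε hε => ?_⟩
  by_cases hex : ∃ δ s₀ t₀ : ℤ, α - γ = δ * s₀ ^ 2 ∧ β - γ = δ * t₀ ^ 2
  swap
  · -- no degenerate class
    refine ⟨0, fun N Mx _ _ => ?_⟩
    have hempty : DG α β γ R S0 N Mx = ∅ := by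
      rw [Set.eq_empty_iff_forall_notMem]
      rintro D ⟨⟨hD0, hDN, x, m, a, b, c, κ, v, hP, ⟨hs1, hs2⟩, -⟩, -⟩
      apply hex
      obtain ⟨sf, hsf⟩ := Pool.Agent.K7.H89.BS.exists_sf
      obtain ⟨k1, s₀, hs0, e1⟩ := hsf (α - γ) (sub_ne_zero.2 hαγ)
      obtain ⟨k2, t₀, ht0, e2⟩ := hsf (β - γ) (sub_ne_zero.2 hβγ)
      refine ⟨sf (α - γ), s₀, t₀, e1, ?_⟩
      have hmc : m * c ≠ 0 := mul_ne_zero hP.1.2.2.2.2.ne' hP.1.2.2.2.1.ne_zero
      obtain ⟨u, hu⟩ := hs1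
      obtain ⟨w, hw⟩ := hs2
      have h4 : IsSquare (s₀ ^ 2 * (sf (α - γ) * (m * c))) :=
        ⟨u, by rw [← hu]; conv_rhs => rw [e1]
               ring⟩
      have h5 : IsSquare (t₀ ^ 2 * (sf (β - γ) * (m * c))) :=
        ⟨w, by rw [← hw]; conv_rhs => rw [e2]
               ring⟩
      obtain ⟨u', -, hu'⟩ := sq_of_mul hs0 h4
      obtain ⟨w', -, hw'⟩ := sq_of_mul ht0 h5
      have h6 := Pool.Agent.K7.H90.AS.sqf_unique k1 k2 hmc hu' hw'
      rw [h6]
      exact e2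
    rw [hempty, Set.ncard_empty]
    push_cast
    positivity
  obtain ⟨δ, s₀, t₀, hs, ht⟩ := hex
  have hs0 : s₀ ≠ 0 := by
    rintro rfl
    exact sub_ne_zero.2 hαγ (by rw [hs]; ring)
  have ht0 : t₀ ≠ 0 := by
    rintro rfl
    exact sub_ne_zero.2 hβγ (by rw [ht]; ring)
  have hδ0 : δ ≠ 0 := by
    rintro rfl
    exact sub_ne_zero.2 hαγ (by rw [hs]; ring)
  have hst : s₀ ^ 2 ≠ t₀ ^ 2 := by
    intro h
    apply hαβ
    rw [h, ← ht] at hs
    linarith
  have hδR : |δ| ≤ R := abs_le_of_dvd hR (Dvd.dvd.trans ⟨s₀ ^ 2, hs⟩ h2R)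
  set F : ℤ[X] := pR (![s₀, -s₀, t₀, -t₀] : Fin 4 → ℤ) with hF
  set P : ℕ := R * (S0 * (R * ((S0 * (R * R)) * (S0 * (R * R))))) with hP
  have hDens := hM4 F (pR_monic _) (by rw [hF, pR_deg, Fintype.card_fin]) (pR_sep (inj4 hs0 ht0 hst))
    (fun f₁ _ hi hd => by
      have := pR_factor _ f₁ hi hd
      omega) (ε / ((P + 1) * R ^ 3)) (by
      have : (0 : ℝ) < R := by exact_mod_cast hR
      positivity)
  obtain ⟨N₁, hN₁⟩ := hDens
  refine ⟨N₁ + R ^ 3 + γ.natAbs + 2, fun N Mx hN hMx => ?_⟩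
  set E : Set ℤ := {D : ℤ | D ∈ ExcG F M4 ∧ |D| ≤ ((R ^ 3 * N : ℕ) : ℤ)} with hE
  have hEf : E.Finite := fin_of_le fun D hD => hD.2
  have hR3 : 1 ≤ R ^ 3 := Nat.one_le_pow _ _ hR
  have hEc : (E.ncard : ℝ) ≤ ε / ((P + 1) * R ^ 3) * (R ^ 3 * N : ℕ) :=
    hN₁ (R ^ 3 * N) ((by omega : N₁ ≤ N).trans (Nat.le_mul_of_pos_left _ hR3))
  set Bh : ℕ := S0 * (R * R) with hBh
  set J := (Finset.Icc (1 : ℤ) R) ×ˢ ((Finset.Icc (1 : ℤ) S0) ×ˢ ((Finset.Icc (1 : ℤ) R) ×ˢ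
    ((Finset.Icc (1 : ℤ) Bh) ×ˢ (Finset.Icc (1 : ℤ) Bh)))) with hJ
  have hJc : J.card = P := by
    rw [hJ, Finset.card_product, Finset.card_product, Finset.card_product, Finset.card_product,
      Int.card_Icc, Int.card_Icc, Int.card_Icc]
    have h1 : ((R : ℤ) + 1 - 1).toNat = R := by omega
    have h2 : ((S0 : ℤ) + 1 - 1).toNat = S0 := by omega
    have h3 : ((Bh : ℤ) + 1 - 1).toNat = Bh := by omega
    rw [h1, h2, h3]
  have htr := transfer (A := DG α β γ R S0 N Mx) J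
    (fun q => q.1 ^ 2 * δ * q.2.2.2.1) (fun q => q.2.2.1 ^ 2 * q.2.1 ^ 2 * q.2.2.2.2 ^ 2)
    (fun q hq => by
      rw [hJ, Finset.mem_product, Finset.mem_product, Finset.mem_product, Finset.mem_product,
        Finset.mem_Icc, Finset.mem_Icc, Finset.mem_Icc, Finset.mem_Icc, Finset.mem_Icc] at hq
      exact mul_ne_zero (mul_ne_zero (pow_ne_zero 2 (by omega)) hδ0) (by omega)) hEf (by
    rintro D ⟨⟨hD0, hDN, x, m, a, b, c, κ, v, hPar, ⟨hs1, hs2⟩, hκ1, hκR, hv1, hvS, heq⟩, hsqD⟩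
    obtain ⟨l0, l1, l2, l3⟩ := par3_pos hPar
    obtain ⟨⟨hL, ha, hb, hc, hm0⟩, hxm, hmN, hx, ⟨y₀, hy0⟩, ⟨y₁, hy1⟩, ⟨y₂, hy2⟩, hsz, hba, hcb⟩ :=
      hPar
    obtain ⟨h, d, Y', h', w, d₁, d₂, z, q1, q2, q3, q4, q5, q6, q7, q8, q9, q10, q11, q12, q13⟩ :=
      degen hs ht hs0 hy0 hy1 hy2 ha hb hc.ne_zero hm0 hxm hδ0 hs1
    have hwR : w ≤ R := by
      have := abs_le_of_dvd hR (q9.trans h1R)
      rwa [abs_of_pos (by omega)] at this
    have hκδ : |κ * δ| ≤ ((R * R : ℕ) : ℤ) := by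
      rw [abs_mul, abs_of_pos (by omega : 0 < κ)]
      push_cast
      exact mul_le_mul hκR hδR (abs_nonneg _) (by omega)
    have hhB : h ≤ Bh := by
      have h5 := small_root (h := h) (k := κ * δ) (D := D) (S0 := S0) (B := R * R) q1
        (mul_ne_zero (by omega) hδ0) hκδ ?_ hsqD
      · rw [hBh]
        push_cast at h5 ⊢
        exact h5
      · refine ⟨δ * (a * b) * v ^ 2, ?_⟩
        linear_combination (δ ^ 2) * heq + (δ * a * b * v ^ 2) * q2
    have hh'B : h' ≤ Bh := by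
      have : h' ≤ d * h' := le_mul_of_one_le_left (by omega) q3
      omega
    refine ⟨(κ, v, w, h', h), ?_, d₁ * d₂ * h', ?_, ?_⟩
    · rw [hJ, Finset.mem_product, Finset.mem_product, Finset.mem_product, Finset.mem_product,
        Finset.mem_Icc, Finset.mem_Icc, Finset.mem_Icc, Finset.mem_Icc, Finset.mem_Icc]
      exact ⟨⟨hκ1, hκR⟩, ⟨hv1, hvS⟩, ⟨q8, hwR⟩, ⟨q6, hh'B⟩, q1, hhB⟩
    · -- sizes
      have hDs : |d₁ * d₂ * h'| ≤ ((R ^ 3 * N : ℕ) : ℤ) := by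
        have e1 : |d₁ * d₂| ≤ |a| * |b| := by
          rw [q10, q11, abs_mul, abs_mul, abs_mul, abs_of_pos (by omega : 0 < w)]
          have h5 : |d₁| ≤ w * |d₁| := le_mul_of_one_le_left (abs_nonneg _) q8
          have h6 : |d₂| ≤ w * |d₂| := le_mul_of_one_le_left (abs_nonneg _) q8
          exact mul_le_mul h5 h6 (abs_nonneg _) (by positivity)
        have e2 : h' ≤ |δ| * m * |c| := by
          calc h' ≤ d * h' := le_mul_of_one_le_left (by omega) q3
            _ = h := q5.symm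
            _ ≤ h ^ 2 := Int.le_self_sq _
            _ = |δ * m * c| := by rw [q2, abs_of_nonneg (sq_nonneg h)]
            _ = |δ| * m * |c| := by rw [abs_mul, abs_mul, abs_of_pos hm0]
        rw [abs_mul, abs_of_pos (by omega : 0 < h')]
        push_cast
        calc |d₁ * d₂| * h' ≤ (|a| * |b|) * (|δ| * m * |c|) :=
              mul_le_mul e1 e2 (by omega) (by positivity)
          _ = |δ| * (|a| * |b| * |c| * m) := by ring
          _ ≤ R * ((R : ℤ) ^ 2 * N) := mul_le_mul hδR hsz (by positivity) (by omega)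
          _ = _ := by ring
      refine ⟨⟨mul_ne_zero q12 (by omega), d₁ * d₂, h', Y', z, rfl, by omega, q7, ?_, ?_⟩, hDs⟩
      · rw [hF, pR_eval]
        exact q13
      · by_contra hcon
        rw [not_lt] at hcon
        have hN1 : (1 : ℤ) ≤ N := by exact_mod_cast (by omega : 1 ≤ N)
        have hN2 : (2 : ℤ) ≤ N := by exact_mod_cast (by omega : 2 ≤ N)
        have hγN : |γ| ≤ (N : ℤ) := by
          rw [Int.abs_eq_natAbs]
          exact_mod_cast (by omega : γ.natAbs ≤ N)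
        have hRN : ((R ^ 3 * N : ℕ) : ℤ) ≤ (N : ℤ) ^ 2 := by
          have : R ^ 3 * N ≤ N ^ 2 := by
            rw [sq]
            exact Nat.mul_le_mul_right _ (by omega)
          exact_mod_cast this
        -- the upper bound
        have hh2 : h ^ 2 ≤ (N : ℤ) ^ 2 := by
          have e1 : h ^ 2 = |δ| * m * |c| := by
            rw [← q2, ← abs_of_nonneg (by rw [q2]; positivity : 0 ≤ δ * m * c), abs_mul, abs_mul,
              abs_of_pos hm0]
          rw [e1]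
          calc |δ| * m * |c| = |δ| * (1 * 1 * |c| * m) := by ring
            _ ≤ R * ((R : ℤ) ^ 2 * N) := by
                refine mul_le_mul hδR (le_trans ?_ hsz) (by positivity) (by omega)
                gcongr
            _ = ((R ^ 3 * N : ℕ) : ℤ) := by push_cast; ring
            _ ≤ _ := hRN
        have hY2 : Y' ^ 2 ≤ ((N : ℤ) ^ 2) ^ (2 * M4) := by
          calc Y' ^ 2 = |Y'| ^ 2 := (sq_abs _).symm
            _ ≤ (|d₁ * d₂ * h'| ^ M4) ^ 2 := pow_le_pow_left₀ (abs_nonneg _) hcon 2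
            _ = |d₁ * d₂ * h'| ^ (2 * M4) := by rw [← pow_mul, mul_comm M4 2]
            _ ≤ ((N : ℤ) ^ 2) ^ (2 * M4) :=
                pow_le_pow_left₀ (abs_nonneg _) (hDs.trans hRN) _
        have hup : (c * y₂) ^ 2 ≤ (N : ℤ) ^ (4 * M4 + 2) := by
          have e1 : (c * y₂) ^ 2 = d ^ 2 * Y' ^ 2 := by rw [q4]; ring
          have e2 : d ^ 2 ≤ h ^ 2 := by
            have : d ≤ h := by
              rw [q5]
              exact le_mul_of_one_le_right (by omega) q6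
            exact pow_le_pow_left₀ (by omega) this 2
          rw [e1]
          calc d ^ 2 * Y' ^ 2 ≤ (N : ℤ) ^ 2 * ((N : ℤ) ^ 2) ^ (2 * M4) :=
                mul_le_mul (e2.trans hh2) hY2 (sq_nonneg _) (by positivity)
            _ = _ := by rw [← pow_mul, ← pow_add]; congr 1; ring
        -- the lower bound
        have hlow : |x| - (N : ℤ) ^ 2 ≤ (c * y₂) ^ 2 := by
          have e1 : (c * y₂) ^ 2 = |c| * |x - γ * m| := by
            rw [hy2, ← abs_mul, ← abs_of_nonneg (sq_nonneg (c * y₂))]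
            congr 1
            ring
          have e2 : |x - γ * m| ≤ |c| * |x - γ * m| := le_mul_of_one_le_left (abs_nonneg _) l2
          have e3 : |x| ≤ |x - γ * m| + |γ| * m := by
            have h7 : x = (x - γ * m) + γ * m := by ring
            calc |x| = |(x - γ * m) + γ * m| := by rw [← h7]
              _ ≤ |x - γ * m| + |γ * m| := abs_add_le _ _
              _ = _ := by rw [abs_mul γ, abs_of_pos hm0]
          have e4 : |γ| * m ≤ (N : ℤ) ^ 2 := by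
            rw [sq]
            exact mul_le_mul hγN hmN hm0.le (by omega)
          rw [e1]
          linarith
        have hx4 : (N : ℤ) ^ (4 * M4 + 4) ≤ (N : ℤ) ^ Mx := pow_le_pow_right₀ hN1 hMx
        have e5 : (N : ℤ) ^ 2 ≤ (N : ℤ) ^ (4 * M4 + 2) := pow_le_pow_right₀ hN1 (by omega)
        have e6 : (N : ℤ) ^ (4 * M4 + 4) = (N : ℤ) ^ (4 * M4 + 2) * N ^ 2 := by ring
        have e7 : (0 : ℤ) ≤ (N : ℤ) ^ (4 * M4 + 2) := by positivity
        have e8 : (4 : ℤ) ≤ (N : ℤ) ^ 2 := by nlinarith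
        nlinarith
    · simp only
      have e1 : a * b = w ^ 2 * (d₁ * d₂) := by rw [q10, q11]; ring
      linear_combination (δ * h') * heq + (h' * c * m * v ^ 2 * δ) * e1 +
        (h' * w ^ 2 * d₁ * d₂ * v ^ 2) * q2)
  rw [hJc] at htr
  have hRpos : (0 : ℝ) < R := by exact_mod_cast hR
  calc ((DG α β γ R S0 N Mx).ncard : ℝ) ≤ ((P * E.ncard : ℕ) : ℝ) := by exact_mod_cast htr
    _ = P * (E.ncard : ℝ) := by push_cast; ring
    _ ≤ P * (ε / ((P + 1) * R ^ 3) * (R ^ 3 * N : ℕ)) :=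
        mul_le_mul_of_nonneg_left hEc (by positivity)
    _ = (P / (P + 1)) * (ε * N) := by
        push_cast
        field_simp
    _ ≤ 1 * (ε * N) := by
        apply mul_le_mul_of_nonneg_right _ (by positivity)
        rw [div_le_one (by positivity)]
        linarith
    _ = _ := one_mul _

end Pool.Agent.H64.FT
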