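import Mathlib
import Pool.Agent.H64.FT.B7

/-!
# The data of an exceptional twist
-/

set_option autoImplicit false

open Polynomial

namespace Pool.Agent.H64.FT

open Pool.Agent.K7.H23.AT Pool.Agent.K7.H23.PT Pool.Agent.K7.H89.BS

/-- the local conditions for all orders -/
def LF (e : Fin 3 → ℤ) (R : ℕ) (c : Fin 3 → ℤ) (m : ℤ) : Prop :=
  ∀ i j l : Fin 3, i ≠ j → i ≠ l → Lc (e i) (e j) (e l) R (c i) (c j) (c l) m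

lemma loc_pair {e₁ e₂ x m c₁ c₂ y₁ y₂ : ℤ} {R p : ℕ} (hp : p.Prime) (hR : e₁ - e₂ ∣ (R : ℤ))
    (hpR : ¬ p ∣ R) (hxm : IsCoprime x m) (h1 : x - e₁ * m = c₁ * y₁ ^ 2)
    (h2 : x - e₂ * m = c₂ * y₂ ^ 2) (hpc : (p : ℤ) ∣ c₁) :
    ¬ (p : ℤ) ∣ c₂ ∧ ¬ (p : ℤ) ∣ m ∧ IsSquare (((e₁ - e₂) * m * c₂ : ℤ) : ZMod p) := by
  have hpp : Prime (p : ℤ) := Nat.prime_iff_prime_int.1 hp
  have hpx : (p : ℤ) ∣ x - e₁ * m := hpc.trans ⟨y₁ ^ 2, h1⟩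
  have hpm : ¬ (p : ℤ) ∣ m := by
    intro h
    have h3 : (p : ℤ) ∣ x := by
      have := dvd_add hpx (h.mul_left e₁)
      rwa [sub_add_cancel] at this
    exact hpp.not_isUnit (hxm.isUnit_of_dvd' h3 h)
  refine ⟨?_, hpm, ?_⟩
  · intro h
    have h3 : (p : ℤ) ∣ (e₁ - e₂) * m := by
      have h4 : (e₁ - e₂) * m = (x - e₂ * m) - (x - e₁ * m) := by ring
      rw [h4]
      exact dvd_sub (h.trans ⟨y₂ ^ 2, h2⟩) hpx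
    rcases hpp.dvd_or_dvd h3 with h4 | h4
    · exact hpR (Int.natCast_dvd_natCast.1 (h4.trans hR))
    · exact hpm h4
  · refine ⟨((c₂ * y₂ : ℤ) : ZMod p), ?_⟩
    rw [← Int.cast_mul, ZMod.intCast_eq_intCast_iff_dvd_sub]
    have h4 : c₂ * y₂ * (c₂ * y₂) - (e₁ - e₂) * m * c₂ = c₂ * (x - e₁ * m) := by
      linear_combination (-c₂) * h2
    rw [h4]
    exact hpx.mul_left _

/-- the data of a point -/
theorem pdata3 {e : Fin 3 → ℤ} {R : ℕ} (hR : 1 ≤ R) (hRe : ∀ i j, i ≠ j → e i - e j ∣ (R : ℤ))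
    (hRκ : (e 0 - e 1) * ((e 2 - e 0) * (e 2 - e 1)) ∣ (R : ℤ))
    {D g m x y : ℤ} (hD : D ≠ 0) (hDg : D = g * m) (hm : 0 < m) (hxm : IsCoprime x m)
    (hx : ∀ i, x - e i * m ≠ 0) (hy : y ^ 2 = g * ∏ i, (x - e i * m)) :
    ∃ (c y' : Fin 3 → ℤ) (κ v : ℤ), (∀ i, Squarefree (c i)) ∧
      (∀ i, x - e i * m = c i * y' i ^ 2) ∧ LF e R c m ∧ 1 ≤ κ ∧ κ ≤ R ∧ 1 ≤ v ∧ v ^ 2 ∣ D ∧
      D * κ ^ 2 = (∏ i, c i) * m * v ^ 2 := by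
  obtain ⟨sf, hsf⟩ := exists_sf
  choose y' hy'0 hy' using fun i => (hsf _ (hx i)).2
  have hsq : ∀ i, Squarefree (sf (x - e i * m)) := fun i => (hsf _ (hx i)).1
  set c : Fin 3 → ℤ := fun i => sf (x - e i * m) with hc
  have hcy : ∀ i, x - e i * m = c i * y' i ^ 2 := hy'
  have hcs : ∀ i, Squarefree (c i) := hsq
  have hxem : ∀ i, IsCoprime (x - e i * m) m := by
    intro i
    have h5 : x - e i * m = x + m * (-e i) := by ring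
    rw [h5]
    exact hxm.add_mul_left_left _
  have hcm : ∀ i, IsCoprime (c i) m := fun i =>
    IsCoprime.of_isCoprime_of_dvd_left (hxem i) ⟨y' i ^ 2, hcy i⟩
  have hgne : g ≠ 0 := by
    rintro rfl
    apply hD
    rw [hDg, zero_mul]
  -- the first gcd
  have hκpos : 0 < Int.gcd (c 0) (c 1) := Int.gcd_pos_of_ne_zero_left _ (hcs 0).ne_zero
  obtain ⟨d₀, d₁, hcop, hd0, hd1⟩ := Int.exists_gcd_one hκpos
  set κ₁ : ℤ := (Int.gcd (c 0) (c 1) : ℤ) with hκ₁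
  have hκ₁0 : 0 < κ₁ := Int.natCast_pos.2 hκpos
  have hκ₁m : IsCoprime κ₁ m := IsCoprime.of_isCoprime_of_dvd_left (hcm 0) (Int.gcd_dvd_left _ _)
  have hκ₁e : κ₁ ∣ e 0 - e 1 := by
    have h6 : κ₁ ∣ (e 0 - e 1) * m := by
      have h7 : (e 0 - e 1) * m = (x - e 1 * m) - (x - e 0 * m) := by ring
      rw [h7]
      exact dvd_sub ((Int.gcd_dvd_right (c 0) (c 1)).trans ⟨y' 1 ^ 2, hcy 1⟩)
        ((Int.gcd_dvd_left (c 0) (c 1)).trans ⟨y' 0 ^ 2, hcy 0⟩)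
    exact hκ₁m.dvd_of_dvd_mul_right h6
  have hsd0 : Squarefree d₀ := (hcs 0).squarefree_of_dvd ⟨κ₁, hd0⟩
  have hsd1 : Squarefree d₁ := (hcs 1).squarefree_of_dvd ⟨κ₁, hd1⟩
  have hcop' : IsCoprime d₀ d₁ := Int.isCoprime_iff_gcd_eq_one.2 hcop
  have hsd : Squarefree (d₀ * d₁) := (Int.squarefree_natAbs.1 (by
    rw [Int.natAbs_mul]
    exact (Nat.squarefree_mul (Int.isCoprime_iff_gcd_eq_one.1 hcop')).2
      ⟨Int.squarefree_natAbs.2 hsd0, Int.squarefree_natAbs.2 hsd1⟩))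
  -- the second gcd
  have hκpos2 : 0 < Int.gcd (d₀ * d₁) (c 2) := Int.gcd_pos_of_ne_zero_left _ hsd.ne_zero
  obtain ⟨u₁, u₂, hcop2, hu1, hu2⟩ := Int.exists_gcd_one hκpos2
  set κ₂ : ℤ := (Int.gcd (d₀ * d₁) (c 2) : ℤ) with hκ₂
  have hκ₂0 : 0 < κ₂ := Int.natCast_pos.2 hκpos2
  have hκ₂c : κ₂ ∣ c 2 := Int.gcd_dvd_right _ _
  have hκ₂d : κ₂ ∣ d₀ * d₁ := Int.gcd_dvd_left _ _
  have hκ₂m : IsCoprime κ₂ m := IsCoprime.of_isCoprime_of_dvd_left (hcm 2) hκ₂c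
  have hκ₂e : κ₂ ∣ (e 2 - e 0) * (e 2 - e 1) := by
    have h6 : κ₂ ∣ ((e 2 - e 0) * (e 2 - e 1)) * m ^ 2 := by
      have h7 : ((e 2 - e 0) * (e 2 - e 1)) * m ^ 2 = (x - e 0 * m) * (x - e 1 * m) -
          (x - e 2 * m) * ((x - e 2 * m) + (e 2 - e 0) * m + (e 2 - e 1) * m) := by ring
      rw [h7]
      refine dvd_sub ?_ ((hκ₂c.trans ⟨y' 2 ^ 2, hcy 2⟩).mul_right _)
      refine hκ₂d.trans ⟨κ₁ * κ₁ * y' 0 ^ 2 * y' 1 ^ 2, ?_⟩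
      rw [hcy 0, hcy 1]
      linear_combination (y' 0 ^ 2 * y' 1 ^ 2 * c 1) * hd0 + (y' 0 ^ 2 * y' 1 ^ 2 * d₀ * κ₁) * hd1
    exact (hκ₂m.pow_right).dvd_of_dvd_mul_right h6
  have hsu1 : Squarefree u₁ := hsd.squarefree_of_dvd ⟨κ₂, hu1⟩
  have hsu2 : Squarefree u₂ := (hcs 2).squarefree_of_dvd ⟨κ₂, hu2⟩
  have hcop2' : IsCoprime u₁ u₂ := Int.isCoprime_iff_gcd_eq_one.2 hcop2
  have hsu : Squarefree (u₁ * u₂) := (Int.squarefree_natAbs.1 (by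
    rw [Int.natAbs_mul]
    exact (Nat.squarefree_mul (Int.isCoprime_iff_gcd_eq_one.1 hcop2')).2
      ⟨Int.squarefree_natAbs.2 hsu1, Int.squarefree_natAbs.2 hsu2⟩))
  have hprod : c 0 * c 1 * c 2 = (u₁ * u₂) * (κ₁ * κ₂) ^ 2 := by
    linear_combination (c 1 * c 2) * hd0 + (d₀ * κ₁ * c 2) * hd1 + (κ₁ ^ 2 * c 2) * hu1 +
      (κ₁ ^ 2 * u₁ * κ₂) * hu2
  obtain ⟨v, hv⟩ := sq_lemma (g := g) (F := ∏ i, (x - e i * m)) (w := y) (h := u₁ * u₂)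
    (t := κ₁ * κ₂ * y' 0 * y' 1 * y' 2) hy.symm (by
      rw [Fin.prod_univ_three, hcy 0, hcy 1, hcy 2]
      linear_combination (y' 0 ^ 2 * y' 1 ^ 2 * y' 2 ^ 2) * hprod) hsu
    (mul_ne_zero (mul_ne_zero (mul_ne_zero (mul_ne_zero hκ₁0.ne' hκ₂0.ne') (hy'0 0)) (hy'0 1))
      (hy'0 2))
  have hv0 : v ≠ 0 := by
    rintro rfl
    apply hgne
    rw [hv]; ring
  refine ⟨c, y', κ₁ * κ₂, |v|, hcs, hcy, ?_, ?_, ?_, Int.one_le_abs hv0, ?_, ?_⟩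
  · intro i j l hij hil p hp hpa hpR
    obtain ⟨h1, h2, h3⟩ := loc_pair hp (hRe i j hij) hpR hxm (hcy i) (hcy j) hpa
    obtain ⟨h4, -, h5⟩ := loc_pair hp (hRe i l hil) hpR hxm (hcy i) (hcy l) hpa
    exact ⟨h1, h4, h2, h3, h5⟩
  · nlinarith
  · have h1 : κ₁ * κ₂ ∣ (R : ℤ) := (mul_dvd_mul hκ₁e hκ₂e).trans hRκ
    exact Int.le_of_dvd (by exact_mod_cast hR) h1
  · rw [sq_abs, hDg, hv]
    exact ⟨u₁ * u₂ * m, by ring⟩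
  · rw [sq_abs, Fin.prod_univ_three, hDg, hv]
    linear_combination (-m * v ^ 2) * hprod

end Pool.Agent.H64.FT
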