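import Mathlib
import Pool.Agent.H64.FT.C1
import Pool.Agent.H64.FT.B6
import Pool.Agent.H64.FT.B9

/-!
# The twists with data in a given order
-/

set_option autoImplicit false

open Polynomial

namespace Pool.Agent.H64.FT

open Pool.Agent.K7.H23.AT Pool.Agent.K7.H23.PT

/-- the twists with data in a given order and without large square divisors -/
def OO (α β γ : ℤ) (R S0 N Mx : ℕ) : Set ℤ :=
  {D : ℤ | D ∈ (WW α β γ R S0 N Mx fun _ _ _ _ _ => True) ∧ ∀ s : ℕ, S0 < s → ¬ (s : ℤ) ^ 2 ∣ D}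

theorem order_bound : ∃ M : ℕ, ∀ α β γ : ℤ, α ≠ β → α ≠ γ → β ≠ γ → ∀ R : ℕ, 1 ≤ R → 2 ∣ R →
    α - β ∣ (R : ℤ) → α - γ ∣ (R : ℤ) → β - γ ∣ (R : ℤ) → ∀ S0 : ℕ, 1 ≤ S0 → ∀ ε : ℝ, 0 < ε →
    ∃ N₀ : ℕ, ∀ N Mx : ℕ, N₀ ≤ N → M ≤ Mx → ((OO α β γ R S0 N Mx).ncard : ℝ) ≤ ε * N := by
  classical
  obtain ⟨M1, hbox⟩ := boxB
  obtain ⟨M2, hp5⟩ := pairsT5
  obtain ⟨M3, hp6⟩ := partT6
  refine ⟨M1 + M2 + M3 + 2, fun α β γ hαβ hαγ hβγ R hR h2 h1R h2R h3R S0 hS0 ε hε => ?_⟩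
  have h1R' : β - α ∣ (R : ℤ) := by
    rw [← neg_sub]
    exact (neg_dvd).2 h1R
  have h2R' : γ - α ∣ (R : ℤ) := by
    rw [← neg_sub]
    exact (neg_dvd).2 h2R
  have h3R' : γ - β ∣ (R : ℤ) := by
    rw [← neg_sub]
    exact (neg_dvd).2 h3R
  have hRpos : (0 : ℝ) < R := by exact_mod_cast hR
  have hSpos : (0 : ℝ) < S0 := by exact_mod_cast hS0
  obtain ⟨X₀, N₁, hX₀, hA1⟩ := partT1 hαγ hβγ hR h2 h1R' h2R' h3R' S0 hS0 (ε / 6) (by positivity)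
  obtain ⟨Cc, N₂, hC⟩ := hbox α β γ hαβ hαγ hβγ R
  -- the parameters
  obtain ⟨i0, hi0, hi0ε⟩ : ∃ i0 : ℕ, 1 ≤ i0 ∧
      R * S0 * (Cc * (8 * R ^ 2) * (2 / (i0 : ℝ))) ≤ ε / 6 := by
    refine ⟨⌈96 * R * S0 * Cc * R ^ 2 / ε⌉₊ + 1, by omega, ?_⟩
    have h1 : (96 * R * S0 * Cc * R ^ 2 / ε : ℝ) ≤ (⌈96 * R * S0 * Cc * R ^ 2 / ε⌉₊ : ℝ) :=
      Nat.le_ceil _
    have h2 : (0 : ℝ) < ((⌈96 * R * S0 * Cc * R ^ 2 / ε⌉₊ + 1 : ℕ) : ℝ) := by positivity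
    rw [div_le_iff₀ hε] at h1
    have h3 : (R * S0 * (Cc * (8 * R ^ 2) * (2 / ((⌈96 * R * S0 * Cc * R ^ 2 / ε⌉₊ + 1 : ℕ) : ℝ))) : ℝ)
        = (16 * R * S0 * Cc * R ^ 2) / ((⌈96 * R * S0 * Cc * R ^ 2 / ε⌉₊ + 1 : ℕ) : ℝ) := by ring
    rw [h3, div_le_iff₀ h2]
    push_cast
    nlinarith
  obtain ⟨X1, hX1⟩ : ∃ X1, X1 = X₀ + 2 ^ i0 := ⟨_, rfl⟩
  have hX0X1 : X₀ ≤ X1 := by rw [hX1]; exact Nat.le_add_right _ _
  have hX11 : 1 ≤ X1 := hX₀.trans hX0X1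
  obtain ⟨Mm, hMm, hMmε⟩ : ∃ Mm : ℕ, 1 ≤ Mm ∧
      R * S0 * (Cc * R ^ 2 * X1 ^ 2 / (Mm : ℝ)) ≤ ε / 6 := by
    refine ⟨⌈6 * R * S0 * Cc * R ^ 2 * X1 ^ 2 / ε⌉₊ + 1, by omega, ?_⟩
    have h1 : (6 * R * S0 * Cc * R ^ 2 * X1 ^ 2 / ε : ℝ) ≤
        (⌈6 * R * S0 * Cc * R ^ 2 * X1 ^ 2 / ε⌉₊ : ℝ) := Nat.le_ceil _
    have h2 : (0 : ℝ) < ((⌈6 * R * S0 * Cc * R ^ 2 * X1 ^ 2 / ε⌉₊ + 1 : ℕ) : ℝ) := by positivity
    rw [div_le_iff₀ hε] at h1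
    have h3 : (R * S0 * (Cc * R ^ 2 * X1 ^ 2 / ((⌈6 * R * S0 * Cc * R ^ 2 * X1 ^ 2 / ε⌉₊ + 1 : ℕ) : ℝ)) : ℝ)
        = (R * S0 * Cc * R ^ 2 * X1 ^ 2) / ((⌈6 * R * S0 * Cc * R ^ 2 * X1 ^ 2 / ε⌉₊ + 1 : ℕ) : ℝ) := by
      ring
    rw [h3, div_le_iff₀ h2]
    push_cast
    nlinarith
  obtain ⟨N₃, hA4⟩ := partT4 (α := α) (β := β) (γ := γ) hR h1R h2R X1 Mm S0 (ε / 6) (by positivity)
  obtain ⟨N₄, hA5⟩ := hp5 α β γ hαβ hαγ hβγ R Mm hR (ε / (6 * R * S0)) (by positivity)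
  obtain ⟨N₅, hA6⟩ := hp6 α β γ hαβ hαγ hβγ R hR h1R h2R S0 (ε / 6) (by positivity)
  refine ⟨N₁ + N₂ + N₃ + N₄ + N₅ + X1 + α.natAbs + β.natAbs + γ.natAbs + 2,
    fun N Mx hN hMx => ?_⟩
  have hNpos : (0 : ℝ) < N := by exact_mod_cast (by omega : 0 < N)
  have habsN : ∀ t : ℤ, t.natAbs ≤ N → |t| ≤ (N : ℤ) := by
    intro t ht
    rw [Int.abs_eq_natAbs]
    exact_mod_cast ht
  have hαN := habsN α (by omega)
  have hβN := habsN β (by omega)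
  have hγN := habsN γ (by omega)
  set T1 : ℤ → ℤ → ℤ → ℤ → ℤ → Prop := fun _ m _ b c => (X₀ : ℤ) ≤ |b| ∧
        m ≤ (Nat.log 2 b.natAbs : ℤ) ^ 3 ∧
        ¬ (IsSquare ((α - γ) * m * c) ∧ IsSquare ((β - γ) * m * c)) with hT1
  set T2 : ℤ → ℤ → ℤ → ℤ → ℤ → Prop := fun _ m _ b _ => (2 : ℤ) ^ i0 ≤ |b| ∧
    (Nat.log 2 b.natAbs : ℤ) ^ 3 < m with hT2
  set T3 : ℤ → ℤ → ℤ → ℤ → ℤ → Prop := fun _ m _ b _ => |b| ≤ X1 ∧ (Mm : ℤ) ≤ m with hT3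
  set T4 : ℤ → ℤ → ℤ → ℤ → ℤ → Prop := fun _ m _ b c => |b| ≤ X1 ∧ m ≤ Mm ∧
        ¬ (IsSquare ((α - β) * m * b) ∧ IsSquare ((α - γ) * m * c)) with hT4
  set T5 : ℤ → ℤ → ℤ → ℤ → ℤ → Prop := fun _ m _ b c => m ≤ Mm ∧ IsSquare ((α - β) * m * b) ∧
    IsSquare ((α - γ) * m * c) with hT5
  set W : (ℤ → ℤ → ℤ → ℤ → ℤ → Prop) → Set ℤ := WW α β γ R S0 N Mx with hW
  have hWf : ∀ T, (W T).Finite := fun T => ww_fin _ _ _ _ _ _ _ T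
  have hDGf : (DG α β γ R S0 N Mx).Finite := fin_of_le fun D hD => hD.1.2.1
  have hcover : OO α β γ R S0 N Mx ⊆
      DG α β γ R S0 N Mx ∪ (W T1 ∪ (W T2 ∪ (W T3 ∪ (W T4 ∪ W T5)))) := by
    rintro D ⟨⟨hD0, hDN, x, m, a, b, c, κ, v, hP, -, hκ1, hκR, hv1, hvS, heq⟩, hsqD⟩
    have hmk : ∀ T : ℤ → ℤ → ℤ → ℤ → ℤ → Prop, T x m a b c → D ∈ W T := fun T hT =>
      ⟨hD0, hDN, x, m, a, b, c, κ, v, hP, hT, hκ1, hκR, hv1, hvS, heq⟩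
    by_cases hdeg : IsSquare ((α - γ) * m * c) ∧ IsSquare ((β - γ) * m * c)
    · left
      exact ⟨⟨hD0, hDN, x, m, a, b, c, κ, v, hP, hdeg, hκ1, hκR, hv1, hvS, heq⟩, hsqD⟩
    right
    by_cases hc : (X1 : ℤ) ≤ |b|
    · by_cases hml : m ≤ (Nat.log 2 b.natAbs : ℤ) ^ 3
      · exact Or.inl (hmk T1 ⟨by have : (X₀ : ℤ) ≤ X1 := by exact_mod_cast hX0X1
                                 omega, hml, hdeg⟩)
      · right; left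
        refine hmk T2 ⟨?_, not_le.1 hml⟩
        have : ((2 : ℤ) ^ i0) ≤ X1 := by
          rw [hX1]; push_cast; omega
        omega
    · by_cases hml : (Mm : ℤ) ≤ m
      · right; right; left
        exact hmk T3 ⟨by omega, hml⟩
      · by_cases hsq2 : IsSquare ((α - β) * m * b) ∧ IsSquare ((α - γ) * m * c)
        · right; right; right; right
          exact hmk T5 ⟨by omega, hsq2⟩
        · right; right; right; left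
          exact hmk T4 ⟨by omega, by omega, hsq2⟩
  have hbx : BoxB α β γ R Cc N Mx := hC N Mx (by omega) (by omega)
  have hW1 : ((W T1).ncard : ℝ) ≤ ε / 6 * N := hA1 N Mx (by omega)
  have hW4 : ((W T4).ncard : ℝ) ≤ ε / 6 * N := hA4 N Mx (by omega)
  have hDGc : ((DG α β γ R S0 N Mx).ncard : ℝ) ≤ ε / 6 * N := hA6 N Mx (by omega) (by omega)
  have hvia : ∀ (T : ℤ → ℤ → ℤ → ℤ → ℤ → Prop) (B : ℝ), 0 ≤ B →
      (∀ s : Finset (ℤ × ℤ), (∀ p ∈ s, ∃ a b c : ℤ, Par3 α β γ R N Mx p.1 p.2 a b c ∧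
        T p.1 p.2 a b c) → (s.card : ℝ) ≤ B) → ((W T).ncard : ℝ) ≤ R * S0 * B := by
    intro T B hB h
    have h1 := via_pairs3 (R := R) (S0 := S0) (N := N) (Mx := Mx) (B := ⌊B⌋₊) hαN hβN hγN
      (by omega) T (fun s hs => Nat.le_floor (h s hs))
    calc ((W T).ncard : ℝ) ≤ ((R * S0 * ⌊B⌋₊ : ℕ) : ℝ) := by exact_mod_cast h1
      _ = R * S0 * (⌊B⌋₊ : ℝ) := by push_cast; ring
      _ ≤ R * S0 * B := mul_le_mul_of_nonneg_left (Nat.floor_le hB) (by positivity)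
  have hW2 : ((W T2).ncard : ℝ) ≤ ε / 6 * N := by
    have h1 := hvia T2 (Cc * (8 * R ^ 2 * N) * (2 / i0)) (by positivity) (fun s hs =>
      pairsT2 hi0 hbx s hs)
    refine h1.trans ?_
    calc (R * S0 * (Cc * (8 * R ^ 2 * N) * (2 / i0)) : ℝ)
        = (R * S0 * (Cc * (8 * R ^ 2) * (2 / (i0 : ℝ)))) * N := by ring
      _ ≤ ε / 6 * N := mul_le_mul_of_nonneg_right hi0ε hNpos.le
  have hW3 : ((W T3).ncard : ℝ) ≤ ε / 6 * N := by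
    have h1 := hvia T3 (Cc * (R ^ 2 * N) * X1 ^ 2 / Mm) (by positivity) (fun s hs =>
      pairsT3 hMm hR (by omega) hbx s hs)
    refine h1.trans ?_
    calc (R * S0 * (Cc * (R ^ 2 * N) * X1 ^ 2 / Mm) : ℝ)
        = (R * S0 * (Cc * R ^ 2 * X1 ^ 2 / (Mm : ℝ))) * N := by ring
      _ ≤ ε / 6 * N := mul_le_mul_of_nonneg_right hMmε hNpos.le
  have hW5 : ((W T5).ncard : ℝ) ≤ ε / 6 * N := by
    have h1 := hvia T5 (ε / (6 * R * S0) * N) (by positivity) (fun s hs =>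
      hA5 N Mx (by omega) (by omega) s hs)
    refine h1.trans (le_of_eq ?_)
    field_simp
  have hUf := hDGf.union ((hWf T1).union ((hWf T2).union ((hWf T3).union
    ((hWf T4).union (hWf T5)))))
  have hfin : (OO α β γ R S0 N Mx).ncard ≤
      (DG α β γ R S0 N Mx).ncard + ((W T1).ncard + ((W T2).ncard + ((W T3).ncard +
        ((W T4).ncard + (W T5).ncard)))) := by
    refine (Set.ncard_le_ncard hcover hUf).trans ?_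
    refine (Set.ncard_union_le _ _).trans (Nat.add_le_add_left ?_ _)
    refine (Set.ncard_union_le _ _).trans (Nat.add_le_add_left ?_ _)
    refine (Set.ncard_union_le _ _).trans (Nat.add_le_add_left ?_ _)
    refine (Set.ncard_union_le _ _).trans (Nat.add_le_add_left ?_ _)
    exact Set.ncard_union_le _ _
  have hfin' : ((OO α β γ R S0 N Mx).ncard : ℝ) ≤
      (DG α β γ R S0 N Mx).ncard + ((W T1).ncard + ((W T2).ncard + ((W T3).ncard +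
        ((W T4).ncard + (W T5).ncard)))) := by exact_mod_cast hfin
  linarith

end Pool.Agent.H64.FT
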