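import Mathlib
import Pool.Agent.H64.FT.C2

/-!
# The theorem for a product of three linear polynomials
-/

set_option autoImplicit false

open Polynomial

namespace Pool.Agent.H64.FT

open Pool.Agent.K7.H23.AT Pool.Agent.K7.H23.PT Pool.Agent.K7.H89.BS

/-- the twists of `∏ (X - e i)` -/
theorem main3 : ∃ M : ℕ, ∀ e : Fin 3 → ℤ, Function.Injective e → Dens0 (ExcG (pR e) M) := by
  classical
  obtain ⟨M, hM⟩ := order_bound
  obtain ⟨Mx, hMx⟩ : ∃ Mx, Mx = M + 2 := ⟨_, rfl⟩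
  refine ⟨2 * Mx, fun e he ε hε => ?_⟩
  have hne : ∀ i j, i ≠ j → e i ≠ e j := fun i j h h' => h (he h')
  set P : ℤ := (e 0 - e 1) * ((e 2 - e 0) * (e 2 - e 1)) with hP
  have hP0 : P ≠ 0 := mul_ne_zero (sub_ne_zero.2 (hne 0 1 (by decide)))
    (mul_ne_zero (sub_ne_zero.2 (hne 2 0 (by decide))) (sub_ne_zero.2 (hne 2 1 (by decide))))
  obtain ⟨R, hRdef⟩ : ∃ R : ℕ, R = (2 * P).natAbs := ⟨_, rfl⟩
  have hR : 1 ≤ R := by
    rw [hRdef]
    exact Int.natAbs_pos.2 (mul_ne_zero two_ne_zero hP0)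
  have hRP2 : 2 * P ∣ (R : ℤ) := by
    rw [hRdef]
    exact Int.dvd_natCast.2 dvd_rfl
  have h2R : 2 ∣ R := by
    have : ((2 : ℕ) : ℤ) ∣ (R : ℤ) := Dvd.dvd.trans ⟨P, by push_cast; ring⟩ hRP2
    exact Int.natCast_dvd_natCast.1 this
  have hRP : P ∣ (R : ℤ) := Dvd.dvd.trans ⟨2, by ring⟩ hRP2
  have hRe : ∀ i j, i ≠ j → e i - e j ∣ (R : ℤ) := by
    intro i j hij
    refine Dvd.dvd.trans ?_ hRP
    have k01 : e 0 - e 1 ∣ P := ⟨_, rfl⟩
    have k20 : e 2 - e 0 ∣ P := ⟨(e 0 - e 1) * (e 2 - e 1), by rw [hP]; ring⟩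
    have k21 : e 2 - e 1 ∣ P := ⟨(e 0 - e 1) * (e 2 - e 0), by rw [hP]; ring⟩
    have k10 : e 1 - e 0 ∣ P := by
      rw [← neg_sub]
      exact (neg_dvd).2 k01
    have k02 : e 0 - e 2 ∣ P := by
      rw [← neg_sub]
      exact (neg_dvd).2 k20
    have k12 : e 1 - e 2 ∣ P := by
      rw [← neg_sub]
      exact (neg_dvd).2 k21
    fin_cases i <;> fin_cases j
    · exact absurd rfl hij
    · exact k01
    · exact k02
    · exact k10
    · exact absurd rfl hij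
    · exact k12
    · exact k20
    · exact k21
    · exact absurd rfl hij
  obtain ⟨S0, hS0, hS0ε⟩ : ∃ S0 : ℕ, 1 ≤ S0 ∧ 2 / (S0 : ℝ) ≤ ε / 4 := by
    refine ⟨⌈8 / ε⌉₊ + 1, by omega, ?_⟩
    have h1 : 8 / ε ≤ (⌈8 / ε⌉₊ : ℝ) := Nat.le_ceil _
    have h2 : (0 : ℝ) < ((⌈8 / ε⌉₊ + 1 : ℕ) : ℝ) := by positivity
    rw [div_le_iff₀ h2]
    push_cast
    rw [div_le_iff₀ hε] at h1
    nlinarith
  -- the orders
  have hord : ∀ σ : Equiv.Perm (Fin 3), ∃ N₀ : ℕ, ∀ N : ℕ, N₀ ≤ N →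
      ((OO (e (σ 2)) (e (σ 1)) (e (σ 0)) R S0 N Mx).ncard : ℝ) ≤ ε / 12 * N := by
    intro σ
    have h21 : σ 2 ≠ σ 1 := fun h => absurd (σ.injective h) (by decide)
    have h20 : σ 2 ≠ σ 0 := fun h => absurd (σ.injective h) (by decide)
    have h10 : σ 1 ≠ σ 0 := fun h => absurd (σ.injective h) (by decide)
    obtain ⟨N₀, h⟩ := hM (e (σ 2)) (e (σ 1)) (e (σ 0)) (hne _ _ h21) (hne _ _ h20) (hne _ _ h10)
      R hR h2R (hRe _ _ h21) (hRe _ _ h20) (hRe _ _ h10) S0 hS0 (ε / 12) (by positivity)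
    exact ⟨N₀, fun N hN => h N Mx hN (by omega)⟩
  choose N₀ hN₀ using hord
  obtain ⟨N₅, hN₅⟩ : ∃ N₅ : ℕ, ∀ N : ℕ, N₅ ≤ N → (2 * (Nat.sqrt N : ℝ) + 1) ≤ ε / 4 * N := by
    refine ⟨(⌈12 / ε⌉₊ + 1) ^ 2, fun N hN => ?_⟩
    have h1 : ⌈12 / ε⌉₊ + 1 ≤ Nat.sqrt N := Nat.le_sqrt'.2 hN
    have h2 : 12 / ε ≤ (Nat.sqrt N : ℝ) := (Nat.le_ceil _).trans (by exact_mod_cast (by omega))
    rw [div_le_iff₀ hε] at h2
    have h3 : ((Nat.sqrt N : ℕ) : ℝ) * (Nat.sqrt N : ℕ) ≤ N := by exact_mod_cast Nat.sqrt_le N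
    have h4 : (1 : ℝ) ≤ (Nat.sqrt N : ℝ) := by exact_mod_cast (by omega : 1 ≤ Nat.sqrt N)
    nlinarith
  refine ⟨∑ σ, N₀ σ + N₅ + (e 0).natAbs + (e 1).natAbs + (e 2).natAbs + 2, fun N hN => ?_⟩
  have hNpos : (0 : ℝ) < N := by exact_mod_cast (by omega : 0 < N)
  have heN : ∀ i, |e i| ≤ (N : ℤ) := by
    intro i
    rw [Int.abs_eq_natAbs]
    fin_cases i
    · exact_mod_cast (by omega : (e 0).natAbs ≤ N)
    · exact_mod_cast (by omega : (e 1).natAbs ≤ N)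
    · exact_mod_cast (by omega : (e 2).natAbs ≤ N)
  set O : Equiv.Perm (Fin 3) → Set ℤ := fun σ => OO (e (σ 2)) (e (σ 1)) (e (σ 0)) R S0 N Mx with hO
  have hOf : ∀ σ, (O σ).Finite := fun σ => fin_of_le fun D hD => hD.1.2.1
  have hOc : ∀ σ, ((O σ).ncard : ℝ) ≤ ε / 12 * N := by
    intro σ
    apply hN₀ σ N
    have := Finset.single_le_sum (f := N₀) (fun _ _ => Nat.zero_le _) (Finset.mem_univ σ)
    omega
  set Sm : Set ℤ := {D : ℤ | D ^ 2 < N} with hSm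
  set Sq : Set ℤ := {D : ℤ | D ≠ 0 ∧ |D| ≤ N ∧ ∃ s : ℕ, S0 < s ∧ (s : ℤ) ^ 2 ∣ D} with hSq
  have hcover : {D : ℤ | D ∈ ExcG (pR e) (2 * Mx) ∧ |D| ≤ N} ⊆
      Sm ∪ (Sq ∪ ⋃ σ ∈ (Finset.univ : Finset (Equiv.Perm (Fin 3))), O σ) := by
    rintro D ⟨⟨hD0, g, m, x, y, hDg, hm, hxm, hy, hx⟩, hDN⟩
    by_cases hsmall : D ^ 2 < N
    · exact Or.inl hsmall
    right
    by_cases hsq : ∃ s : ℕ, S0 < s ∧ (s : ℤ) ^ 2 ∣ D
    · exact Or.inl ⟨hD0, hDN, hsq⟩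
    right
    push Not at hsmall hsq
    have hgne : g ≠ 0 := by
      rintro rfl
      apply hD0
      rw [hDg, zero_mul]
    have hmN : m ≤ N := by
      refine le_trans ?_ hDN
      rw [hDg, abs_mul, abs_of_pos hm]
      exact le_mul_of_one_le_left hm.le (Int.one_le_abs hgne)
    have hxN : (N : ℤ) ^ Mx < |x| := by
      calc (N : ℤ) ^ Mx ≤ (D ^ 2) ^ Mx := pow_le_pow_left₀ (by positivity) hsmall _
        _ = |D| ^ (2 * Mx) := by rw [← sq_abs D]; ring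
        _ < |x| := hx
    have hx0 : ∀ i, x - e i * m ≠ 0 := fun i => sub_ne hm hmN hxN (heN i) (by omega)
    rw [pR_eval] at hy
    obtain ⟨c, y', κ, v, hcs, hcy, hL, hκ1, hκR, hv1, hvD, heq⟩ :=
      pdata3 hR hRe hRP hD0 hDg hm hxm hx0 hy
    have hvS : v ≤ S0 := by
      by_contra hcon
      push Not at hcon
      apply hsq v.toNat (by omega)
      rwa [Int.toNat_of_nonneg (by omega)]
    set σ : Equiv.Perm (Fin 3) := Tuple.sort (fun i => |c i|) with hσ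
    have hmono := Tuple.monotone_sort (fun i => |c i|)
    have hcb : |c (σ 0)| ≤ |c (σ 1)| := hmono (show (0 : Fin 3) ≤ 1 by decide)
    have hba : |c (σ 1)| ≤ |c (σ 2)| := hmono (show (1 : Fin 3) ≤ 2 by decide)
    have h21 : σ 2 ≠ σ 1 := fun h => absurd (σ.injective h) (by decide)
    have h20 : σ 2 ≠ σ 0 := fun h => absurd (σ.injective h) (by decide)
    have h10 : σ 1 ≠ σ 0 := fun h => absurd (σ.injective h) (by decide)
    have hprod : ∏ i, c i = c (σ 2) * c (σ 1) * c (σ 0) := by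
      rw [← Equiv.prod_comp σ c, Fin.prod_univ_three]
      ring
    have heq' : D * κ ^ 2 = c (σ 2) * c (σ 1) * c (σ 0) * m * v ^ 2 := by
      rw [heq, hprod]
    have hsz : |c (σ 2)| * |c (σ 1)| * |c (σ 0)| * m ≤ (R : ℤ) ^ 2 * N := by
      have h3 : |c (σ 2)| * |c (σ 1)| * |c (σ 0)| * m * v ^ 2 = |D| * κ ^ 2 := by
        have := congrArg abs heq'
        rw [abs_mul, abs_mul, abs_mul, abs_mul, abs_mul, abs_of_pos hm,
          abs_of_nonneg (sq_nonneg κ), abs_of_nonneg (sq_nonneg v)] at this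
        exact this.symm
      have h4 : 0 ≤ |c (σ 2)| * |c (σ 1)| * |c (σ 0)| * m := by positivity
      calc |c (σ 2)| * |c (σ 1)| * |c (σ 0)| * m ≤
            |c (σ 2)| * |c (σ 1)| * |c (σ 0)| * m * v ^ 2 :=
            le_mul_of_one_le_right h4 (one_le_pow₀ hv1)
        _ = |D| * κ ^ 2 := h3
        _ ≤ N * (R : ℤ) ^ 2 :=
            mul_le_mul hDN (pow_le_pow_left₀ (by omega) hκR 2) (sq_nonneg _) (by omega)
        _ = _ := by ring
    rw [Set.mem_iUnion₂]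
    refine ⟨σ, Finset.mem_univ _, ⟨hD0, hDN, x, m, c (σ 2), c (σ 1), c (σ 0), κ, v,
      ⟨⟨⟨hL _ _ _ h21 h20, hL _ _ _ h21.symm h10, hL _ _ _ h20.symm h10.symm⟩, hcs _, hcs _,
        hcs _, hm⟩, hxm, hmN, hxN, ⟨_, hcy _⟩, ⟨_, hcy _⟩, ⟨_, hcy _⟩, hsz, hba, hcb⟩, trivial,
      hκ1, hκR, hv1, hvS, heq'⟩, hsq⟩
  have hSmc : (Sm.ncard : ℝ) ≤ ε / 4 * N := by
    have h1 := card_small N
    have h2 : (Sm.ncard : ℝ) ≤ 2 * (Nat.sqrt N : ℝ) + 1 := by exact_mod_cast h1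
    exact h2.trans (hN₅ N (by omega))
  have hSqc : (Sq.ncard : ℝ) ≤ ε / 4 * N := by
    refine (card_large_sq S0 hS0 N).trans ?_
    calc (2 * N / S0 : ℝ) = (2 / (S0 : ℝ)) * N := by ring
      _ ≤ ε / 4 * N := mul_le_mul_of_nonneg_right hS0ε hNpos.le
  have hSmf : Sm.Finite := by
    apply fin_of_le (N := N)
    intro D hD
    have hD' : D ^ 2 < N := hD
    have h1 : |D| ≤ D ^ 2 := by
      rw [← sq_abs]
      exact Int.le_self_sq _
    omega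
  have hSqf : Sq.Finite := fin_of_le fun D hD => hD.2.1
  have hUf : (⋃ σ ∈ (Finset.univ : Finset (Equiv.Perm (Fin 3))), O σ).Finite :=
    (Finset.finite_toSet _).biUnion fun σ _ => hOf σ
  have hUc : ((⋃ σ ∈ (Finset.univ : Finset (Equiv.Perm (Fin 3))), O σ).ncard : ℝ) ≤ ε / 2 * N := by
    have h1 : ∀ K : Finset (Equiv.Perm (Fin 3)), (⋃ σ ∈ K, O σ).ncard ≤ ∑ σ ∈ K, (O σ).ncard := by
      intro K
      induction K using Finset.induction_on with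
      | empty => simp
      | insert q K hq ih =>
        rw [Finset.sum_insert hq, Finset.set_biUnion_insert]
        exact (Set.ncard_union_le _ _).trans (Nat.add_le_add_left ih _)
    calc ((⋃ σ ∈ (Finset.univ : Finset (Equiv.Perm (Fin 3))), O σ).ncard : ℝ) ≤
          ((∑ σ, (O σ).ncard : ℕ) : ℝ) := by exact_mod_cast h1 Finset.univ
      _ = ∑ σ, ((O σ).ncard : ℝ) := by push_cast; rfl
      _ ≤ ∑ _σ : Equiv.Perm (Fin 3), ε / 12 * N := Finset.sum_le_sum fun σ _ => hOc σ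
      _ = ε / 2 * N := by
          rw [Finset.sum_const, Finset.card_univ, Fintype.card_perm, Fintype.card_fin,
            nsmul_eq_mul]
          norm_num [Nat.factorial]
          ring
  have hfin : Set.ncard {D : ℤ | D ∈ ExcG (pR e) (2 * Mx) ∧ |D| ≤ N} ≤
      Sm.ncard + (Sq.ncard + (⋃ σ ∈ (Finset.univ : Finset (Equiv.Perm (Fin 3))), O σ).ncard) := by
    refine (Set.ncard_le_ncard hcover (hSmf.union (hSqf.union hUf))).trans ?_
    refine (Set.ncard_union_le _ _).trans (Nat.add_le_add_left ?_ _)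
    exact Set.ncard_union_le _ _
  have hfin' : (Set.ncard {D : ℤ | D ∈ ExcG (pR e) (2 * Mx) ∧ |D| ≤ N} : ℝ) ≤
      Sm.ncard + (Sq.ncard +
        (⋃ σ ∈ (Finset.univ : Finset (Equiv.Perm (Fin 3))), O σ).ncard) := by exact_mod_cast hfin
  linarith

end Pool.Agent.H64.FT
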