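import Mathlib
import Pool.Agent.H64.FT.C3
import Pool.Graph.R_pool_sql_team_seeded_35f281b4.K7.H90.RD.Main
import Pool.Graph.R_pool_sql_team_seeded_35f281b4.K7.H26.BL.Fin
import Pool.Graph.R_pool_sql_team_seeded_35f281b4.K7.H63.TO.Main
import Pool.Graph.R_pool_sql_team_seeded_35f281b4.K7.H23.PT.FI
import Pool.Graph.R_pool_sql_team_seeded_35f281b4.K7.H90.AS.Main

/-!
# All cubic polynomials
-/

set_option autoImplicit false

open Polynomial

namespace Pool.Agent.H64.FT

open Pool.Agent.K7.H23.AT Pool.Agent.K7.H23.PT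

/-- a cubic polynomial with three rational roots -/
lemma split_norm (f : ℤ[X]) (hdeg : f.natDegree = 3) (hsep : (f.map (Int.castRingHom ℚ)).Separable)
    (hroots : (f.map (Int.castRingHom ℚ)).roots.card = 3) :
    ∃ e : Fin 3 → ℤ, Function.Injective e ∧ integralNormalization f = pR e := by
  classical
  have hf0 : f ≠ 0 := by
    rintro rfl
    rw [natDegree_zero] at hdeg
    omega
  set F : ℤ[X] := integralNormalization f with hF
  have hmon : F.Monic := monic_integralNormalization hf0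
  have hFd : F.natDegree = 3 := by rw [hF, natDegree_integralNormalization, hdeg]
  have hlc : (f.leadingCoeff : ℚ) ≠ 0 := by simpa using hf0
  have hfq0 : f.map (Int.castRingHom ℚ) ≠ 0 := by
    rw [Polynomial.map_ne_zero_iff (Int.castRingHom ℚ).injective_int]
    exact hf0
  have hroot : ∀ x : ℚ, (F.map (Int.castRingHom ℚ)).eval ((f.leadingCoeff : ℚ) * x) =
      (f.leadingCoeff : ℚ) ^ 2 * (f.map (Int.castRingHom ℚ)).eval x := by
    intro x
    have h1 := integralNormalization_eval₂_leadingCoeff_mul (p := f) (by omega)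
      (Int.castRingHom ℚ) x
    rw [hdeg] at h1
    rw [eval_map, eval_map]
    exact h1
  set S := (f.map (Int.castRingHom ℚ)).roots.toFinset with hS
  have hSc : S.card = 3 := by
    rw [hS, Multiset.toFinset_card_of_nodup (nodup_roots hsep), hroots]
  -- the integral roots
  have hint : ∀ x ∈ S, ∃ n : ℤ, (n : ℚ) = (f.leadingCoeff : ℚ) * x ∧
      (F.map (Int.castRingHom ℚ)).eval (n : ℚ) = 0 := by
    intro x hx
    have hx0 : (f.map (Int.castRingHom ℚ)).eval x = 0 := by
      rw [hS, Multiset.mem_toFinset] at hx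
      exact (mem_roots hfq0).1 hx
    have hFx : (F.map (Int.castRingHom ℚ)).eval ((f.leadingCoeff : ℚ) * x) = 0 := by
      rw [hroot, hx0, mul_zero]
    obtain ⟨n, hn, -⟩ := exists_integer_of_is_root_of_monic (A := ℤ) (K := ℚ) hmon
      (r := (f.leadingCoeff : ℚ) * x) (by
        rw [eval_map] at hFx
        rw [aeval_def]
        exact hFx)
    have hn' : (f.leadingCoeff : ℚ) * x = (n : ℚ) := hn
    exact ⟨n, hn'.symm, by rw [← hn']; exact hFx⟩
  choose! r hr1 hr2 using hint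
  have hinj : Set.InjOn r S := by
    intro x hx y hy hxy
    have h1 := hr1 x hx
    have h2 := hr1 y hy
    rw [hxy, h2] at h1
    exact (mul_left_cancel₀ hlc h1).symm
  have hUc : (S.image r).card = 3 := by
    rw [Finset.card_image_of_injOn hinj, hSc]
  set E := (S.image r).equivFinOfCardEq hUc with hE
  refine ⟨fun i => ((E.symm i : {x // x ∈ S.image r}) : ℤ), ?_, ?_⟩
  · intro i j hij
    exact E.symm.injective (Subtype.ext hij)
  · set e : Fin 3 → ℤ := fun i => ((E.symm i : {x // x ∈ S.image r}) : ℤ) with he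
    have hinje : Function.Injective e := by
      intro i j hij
      exact E.symm.injective (Subtype.ext hij)
    have hev : ∀ i, (F.map (Int.castRingHom ℚ)).eval (e i : ℚ) = 0 := by
      intro i
      obtain ⟨x, hx, hxi⟩ := Finset.mem_image.1 (E.symm i).2
      have : e i = r x := hxi.symm
      rw [this]
      exact hr2 x hx
    have hdvd := gp_dvd hinje hev
    have h1 : (gp e).map (Int.castRingHom ℚ) = F.map (Int.castRingHom ℚ) := by
      refine (eq_of_monic_of_dvd_of_natDegree_le ((gp_monic e).map _) (hmon.map _) hdvd ?_).symm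
      rw [(gp_monic e).natDegree_map, hmon.natDegree_map, gp_deg, hFd]
    have h2 := map_injective _ (Int.castRingHom ℚ).injective_int h1
    rw [← h2]
    rfl

/-- cubic polynomials with three rational roots -/
theorem split_case : ∃ M : ℕ, ∀ f : ℤ[X], f.natDegree = 3 →
    (f.map (Int.castRingHom ℚ)).Separable → (f.map (Int.castRingHom ℚ)).roots.card = 3 →
    Dens0 (Exc f M) ∧ Dens0 (Exc2 f M) := by
  obtain ⟨M, hM⟩ := main3
  refine ⟨2 * M + 1, fun f hdeg hsep hroots => ?_⟩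
  have hf0 : f ≠ 0 := by
    rintro rfl
    rw [natDegree_zero] at hdeg
    omega
  obtain ⟨e, he, hfe⟩ := split_norm f hdeg hsep hroots
  have h1 : Dens0 (ExcG (integralNormalization f) M) := by
    rw [hfe]
    exact hM e he
  constructor
  · refine h1.mono (Set.Subset.trans ?_ (exc_sub f (by rw [hdeg]; decide) hf0 M))
    intro D hD
    obtain ⟨hD0, x, y, h3, h4⟩ := hD
    exact ⟨hD0, x, y, h3, lt_of_le_of_lt (pow_le_pow_right₀ (Int.one_le_abs hD0) (by omega)) h4⟩
  · have hc : f.leadingCoeff ^ (f.natDegree + 1) ≠ 0 := pow_ne_zero _ (leadingCoeff_ne_zero.2 hf0)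
    refine h1.scale hc ?_
    intro D hD hbig
    apply exc2_mem f (by omega) hf0 M D _ (by rwa [abs_pow] at hbig)
    obtain ⟨hD0, x, y, h3, h4⟩ := hD
    exact ⟨hD0, x, y, h3, lt_of_le_of_lt (pow_le_pow_right₀ (Int.one_le_abs hD0) (by omega)) h4⟩

/-- the number of the rational roots of a cubic polynomial -/
lemma roots_card {p : ℚ[X]} (hdeg : p.natDegree = 3) :
    p.roots.card = 0 ∨ p.roots.card = 1 ∨ p.roots.card = 3 := by
  obtain ⟨q, h1, h2, h3⟩ := exists_prod_multiset_X_sub_C_mul p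
  rw [hdeg] at h2
  have h4 : q.natDegree ≠ 1 := by
    intro h
    obtain ⟨a, ha, b, hb⟩ := natDegree_eq_one.1 h
    have h5 : -b / a ∈ q.roots := by
      rw [mem_roots (by rintro rfl; simp at h), IsRoot.def, ← hb]
      simp only [eval_add, eval_mul, eval_C, eval_X]
      field_simp
      ring
    rw [h3] at h5
    simp at h5
  omega

/-- **All cubic polynomials.** -/
theorem all_cubics : ∃ M : ℕ, ∀ f : ℤ[X], f.natDegree = 3 →
    (f.map (Int.castRingHom ℚ)).Separable → Dens0 (Exc f M) ∧ Dens0 (Exc2 f M) := by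
  obtain ⟨M0, h0⟩ := Pool.Agent.K7.H23.AT.families Pool.Agent.K7.H90.AS.stAG
    (Pool.Agent.K7.H89.BS.bg2 (Pool.Agent.K7.H23.AT.pc Pool.Agent.K7.H89.CL.stCL)
      Pool.Agent.K7.H23.AT.sf) 3 le_rfl
  have hpc := Pool.Agent.K7.H23.AT.pc Pool.Agent.K7.H89.CL.stCL
  have han := Pool.Agent.K7.H99.AN.stAN (Pool.Agent.K7.H5.TY.main Pool.Agent.K7.H42.PT.mq)
    (Pool.Agent.K7.H26.BL.stBL Pool.Agent.K7.H12.SV.main Pool.Agent.K7.H42.PT.mq)
  have hX := Pool.Agent.K7.H23.PT.fi han
    (Pool.Agent.K7.H23.PT.bx Pool.Agent.K7.H89.CL.stCL Pool.Agent.K7.H23.AT.sf)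
    (Pool.Agent.K7.H63.TO.stTO hpc Pool.Agent.K7.H23.AT.sf) Pool.Agent.K7.H90.DE.stDE
  obtain ⟨M1, h1⟩ := Pool.Agent.K7.H90.RD.rd_both hX
  obtain ⟨M3, h3⟩ := split_case
  refine ⟨M0 + M1 + M3, fun f hdeg hsep => ?_⟩
  have hmono : ∀ a b : ℕ, a ≤ b → Exc f b ⊆ Exc f a := by
    intro a b hab D hD
    obtain ⟨hD0, x, y, h3, h4⟩ := hD
    exact ⟨hD0, x, y, h3, lt_of_le_of_lt (pow_le_pow_right₀ (Int.one_le_abs hD0) hab) h4⟩
  have hmono2 : ∀ a b : ℕ, a ≤ b → Exc2 f b ⊆ Exc2 f a := by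
    intro a b hab D hD
    obtain ⟨hD0, x, y, h3, h4⟩ := hD
    exact ⟨hD0, x, y, h3, lt_of_le_of_lt (pow_le_pow_right₀ (Int.one_le_abs hD0) hab) h4⟩
  have hlift : ∀ M : ℕ, M ≤ M0 + M1 + M3 → Dens0 (Exc f M) ∧ Dens0 (Exc2 f M) →
      Dens0 (Exc f (M0 + M1 + M3)) ∧ Dens0 (Exc2 f (M0 + M1 + M3)) := fun M hM h =>
    ⟨h.1.mono (hmono _ _ hM), h.2.mono (hmono2 _ _ hM)⟩
  have hdq : (f.map (Int.castRingHom ℚ)).natDegree = 3 := by
    rw [natDegree_map_eq_of_injective (Int.castRingHom ℚ).injective_int, hdeg]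
  rcases roots_card hdq with hr | hr | hr
  · have hirr : Irreducible (f.map (Int.castRingHom ℚ)) := by
      rw [irreducible_iff_roots_eq_zero_of_degree_le_three (by omega) (by omega)]
      exact Multiset.card_eq_zero.1 hr
    obtain ⟨k1, k2⟩ := h0 f hdeg hsep (Or.inr hirr)
    exact hlift M0 (by omega) ⟨k1 (by decide), k2⟩
  · exact hlift M1 (by omega) (h1 f hdeg hsep hr)
  · exact hlift M3 (by omega) (h3 f hdeg hsep hr)

end Pool.Agent.H64.FT
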