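import Mathlib
import Pool.Graph.R_pool_sql_team_seeded_35f281b4.K7.H90.DE.A
import Pool.Graph.R_pool_sql_team_seeded_35f281b4.K7.H23.PT.Stm
import Pool.Graph.R_pool_sql_team_seeded_35f281b4.K7.H23.AT.Fin
import Pool.Graph.R_pool_sql_team_seeded_35f281b4.K7.H89.BS.B

/-!
# Products of two quadratic polynomials
-/

set_option autoImplicit false

open Polynomial

namespace Pool.Agent.H64.FT

open Pool.Agent.K7.H23.AT Pool.Agent.K7.H23.PT

open scoped Classical in
/-- the sum of the reciprocals of the primes up to `z` with the property `A` -/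
noncomputable def rs (A : ℕ → Prop) (z : ℕ) : ℝ :=
  ∑ p ∈ (Finset.range (z + 1)).filter (fun p => p.Prime ∧ A p), (1 : ℝ) / p

/-- `Δ` is not a square modulo `p` -/
def Ns (Δ : ℤ) (p : ℕ) : Prop := ¬ IsSquare ((Δ : ℤ) : ZMod p)

lemma rs_eq (A : ℕ → Prop) (z : ℕ) [DecidablePred A] : rs A z =
    ∑ p ∈ Finset.range (z + 1), if p.Prime then (if A p then (1 : ℝ) / p else 0) else 0 := by
  classical
  unfold rs
  rw [Finset.sum_filter]
  refine Finset.sum_congr rfl fun p _ => ?_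
  by_cases h1 : p.Prime <;> by_cases h2 : A p <;> simp [h1, h2]

/-- the product of a nonsquare and a nonzero square is not a square -/
lemma ns_mul {p : ℕ} (hp : p.Prime) {a b : ℤ} (ha : Ns a p) (hb : ¬ Ns b p)
    (hb0 : ¬ (p : ℤ) ∣ b) : Ns (a * b) p := by
  have : Fact p.Prime := ⟨hp⟩
  unfold Ns at ha hb ⊢
  push Not at hb
  intro h
  apply ha
  obtain ⟨r, hr⟩ := hb
  obtain ⟨s, hs⟩ := h
  have hr0 : r ≠ 0 := by
    rintro rfl
    apply hb0
    rw [← ZMod.intCast_zmod_eq_zero_iff_dvd] 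
    simpa using hr
  push_cast at hs
  rw [hr] at hs
  refine ⟨s / r, ?_⟩
  field_simp
  linear_combination hs

lemma rs_both (mq : StMQ) {Δ₁ Δ₂ : ℤ} (h1 : ¬ IsSquare Δ₁) (h2 : ¬ IsSquare Δ₂) :
    ∃ C : ℝ, ∀ z : ℕ, 2 ≤ z →
      Real.log (Real.log z) / 4 - C ≤ rs (fun p => Ns Δ₁ p ∧ Ns Δ₂ p) z := by
  classical
  have hz1 : Δ₁ ≠ 0 := by
    rintro rfl
    exact h1 (IsSquare.zero)
  have hz2 : Δ₂ ≠ 0 := by
    rintro rfl
    exact h2 (IsSquare.zero)
  have hz : Δ₁ * Δ₂ ≠ 0 := mul_ne_zero hz1 hz2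
  obtain ⟨C1, hC1⟩ := mq Δ₁ h1
  obtain ⟨C2, hC2⟩ := mq Δ₂ h2
  -- the primes which divide the discriminants
  have hbad : ∀ z, rs (fun p => (p : ℤ) ∣ Δ₁ * Δ₂) z ≤ ((Δ₁ * Δ₂).natAbs.primeFactors.card : ℝ) := by
    intro z
    unfold rs
    calc _ ≤ ∑ p ∈ (Δ₁ * Δ₂).natAbs.primeFactors, (1 : ℝ) / p := by
          apply Finset.sum_le_sum_of_subset_of_nonneg
          · intro p hp
            simp only [Finset.mem_filter] at hp
            exact Nat.mem_primeFactors.2 ⟨hp.2.1, Int.natCast_dvd.1 hp.2.2, Int.natAbs_ne_zero.2 hz⟩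
          · intro p _ _
            positivity
      _ ≤ ∑ p ∈ (Δ₁ * Δ₂).natAbs.primeFactors, (1 : ℝ) := by
          refine Finset.sum_le_sum fun p hp => ?_
          have : (1 : ℝ) ≤ p := by exact_mod_cast (Nat.prime_of_mem_primeFactors hp).one_lt.le
          rw [div_le_one (by linarith)]
          exact this
      _ = _ := by simp
  by_cases h3 : IsSquare (Δ₁ * Δ₂)
  · refine ⟨C1 + (Δ₁ * Δ₂).natAbs.primeFactors.card + |Real.log (Real.log 2)|, fun z hz' => ?_⟩
    have h4 : rs (Ns Δ₁) z ≤ rs (fun p => Ns Δ₁ p ∧ Ns Δ₂ p) z + rs (fun p => (p : ℤ) ∣ Δ₁ * Δ₂) z := by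
      rw [rs_eq, rs_eq, rs_eq, ← Finset.sum_add_distrib]
      refine Finset.sum_le_sum fun p _ => ?_
      by_cases hp : p.Prime
      · simp only [hp, if_true]
        have hpos : (0 : ℝ) ≤ 1 / p := by positivity
        by_cases hN1 : Ns Δ₁ p
        · by_cases hN2 : Ns Δ₂ p
          · simp only [hN1, hN2, and_self, if_true]
            split_ifs <;> linarith
          · by_cases hd : (p : ℤ) ∣ Δ₁ * Δ₂
            · simp only [hN1, hd, if_true]
              split_ifs <;> linarith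
            · exfalso
              have h5 : ¬ (p : ℤ) ∣ Δ₂ := fun h => hd (h.mul_left _)
              exact ns_mul hp hN1 hN2 h5 (h3.map (Int.castRingHom (ZMod p)))
        · simp only [hN1, if_false, false_and]
          split_ifs <;> linarith
      · simp only [hp, if_false]
        norm_num
    have h5 := (hC1 z hz').2
    have h6 := hbad z
    rw [abs_le] at h5
    have h7 : rs (Ns Δ₁) z = ∑ p ∈ (Finset.range (z + 1)).filter
        (fun p => p.Prime ∧ ¬ IsSquare ((Δ₁ : ℤ) : ZMod p)), (1 : ℝ) / p := by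
      unfold rs Ns
      refine Finset.sum_congr ?_ fun _ _ => rfl
      ext p
      simp only [Finset.mem_filter]
    rw [← h7] at h5
    have h8 : -|Real.log (Real.log 2)| ≤ Real.log (Real.log z) := by
      have h9 : Real.log (Real.log 2) ≤ Real.log (Real.log z) := by
        apply Real.log_le_log (Real.log_pos (by norm_num))
        apply Real.log_le_log (by norm_num)
        exact_mod_cast hz'
      linarith [neg_abs_le (Real.log (Real.log 2))]
    have h9 := h5.1
    have h10 := abs_nonneg (Real.log (Real.log 2))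
    linarith
  · obtain ⟨C3, hC3⟩ := mq _ h3
    refine ⟨C1 + C2 + C3 + (Δ₁ * Δ₂).natAbs.primeFactors.card, fun z hz' => ?_⟩
    have h4 : rs (Ns Δ₁) z + rs (Ns Δ₂) z ≤ 2 * rs (fun p => Ns Δ₁ p ∧ Ns Δ₂ p) z +
        rs (Ns (Δ₁ * Δ₂)) z + rs (fun p => (p : ℤ) ∣ Δ₁ * Δ₂) z := by
      rw [rs_eq, rs_eq, rs_eq, rs_eq, rs_eq, Finset.mul_sum, ← Finset.sum_add_distrib,
        ← Finset.sum_add_distrib, ← Finset.sum_add_distrib]
      refine Finset.sum_le_sum fun p _ => ?_
      by_cases hp : p.Prime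
      · simp only [hp, if_true]
        have hpos : (0 : ℝ) ≤ 1 / p := by positivity
        by_cases hd : (p : ℤ) ∣ Δ₁ * Δ₂
        · simp only [hd, if_true]
          have : Fact p.Prime := ⟨hp⟩
          have h6 : ¬ Ns Δ₁ p ∨ ¬ Ns Δ₂ p := by
            rcases (Nat.prime_iff_prime_int.1 hp).dvd_or_dvd hd with h | h
            · left
              unfold Ns
              rw [not_not, (ZMod.intCast_zmod_eq_zero_iff_dvd _ _).2 h]
              exact IsSquare.zero
            · right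
              unfold Ns
              rw [not_not, (ZMod.intCast_zmod_eq_zero_iff_dvd _ _).2 h]
              exact IsSquare.zero
          rcases h6 with h | h
          · simp only [h, if_false, false_and]
            split_ifs <;> linarith
          · simp only [h, if_false, and_false]
            split_ifs <;> linarith
        · have hd1 : ¬ (p : ℤ) ∣ Δ₁ := fun h => hd (h.mul_right _)
          have hd2 : ¬ (p : ℤ) ∣ Δ₂ := fun h => hd (h.mul_left _)
          by_cases hN1 : Ns Δ₁ p <;> by_cases hN2 : Ns Δ₂ p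
          · simp only [hN1, hN2, and_self, if_true, hd, if_false]
            split_ifs <;> linarith
          · have h7 : Ns (Δ₁ * Δ₂) p := ns_mul hp hN1 hN2 hd2
            simp only [hN1, hN2, h7, and_false, if_true, if_false, hd]
            linarith
          · have h7 : Ns (Δ₁ * Δ₂) p := by
              rw [mul_comm]
              exact ns_mul hp hN2 hN1 hd1
            simp only [hN1, hN2, h7, false_and, if_true, if_false, hd]
            linarith
          · simp only [hN1, hN2, and_self, if_false, hd]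
            split_ifs <;> linarith
      · simp only [hp, if_false]
        norm_num
    have h5 := (hC1 z hz').2
    have h6 := (hC2 z hz').2
    have h7 := (hC3 z hz').2
    have h8 := hbad z
    rw [abs_le] at h5 h6 h7
    have e : ∀ Δ : ℤ, rs (Ns Δ) z = ∑ p ∈ (Finset.range (z + 1)).filter
        (fun p => p.Prime ∧ ¬ IsSquare ((Δ : ℤ) : ZMod p)), (1 : ℝ) / p := by
      intro Δ
      unfold rs Ns
      refine Finset.sum_congr ?_ fun _ _ => rfl
      ext p
      simp only [Finset.mem_filter]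
    rw [← e] at h5 h6 h7
    have h9 := h5.1
    have h10 := h6.1
    have h11 := h7.2
    have h12 : (0 : ℝ) ≤ ((Δ₁ * Δ₂).natAbs.primeFactors.card : ℝ) := by positivity
    have h13 : 0 ≤ C1 := le_trans (abs_nonneg _) (hC1 z hz').2
    have h14 : 0 ≤ C2 := le_trans (abs_nonneg _) (hC2 z hz').2
    have h15 : 0 ≤ C3 := le_trans (abs_nonneg _) (hC3 z hz').2
    linarith

open Filter in
/-- the sum of the reciprocals of the primes modulo which both numbers are nonsquares diverges -/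
lemma both_div (mq : StMQ) {Δ₁ Δ₂ : ℤ} (h1 : ¬ IsSquare Δ₁) (h2 : ¬ IsSquare Δ₂) (K : ℕ) (B : ℝ) :
    ∃ P : Finset ℕ, (∀ p ∈ P, p.Prime ∧ (Ns Δ₁ p ∧ Ns Δ₂ p) ∧ K < p) ∧
      B ≤ ∑ p ∈ P, (1 : ℝ) / p := by
  classical
  obtain ⟨C, hC⟩ := rs_both mq h1 h2
  have hlim : Tendsto (fun z : ℕ => Real.log (Real.log z) / 4 - C) atTop atTop := by
    apply tendsto_atTop_add_const_right
    apply Tendsto.atTop_div_const (by norm_num)
    exact Real.tendsto_log_atTop.comp (Real.tendsto_log_atTop.comp tendsto_natCast_atTop_atTop)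
  obtain ⟨z, hz, hz2⟩ := ((hlim.eventually_ge_atTop (B + (K + 1))).and (eventually_ge_atTop 2)).exists
  refine ⟨((Finset.range (z + 1)).filter fun p => p.Prime ∧ (Ns Δ₁ p ∧ Ns Δ₂ p)).filter
    fun p => K < p, ?_, ?_⟩
  · intro p hp
    rw [Finset.mem_filter, Finset.mem_filter] at hp
    exact ⟨hp.1.2.1, hp.1.2.2, hp.2⟩
  · have h3 := hC z hz2
    have e3 : rs (fun p => Ns Δ₁ p ∧ Ns Δ₂ p) z =
        (∑ p ∈ ((Finset.range (z + 1)).filter fun p => p.Prime ∧ (Ns Δ₁ p ∧ Ns Δ₂ p)).filter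
          (fun p => K < p), (1 : ℝ) / p) +
        ∑ p ∈ ((Finset.range (z + 1)).filter fun p => p.Prime ∧ (Ns Δ₁ p ∧ Ns Δ₂ p)).filter
          (fun p => ¬ K < p), (1 : ℝ) / p := by
      unfold rs
      rw [Finset.sum_filter_add_sum_filter_not _ (fun p => K < p)]
      refine Finset.sum_congr ?_ fun _ _ => rfl
      ext p
      simp only [Finset.mem_filter]
    have e4 : ∑ p ∈ ((Finset.range (z + 1)).filter fun p => p.Prime ∧ (Ns Δ₁ p ∧ Ns Δ₂ p)).filter
        (fun p => ¬ K < p), (1 : ℝ) / p ≤ K + 1 := by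
      calc _ ≤ ∑ p ∈ ((Finset.range (z + 1)).filter fun p => p.Prime ∧ (Ns Δ₁ p ∧ Ns Δ₂ p)).filter
            (fun p => ¬ K < p), (1 : ℝ) := by
            refine Finset.sum_le_sum fun p hp => ?_
            rw [Finset.mem_filter, Finset.mem_filter] at hp
            have : (1 : ℝ) ≤ p := by exact_mod_cast hp.1.2.1.one_lt.le
            rw [div_le_one (by linarith)]
            exact this
        _ = ((((Finset.range (z + 1)).filter fun p => p.Prime ∧ (Ns Δ₁ p ∧ Ns Δ₂ p)).filter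
              (fun p => ¬ K < p)).card : ℝ) := by simp
        _ ≤ ((Finset.range (K + 1)).card : ℝ) := by
            have h5 : ((Finset.range (z + 1)).filter fun p => p.Prime ∧
                (Ns Δ₁ p ∧ Ns Δ₂ p)).filter (fun p => ¬ K < p) ⊆ Finset.range (K + 1) := by
              intro p hp
              rw [Finset.mem_filter] at hp
              rw [Finset.mem_range]
              omega
            exact_mod_cast Finset.card_le_card h5
        _ = K + 1 := by simp
    linarith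

/-- if `Δ = a² - 4 b` is not a square modulo `p` then `p` divides no value of `x² + a x + b` -/
lemma not_dvd_quad {a b : ℤ} {p : ℕ} (hp : p.Prime) (h : Ns (a ^ 2 - 4 * b) p) (x : ℤ) :
    ¬ (p : ℤ) ∣ x ^ 2 + a * x + b := by
  intro hd
  apply h
  have : Fact p.Prime := ⟨hp⟩
  have h1 : ((x ^ 2 + a * x + b : ℤ) : ZMod p) = 0 := (ZMod.intCast_zmod_eq_zero_iff_dvd _ _).2 hd
  refine ⟨((2 * x + a : ℤ) : ZMod p), ?_⟩
  push_cast at h1 ⊢
  linear_combination -4 * h1

/-- **Products of two irreducible quadratic polynomials.** -/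
theorem case22 (mq : StMQ) {a b c d : ℤ} (h1 : ¬ IsSquare (a ^ 2 - 4 * b))
    (h2 : ¬ IsSquare (c ^ 2 - 4 * d)) (M : ℕ) :
    Dens0 (Exc2 ((X ^ 2 + C a * X + C b) * (X ^ 2 + C c * X + C d)) M) := by
  classical
  intro ε hε
  obtain ⟨K, hK⟩ := exists_nat_ge (4 / ε)
  obtain ⟨N₀, hN₀⟩ := Pool.Agent.K7.H90.DE.sieve
    (fun p => Ns (a ^ 2 - 4 * b) p ∧ Ns (c ^ 2 - 4 * d) p) (K + 1)
    (both_div mq h1 h2 (K + 1)) (ε := ε / 4) (by positivity)
  refine ⟨N₀, fun N hN => ?_⟩
  set A1 : Set ℤ := {D : ℤ | D ≠ 0 ∧ |D| ≤ N ∧ ∃ s : ℕ, K + 1 < s ∧ (s : ℤ) ^ 2 ∣ D} with hA1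
  set A2 : Set ℕ := {D : ℕ | 1 ≤ D ∧ D ≤ N ∧ ∀ p : ℕ, p.Prime → p ∣ D → K + 1 < p →
    ¬ (Ns (a ^ 2 - 4 * b) p ∧ Ns (c ^ 2 - 4 * d) p)} with hA2
  have hfin2 : A2.Finite := (Set.finite_Icc 1 N).subset fun D hD => ⟨hD.1, hD.2.1⟩
  have hsub : {D : ℤ | D ∈ Exc2 ((X ^ 2 + C a * X + C b) * (X ^ 2 + C c * X + C d)) M ∧ |D| ≤ N} ⊆
      A1 ∪ ((fun n : ℕ => (n : ℤ)) '' A2 ∪ (fun n : ℕ => -(n : ℤ)) '' A2) := by
    rintro D ⟨⟨hD0, x, y, hy, -⟩, hDN⟩
    by_cases hs : ∃ s : ℕ, K + 1 < s ∧ (s : ℤ) ^ 2 ∣ D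
    · exact Or.inl ⟨hD0, hDN, hs⟩
    · right
      push Not at hs
      have hmem : D.natAbs ∈ A2 := by
        refine ⟨Int.natAbs_pos.2 hD0, by rw [Int.abs_eq_natAbs] at hDN; omega,
          fun p hp hpD hKp hns => ?_⟩
        have hpi := Nat.prime_iff_prime_int.1 hp
        have hpD' : (p : ℤ) ∣ D := Int.natCast_dvd.2 hpD
        have hev : ((X ^ 2 + C a * X + C b) * (X ^ 2 + C c * X + C d) : ℤ[X]).eval x =
            (x ^ 2 + a * x + b) * (x ^ 2 + c * x + d) := by simp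
        rw [hev] at hy
        have hpy : (p : ℤ) ∣ y := hpi.dvd_of_dvd_pow (n := 2) (by rw [hy]; exact hpD'.mul_right _)
        have hpy2 : (p : ℤ) ^ 2 ∣ D * ((x ^ 2 + a * x + b) * (x ^ 2 + c * x + d)) := by
          rw [← hy]
          exact pow_dvd_pow_of_dvd hpy 2
        have hndvd : ¬ (p : ℤ) ∣ (x ^ 2 + a * x + b) * (x ^ 2 + c * x + d) := by
          intro h
          rcases hpi.dvd_or_dvd h with h | h
          · exact not_dvd_quad hp hns.1 x h
          · exact not_dvd_quad hp hns.2 x h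
        have hcop : IsCoprime ((p : ℤ) ^ 2) ((x ^ 2 + a * x + b) * (x ^ 2 + c * x + d)) :=
          ((hpi.coprime_iff_not_dvd).2 hndvd).pow_left
        exact hs p hKp (hcop.dvd_of_dvd_mul_right hpy2)
      rcases Int.natAbs_eq D with h | h
      · left; exact ⟨_, hmem, h.symm⟩
      · right; exact ⟨_, hmem, h.symm⟩
  have hfinA1 : A1.Finite :=
    (Set.finite_Icc (-(N : ℤ)) N).subset fun D hD => abs_le.1 hD.2.1
  have hfinU : (A1 ∪ ((fun n : ℕ => (n : ℤ)) '' A2 ∪ (fun n : ℕ => -(n : ℤ)) '' A2)).Finite :=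
    hfinA1.union ((hfin2.image _).union (hfin2.image _))
  have h3 := Set.ncard_le_ncard hsub hfinU
  have h4 := Set.ncard_union_le A1 ((fun n : ℕ => (n : ℤ)) '' A2 ∪ (fun n : ℕ => -(n : ℤ)) '' A2)
  have h5 := Set.ncard_union_le ((fun n : ℕ => (n : ℤ)) '' A2) ((fun n : ℕ => -(n : ℤ)) '' A2)
  have h6 := Set.ncard_image_le (f := fun n : ℕ => (n : ℤ)) hfin2
  have h7 := Set.ncard_image_le (f := fun n : ℕ => -(n : ℤ)) hfin2
  have h8 := hN₀ N hN
  have h9 := Pool.Agent.K7.H89.BS.card_large_sq (K + 1) (by omega) N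
  have h10 : (Set.ncard {D : ℤ | D ∈ Exc2 ((X ^ 2 + C a * X + C b) * (X ^ 2 + C c * X + C d)) M ∧
      |D| ≤ N} : ℝ) ≤ A1.ncard + (A2.ncard + A2.ncard) := by
    have : Set.ncard {D : ℤ | D ∈ Exc2 ((X ^ 2 + C a * X + C b) * (X ^ 2 + C c * X + C d)) M ∧
      |D| ≤ N} ≤ A1.ncard + (A2.ncard + A2.ncard) := by omega
    exact_mod_cast this
  have h11 : 2 * (N : ℝ) / ((K + 1 : ℕ) : ℝ) ≤ ε / 2 * N := by
    rw [div_le_iff₀ (by positivity)]
    have h12 : 4 ≤ ε * K := by
      rw [div_le_iff₀ hε] at hK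
      linarith
    push_cast
    have hN0 : (0 : ℝ) ≤ N := by positivity
    nlinarith [mul_nonneg hε.le hN0, mul_le_mul_of_nonneg_right h12 hN0]
  linarith

end Pool.Agent.H64.FT
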