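import Mathlib
import Pool.Graph.R_pool_sql_team_seeded_35f281b4.K7.H23.AT.Stm2
import Pool.Graph.R_pool_sql_team_seeded_35f281b4.K7.H89.BS.A

/-!
# Points in the classes of two factors
-/

set_option autoImplicit false

open Polynomial

namespace Pool.Agent.H64.FT

open Pool.Agent.K7.H23.AT

lemma coeff_bd (g : ℤ[X]) : ∃ A : ℕ, ∀ i, |g.coeff i| ≤ A := by
  refine ⟨∑ i ∈ g.support, (g.coeff i).natAbs, fun i => ?_⟩
  by_cases hi : i ∈ g.support
  · have h1 := Finset.single_le_sum (f := fun i => (g.coeff i).natAbs) (fun _ _ => Nat.zero_le _) hi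
    rw [Int.abs_eq_natAbs]
    exact_mod_cast h1
  · rw [notMem_support_iff.1 hi, abs_zero]
    positivity

/-- the number of the large `x` such that the product of the squarefree parts of the values of two
factors of total degree three is at most `Y` -/
theorem cnt (hPC : StPC) (hSF : StSF) : ∃ M0 : ℕ, ∀ F : Fin 2 → ℤ[X], (∀ i, (F i).Monic) →
    (∀ i, Irreducible (F i)) → Function.Injective F → (∏ i, F i).natDegree = 3 →
    ((∏ i, F i).map (Int.castRingHom ℚ)).Separable → ∃ c N0 : ℕ, ∀ N Y : ℕ, N0 ≤ N → 1 ≤ Y →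
    Y ≤ N → ∀ P : Finset ℤ, (∀ x ∈ P, (N : ℤ) ^ (M0 + 1) < |x| ∧ ∃ g y : Fin 2 → ℤ,
      (∀ i, Squarefree (g i)) ∧ (∀ i, y i ≠ 0) ∧ (∀ i, (F i).eval x = g i * y i ^ 2) ∧
      ∏ i, |g i| ≤ Y) → P.card ≤ c * (Y * (Nat.log 2 Y + 1) ^ 2) := by
  classical
  obtain ⟨M0, Nn, hMN⟩ := hSF 3 le_rfl
  refine ⟨M0, fun F hFm hFi hinj hdeg hsep => ?_⟩
  obtain ⟨c, hc⟩ := hPC 2 F hFm hFi hinj
  obtain ⟨A, hA⟩ := coeff_bd (∏ i, F i)
  obtain ⟨C1, hC1⟩ : ∃ C1, C1 = 1 + c + A := ⟨_, rfl⟩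
  refine ⟨c * Nn, (2 * C1) ^ M0 + 1, fun N Y hN hY hYN P hP => ?_⟩
  obtain ⟨S, hS1, hS2, hS3⟩ := hc Y hY
  set H := C1 * N with hH
  have hN1 : 1 ≤ N := by omega
  have hH1 : 1 ≤ H := Nat.mul_pos (by omega) hN1
  have hpow : (2 * H : ℤ) ^ M0 ≤ (N : ℤ) ^ (M0 + 1) := by
    have h1 : (2 * H) ^ M0 ≤ N ^ (M0 + 1) := by
      calc (2 * H) ^ M0 = (2 * C1) ^ M0 * N ^ M0 := by rw [hH, ← mul_assoc, mul_pow]
        _ ≤ N * N ^ M0 := Nat.mul_le_mul_right _ (by omega)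
        _ = N ^ (M0 + 1) := by ring
    exact_mod_cast h1
  have hcl : ∀ x : ℤ, ∃ E : ℚ[X], x ∈ P → E ∈ S ∧ ∃ B : ℚ[X],
      (∏ i, F i).map (Int.castRingHom ℚ) ∣ B ^ 2 - E * (C (x : ℚ) - C ((1 : ℤ) : ℚ) * X) := by
    intro x
    by_cases hx : x ∈ P
    · obtain ⟨-, g, y, h1, h2, h3, h4⟩ := hP x hx
      obtain ⟨E, hE, B, hB⟩ := hS3 x 1 g y one_ne_zero isCoprime_one_right h1 h4 h2
        (fun i => by rw [scaleRoots_one]; exact h3 i)
      exact ⟨E, fun _ => ⟨hE, B, hB⟩⟩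
    · exact ⟨0, fun h => absurd h hx⟩
  choose E hE using hcl
  have hfib : ∀ e ∈ S, (P.filter fun x => E x = e).card ≤ Nn := by
    intro e he
    have h1 := hMN H (∏ i, F i) e ((P.filter fun x => E x = e).image fun x => (x, (1 : ℤ))) hH1
      (monic_prod_of_monic _ _ fun i _ => hFm i) hdeg hsep
      (fun i => (hA i).trans (by
        have : A ≤ H := le_trans (by omega) (Nat.le_mul_of_pos_right C1 hN1)
        exact_mod_cast this))
      (fun θ hθ => by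
        obtain ⟨k1, k2, k3⟩ := hS2 e he θ hθ
        refine ⟨k1, k2, k3.trans ?_⟩
        have : c * Y ≤ H := by
          calc c * Y ≤ c * N := Nat.mul_le_mul_left _ hYN
            _ ≤ C1 * N := Nat.mul_le_mul_right _ (by omega)
        exact_mod_cast this)
      (by
        intro p hp
        obtain ⟨x, hx, rfl⟩ := Finset.mem_image.1 hp
        obtain ⟨hxP, hxe⟩ := Finset.mem_filter.1 hx
        obtain ⟨hx1, -⟩ := hP x hxP
        obtain ⟨-, B, hB⟩ := hE x hxP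
        have hH1' : (1 : ℤ) ≤ H := by exact_mod_cast hH1
        refine ⟨one_pos, hH1', isCoprime_one_right, hpow.trans_lt hx1, 1,
          one_ne_zero, B, ?_⟩
        rw [Int.cast_one, C_1, one_mul, ← hxe]
        exact hB)
    rwa [Finset.card_image_of_injective _ (fun a b hab => (Prod.mk.inj hab).1)] at h1
  have h1 : P.card ≤ Nn * S.card :=
    Finset.card_le_mul_card_image_of_maps_to (fun x hx => (hE x hx).1) Nn hfib
  calc P.card ≤ Nn * S.card := h1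
    _ ≤ Nn * (c * Y * (Nat.log 2 Y + 1) ^ 2) := Nat.mul_le_mul_left _ hS1
    _ = _ := by ring

end Pool.Agent.H64.FT
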