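import Mathlib
import Pool.Agent.H64.FT.E1
import Pool.Agent.H64.FT.E2
import Pool.Graph.R_pool_sql_team_seeded_35f281b4.K7.H90.AS.A
import Pool.Graph.R_pool_sql_team_seeded_35f281b4.K7.H89.BS.E
import Pool.Graph.R_pool_sql_team_seeded_35f281b4.K7.H23.PT.BX

/-!
# Quartic polynomials with exactly two rational roots
-/

set_option autoImplicit false

open Polynomial

namespace Pool.Agent.H64.FT

open Pool.Agent.K7.H23.AT Pool.Agent.K7.H23.PT

/-- a product of different monic irreducible polynomials is separable -/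
lemma sep_prod {k : ℕ} (F : Fin k → ℤ[X]) (hm : ∀ i, (F i).Monic) (hi : ∀ i, Irreducible (F i))
    (hinj : Function.Injective F) : ((∏ i, F i).map (Int.castRingHom ℚ)).Separable := by
  rw [Polynomial.map_prod]
  apply Polynomial.separable_prod'
  · intro i _ j _ hij
    obtain ⟨R, a, b, hR, h⟩ := Pool.Agent.K7.H89.BS.exists_bezout (hm i) (hm j) (hi i) (hi j)
      (fun h => hij (hinj h))
    have h1 := congrArg (Polynomial.map (Int.castRingHom ℚ)) h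
    rw [Polynomial.map_add, Polynomial.map_mul, Polynomial.map_mul, map_C] at h1
    have hR' : (R : ℚ) ≠ 0 := by exact_mod_cast hR
    refine ⟨C (R : ℚ)⁻¹ * a.map (Int.castRingHom ℚ), C (R : ℚ)⁻¹ * b.map (Int.castRingHom ℚ), ?_⟩
    calc _ = C (R : ℚ)⁻¹ * (a.map (Int.castRingHom ℚ) * (F i).map (Int.castRingHom ℚ) +
          b.map (Int.castRingHom ℚ) * (F j).map (Int.castRingHom ℚ)) := by ring
      _ = C (R : ℚ)⁻¹ * C ((Int.castRingHom ℚ) R) := by rw [h1]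
      _ = 1 := by
        rw [← C_mul, eq_intCast, inv_mul_cancel₀ hR', C_1]
  · intro i _
    exact (((hm i).irreducible_iff_irreducible_map_fraction_map (K := ℚ)).1 (hi i)).separable

open Filter in
lemma root_asym (n : ℕ) (hn : 1 ≤ n) (C : ℝ) (hC : 0 ≤ C) : ∃ N0 : ℕ, ∀ N : ℕ, N0 ≤ N → ∀ T : ℕ,
    N < (T + 1) ^ n → C * ((Nat.log 2 N : ℝ) + 1) ^ 2 ≤ T := by
  have hn' : (0 : ℝ) < n := by exact_mod_cast hn
  set q : ℝ := 1 / (4 * n) with hq
  have hq0 : 0 < q := by positivity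
  have hlog2 : 0 < Real.log 2 := Real.log_pos (by norm_num)
  set K : ℝ := 1 / (q * Real.log 2) + 1 with hK
  have hK0 : 0 < K := by positivity
  have hlim : Tendsto (fun N : ℕ => (N : ℝ) ^ (2 * q)) atTop atTop :=
    (tendsto_rpow_atTop (by positivity)).comp tendsto_natCast_atTop_atTop
  obtain ⟨N0, h0⟩ := ((hlim.eventually_ge_atTop (C * K ^ 2 + 1)).and
    (eventually_ge_atTop 1)).exists_forall_of_atTop
  refine ⟨N0, fun N hN T hT => ?_⟩
  obtain ⟨h1, h2⟩ := h0 N hN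
  have hN1 : (1 : ℝ) ≤ N := by exact_mod_cast h2
  have hNq : (1 : ℝ) ≤ (N : ℝ) ^ q := Real.one_le_rpow hN1 hq0.le
  have h3 : (Nat.log 2 N : ℝ) ≤ Real.log N / Real.log 2 := by
    rw [le_div_iff₀ hlog2, ← Real.log_pow]
    apply Real.log_le_log (by positivity)
    exact_mod_cast Nat.pow_log_le_self 2 (by omega)
  have h4 : Real.log N ≤ (N : ℝ) ^ q / q := Real.log_le_rpow_div (by positivity) hq0
  have h5 : (Nat.log 2 N : ℝ) + 1 ≤ K * (N : ℝ) ^ q := by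
    have h6 : Real.log N / Real.log 2 ≤ (N : ℝ) ^ q / q / Real.log 2 :=
      div_le_div_of_nonneg_right h4 hlog2.le
    have h7 : (N : ℝ) ^ q / q / Real.log 2 = 1 / (q * Real.log 2) * (N : ℝ) ^ q := by
      field_simp
    rw [h7] at h6
    rw [hK, add_mul, one_mul]
    linarith
  have h6 : ((Nat.log 2 N : ℝ) + 1) ^ 2 ≤ K ^ 2 * (N : ℝ) ^ (2 * q) := by
    calc ((Nat.log 2 N : ℝ) + 1) ^ 2 ≤ (K * (N : ℝ) ^ q) ^ 2 :=
          pow_le_pow_left₀ (by positivity) h5 2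
      _ = K ^ 2 * (N : ℝ) ^ (2 * q) := by
          rw [mul_pow, ← Real.rpow_natCast ((N : ℝ) ^ q) 2, ← Real.rpow_mul (by positivity)]
          congr 2
          push_cast
          ring
  have h7 : (N : ℝ) ^ (4 * q) ≤ T + 1 := by
    have h8 : ((N : ℝ) ^ (4 * q)) ^ n ≤ ((T : ℝ) + 1) ^ n := by
      rw [← Real.rpow_natCast, ← Real.rpow_mul (by positivity)]
      have h9 : 4 * q * (n : ℝ) = 1 := by
        rw [hq]
        field_simp
      rw [h9, Real.rpow_one]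
      exact_mod_cast hT.le
    exact le_of_pow_le_pow_left₀ (by omega) (by positivity) h8
  have h8 : (N : ℝ) ^ (4 * q) = (N : ℝ) ^ (2 * q) * (N : ℝ) ^ (2 * q) := by
    rw [← Real.rpow_add (by linarith)]
    congr 1
    ring
  rw [h8] at h7
  have h9 : 0 < (N : ℝ) ^ (2 * q) := by positivity
  have h10 : (C * K ^ 2 + 1) * (N : ℝ) ^ (2 * q) ≤ (N : ℝ) ^ (2 * q) * (N : ℝ) ^ (2 * q) :=
    mul_le_mul_of_nonneg_right h1 h9.le
  have h11 : C * ((Nat.log 2 N : ℝ) + 1) ^ 2 ≤ C * (K ^ 2 * (N : ℝ) ^ (2 * q)) :=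
    mul_le_mul_of_nonneg_left h6 hC
  have h12 : (1 : ℝ) ≤ (N : ℝ) ^ (2 * q) := Real.one_le_rpow hN1 (by positivity)
  nlinarith


/-- the polynomials `X - e`, `X² + a X + b` -/
noncomputable def G2 (e a b : ℤ) : Fin 2 → ℤ[X] := ![X - C e, X ^ 2 + C a * X + C b]

/-- the polynomials `X - e₀`, `X - e₁`, `X² + a X + b` -/
noncomputable def G3 (e₀ e₁ a b : ℤ) : Fin 3 → ℤ[X] := ![X - C e₀, X - C e₁, X ^ 2 + C a * X + C b]

lemma ne_lin_quad (e a b : ℤ) : (X - C e : ℤ[X]) ≠ X ^ 2 + C a * X + C b := by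
  intro h
  have h1 := congrArg natDegree h
  rw [natDegree_X_sub_C, quad_deg] at h1
  omega

lemma G2_monic (e a b : ℤ) : ∀ i, (G2 e a b i).Monic := by
  intro i
  fin_cases i
  · exact monic_X_sub_C e
  · exact quad_monic a b

lemma G2_irr (e : ℤ) {a b : ℤ} (h : ¬ IsSquare (a ^ 2 - 4 * b)) : ∀ i, Irreducible (G2 e a b i) := by
  intro i
  fin_cases i
  · exact irreducible_X_sub_C e
  · exact quad_irr h

lemma G2_inj (e a b : ℤ) : Function.Injective (G2 e a b) := by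
  intro i j hij
  fin_cases i <;> fin_cases j
  · rfl
  · exact absurd hij (ne_lin_quad e a b)
  · exact absurd hij.symm (ne_lin_quad e a b)
  · rfl

lemma G2_deg (e a b : ℤ) : (∏ i, G2 e a b i).natDegree = 3 := by
  rw [Fin.prod_univ_two]
  change ((X - C e) * (X ^ 2 + C a * X + C b) : ℤ[X]).natDegree = 3
  rw [(monic_X_sub_C e).natDegree_mul (quad_monic a b), natDegree_X_sub_C, quad_deg]

lemma G3_monic (e₀ e₁ a b : ℤ) : ∀ i, (G3 e₀ e₁ a b i).Monic := by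
  intro i
  fin_cases i
  · exact monic_X_sub_C e₀
  · exact monic_X_sub_C e₁
  · exact quad_monic a b

lemma G3_irr (e₀ e₁ : ℤ) {a b : ℤ} (h : ¬ IsSquare (a ^ 2 - 4 * b)) :
    ∀ i, Irreducible (G3 e₀ e₁ a b i) := by
  intro i
  fin_cases i
  · exact irreducible_X_sub_C e₀
  · exact irreducible_X_sub_C e₁
  · exact quad_irr h

lemma G3_inj {e₀ e₁ : ℤ} (he : e₀ ≠ e₁) (a b : ℤ) : Function.Injective (G3 e₀ e₁ a b) := by
  have h01 : (X - C e₀ : ℤ[X]) ≠ X - C e₁ := by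
    intro h
    apply he
    have h1 : (C e₀ : ℤ[X]) = C e₁ := by linear_combination -h
    exact C_injective h1
  intro i j hij
  fin_cases i <;> fin_cases j
  · rfl
  · exact absurd hij h01
  · exact absurd hij (ne_lin_quad e₀ a b)
  · exact absurd hij.symm h01
  · rfl
  · exact absurd hij (ne_lin_quad e₁ a b)
  · exact absurd hij.symm (ne_lin_quad e₀ a b)
  · exact absurd hij.symm (ne_lin_quad e₁ a b)
  · rfl

/-- a condition of `cnt` -/
def Pc (M0 N Y : ℕ) (e a b x : ℤ) : Prop := (N : ℤ) ^ (M0 + 1) < |x| ∧ ∃ g y : Fin 2 → ℤ,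
      (∀ i, Squarefree (g i)) ∧ (∀ i, y i ≠ 0) ∧ (∀ i, (G2 e a b i).eval x = g i * y i ^ 2) ∧
      ∏ i, |g i| ≤ Y

lemma Pc_mk {M0 N Y : ℕ} {e a b x c t c' t' : ℤ} (hx : (N : ℤ) ^ (M0 + 1) < |x|)
    (hc : Squarefree c) (hc' : Squarefree c') (ht : t ≠ 0) (ht' : t' ≠ 0)
    (h : x - e = c * t ^ 2) (h' : x ^ 2 + a * x + b = c' * t' ^ 2) (hY : |c| * |c'| ≤ Y) :
    Pc M0 N Y e a b x := by
  refine ⟨hx, ![c, c'], ![t, t'], ?_, ?_, ?_, ?_⟩
  · intro i; fin_cases i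
    · exact hc
    · exact hc'
  · intro i; fin_cases i
    · exact ht
    · exact ht'
  · intro i; fin_cases i
    · simpa [G2] using h
    · simpa [G2] using h'
  · rw [Fin.prod_univ_two]
    exact hY

/-- a large prime factor of `D` saves a factor in one of the two linear factors -/
lemma save {e₀ e₁ a b : ℤ} {R N T M0 : ℕ} {x h t c₀ c₁ c₂ t₀ t₁ t₂ : ℤ} {p : ℕ} (hp : p.Prime)
    (hns : Ns (a ^ 2 - 4 * b) p) (hph : (p : ℤ) ∣ h) (hT : 1 ≤ T) (hTp : T ≤ p)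
    (hx : (N : ℤ) ^ (M0 + 1) < |x|)
    (s : Squarefree h) (s₀ : Squarefree c₀) (s₁ : Squarefree c₁) (s₂ : Squarefree c₂)
    (z : t ≠ 0) (z₀ : t₀ ≠ 0) (z₁ : t₁ ≠ 0) (z₂ : t₂ ≠ 0)
    (k₀ : x - e₀ = c₀ * t₀ ^ 2) (k₁ : x - e₁ = c₁ * t₁ ^ 2) (k₂ : x ^ 2 + a * x + b = c₂ * t₂ ^ 2)
    (k : (x - e₀) * (x - e₁) * (x ^ 2 + a * x + b) = h * t ^ 2)
    (hb : |c₀| * |c₁| * |c₂| ≤ (R : ℤ) ^ 3 * N) :
    Pc M0 N (R ^ 3 * N / T) e₀ a b x ∨ Pc M0 N (R ^ 3 * N / T) e₁ a b x := by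
  have hp2 : ¬ (p : ℤ) ∣ c₂ := by
    intro h2
    apply not_dvd_quad hp hns x
    rw [k₂]
    exact h2.mul_right _
  have hpi := Nat.prime_iff_prime_int.1 hp
  -- the product of the squarefree parts is a square
  have hsq : ∃ w : ℤ, h * (c₀ * c₁) * c₂ = w ^ 2 := by
    have h1 : t ^ 2 * (h * (c₀ * c₁) * c₂) = (c₀ * c₁ * c₂ * t₀ * t₁ * t₂) ^ 2 := by
      have h2 : h * t ^ 2 = (c₀ * t₀ ^ 2) * (c₁ * t₁ ^ 2) * (c₂ * t₂ ^ 2) := by
        rw [← k, k₀, k₁, k₂]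
      linear_combination (c₀ * c₁ * c₂) * h2
    have h2 : t ∣ c₀ * c₁ * c₂ * t₀ * t₁ * t₂ := by
      rw [← Int.pow_dvd_pow_iff (n := 2) (by norm_num), ← h1]
      exact dvd_mul_right _ _
    obtain ⟨w, hw⟩ := h2
    refine ⟨w, ?_⟩
    rw [hw, mul_pow] at h1
    exact mul_left_cancel₀ (pow_ne_zero 2 z) h1
  obtain ⟨w, hw⟩ := hsq
  have hTz : (0 : ℤ) < T := by exact_mod_cast hT
  have hpz : (0 : ℤ) < p := by exact_mod_cast hp.pos
  have key : ∀ c d : ℤ, d ≠ 0 → (p : ℤ) ∣ d → |d| * |c| * |c₂| ≤ (R : ℤ) ^ 3 * N →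
      |c| * |c₂| ≤ ((R ^ 3 * N / T : ℕ) : ℤ) := by
    intro c d hd0 hd hbd
    have h1 : (p : ℤ) ≤ |d| := Int.le_of_dvd (abs_pos.2 hd0) ((dvd_abs _ _).2 hd)
    have h2 : (T : ℤ) ≤ |d| := le_trans (by exact_mod_cast hTp) h1
    have h3 : (|c| * |c₂|) * T ≤ (R : ℤ) ^ 3 * N := by
      calc (|c| * |c₂|) * T ≤ (|c| * |c₂|) * |d| := mul_le_mul_of_nonneg_left h2 (by positivity)
        _ = |d| * |c| * |c₂| := by ring
        _ ≤ _ := hbd
    rw [Int.natCast_div, Int.le_ediv_iff_mul_le hTz]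
    push_cast
    exact h3
  rcases Pool.Agent.K7.H90.AS.tri s hw hp hph with h1 | h1
  · rcases hpi.dvd_or_dvd h1 with h2 | h2
    · right
      exact Pc_mk hx s₁ s₂ z₁ z₂ k₁ k₂ (key c₁ c₀ s₀.ne_zero h2 hb)
    · left
      exact Pc_mk hx s₀ s₂ z₀ z₂ k₀ k₂ (key c₀ c₁ s₁.ne_zero h2 (by linarith [mul_comm |c₁| |c₀|]))
  · exact absurd h1 hp2

end Pool.Agent.H64.FT
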