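import Mathlib
import Pool.Agent.H64.FT.E3
import Pool.Graph.R_pool_sql_team_seeded_35f281b4.K7.H89.BS.D

/-!
# Quartic polynomials with exactly two rational roots, main part
-/

set_option autoImplicit false

open Polynomial

namespace Pool.Agent.H64.FT

open Pool.Agent.K7.H23.AT Pool.Agent.K7.H23.PT Pool.Agent.K7.H89.BS

/-- the data of an exceptional `D` -/
lemma data211 {e₀ e₁ a b : ℤ} {R : ℕ} (hR : 1 ≤ R)
    (hR' : ∀ i j, i ≠ j → ∀ x m q : ℤ, IsCoprime x m → q ∣ ((G3 e₀ e₁ a b i).scaleRoots m).eval x →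
      q ∣ ((G3 e₀ e₁ a b j).scaleRoots m).eval x → q ∣ (R : ℤ))
    {B : ℤ} (hB : ∀ x m : ℤ, 0 < m → IsCoprime x m → B < |x| →
      ((∏ i, G3 e₀ e₁ a b i).scaleRoots m).eval x ≠ 0)
    {sf : ℤ → ℤ} (hsf : ∀ z : ℤ, z ≠ 0 → Squarefree (sf z) ∧ ∃ t : ℤ, t ≠ 0 ∧ z = sf z * t ^ 2)
    {M0 N T n S0 : ℕ} (hNB : B < (N : ℤ) ^ (M0 + 1)) (hT : 1 ≤ T) (hTn : T ^ n ≤ N) (hTS : S0 ≤ T)
    {D : ℤ} (hDN : |D| ≤ N) (hDN' : (N : ℤ) ≤ D ^ 2)
    (hD : D ∈ Exc2 ((X - C e₀) * (X - C e₁) * (X ^ 2 + C a * X + C b)) (2 * M0 + 2))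
    (hs : ∀ s : ℕ, S0 < s → ¬ (s : ℤ) ^ 2 ∣ D) (hbig : Big (a ^ 2 - 4 * b) n N D) :
    ∃ x v : ℤ, 1 ≤ v ∧ v ≤ S0 ∧
      D = sf (((X - C e₀) * (X - C e₁) * (X ^ 2 + C a * X + C b)).eval x) * v ^ 2 ∧
      (Pc M0 N (R ^ 3 * N / T) e₀ a b x ∨ Pc M0 N (R ^ 3 * N / T) e₁ a b x) := by
  obtain ⟨hD0, x, w, hw, hx0⟩ := hD
  have hprod : (∏ i, G3 e₀ e₁ a b i) = (X - C e₀) * (X - C e₁) * (X ^ 2 + C a * X + C b) := by
    rw [Fin.prod_univ_three]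
    rfl
  obtain ⟨v, -, hv1, hDv, hxbig, hne, hbd⟩ := point_dataG (G3 e₀ e₁ a b) rfl hR hR' hB hsf hNB hD0
    hDN hDN' (g := D) (m := 1) (mul_one D).symm one_pos isCoprime_one_right (w := w)
    (by rw [scaleRoots_one, hprod]; exact hw.symm) hx0
  simp only [scaleRoots_one] at hDv hne hbd
  rw [hprod, mul_one] at hDv
  have e0 : (G3 e₀ e₁ a b 0).eval x = x - e₀ := by simp [G3]
  have e1 : (G3 e₀ e₁ a b 1).eval x = x - e₁ := by simp [G3]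
  have e2 : (G3 e₀ e₁ a b 2).eval x = x ^ 2 + a * x + b := by simp [G3]
  have ev : ((X - C e₀) * (X - C e₁) * (X ^ 2 + C a * X + C b) : ℤ[X]).eval x =
      (x - e₀) * (x - e₁) * (x ^ 2 + a * x + b) := by simp
  have n0 : x - e₀ ≠ 0 := by rw [← e0]; exact hne 0
  have n1 : x - e₁ ≠ 0 := by rw [← e1]; exact hne 1
  have n2 : x ^ 2 + a * x + b ≠ 0 := by rw [← e2]; exact hne 2
  rw [Fin.prod_univ_three, e0, e1, e2, one_mul] at hbd
  rw [ev] at hDv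
  obtain ⟨s0, t0, z0, k0⟩ := hsf _ n0
  obtain ⟨s1, t1, z1, k1⟩ := hsf _ n1
  obtain ⟨s2, t2, z2, k2⟩ := hsf _ n2
  obtain ⟨s, t, z, k⟩ := hsf _ (mul_ne_zero (mul_ne_zero n0 n1) n2)
  -- the large prime
  obtain ⟨p, hp, hpD, hpn, hns⟩ := hbig
  have hpi := Nat.prime_iff_prime_int.1 hp
  have hTp : T < p := lt_of_pow_lt_pow_left₀ n (by omega) (lt_of_le_of_lt hTn hpn)
  have hpv : ¬ (p : ℤ) ∣ v := by
    intro h
    apply hs p (by omega)
    rw [hDv]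
    exact (pow_dvd_pow_of_dvd h 2).mul_left _
  have hph : (p : ℤ) ∣ sf ((x - e₀) * (x - e₁) * (x ^ 2 + a * x + b)) := by
    rw [hDv] at hpD
    rcases hpi.dvd_or_dvd hpD with h | h
    · exact h
    · exact absurd (hpi.dvd_of_dvd_pow h) hpv
  refine ⟨x, v, hv1, ?_, ?_, ?_⟩
  · by_contra hcon
    push Not at hcon
    apply hs v.toNat (by omega)
    have h6 : ((v.toNat : ℕ) : ℤ) = v := Int.toNat_of_nonneg (by omega)
    rw [h6, hDv]
    exact dvd_mul_left _ _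
  · rw [ev]
    exact hDv
  · exact save hp hns hph hT hTp.le hxbig s s0 s1 s2 z z0 z1 z2 k0 k1 k2 k (by
      have : (R : ℤ) ^ (2 + 1) * N = (R : ℤ) ^ 3 * N := by norm_num
      rw [← this]
      exact hbd)

/-- **Quartic polynomials with exactly two rational roots.** -/
theorem case211 (hTY : StTY) (hPC : StPC) (hSF : StSF) : ∃ M : ℕ, ∀ e₀ e₁ a b : ℤ, e₀ ≠ e₁ →
    ¬ IsSquare (a ^ 2 - 4 * b) →
    Dens0 (Exc2 ((X - C e₀) * (X - C e₁) * (X ^ 2 + C a * X + C b)) M) := by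
  classical
  obtain ⟨M0, hM0⟩ := cnt hPC hSF
  refine ⟨2 * M0 + 2, fun e₀ e₁ a b he hΔ ε hε => ?_⟩
  obtain ⟨n, k₀, N₁, hn, hTy⟩ := hTY _ hΔ (ε / 4) (by positivity)
  obtain ⟨R, hR, hR'⟩ := exists_R (G3 e₀ e₁ a b) (G3_monic e₀ e₁ a b) (G3_irr e₀ e₁ hΔ)
    (G3_inj he a b)
  obtain ⟨B, hB⟩ := eval_ne_zero (f := ∏ i, G3 e₀ e₁ a b i)
    (monic_prod_of_monic _ _ fun i _ => G3_monic e₀ e₁ a b i)
  obtain ⟨sf, hsf⟩ := exists_sf
  obtain ⟨c0, N2, hc0⟩ := hM0 (G2 e₀ a b) (G2_monic e₀ a b) (G2_irr e₀ hΔ) (G2_inj e₀ a b)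
    (G2_deg e₀ a b) (sep_prod _ (G2_monic e₀ a b) (G2_irr e₀ hΔ) (G2_inj e₀ a b))
  obtain ⟨c1, N3, hc1⟩ := hM0 (G2 e₁ a b) (G2_monic e₁ a b) (G2_irr e₁ hΔ) (G2_inj e₁ a b)
    (G2_deg e₁ a b) (sep_prod _ (G2_monic e₁ a b) (G2_irr e₁ hΔ) (G2_inj e₁ a b))
  obtain ⟨S0, hS0⟩ := exists_nat_ge (8 / ε + 1)
  have hS01 : 1 ≤ S0 := by
    have : (1 : ℝ) ≤ S0 := le_trans (by have : 0 < 8 / ε := by positivity
                                        linarith) hS0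
    exact_mod_cast this
  -- the constant of the asymptotic inequality
  obtain ⟨CC, hCC⟩ : ∃ CC : ℝ, CC = 4 / ε * (S0 * ((c0 + c1) * R ^ 3)) + S0 + R ^ 3 + 1 := ⟨_, rfl⟩
  have hCC0 : 0 ≤ CC := by rw [hCC]; positivity
  obtain ⟨N4, hN4⟩ := root_asym n hn CC hCC0
  obtain ⟨N5, hN5⟩ := exists_nat_ge ((12 / ε) ^ 2)
  refine ⟨N₁ + N2 + N3 + N4 + N5 + B.toNat + 2, fun N hN => ?_⟩
  have hN1 : 1 ≤ N := by omega
  -- the root
  obtain ⟨T, hTdef⟩ : ∃ T, T = Nat.findGreatest (fun T => T ^ n ≤ N) N := ⟨_, rfl⟩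
  have hTn : T ^ n ≤ N := by
    rw [hTdef]
    exact Nat.findGreatest_spec (P := fun T => T ^ n ≤ N) (m := 1) hN1 (by
      simpa using hN1)
  have hTN : T ≤ N := by rw [hTdef]; exact Nat.findGreatest_le _
  have hTn' : N < (T + 1) ^ n := by
    by_contra hcon
    push Not at hcon
    rcases Nat.lt_or_ge N (T + 1) with h | h
    · have : T + 1 ≤ (T + 1) ^ n := Nat.le_self_pow (by omega) _
      omega
    · have := Nat.le_findGreatest (P := fun T => T ^ n ≤ N) h hcon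
      omega
  have hasym := hN4 N (by omega) T hTn'
  have hlog1 : (1 : ℝ) ≤ ((Nat.log 2 N : ℝ) + 1) ^ 2 := by
    have : (0 : ℝ) ≤ (Nat.log 2 N : ℝ) := by positivity
    nlinarith
  have hCT : CC ≤ T := le_trans (by nlinarith) hasym
  have hbase : (0 : ℝ) ≤ 4 / ε * (S0 * ((c0 + c1) * R ^ 3)) := by positivity
  have hTS : S0 ≤ T := by
    have : (S0 : ℝ) ≤ T := by
      have h1 : (0 : ℝ) ≤ (R : ℝ) ^ 3 := by positivity
      linarith
    exact_mod_cast this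
  have hTR : R ^ 3 ≤ T := by
    have : ((R ^ 3 : ℕ) : ℝ) ≤ T := by
      push_cast
      have h1 : (0 : ℝ) ≤ S0 := by positivity
      linarith
    exact_mod_cast this
  have hT1 : 1 ≤ T := by omega
  obtain ⟨Y, hYdef⟩ : ∃ Y, Y = R ^ 3 * N / T := ⟨_, rfl⟩
  have hR3 : 1 ≤ R ^ 3 := Nat.one_le_pow _ _ hR
  have hY1 : 1 ≤ Y := by
    rw [hYdef, Nat.one_le_div_iff (by omega)]
    exact hTN.trans (Nat.le_mul_of_pos_left _ hR3)
  have hYN : Y ≤ N := by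
    rw [hYdef]
    apply Nat.div_le_of_le_mul
    exact Nat.mul_le_mul_right _ hTR
  have hNB : B < (N : ℤ) ^ (M0 + 1) := by
    have h1 : B < N := by omega
    have h2 : (N : ℤ) ≤ (N : ℤ) ^ (M0 + 1) := by
      exact_mod_cast Nat.le_self_pow (by omega) N
    omega
  set F : ℤ[X] := (X - C e₀) * (X - C e₁) * (X ^ 2 + C a * X + C b) with hF
  set A1 : Set ℤ := {D : ℤ | D ^ 2 < N} with hA1
  set A2 : Set ℤ := {D : ℤ | D ≠ 0 ∧ |D| ≤ N ∧ ∃ s : ℕ, S0 < s ∧ (s : ℤ) ^ 2 ∣ D} with hA2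
  set A4 : Set ℤ := {D : ℤ | D ≠ 0 ∧ |D| ≤ N ∧
    ¬ ((∀ k, k₀ ≤ k → Xk k ≤ N → TypK (a ^ 2 - 4 * b) k n N D) ∧ Big (a ^ 2 - 4 * b) n N D)} with hA4
  set A3 : Set ℤ := {D : ℤ | D ∈ Exc2 F (2 * M0 + 2) ∧ |D| ≤ N ∧ (N : ℤ) ≤ D ^ 2 ∧
    (∀ s : ℕ, S0 < s → ¬ (s : ℤ) ^ 2 ∣ D) ∧ Big (a ^ 2 - 4 * b) n N D} with hA3
  have hA3fin : A3.Finite := by
    apply (Set.finite_Icc (-(N : ℤ)) N).subset
    intro D hD
    exact abs_le.1 hD.2.1
  have hcover : {D : ℤ | D ∈ Exc2 F (2 * M0 + 2) ∧ |D| ≤ N} ⊆ ((A1 ∪ A2) ∪ A4) ∪ A3 := by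
    rintro D ⟨hD, hDN⟩
    by_cases h1 : D ^ 2 < N
    · exact Or.inl (Or.inl (Or.inl h1))
    · by_cases h2 : ∃ s : ℕ, S0 < s ∧ (s : ℤ) ^ 2 ∣ D
      · exact Or.inl (Or.inl (Or.inr ⟨hD.1, hDN, h2⟩))
      · by_cases h3 : Big (a ^ 2 - 4 * b) n N D
        · push Not at h1 h2
          exact Or.inr ⟨hD, hDN, h1, h2, h3⟩
        · exact Or.inl (Or.inr ⟨hD.1, hDN, fun h => h3 h.2⟩)
  have hA3card : A3.ncard ≤ S0 * ((c0 + c1) * (Y * (Nat.log 2 Y + 1) ^ 2)) := by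
    have hdata : ∀ D : ℤ, ∃ x v : ℤ, D ∈ A3 → 1 ≤ v ∧ v ≤ S0 ∧ D = sf (F.eval x) * v ^ 2 ∧
        (Pc M0 N Y e₀ a b x ∨ Pc M0 N Y e₁ a b x) := by
      intro D
      by_cases hD : D ∈ A3
      · obtain ⟨h1, h2, h3, h4, h5⟩ := hD
        obtain ⟨x, v, h⟩ := data211 hR hR' hB hsf hNB hT1 hTn hTS h2 h3 h1 h4 h5
        rw [← hYdef] at h
        exact ⟨x, v, fun _ => h⟩
      · exact ⟨0, 0, fun h => absurd h hD⟩
    choose x v hxv using hdata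
    set A3' := hA3fin.toFinset with hA3'
    have hmem : ∀ D, D ∈ A3' ↔ D ∈ A3 := fun D => Set.Finite.mem_toFinset _
    set P : Finset ℤ := A3'.image x with hP
    have hP0 := hc0 N Y (by omega) hY1 hYN (P.filter fun x => Pc M0 N Y e₀ a b x)
      (fun x hx => (Finset.mem_filter.1 hx).2)
    have hP1 := hc1 N Y (by omega) hY1 hYN (P.filter fun x => Pc M0 N Y e₁ a b x)
      (fun x hx => (Finset.mem_filter.1 hx).2)
    have hPc : P.card ≤ (c0 + c1) * (Y * (Nat.log 2 Y + 1) ^ 2) := by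
      have h1 : P ⊆ (P.filter fun x => Pc M0 N Y e₀ a b x) ∪ (P.filter fun x => Pc M0 N Y e₁ a b x) := by
        intro x' hx'
        obtain ⟨D, hD, rfl⟩ := Finset.mem_image.1 hx'
        obtain ⟨-, -, -, h | h⟩ := hxv D ((hmem D).1 hD)
        · exact Finset.mem_union_left _ (Finset.mem_filter.2 ⟨hx', h⟩)
        · exact Finset.mem_union_right _ (Finset.mem_filter.2 ⟨hx', h⟩)
      refine (Finset.card_le_card h1).trans ((Finset.card_union_le _ _).trans ?_)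
      rw [add_mul]
      exact Nat.add_le_add hP0 hP1
    have h1 : A3'.card ≤ ((Finset.Icc (1 : ℤ) S0) ×ˢ P).card := by
      apply Finset.card_le_card_of_injOn (fun D => (v D, x D))
      · intro D hD
        have hD' := (hmem D).1 hD
        obtain ⟨h1, h2, -, -⟩ := hxv D hD'
        rw [Finset.mem_coe, Finset.mem_product]
        exact ⟨Finset.mem_Icc.2 ⟨h1, h2⟩, Finset.mem_image_of_mem _ hD⟩
      · intro D hD D' hD' heq
        obtain ⟨-, -, h5, -⟩ := hxv D ((hmem D).1 hD)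
        obtain ⟨-, -, h5', -⟩ := hxv D' ((hmem D').1 hD')
        simp only [Prod.mk.injEq] at heq
        obtain ⟨e1, e2⟩ := heq
        rw [h5, h5', e1, e2]
    rw [Finset.card_product, Int.card_Icc] at h1
    have h2 : A3.ncard = A3'.card := Set.ncard_eq_toFinset_card _ _
    rw [h2]
    calc A3'.card ≤ ((S0 : ℤ) + 1 - 1).toNat * P.card := h1
      _ = S0 * P.card := by
          congr 1
          omega
      _ ≤ _ := Nat.mul_le_mul_left _ hPc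
  have hIcc : ∀ D : ℤ, |D| ≤ N → D ∈ Set.Icc (-(N : ℤ)) N := fun D hD => abs_le.1 hD
  have hfinU : (((A1 ∪ A2) ∪ A4) ∪ A3).Finite := by
    apply (Set.finite_Icc (-(N : ℤ)) N).subset
    rintro D (((hD | hD) | hD) | hD)
    · have hD' : D ^ 2 < N := hD
      rw [Set.mem_Icc, ← abs_le]
      have h1 : |D| ≤ D ^ 2 := by
        rw [← sq_abs]
        exact Int.le_self_sq _
      omega
    · exact abs_le.1 hD.2.1
    · exact abs_le.1 hD.2.1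
    · exact abs_le.1 hD.2.1
  have hcard : Set.ncard {D : ℤ | D ∈ Exc2 F (2 * M0 + 2) ∧ |D| ≤ N} ≤
      (2 * Nat.sqrt N + 1) + A2.ncard + A4.ncard +
      S0 * ((c0 + c1) * (Y * (Nat.log 2 Y + 1) ^ 2)) := by
    refine (Set.ncard_le_ncard hcover hfinU).trans ?_
    refine (Set.ncard_union_le _ _).trans ?_
    refine Nat.add_le_add ?_ hA3card
    refine (Set.ncard_union_le _ _).trans ?_
    refine Nat.add_le_add ?_ le_rfl
    refine (Set.ncard_union_le _ _).trans ?_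
    exact Nat.add_le_add (card_small N) le_rfl
  have hcard' : (Set.ncard {D : ℤ | D ∈ Exc2 F (2 * M0 + 2) ∧ |D| ≤ N} : ℝ) ≤
      (2 * (Nat.sqrt N : ℝ) + 1) + (A2.ncard : ℝ) + (A4.ncard : ℝ) +
      S0 * ((c0 + c1) * (Y * ((Nat.log 2 Y : ℝ) + 1) ^ 2)) := by exact_mod_cast hcard
  have hNr : (1 : ℝ) ≤ N := by exact_mod_cast hN1
  have b1 : 2 * (Nat.sqrt N : ℝ) + 1 ≤ ε / 4 * N := by
    have h1 : ((Nat.sqrt N : ℕ) : ℝ) ≤ Real.sqrt N := Real.nat_sqrt_le_real_sqrt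
    have h2 : 12 / ε ≤ Real.sqrt N := by
      apply Real.le_sqrt_of_sq_le
      refine hN5.trans ?_
      exact_mod_cast (by omega : N5 ≤ N)
    have h3 : (1 : ℝ) ≤ Real.sqrt N := Real.one_le_sqrt.2 hNr
    have h4 : Real.sqrt N * Real.sqrt N = N := Real.mul_self_sqrt (by positivity)
    rw [div_le_iff₀ hε] at h2
    nlinarith
  have b2 : (A2.ncard : ℝ) ≤ ε / 4 * N := by
    refine (card_large_sq S0 hS01 N).trans ?_
    have hS0' : (0 : ℝ) < S0 := by exact_mod_cast hS01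
    rw [div_le_iff₀ hS0']
    have h1 : 8 / ε ≤ S0 := by linarith
    rw [div_le_iff₀ hε] at h1
    nlinarith
  have b3 : (A4.ncard : ℝ) ≤ ε / 4 * N := hTy N (by omega)
  have b4 : (S0 : ℝ) * ((c0 + c1) * (Y * ((Nat.log 2 Y : ℝ) + 1) ^ 2)) ≤ ε / 4 * N := by
    have hTpos : (0 : ℝ) < T := by exact_mod_cast hT1
    have h1 : (Y : ℝ) ≤ R ^ 3 * N / T := by
      rw [hYdef]
      refine (Nat.cast_div_le).trans ?_
      push_cast
      exact le_rfl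
    have h2 : ((Nat.log 2 Y : ℝ) + 1) ^ 2 ≤ ((Nat.log 2 N : ℝ) + 1) ^ 2 := by
      apply pow_le_pow_left₀ (by positivity)
      have := Nat.log_mono_right (b := 2) hYN
      have h3 : (Nat.log 2 Y : ℝ) ≤ Nat.log 2 N := by exact_mod_cast this
      linarith
    have h3 : 4 / ε * (S0 * ((c0 + c1) * R ^ 3)) * ((Nat.log 2 N : ℝ) + 1) ^ 2 ≤ T := by
      refine le_trans ?_ hasym
      apply mul_le_mul_of_nonneg_right _ (by positivity)
      rw [hCC]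
      have h4 : (0 : ℝ) ≤ (R : ℝ) ^ 3 := by positivity
      have h5 : (0 : ℝ) ≤ S0 := by positivity
      linarith
    calc (S0 : ℝ) * ((c0 + c1) * (Y * ((Nat.log 2 Y : ℝ) + 1) ^ 2))
        ≤ S0 * ((c0 + c1) * (R ^ 3 * N / T * ((Nat.log 2 N : ℝ) + 1) ^ 2)) := by
          apply mul_le_mul_of_nonneg_left _ (by positivity)
          apply mul_le_mul_of_nonneg_left _ (by positivity)
          exact mul_le_mul h1 h2 (by positivity) (by positivity)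
      _ = (4 / ε * (S0 * ((c0 + c1) * R ^ 3)) * ((Nat.log 2 N : ℝ) + 1) ^ 2) * (ε / 4 * N / T) := by
          field_simp
      _ ≤ T * (ε / 4 * N / T) := mul_le_mul_of_nonneg_right h3 (by positivity)
      _ = ε / 4 * N := by field_simp
  calc _ ≤ _ := hcard'
    _ ≤ ε / 4 * N + ε / 4 * N + ε / 4 * N + ε / 4 * N := by linarith
    _ = ε * N := by ring

end Pool.Agent.H64.FT
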