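import Mathlib
import Pool.Agent.H64.FT.E4
import Pool.Graph.R_pool_sql_team_seeded_35f281b4.K7.H90.AS.Main
import Pool.Graph.R_pool_sql_team_seeded_35f281b4.K7.H89.BS.E
import Pool.Graph.R_pool_sql_team_seeded_35f281b4.K7.H89.CL.D
import Pool.Graph.R_pool_sql_team_seeded_35f281b4.K7.H23.AT.PC
import Pool.Graph.R_pool_sql_team_seeded_35f281b4.K7.H23.AT.SF
import Pool.Graph.R_pool_sql_team_seeded_35f281b4.K7.H5.TY.Main
import Pool.Graph.R_pool_sql_team_seeded_35f281b4.K7.H42.PT.MQ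

/-!
# All quartic polynomials
-/

set_option autoImplicit false

open Polynomial

namespace Pool.Agent.H64.FT

open Pool.Agent.K7.H23.AT Pool.Agent.K7.H23.PT

lemma exc2_sub_excG (f : ℤ[X]) (M : ℕ) : Exc2 f M ⊆ ExcG f M := by
  rintro D ⟨hD0, x, y, hy, hx⟩
  refine ⟨hD0, D, 1, x, y, (mul_one D).symm, one_pos, isCoprime_one_right, ?_, hx⟩
  rw [scaleRoots_one]
  exact hy

lemma exc2_mono (f : ℤ[X]) {a b : ℕ} (hab : a ≤ b) : Exc2 f b ⊆ Exc2 f a := by
  rintro D ⟨hD0, x, y, h3, h4⟩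
  exact ⟨hD0, x, y, h3, lt_of_le_of_lt (pow_le_pow_right₀ (Int.one_le_abs hD0) hab) h4⟩

lemma exc2_norm (f : ℤ[X]) (hn : 1 ≤ f.natDegree) (hf : f ≠ 0) (M : ℕ) (D : ℤ)
    (hD : D ∈ Exc2 f (2 * M)) (hbig : |f.leadingCoeff| ^ (f.natDegree + 1) ≤ |D|) :
    f.leadingCoeff ^ (f.natDegree + 1) * D ∈ Exc2 (integralNormalization f) M := by
  obtain ⟨hD0, x0, y0, hy, hx⟩ := hD
  obtain ⟨a, ha⟩ : ∃ a, a = f.leadingCoeff := ⟨_, rfl⟩
  rw [← ha] at hbig ⊢
  have ha0 : a ≠ 0 := by rw [ha]; exact leadingCoeff_ne_zero.2 hf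
  refine ⟨mul_ne_zero (pow_ne_zero _ ha0) hD0, a * x0, a ^ f.natDegree * y0, ?_, ?_⟩
  · have h1 := norm_eval f hn 1 x0
    rw [scaleRoots_one, scaleRoots_one, ← ha] at h1
    rw [h1, mul_pow, hy]
    obtain ⟨e, he⟩ : ∃ e, f.natDegree = e + 1 := ⟨f.natDegree - 1, by omega⟩
    rw [he]
    simp only [Nat.add_sub_cancel]
    ring
  · calc |a ^ (f.natDegree + 1) * D| ^ M ≤ (|D| ^ 2) ^ M := by
          apply pow_le_pow_left₀ (abs_nonneg _)
          rw [abs_mul, abs_pow, sq]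
          exact mul_le_mul_of_nonneg_right hbig (abs_nonneg _)
      _ = |D| ^ (2 * M) := (pow_mul _ _ _).symm
      _ < |x0| := hx
      _ ≤ |a * x0| := by
          rw [abs_mul]
          have h2 : 1 ≤ |a| := Int.one_le_abs ha0
          have h3 := abs_nonneg x0
          nlinarith

lemma monic_quad {q : ℤ[X]} (hq : q.Monic) (hd : q.natDegree = 2) :
    q = X ^ 2 + C (q.coeff 1) * X + C (q.coeff 0) := by
  have h1 := q.as_sum_range' 3 (by omega)
  have h2 : q.coeff 2 = 1 := by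
    have := hq.coeff_natDegree
    rwa [hd] at this
  conv_lhs => rw [h1]
  rw [Finset.sum_range_succ, Finset.sum_range_succ, Finset.sum_range_one, h2]
  simp only [← C_mul_X_pow_eq_monomial, C_1, pow_one, pow_zero, mul_one, one_mul]
  ring

/-- a square discriminant gives integral roots -/
lemma quad_split {c d : ℤ} (h : IsSquare (c ^ 2 - 4 * d)) :
    ∃ e₀ e₁ : ℤ, (X ^ 2 + C c * X + C d : ℤ[X]) = (X - C e₀) * (X - C e₁) := by
  obtain ⟨s, hs⟩ := h
  have h1 : (s - c) % 2 = 0 := by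
    have h2 : (s * s - c * c) % 4 = 0 := by
      have h3 : s * s - c * c = 4 * (-d) := by linarith [sq c]
      omega
    rcases Int.even_or_odd s with hs' | hs' <;> rcases Int.even_or_odd c with hc | hc
    · obtain ⟨u, hu⟩ := hs'
      obtain ⟨w, hw⟩ := hc
      omega
    · exfalso
      obtain ⟨u, hu⟩ := hs'
      obtain ⟨w, hw⟩ := hc
      have : s * s - c * c = 4 * (u * u - w * w - w) - 1 := by rw [hu, hw]; ring
      omega
    · exfalso
      obtain ⟨u, hu⟩ := hs'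
      obtain ⟨w, hw⟩ := hc
      have : s * s - c * c = 4 * (u * u + u - w * w) + 1 := by rw [hu, hw]; ring
      omega
    · obtain ⟨u, hu⟩ := hs'
      obtain ⟨w, hw⟩ := hc
      omega
  obtain ⟨e, he⟩ : ∃ e, s - c = 2 * e := ⟨(s - c) / 2, by omega⟩
  refine ⟨e, -c - e, ?_⟩
  have hd : d = e * (-c - e) := by
    have h2 : s = c + 2 * e := by linarith
    rw [h2] at hs
    linarith [show 4 * d = 4 * (e * (-c - e)) by linear_combination -hs]
  rw [hd]
  simp only [map_mul, map_sub, map_neg]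
  ring

/-- **All monic quartic polynomials.** -/
theorem quartics_monic : ∃ M : ℕ, ∀ F : ℤ[X], F.Monic → F.natDegree = 4 →
    (F.map (Int.castRingHom ℚ)).Separable → Dens0 (Exc2 F M) := by
  have hpc := pc Pool.Agent.K7.H89.CL.stCL
  obtain ⟨M1, h1⟩ := Pool.Agent.K7.H90.AS.stAG 4
  obtain ⟨M2, h2⟩ := Pool.Agent.K7.H89.BS.bg2 hpc sf 4 (by norm_num)
  obtain ⟨M3, h3⟩ := case211 (Pool.Agent.K7.H5.TY.main Pool.Agent.K7.H42.PT.mq) hpc sf
  refine ⟨M1 + M2 + M3, fun F hF hdeg hsep => ?_⟩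
  by_cases hc1 : ∃ f₁ : ℤ[X], f₁.Monic ∧ Irreducible f₁ ∧ f₁ ∣ F ∧ 3 ≤ f₁.natDegree
  · obtain ⟨f₁, k1, k2, k3, k4⟩ := hc1
    exact (h1 F f₁ hF hdeg hsep k1 k2 k3 k4).mono
      ((exc2_mono F (by omega)).trans (exc2_sub_excG F M1))
  by_cases hc2 : ∀ f₁ : ℤ[X], f₁.Monic → Irreducible f₁ → f₁ ∣ F → f₁.natDegree + 3 ≤ 4
  · exact (h2 F hF hdeg hsep hc2).mono ((exc2_mono F (by omega)).trans (exc2_sub_excG F M2))
  push Not at hc1 hc2
  obtain ⟨q, hq1, hq2, hq3, hq4⟩ := hc2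
  have hqd : q.natDegree = 2 := by
    have := hc1 q hq1 hq2 hq3
    omega
  obtain ⟨h, hh⟩ := hq3
  have hhm : h.Monic := by
    apply hq1.of_mul_monic_left
    rw [← hh]
    exact hF
  have hhd : h.natDegree = 2 := by
    have := hq1.natDegree_mul hhm
    rw [← hh] at this
    omega
  have hqe := monic_quad hq1 hqd
  have hhe := monic_quad hhm hhd
  obtain ⟨a, ha⟩ : ∃ a, a = q.coeff 1 := ⟨_, rfl⟩
  obtain ⟨b, hb⟩ : ∃ b, b = q.coeff 0 := ⟨_, rfl⟩
  obtain ⟨c, hc⟩ : ∃ c, c = h.coeff 1 := ⟨_, rfl⟩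
  obtain ⟨d, hd⟩ : ∃ d, d = h.coeff 0 := ⟨_, rfl⟩
  rw [← ha, ← hb] at hqe
  rw [← hc, ← hd] at hhe
  have hns : ¬ IsSquare (a ^ 2 - 4 * b) := by
    intro hsq
    obtain ⟨e₀, e₁, he⟩ := quad_split hsq
    rw [← hqe] at he
    rcases hq2.isUnit_or_isUnit he with hu | hu
    · exact not_isUnit_X_sub_C e₀ hu
    · exact not_isUnit_X_sub_C e₁ hu
  by_cases hsq : IsSquare (c ^ 2 - 4 * d)
  · obtain ⟨e₀, e₁, he⟩ := quad_split hsq
    rw [← hhe] at he
    have hF' : F = (X - C e₀) * (X - C e₁) * (X ^ 2 + C a * X + C b) := by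
      rw [hh, ← hqe, ← he]
      ring
    have hne : e₀ ≠ e₁ := by
      rintro rfl
      have h5 := hsep.squarefree
      have h6 : (X - C (e₀ : ℚ)) * (X - C (e₀ : ℚ)) ∣ F.map (Int.castRingHom ℚ) := by
        rw [hF']
        rw [Polynomial.map_mul, Polynomial.map_mul, Polynomial.map_sub, map_X, map_C]
        exact dvd_mul_right _ _
      exact not_isUnit_X_sub_C (e₀ : ℚ) (h5 _ h6)
    rw [hF']
    exact (h3 e₀ e₁ a b hne hns).mono (exc2_mono _ (by omega))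
  · rw [hh, hqe, hhe]
    exact case22 Pool.Agent.K7.H42.PT.mq hns hsq _

/-- **All quartic polynomials.** -/
theorem all_quartics : ∃ M : ℕ, ∀ f : ℤ[X], f.natDegree = 4 →
    (f.map (Int.castRingHom ℚ)).Separable → Dens0 (Exc2 f M) := by
  obtain ⟨M, hM⟩ := quartics_monic
  refine ⟨2 * M, fun f hdeg hsep => ?_⟩
  have hf0 : f ≠ 0 := by
    rintro rfl
    rw [natDegree_zero] at hdeg
    omega
  have h1 := hM (integralNormalization f) (monic_integralNormalization hf0)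
    (by rw [natDegree_integralNormalization, hdeg]) (norm_sep f hf0 hsep)
  have hc : f.leadingCoeff ^ (f.natDegree + 1) ≠ 0 := pow_ne_zero _ (leadingCoeff_ne_zero.2 hf0)
  refine h1.scale hc ?_
  intro D hD hbig
  exact exc2_norm f (by omega) hf0 M D hD (by rwa [abs_pow] at hbig)

end Pool.Agent.H64.FT
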